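import Pool.Agent.H985.CG.Stm
import Pool.Agent.H985.CH.PAPW

/-!
# Task CG-PAP (helper539): the irreducible polynomials `p` with `D p` in a class modulo `Q` such that
`E` divides the product of the `s i * (D p) + b i`
-/

set_option autoImplicit false
set_option linter.unusedSectionVars false

namespace Pool.Agent.H985.CG

open Polynomial Finset
open scoped Classical
open Pool.Agent.H694.Typ (Mn Irn mem_Mn mem_Irn card_Mn PU mem_PU)
open Pool.Agent.H341R2.Sharp (Mon mem_Mon)
open Pool.Agent.H523.FF (Ir mem_Ir PL mem_PL card_PL count_aux)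
open Pool.Agent.H523.RH (Phi)
open Pool.Agent.H985.CH.PAPWa (PU_prod deg_unique cop_S one_class)

namespace PAPGa

variable {K : Type} [Field K] [Fintype K]

lemma mod_dvd (P x : K[X]) : P ∣ x - x %ₘ P := by
  have h1 := modByMonic_add_div x P
  exact ⟨x /ₘ P, by linear_combination -h1⟩

lemma dvd_Hg {k : ℕ} (s b : Fin k → K[X]) {P : K[X]} (hP : Irreducible P) (f : K[X]) :
    P ∣ Hg s b f ↔ ∃ i, P ∣ s i * f + b i := by
  unfold Hg
  constructor
  · intro hd
    obtain ⟨i, -, hi⟩ := hP.prime.exists_mem_finset_dvd hd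
    exact ⟨i, hi⟩
  · rintro ⟨i, hi⟩
    exact hi.trans (Finset.dvd_prod_of_mem _ (mem_univ i))

lemma Hg_congr {k : ℕ} (s b : Fin k → K[X]) {E u v : K[X]} (huv : E ∣ u - v)
    (hE : E ∣ Hg s b v) : E ∣ Hg s b u := by
  have h1 : E ∣ Hg s b u - Hg s b v := by
    unfold Hg
    have h2 : ∀ t : Finset (Fin k), E ∣ ∏ i ∈ t, (s i * u + b i) - ∏ i ∈ t, (s i * v + b i) := by
      intro t
      induction t using Finset.induction_on with
      | empty => simp
      | insert i t hi ih =>
        rw [prod_insert hi, prod_insert hi]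
        have e : (s i * u + b i) * ∏ i ∈ t, (s i * u + b i) -
            (s i * v + b i) * ∏ i ∈ t, (s i * v + b i) =
            (u - v) * (s i * ∏ i ∈ t, (s i * u + b i)) +
              (s i * v + b i) * (∏ i ∈ t, (s i * u + b i) - ∏ i ∈ t, (s i * v + b i)) := by ring
        rw [e]
        exact dvd_add (huv.mul_right _) (ih.mul_left _)
    exact h2 univ
  have := dvd_add h1 hE
  rwa [sub_add_cancel] at this

/-- the reduced residues modulo `M` -/
noncomputable def red (M : K[X]) : Finset K[X] :=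
  (PL K M.natDegree).filter (fun c => IsCoprime c M)

lemma mem_red {M c : K[X]} (hM : M.Monic) : c ∈ red M ↔ c.degree < M.degree ∧ IsCoprime c M := by
  unfold red
  rw [mem_filter, mem_PL, ← degree_eq_natDegree hM.ne_zero]

lemma cop_congr {M a c : K[X]} (h : M ∣ a - c) (hc : IsCoprime c M) : IsCoprime a M := by
  obtain ⟨t, ht⟩ := h
  have e : a = c + M * t := by linear_combination ht
  rw [e]
  exact hc.add_mul_left_left _

lemma mod_congr {M : K[X]} (hM : M.Monic) {a c : K[X]} (h : M ∣ a - c) : a %ₘ M = c %ₘ M := by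
  refine deg_unique (degree_modByMonic_lt _ hM) (degree_modByMonic_lt _ hM) ?_
  have h1 := mod_dvd M a
  have h2 := mod_dvd M c
  have e : a %ₘ M - c %ₘ M = (a - c) - (a - a %ₘ M) + (c - c %ₘ M) := by ring
  rw [e]
  exact dvd_add (dvd_sub h h1) h2

lemma Phi_eq {M : K[X]} (hM : M.Monic) : Phi M 0 = (red M).card := by
  unfold Phi
  rw [add_zero]
  refine Finset.card_bij (fun f _ => f %ₘ M) ?_ ?_ ?_
  · intro f hf
    rw [mem_filter, mem_Mon] at hf
    rw [mem_red hM]
    refine ⟨degree_modByMonic_lt _ hM, cop_congr ?_ hf.2⟩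
    rw [dvd_sub_comm]
    exact mod_dvd M f
  · intro f hf g hg h
    rw [mem_filter, mem_Mon] at hf hg
    have hd : M ∣ f - g := by
      have h1 := mod_dvd M f
      have h2 := mod_dvd M g
      have h3 : f %ₘ M = g %ₘ M := h
      have e : f - g = (f - f %ₘ M) - (g - g %ₘ M) := by rw [h3]; ring
      rw [e]
      exact dvd_sub h1 h2
    by_contra hne
    have h4 := degree_sub_lt_left (p := f) (q := g)
      (by rw [degree_eq_natDegree hf.1.1.ne_zero, degree_eq_natDegree hg.1.1.ne_zero, hf.1.2,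
        hg.1.2])
      hf.1.1.ne_zero (by rw [hf.1.1.leadingCoeff, hg.1.1.leadingCoeff])
    have h5 := degree_le_of_dvd hd (sub_ne_zero.mpr hne)
    rw [degree_eq_natDegree hf.1.1.ne_zero, hf.1.2, ← degree_eq_natDegree hM.ne_zero] at h4
    exact absurd h5 (not_le.mpr h4)
  · intro c hc
    rw [mem_red hM] at hc
    refine ⟨M + c, ?_, ?_⟩
    · rw [mem_filter, mem_Mon]
      refine ⟨⟨hM.add_of_left hc.1, natDegree_add_eq_left_of_degree_lt hc.1⟩, ?_⟩
      refine cop_congr ?_ hc.2
      rw [add_sub_cancel_right]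
    · have h1 : M ∣ (M + c) - c := by rw [add_sub_cancel_right]
      have h2 := mod_congr hM h1
      change (M + c) %ₘ M = c
      rw [h2]
      exact (modByMonic_eq_self_iff hM).mpr hc.1

lemma red_mul (Q : K[X]) (hQ : Q.Monic) (S : Finset K[X])
    (hS : ∀ P ∈ S, P.Monic ∧ Irreducible P) (hQS : ∀ P ∈ S, IsCoprime Q P) :
    ((red (Q * ∏ P ∈ S, P)).card : ℝ) =
      ((red Q).card : ℝ) * ∏ P ∈ S, ((Fintype.card K : ℝ) ^ P.natDegree - 1) := by
  obtain ⟨M, hM⟩ : ∃ M : K[X], M = ∏ P ∈ S, P := ⟨_, rfl⟩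
  have hMm : M.Monic := by
    rw [hM]
    exact monic_prod_of_monic _ _ (fun P hP => (hS P hP).1)
  have hMd : M.natDegree = ∑ P ∈ S, P.natDegree := by
    rw [hM]
    exact natDegree_prod_of_monic _ _ (fun P hP => (hS P hP).1)
  rw [← hM]
  have hQMd : (Q * M).natDegree = Q.natDegree + ∑ P ∈ S, P.natDegree := by
    rw [hQ.natDegree_mul hMm, hMd]
  have hQM : (Q * M).Monic := hQ.mul hMm
  obtain ⟨R, hR⟩ : ∃ R : K[X] → Finset K[X], R = fun P => (PL K P.natDegree).erase 0 := ⟨_, rfl⟩
  have hRc : ∀ P ∈ S, ((R P).card : ℝ) = (Fintype.card K : ℝ) ^ P.natDegree - 1 := by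
    intro P hP
    have h0 : (0 : K[X]) ∈ PL K P.natDegree := by
      rw [mem_PL, degree_zero]
      exact WithBot.bot_lt_coe _
    rw [hR]
    change (((PL K P.natDegree).erase 0).card : ℝ) = _
    have h1 := card_erase_add_one h0
    rw [card_PL] at h1
    have h2 : ((((PL K P.natDegree).erase 0).card + 1 : ℕ) : ℝ) =
        ((Fintype.card K ^ P.natDegree : ℕ) : ℝ) := by rw [h1]
    push_cast at h2
    linarith
  have hcop : ∀ x : K[X], IsCoprime x M ↔ ∀ P ∈ S, ∃ r ∈ R P, P ∣ x - r := by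
    intro x
    rw [hM, IsCoprime.prod_right_iff]
    refine forall₂_congr (fun P hP => ?_)
    have hPm := (hS P hP).1
    rw [isCoprime_comm, (hS P hP).2.coprime_iff_not_dvd]
    constructor
    · intro h
      refine ⟨x %ₘ P, ?_, mod_dvd P x⟩
      rw [hR]
      change x %ₘ P ∈ (PL K P.natDegree).erase 0
      rw [mem_erase, mem_PL, ← degree_eq_natDegree hPm.ne_zero]
      refine ⟨fun h0 => h ?_, degree_modByMonic_lt x hPm⟩
      exact (modByMonic_eq_zero_iff_dvd hPm).1 h0
    · rintro ⟨r, hr, hxr⟩ hd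
      rw [hR] at hr
      change r ∈ (PL K P.natDegree).erase 0 at hr
      rw [mem_erase, mem_PL, ← degree_eq_natDegree hPm.ne_zero] at hr
      have h1 := dvd_sub hd hxr
      rw [sub_sub_cancel] at h1
      have h2 := degree_le_of_dvd h1 hr.1
      exact absurd h2 (not_le.mpr hr.2)
  have hRu : ∀ P ∈ S, ∀ r ∈ R P, ∀ r' ∈ R P, P ∣ r - r' → r = r' := by
    intro P hP r hr r' hr' h
    rw [hR] at hr hr'
    change r ∈ (PL K P.natDegree).erase 0 at hr
    change r' ∈ (PL K P.natDegree).erase 0 at hr'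
    rw [mem_erase, mem_PL, ← degree_eq_natDegree (hS P hP).1.ne_zero] at hr hr'
    exact deg_unique hr.2 hr'.2 h
  -- fibres over the residues modulo Q
  have hfib : (red (Q * M)).card = ∑ a ∈ red Q,
      ((PL K (Q * M).natDegree).filter
        (fun x => Q ∣ x - a ∧ ∀ P ∈ S, ∃ r ∈ R P, P ∣ x - r)).card := by
    rw [Finset.card_eq_sum_card_fiberwise (f := fun x => x %ₘ Q) (t := red Q)]
    · refine sum_congr rfl fun a ha => ?_
      rw [mem_red hQ] at ha
      congr 1
      ext x
      rw [mem_filter, mem_filter, mem_red hQM, mem_PL, ← degree_eq_natDegree hQM.ne_zero,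
        IsCoprime.mul_right_iff, hcop x]
      constructor
      · rintro ⟨⟨a1, a2, a3⟩, a4⟩
        exact ⟨a1, a4 ▸ mod_dvd Q x, a3⟩
      · rintro ⟨a1, a2, a3⟩
        refine ⟨⟨a1, cop_congr a2 ha.2, a3⟩, ?_⟩
        rw [mod_congr hQ a2]
        exact (modByMonic_eq_self_iff hQ).mpr ha.1
    · intro x hx
      rw [Finset.mem_coe, mem_red hQM, IsCoprime.mul_right_iff] at hx
      rw [Finset.mem_coe, mem_red hQ]
      refine ⟨degree_modByMonic_lt _ hQ, cop_congr ?_ hx.2.1⟩
      rw [dvd_sub_comm]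
      exact mod_dvd Q x
  have hterm : ∀ a ∈ red Q, ((PL K (Q * M).natDegree).filter
        (fun x => Q ∣ x - a ∧ ∀ P ∈ S, ∃ r ∈ R P, P ∣ x - r)).card = ∏ P ∈ S, (R P).card := by
    intro a _
    rw [count_aux R S hS hRu Q a hQ hQS (Q * M).natDegree hQMd.ge, ← hQMd, Nat.sub_self, pow_zero,
      mul_one]
  rw [hfib, sum_congr rfl hterm, sum_const, smul_eq_mul, Nat.cast_mul, Nat.cast_prod]
  congr 1
  exact prod_congr rfl hRc

/-- the residues modulo `P` -/
noncomputable def RP {k : ℕ} (s b : Fin k → K[X]) (D P : K[X]) : Finset K[X] :=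
  (PL K P.natDegree).filter (fun r => ¬ P ∣ r ∧ P ∣ Hg s b (D * r))

lemma card_RP {k : ℕ} (s b : Fin k → K[X]) {D P : K[X]} (hP : P.Monic)
    (hPi : Irreducible P) (hPD : ¬ P ∣ D) : ((RP s b D P).card : ℝ) = nug s b P := by
  unfold nug
  congr 1
  have hset : {r : K[X] | r.degree < P.degree ∧ r ≠ 0 ∧ ∃ i, P ∣ s i * r + b i} =
      (((PL K P.natDegree).filter (fun r => r ≠ 0 ∧ ∃ i, P ∣ s i * r + b i) : Finset K[X]) :
        Set K[X]) := by
    ext r
    rw [Finset.mem_coe, mem_filter, mem_PL, ← degree_eq_natDegree hP.ne_zero, Set.mem_ofPred_eq]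
  rw [hset, Set.ncard_coe_finset]
  refine Finset.card_bij (fun r _ => (D * r) %ₘ P) ?_ ?_ ?_
  · intro r hr
    unfold RP at hr
    rw [mem_filter, dvd_Hg s b hPi] at hr
    obtain ⟨-, hr2, i, hi⟩ := hr
    rw [mem_filter, mem_PL, ← degree_eq_natDegree hP.ne_zero]
    refine ⟨degree_modByMonic_lt _ hP, ?_, i, ?_⟩
    · intro h1
      rw [modByMonic_eq_zero_iff_dvd hP] at h1
      rcases hPi.prime.dvd_or_dvd h1 with h2 | h2
      · exact hPD h2
      · exact hr2 h2
    · have e : s i * ((D * r) %ₘ P) + b i = (s i * (D * r) + b i) -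
          s i * (D * r - (D * r) %ₘ P) := by ring
      rw [e]
      exact dvd_sub hi ((mod_dvd P _).mul_left _)
  · intro r hr r' hr' he
    unfold RP at hr hr'
    rw [mem_filter, mem_PL, ← degree_eq_natDegree hP.ne_zero] at hr hr'
    have he' : (D * r) %ₘ P = (D * r') %ₘ P := he
    have h1 : P ∣ D * (r - r') := by
      have h2 := mod_dvd P (D * r)
      have h3 := mod_dvd P (D * r')
      have e : D * (r - r') = (D * r - (D * r) %ₘ P) - (D * r' - (D * r') %ₘ P) := by
        rw [he']; ring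
      rw [e]
      exact dvd_sub h2 h3
    rcases hPi.prime.dvd_or_dvd h1 with h2 | h2
    · exact absurd h2 hPD
    · exact deg_unique hr.1 hr'.1 h2
  · intro y hy
    rw [mem_filter, mem_PL, ← degree_eq_natDegree hP.ne_zero] at hy
    obtain ⟨hy1, hy0, i, hi⟩ := hy
    obtain ⟨v, u, huv⟩ := (hPi.coprime_iff_not_dvd).2 hPD
    have key : P ∣ D * ((u * y) %ₘ P) - y := by
      have h1 := mod_dvd P (u * y)
      have e : D * ((u * y) %ₘ P) - y = P * (-(v * y)) - D * (u * y - (u * y) %ₘ P) := by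
        linear_combination y * huv
      rw [e]
      exact dvd_sub (dvd_mul_right _ _) (h1.mul_left _)
    refine ⟨(u * y) %ₘ P, ?_, ?_⟩
    · unfold RP
      rw [mem_filter, mem_PL, ← degree_eq_natDegree hP.ne_zero, dvd_Hg s b hPi]
      refine ⟨degree_modByMonic_lt _ hP, ?_, i, ?_⟩
      · intro hd
        have h1 := dvd_sub (hd.mul_left D) key
        rw [sub_sub_cancel] at h1
        have h2 := degree_le_of_dvd h1 hy0
        exact absurd h2 (not_le.mpr hy1)
      · have e : s i * (D * ((u * y) %ₘ P)) + b i = (s i * y + b i) +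
            s i * (D * ((u * y) %ₘ P) - y) := by ring
        rw [e]
        exact dvd_add hi (key.mul_left _)
    · have h1 := mod_congr hP key
      change (D * ((u * y) %ₘ P)) %ₘ P = y
      rw [h1]
      exact (modByMonic_eq_self_iff hP).mpr hy1

lemma card_RP_le {k : ℕ} (s b : Fin k → K[X]) {D P : K[X]} (hP : P.Monic)
    (hPi : Irreducible P) (hPD : ¬ P ∣ D) (hs : ∀ i, ¬ P ∣ s i) : (RP s b D P).card ≤ k := by
  have h1 : (RP s b D P).card ≤ (univ : Finset (Fin k)).card := by
    have hex : ∀ r : K[X], ∃ i : Option (Fin k), r ∈ RP s b D P → ∃ j, i = some j ∧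
        P ∣ s j * (D * r) + b j := by
      intro r
      by_cases hr : r ∈ RP s b D P
      · have hr' := hr
        unfold RP at hr'
        rw [mem_filter, dvd_Hg s b hPi] at hr'
        obtain ⟨-, -, j, hj⟩ := hr'
        exact ⟨some j, fun _ => ⟨j, rfl, hj⟩⟩
      · exact ⟨none, fun h => absurd h hr⟩
    choose g hg using hex
    have h2 : (RP s b D P).card ≤ ((univ : Finset (Fin k)).map Function.Embedding.some).card := by
      refine Finset.card_le_card_of_injOn g ?_ ?_
      · intro r hr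
        obtain ⟨j, hj, -⟩ := hg r hr
        rw [Finset.mem_coe, mem_map]
        exact ⟨j, mem_univ _, hj.symm⟩
      · intro r hr r' hr' he
        obtain ⟨j, hj, hd⟩ := hg r hr
        obtain ⟨j', hj', hd'⟩ := hg r' hr'
        have hjj : j = j' := by
          have : (some j : Option (Fin k)) = some j' := by rw [← hj, ← hj', he]
          exact Option.some.inj this
        subst hjj
        have h3 := dvd_sub hd hd'
        have e : s j * (D * r) + b j - (s j * (D * r') + b j) = s j * (D * (r - r')) := by ring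
        rw [e] at h3
        rw [Finset.mem_coe] at hr hr'
        unfold RP at hr hr'
        rw [mem_filter, mem_PL, ← degree_eq_natDegree hP.ne_zero] at hr hr'
        rcases hPi.prime.dvd_or_dvd h3 with h4 | h4
        · exact absurd h4 (hs j)
        rcases hPi.prime.dvd_or_dvd h4 with h5 | h5
        · exact absurd h5 hPD
        · exact deg_unique hr.1 hr'.1 h5
    rwa [card_map] at h2
  rwa [card_univ, Fintype.card_fin] at h1

end PAPGa

open PAPGa

/-- **Task CG-PAP.** -/
theorem papg : S_papg := by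
  intro K _ _ _ Q hQ
  have hred : 0 < (red Q).card := by
    rw [Finset.card_pos]
    refine ⟨1 %ₘ Q, ?_⟩
    rw [mem_red hQ]
    refine ⟨degree_modByMonic_lt _ hQ, cop_congr ?_ (isCoprime_one_left (x := Q))⟩
    rw [dvd_sub_comm]
    exact mod_dvd Q 1
  refine ⟨((red Q).card : ℝ), by exact_mod_cast hred, ?_⟩
  intro k N D E ρ s b hslo hN hD hE hEs hDE hDQ hEQ hρQ hEN
  obtain ⟨q, hqdef⟩ : ∃ q : ℝ, q = Fintype.card K := ⟨_, rfl⟩
  have hq1 : (1 : ℝ) < q := by rw [hqdef]; exact_mod_cast Fintype.one_lt_card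
  have hq0 : (0 : ℝ) < q := by linarith
  rw [← hqdef]
  obtain ⟨S, hS⟩ : ∃ S : Finset K[X], S = (PU K E.natDegree).filter (fun P => P ∣ E) := ⟨_, rfl⟩
  rw [← hS]
  have hSE : ∏ P ∈ S, P = E := by rw [hS]; exact PU_prod hE hEs
  have hSP : ∀ P ∈ S, P.Monic ∧ Irreducible P := by
    intro P hP
    rw [hS, mem_filter, mem_PU] at hP
    exact ⟨hP.1.1, hP.1.2.1⟩
  have hSdE : ∀ P ∈ S, P ∣ E := by
    intro P hP
    rw [hS, mem_filter] at hP
    exact hP.2
  have hSd : ∀ P ∈ S, ¬ P ∣ D := by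
    intro P hP hd
    exact (hSP P hP).2.not_isUnit (hDE.isUnit_of_dvd' hd (hSdE P hP))
  have hSQ : ∀ P ∈ S, ¬ P ∣ Q := by
    intro P hP hd
    exact (hSP P hP).2.not_isUnit (hEQ.isUnit_of_dvd' (hSdE P hP) hd)
  have hQS : ∀ P ∈ S, IsCoprime Q P := by
    intro P hP
    rw [isCoprime_comm, (hSP P hP).2.coprime_iff_not_dvd]
    exact hSQ P hP
  have hSs : ∀ P ∈ S, ∀ i, ¬ P ∣ s i := by
    intro P hP i hd
    exact hSQ P hP ((hslo i).2 P (hSP P hP).2 hd)
  have hdeg : E.natDegree = ∑ P ∈ S, P.natDegree := by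
    conv_lhs => rw [← hSE]
    exact natDegree_prod_of_monic _ _ fun P hP => (hSP P hP).1
  obtain ⟨M, hM⟩ : ∃ M : K[X], M = Q * E := ⟨_, rfl⟩
  have hMm : M.Monic := by rw [hM]; exact hQ.mul hE
  have hMd : M.natDegree = Q.natDegree + E.natDegree := by rw [hM]; exact hQ.natDegree_mul hE
  -- the class modulo Q
  obtain ⟨v, u, huv⟩ := hDQ.symm
  -- v * Q + u * D = 1
  have hcls : ∀ x : K[X], Q ∣ x - u * ρ ↔ Q ∣ D * x - ρ := by
    intro x
    constructor
    · rintro ⟨t, ht⟩
      exact ⟨D * t - v * ρ, by linear_combination D * ht + ρ * huv⟩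
    · rintro ⟨t, ht⟩
      exact ⟨u * t + v * x, by linear_combination u * ht - x * huv⟩
  have huQ : IsCoprime (u * ρ) Q := by
    refine IsCoprime.mul_left ?_ hρQ
    exact ⟨D, v, by linear_combination huv⟩
  obtain ⟨R, hR⟩ : ∃ R : Finset K[X], R = (PL K M.natDegree).filter
    (fun x => Q ∣ x - u * ρ ∧ ∀ P ∈ S, ∃ r ∈ RP s b D P, P ∣ x - r) := ⟨_, rfl⟩
  have hcardR : R.card = ∏ P ∈ S, (RP s b D P).card := by
    rw [hR, count_aux (RP s b D) S hSP ?_ Q (u * ρ) hQ hQS M.natDegree (by rw [hMd, hdeg]),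
      ← hdeg, ← hMd, Nat.sub_self, pow_zero, mul_one]
    intro P hP r hr r' hr' hd
    unfold RP at hr hr'
    rw [mem_filter, mem_PL, ← degree_eq_natDegree (hSP P hP).1.ne_zero] at hr hr'
    exact deg_unique hr.1 hr'.1 hd
  have hRmem : ∀ x : K[X], x ∈ R ↔ x.degree < M.degree ∧ IsCoprime x M ∧ Q ∣ D * x - ρ ∧
      E ∣ Hg s b (D * x) := by
    intro x
    rw [hR, mem_filter, mem_PL, ← degree_eq_natDegree hMm.ne_zero, hcls]
    refine and_congr_right fun hx => ?_
    constructor
    · rintro ⟨hq, hc⟩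
      refine ⟨?_, hq, ?_⟩
      · rw [hM, IsCoprime.mul_right_iff]
        constructor
        · exact cop_congr ((hcls x).2 hq) huQ
        · rw [← hSE, IsCoprime.prod_right_iff]
          intro P hP
          rw [isCoprime_comm, (hSP P hP).2.coprime_iff_not_dvd]
          intro hd
          obtain ⟨r, hr, hxr⟩ := hc P hP
          unfold RP at hr
          rw [mem_filter] at hr
          apply hr.2.1
          have := dvd_sub hd hxr
          rwa [sub_sub_cancel] at this
      · rw [← hSE, cop_S hSP]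
        intro P hP
        obtain ⟨r, hr, hxr⟩ := hc P hP
        unfold RP at hr
        rw [mem_filter] at hr
        refine Hg_congr s b ?_ hr.2.2
        rw [← mul_sub]
        exact hxr.mul_left D
    · rintro ⟨hc, hq, hd⟩
      refine ⟨hq, fun P hP => ?_⟩
      refine ⟨x %ₘ P, ?_, mod_dvd P x⟩
      have hPE : P ∣ E := hSdE P hP
      unfold RP
      rw [mem_filter, mem_PL, ← degree_eq_natDegree (hSP P hP).1.ne_zero]
      refine ⟨degree_modByMonic_lt _ (hSP P hP).1, ?_, ?_⟩
      · intro h1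
        have h2 : P ∣ x := by
          have := dvd_add (mod_dvd P x) h1
          rwa [sub_add_cancel] at this
        refine (hSP P hP).2.not_isUnit (hc.isUnit_of_dvd' h2 ?_)
        rw [hM]
        exact hPE.mul_left Q
      · refine Hg_congr s b ?_ (hPE.trans hd)
        rw [← mul_sub]
        refine Dvd.dvd.mul_left ?_ D
        rw [dvd_sub_comm]
        exact mod_dvd P x
  have hQM : Q ∣ M := by rw [hM]; exact dvd_mul_right _ _
  have hEM : E ∣ M := by rw [hM]; exact dvd_mul_left _ _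
  have hclM : ∀ x y : K[X], M ∣ x - y → (Q ∣ D * y - ρ ∧ E ∣ Hg s b (D * y)) →
      (Q ∣ D * x - ρ ∧ E ∣ Hg s b (D * x)) := by
    rintro x y hxy ⟨h1, h2⟩
    constructor
    · have e : D * x - ρ = D * (x - y) + (D * y - ρ) := by ring
      rw [e]
      exact dvd_add ((hQM.trans hxy).mul_left D) h1
    · refine Hg_congr s b ?_ h2
      rw [← mul_sub]
      exact (hEM.trans hxy).mul_left D
  -- the decomposition
  have hfib : (((Irn K N).filter (fun p => Q ∣ D * p - ρ ∧ E ∣ Hg s b (D * p))).card : ℝ) =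
      ∑ x ∈ R, (((Irn K N).filter (fun p => M ∣ p - x)).card : ℝ) := by
    rw [Finset.card_eq_sum_card_fiberwise (f := fun p => p %ₘ M) (t := R), Nat.cast_sum]
    · refine sum_congr rfl fun x hx => ?_
      rw [hRmem] at hx
      congr 2
      ext p
      rw [mem_filter, mem_filter, mem_filter]
      constructor
      · rintro ⟨⟨a1, a2⟩, a3⟩
        exact ⟨a1, a3 ▸ mod_dvd M p⟩
      · rintro ⟨a1, a2⟩
        refine ⟨⟨a1, hclM p x a2 hx.2.2⟩, ?_⟩
        rw [mod_congr hMm a2]
        exact (modByMonic_eq_self_iff hMm).mpr hx.1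
    · intro p hp
      rw [Finset.mem_coe, mem_filter, mem_Irn] at hp
      rw [Finset.mem_coe, hRmem]
      have hmp : M ∣ p %ₘ M - p := by
        rw [dvd_sub_comm]
        exact mod_dvd M p
      refine ⟨degree_modByMonic_lt _ hMm, ?_, hclM _ p hmp hp.2⟩
      refine cop_congr hmp ?_
      refine (hp.1.2.2.coprime_iff_not_dvd).2 fun hd => ?_
      have := natDegree_le_of_dvd hd hMm.ne_zero
      have h2 := hp.1.2.1
      omega
  -- the main term
  have hmain : q ^ N / (N * ((red Q).card : ℝ)) * ∏ P ∈ S, (nug s b P / (q ^ P.natDegree - 1)) =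
      ∑ x ∈ R, q ^ N / N / Phi M 0 := by
    rw [sum_const, nsmul_eq_mul, hcardR]
    have hPhi : (Phi M 0 : ℝ) = ((red Q).card : ℝ) * ∏ P ∈ S, (q ^ P.natDegree - 1) := by
      have h1 := red_mul Q hQ S hSP hQS
      rw [hSE, ← hM, ← hqdef] at h1
      rw [Phi_eq hMm]
      exact h1
    rw [hPhi, Nat.cast_prod, prod_div_distrib,
      prod_congr rfl (fun P hP => card_RP s b (hSP P hP).1 (hSP P hP).2 (hSd P hP))]
    have h5 : ∏ P ∈ S, (q ^ P.natDegree - 1) ≠ 0 := by
      rw [Finset.prod_ne_zero_iff]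
      intro P hP
      have h5 : 1 < q ^ P.natDegree :=
        one_lt_pow₀ hq1 (hSP P hP).2.natDegree_pos.ne'
      linarith
    have h6 : ((red Q).card : ℝ) ≠ 0 := by exact_mod_cast hred.ne'
    have h7 : (N : ℝ) ≠ 0 := by
      have : (1 : ℝ) ≤ N := by exact_mod_cast hN
      linarith
    field_simp
  rw [hfib, hmain, ← sum_sub_distrib]
  refine (Finset.abs_sum_le_sum_abs _ _).trans ?_
  refine (sum_le_card_nsmul _ _ ((2 * (Q.natDegree + E.natDegree) + 4 : ℝ) * Real.sqrt (q ^ N))
    fun x hx => ?_).trans ?_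
  · rw [hRmem] at hx
    have h1 := one_class hN hMm (by rw [hMd]; exact hEN) hx.1 hx.2.1
    rw [← hqdef, hMd] at h1
    push_cast at h1
    exact h1
  · rw [nsmul_eq_mul, mul_assoc]
    refine mul_le_mul_of_nonneg_right ?_ (by positivity)
    have h1 : R.card ≤ (k + 1) ^ E.natDegree := by
      rw [hcardR, hdeg, ← Finset.prod_pow_eq_pow_sum]
      refine Finset.prod_le_prod' fun P hP => ?_
      have h3 := card_RP_le s b (D := D) (hSP P hP).1 (hSP P hP).2 (hSd P hP) (hSs P hP)
      have h5 : k + 1 ≤ (k + 1) ^ P.natDegree :=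
        Nat.le_self_pow (hSP P hP).2.natDegree_pos.ne' _
      omega
    exact_mod_cast h1

end Pool.Agent.H985.CG
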