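import Pool.Agent.H985.CG.Stm2
import Pool.Agent.H996.Par.Low

/-!
# The order of the singular product of the Goldbach problem (task CG-VPH, helper23)
-/

set_option autoImplicit false
set_option linter.unusedSectionVars false

namespace Pool.Agent.H985.CG

open Polynomial Finset
open scoped Classical
open Pool.Agent.H694.Typ (Mn Irn PU mem_PU mem_Irn pol pol_inj exists_pol pol_degree wt wt_nonneg
  q_ge irn_ge sum_PU wt_le_half)
open Pool.Agent.H996.Par (sum_wt sum_wt_sq prod_ge)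
open Pool.Agent.H225.Par (lf Om)
open Pool.Agent.H985.CH (vp)

namespace VphH23

variable {K : Type} [Field K] [Fintype K]

/-! ### Euler's function -/

/-- the polynomials of degree less than `N` -/
noncomputable def Lt (K : Type) [Field K] [Fintype K] (N : ℕ) : Finset K[X] :=
  (univ : Finset (Fin N → K)).image (pol : (Fin N → K) → K[X])

theorem Lt_card (N : ℕ) : (Lt K N).card = Fintype.card K ^ N := by
  unfold Lt
  rw [card_image_of_injective _ pol_inj, card_univ, Fintype.card_fun, Fintype.card_fin]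

theorem mem_Lt {N : ℕ} {a : K[X]} : a ∈ Lt K N ↔ a.degree < N := by
  unfold Lt
  rw [mem_image]
  constructor
  · rintro ⟨c, -, rfl⟩
    exact pol_degree c
  · intro ha
    obtain ⟨c, hc⟩ := exists_pol ha
    exact ⟨c, mem_univ _, hc⟩

/-- the number of the polynomials of degree less than `N` which are not divisible by the elements of
`S` -/
noncomputable def cnt (S : Finset K[X]) (N : ℕ) : ℕ :=
  ((Lt K N).filter (fun r => ∀ P ∈ S, ¬ P ∣ r)).card

theorem cnt_insert {S : Finset K[X]} {P : K[X]} {N : ℕ} (hP : P.Monic) (hi : Irreducible P)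
    (hS : ∀ Q ∈ S, Q.Monic ∧ Irreducible Q) (hPS : P ∉ S) (hN : P.natDegree ≤ N) :
    cnt (insert P S) N + cnt S (N - P.natDegree) = cnt S N := by
  have hP0 : P ≠ 0 := hi.ne_zero
  have h1 : cnt S (N - P.natDegree) =
      ((Lt K N).filter (fun r => (∀ Q ∈ S, ¬ Q ∣ r) ∧ P ∣ r)).card := by
    unfold cnt
    refine card_bij' (fun r _ => P * r) (fun r _ => r /ₘ P) ?_ ?_ ?_ ?_
    · intro r hr
      rw [mem_filter, mem_Lt] at hr ⊢
      refine ⟨?_, fun Q hQ hd => ?_, dvd_mul_right _ _⟩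
      · by_cases hr0 : r = 0
        · rw [hr0, mul_zero, degree_zero]
          exact WithBot.bot_lt_coe N
        · rw [degree_mul, degree_eq_natDegree hP0, degree_eq_natDegree hr0]
          have h2 := hr.1
          rw [degree_eq_natDegree hr0] at h2
          have h3 : r.natDegree < N - P.natDegree := by exact_mod_cast h2
          have h4 : P.natDegree + r.natDegree < N := by omega
          exact_mod_cast h4
      · rcases (hS Q hQ).2.prime.dvd_or_dvd hd with h | h
        · have h5 : Q = P := eq_of_monic_of_associated (hS Q hQ).1 hP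
            ((hS Q hQ).2.associated_of_dvd hi h)
          exact hPS (h5 ▸ hQ)
        · exact hr.2 Q hQ h
    · intro r hr
      rw [mem_filter, mem_Lt] at hr ⊢
      obtain ⟨h2, h3, h4⟩ := hr
      obtain ⟨s, rfl⟩ := h4
      have hdiv : (P * s) /ₘ P = s := mul_divByMonic_cancel_left s hP
      simp only [hdiv]
      refine ⟨?_, fun Q hQ hd => h3 Q hQ (hd.mul_left _)⟩
      by_cases hs0 : s = 0
      · rw [hs0, degree_zero]
        exact WithBot.bot_lt_coe _
      · rw [degree_mul, degree_eq_natDegree hP0, degree_eq_natDegree hs0] at h2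
        rw [degree_eq_natDegree hs0]
        have h5 : P.natDegree + s.natDegree < N := by exact_mod_cast h2
        have h6 : s.natDegree < N - P.natDegree := by omega
        exact_mod_cast h6
    · intro r hr
      exact mul_divByMonic_cancel_left r hP
    · intro r hr
      rw [mem_filter] at hr
      obtain ⟨s, hs⟩ := hr.2.2
      rw [hs, mul_divByMonic_cancel_left s hP]
  rw [h1]
  unfold cnt
  rw [← card_filter_add_card_filter_not (s := (Lt K N).filter (fun r => ∀ Q ∈ S, ¬ Q ∣ r))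
    (fun r => P ∣ r), filter_filter, filter_filter, add_comm]
  congr 1
  refine congrArg card (filter_congr fun r _ => ?_)
  rw [forall_mem_insert]
  tauto

theorem cnt_eq (S : Finset K[X]) : ∀ N : ℕ, (∀ Q ∈ S, Q.Monic ∧ Irreducible Q) →
    ∑ P ∈ S, P.natDegree ≤ N →
    (cnt S N : ℝ) = (Fintype.card K : ℝ) ^ N * ∏ P ∈ S, (1 - wt K P.natDegree) := by
  induction S using Finset.induction_on with
  | empty =>
    intro N _ _
    unfold cnt
    rw [filter_true_of_mem (by simp), Lt_card, prod_empty, mul_one, Nat.cast_pow]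
  | insert P S hPS ih =>
    intro N hS hN
    rw [sum_insert hPS] at hN
    have hP := hS P (mem_insert_self P S)
    have hS' : ∀ Q ∈ S, Q.Monic ∧ Irreducible Q := fun Q hQ => hS Q (mem_insert_of_mem hQ)
    have h1 := cnt_insert hP.1 hP.2 hS' hPS (by omega : P.natDegree ≤ N)
    have h2 := ih N hS' (by omega)
    have h3 := ih (N - P.natDegree) hS' (by omega)
    have h4 : (cnt (insert P S) N : ℝ) + cnt S (N - P.natDegree) = cnt S N := by exact_mod_cast h1
    rw [h2, h3] at h4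
    have hq := q_ge (k := K)
    have h5 : (Fintype.card K : ℝ) ^ (N - P.natDegree) =
        (Fintype.card K : ℝ) ^ N * wt K P.natDegree := by
      unfold wt
      rw [pow_sub₀ _ (by linarith) (by omega)]
    rw [h5] at h4
    rw [prod_insert hPS]
    linear_combination h4

/-- the monic irreducible divisors -/
noncomputable def PF (H : K[X]) : Finset K[X] := (PU K H.natDegree).filter (fun P => P ∣ H)

theorem mem_PF {H P : K[X]} (hH : H ≠ 0) : P ∈ PF H ↔ P.Monic ∧ Irreducible P ∧ P ∣ H := by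
  unfold PF
  rw [mem_filter, mem_PU]
  constructor
  · rintro ⟨⟨h1, h2, -⟩, h4⟩
    exact ⟨h1, h2, h4⟩
  · rintro ⟨h1, h2, h4⟩
    exact ⟨⟨h1, h2, natDegree_le_of_dvd h4 hH⟩, h4⟩

theorem sum_deg_PF {H : K[X]} (hH : H ≠ 0) {S : Finset K[X]} (hS : S ⊆ PF H) :
    ∑ P ∈ S, P.natDegree ≤ H.natDegree := by
  have hm : ∀ P ∈ S, P.Monic := fun P hP => ((mem_PF hH).1 (hS hP)).1
  rw [← natDegree_prod_of_monic _ _ hm]
  refine natDegree_le_of_dvd ?_ hH
  refine Finset.prod_dvd_of_coprime ?_ fun P hP => ((mem_PF hH).1 (hS hP)).2.2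
  intro P hP Q hQ hPQ
  have h1 := (mem_PF hH).1 (hS hP)
  have h2 := (mem_PF hH).1 (hS hQ)
  refine (h1.2.1.coprime_iff_not_dvd).2 fun hd => hPQ ?_
  exact eq_of_monic_of_associated h1.1 h2.1 (h1.2.1.associated_of_dvd h2.2.1 hd)

theorem phiQ_eq {H : K[X]} (hH : H ≠ 0) :
    (phiQ H : ℝ) = (Fintype.card K : ℝ) ^ H.natDegree * ∏ P ∈ PF H, (1 - wt K P.natDegree) := by
  rw [← cnt_eq (PF H) H.natDegree (fun Q hQ => ⟨((mem_PF hH).1 hQ).1, ((mem_PF hH).1 hQ).2.1⟩)
    (sum_deg_PF hH (Finset.Subset.refl _))]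
  unfold phiQ cnt
  have e : {r : K[X] | r.degree < H.degree ∧ IsCoprime r H} =
      ((((Lt K H.natDegree).filter (fun r => ∀ P ∈ PF H, ¬ P ∣ r)) : Finset K[X]) : Set K[X]) := by
    ext r
    rw [Finset.mem_coe, mem_filter, mem_Lt, Set.mem_ofPred_eq, degree_eq_natDegree hH]
    refine and_congr_right fun _ => ?_
    constructor
    · intro hc P hP hd
      have h1 := (mem_PF hH).1 hP
      exact h1.2.1.not_isUnit (hc.isUnit_of_dvd' hd h1.2.2)
    · intro h
      refine isCoprime_of_irreducible_dvd (fun h0 => hH h0.2) fun z hz hzr hzH => ?_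
      have hn : normalize z ∣ z := (normalize_associated z).dvd
      refine h (normalize z) ((mem_PF hH).2 ⟨monic_normalize hz.ne_zero, ?_, hn.trans hzH⟩)
        (hn.trans hzr)
      exact (normalize_associated z).symm.irreducible hz
  rw [e, Set.ncard_coe_finset]

/-! ### Mertens -/

theorem ee_mem {P : K[X]} (hP : Irreducible P) :
    1 / 2 ≤ 1 - wt K P.natDegree ∧ 1 - wt K P.natDegree ≤ 1 := by
  have h1 := wt_le_half (k := K) P.natDegree
  have h2 : ((1 : ℝ) / 2) ^ P.natDegree ≤ (1 / 2) ^ 1 :=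
    pow_le_pow_of_le_one (by norm_num) (by norm_num) hP.natDegree_pos
  have h3 := wt_nonneg (k := K) P.natDegree
  rw [pow_one] at h2
  constructor <;> linarith

theorem mert_low (m : ℕ) (hm : 1 ≤ m) :
    Real.exp (-11) / m ≤ ∏ P ∈ PU K m, (1 - wt K P.natDegree) := by
  have h := prod_ge (K := K) 1 m hm (fun _ => 1) (fun P hP => ⟨le_rfl, by
    have hi := (mem_PU.1 hP).2.1
    exact Nat.one_lt_pow hi.natDegree_pos.ne' Fintype.one_lt_card⟩)
  have e : -(((1 : ℕ) : ℝ) + (8 * ((1 : ℕ) : ℝ) ^ 3 + 2 * ((1 : ℕ) : ℝ) ^ 2)) = -11 := by norm_num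
  rw [e, pow_one] at h
  refine h.trans (le_of_eq (prod_congr rfl fun P _ => ?_))
  unfold wt
  rw [Nat.cast_one, one_div]

theorem harm (m : ℕ) : Real.log ((m : ℝ) + 1) ≤ ∑ j ∈ Finset.Icc 1 m, 1 / (j : ℝ) := by
  induction m with
  | zero => simp
  | succ m ih =>
    rw [sum_Icc_succ_top (by omega)]
    have h1 : Real.log (((m + 1 : ℕ) : ℝ) + 1) ≤ Real.log ((m : ℝ) + 1) + 1 / ((m + 1 : ℕ) : ℝ) := by
      have h2 : (0 : ℝ) < (m : ℝ) + 1 := by positivity
      have h3 := Real.log_le_sub_one_of_pos (x := ((m : ℝ) + 1 + 1) / ((m : ℝ) + 1)) (by positivity)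
      rw [Real.log_div (by positivity) (by positivity)] at h3
      have h4 : ((m : ℝ) + 1 + 1) / ((m : ℝ) + 1) - 1 = 1 / ((m : ℝ) + 1) := by
        field_simp
        ring
      rw [h4] at h3
      push_cast
      linarith
    linarith

theorem half_sum (m : ℕ) : ∑ j ∈ Finset.Icc 1 m, ((1 : ℝ) / 2) ^ (j - j / 2) ≤ 2 := by
  have h : ∀ i : ℕ, ∑ j ∈ Finset.Icc 1 (2 * i), ((1 : ℝ) / 2) ^ (j - j / 2) = 2 - 2 * (1 / 2) ^ i := by
    intro i
    induction i with
    | zero => simp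
    | succ i ih =>
      rw [show 2 * (i + 1) = 2 * i + 1 + 1 by ring, sum_Icc_succ_top (by omega),
        sum_Icc_succ_top (by omega), ih]
      have e1 : 2 * i + 1 - (2 * i + 1) / 2 = i + 1 := by omega
      have e2 : 2 * i + 1 + 1 - (2 * i + 1 + 1) / 2 = i + 1 := by omega
      rw [e1, e2, pow_succ]
      ring
  have h1 : ∑ j ∈ Finset.Icc 1 m, ((1 : ℝ) / 2) ^ (j - j / 2) ≤
      ∑ j ∈ Finset.Icc 1 (2 * m), ((1 : ℝ) / 2) ^ (j - j / 2) :=
    sum_le_sum_of_subset_of_nonneg (Finset.Icc_subset_Icc_right (by omega))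
      fun _ _ _ => by positivity
  rw [h] at h1
  have : (0 : ℝ) < (1 / 2) ^ m := by positivity
  linarith

theorem irn_wt_low {j : ℕ} (hj : 1 ≤ j) :
    1 / (j : ℝ) - 2 * (1 / 2) ^ (j - j / 2) ≤ ∑ P ∈ Irn K j, wt K P.natDegree := by
  rw [sum_congr rfl (fun P hP => by rw [(mem_Irn.1 hP).2.1]), sum_const, nsmul_eq_mul]
  have hq := q_ge (k := K)
  have h1 : (Fintype.card K : ℝ) ^ j ≤ j * (Irn K j).card + 2 * (Fintype.card K : ℝ) ^ (j / 2) := by
    exact_mod_cast irn_ge (k := K) (d := j) (by omega)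
  have hj0 : (1 : ℝ) ≤ j := by exact_mod_cast hj
  have hpos : (0 : ℝ) < (Fintype.card K : ℝ) ^ j := by positivity
  have h2 : (Fintype.card K : ℝ) ^ (j / 2) * wt K j ≤ (1 / 2) ^ (j - j / 2) := by
    have h3 : (Fintype.card K : ℝ) ^ j =
        (Fintype.card K : ℝ) ^ (j / 2) * (Fintype.card K : ℝ) ^ (j - j / 2) := by
      rw [← pow_add]
      congr 1
      omega
    have h4 : (Fintype.card K : ℝ) ^ (j / 2) * wt K j = wt K (j - j / 2) := by
      unfold wt
      rw [h3]
      have h5 : (Fintype.card K : ℝ) ^ (j / 2) ≠ 0 := by positivity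
      field_simp
    rw [h4]
    exact wt_le_half _
  have hw : 0 ≤ wt K j := wt_nonneg j
  have h6 : (Fintype.card K : ℝ) ^ j * wt K j = 1 := by
    unfold wt
    exact mul_inv_cancel₀ hpos.ne'
  have h7 := mul_le_mul_of_nonneg_right h1 hw
  rw [h6] at h7
  have h8 : 1 ≤ (j : ℝ) * ((Irn K j).card * wt K j) + 2 * (1 / 2) ^ (j - j / 2) := by
    have e : ((j : ℝ) * (Irn K j).card + 2 * (Fintype.card K : ℝ) ^ (j / 2)) * wt K j =
      (j : ℝ) * ((Irn K j).card * wt K j) + 2 * ((Fintype.card K : ℝ) ^ (j / 2) * wt K j) := by ring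
    rw [e] at h7
    linarith
  have hx : (0 : ℝ) ≤ (1 / 2) ^ (j - j / 2) := by positivity
  rw [sub_le_iff_le_add, div_le_iff₀ (by linarith)]
  nlinarith

theorem mert_up (m : ℕ) (hm : 1 ≤ m) :
    ∏ P ∈ PU K m, (1 - wt K P.natDegree) ≤ Real.exp 4 / m := by
  have hm0 : (0 : ℝ) < m := by exact_mod_cast hm
  have h1 : Real.log m - 4 ≤ ∑ P ∈ PU K m, wt K P.natDegree := by
    rw [sum_PU]
    have h2 : ∑ j ∈ Finset.Icc 1 m, (1 / (j : ℝ) - 2 * (1 / 2) ^ (j - j / 2)) ≤
        ∑ j ∈ Finset.Icc 1 m, ∑ P ∈ Irn K j, wt K P.natDegree :=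
      sum_le_sum fun j hj => irn_wt_low (mem_Icc.1 hj).1
    refine le_trans ?_ h2
    rw [sum_sub_distrib, ← mul_sum]
    have h3 := harm m
    have h4 := half_sum m
    have h5 : Real.log m ≤ Real.log ((m : ℝ) + 1) := Real.log_le_log hm0 (by linarith)
    linarith
  have h2 : ∏ P ∈ PU K m, (1 - wt K P.natDegree) ≤ ∏ P ∈ PU K m, Real.exp (-wt K P.natDegree) := by
    refine prod_le_prod (fun P hP => ?_) fun P _ => ?_
    · have := (ee_mem (mem_PU.1 hP).2.1).1
      linarith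
    · have := Real.add_one_le_exp (-wt K P.natDegree)
      linarith
  refine h2.trans ?_
  rw [← Real.exp_sum, sum_neg_distrib, le_div_iff₀ hm0]
  calc Real.exp (-∑ P ∈ PU K m, wt K P.natDegree) * m =
      Real.exp (-∑ P ∈ PU K m, wt K P.natDegree) * Real.exp (Real.log m) := by
        rw [Real.exp_log hm0]
    _ = Real.exp (-∑ P ∈ PU K m, wt K P.natDegree + Real.log m) := by rw [Real.exp_add]
    _ ≤ Real.exp 4 := Real.exp_le_exp.2 (by linarith)

/-! ### The factors -/

/-- the factor of `vp` -/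
theorem fac_val {H P : K[X]} (hP : P.Monic) (hi : Irreducible P) :
    lf (Fin.cons 0 (fun _ : Fin 1 => H) : Fin (1 + 1) → K[X]) P /
      (1 - 1 / (Fintype.card K : ℝ) ^ P.natDegree) =
      if P ∣ H then 1 else (1 - 2 * wt K P.natDegree) / (1 - wt K P.natDegree) := by
  have hw : (1 : ℝ) / (Fintype.card K : ℝ) ^ P.natDegree = wt K P.natDegree := by
    unfold wt
    rw [one_div]
  have he := ee_mem hi
  have hOm : Om (Fin.cons 0 (fun _ : Fin 1 => H) : Fin (1 + 1) → K[X]) P = {0, H %ₘ P} := by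
    unfold Om
    ext x
    simp only [mem_image, mem_univ, true_and, mem_insert, mem_singleton]
    constructor
    · rintro ⟨i, rfl⟩
      refine Fin.cases ?_ (fun i => ?_) i
      · left
        rw [Fin.cons_zero, zero_modByMonic]
      · right
        rw [Fin.cons_succ]
    · rintro (rfl | rfl)
      · exact ⟨0, by rw [Fin.cons_zero, zero_modByMonic]⟩
      · exact ⟨Fin.succ 0, by rw [Fin.cons_succ]⟩
  unfold lf
  rw [hOm, hw]
  split_ifs with hd
  · have h0 : H %ₘ P = 0 := (modByMonic_eq_zero_iff_dvd hP).2 hd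
    rw [h0]
    have h1 : ({0, 0} : Finset K[X]).card = 1 := by simp
    rw [h1, Nat.cast_one, hw, div_self (by linarith)]
  · have h0 : H %ₘ P ≠ 0 := fun h => hd ((modByMonic_eq_zero_iff_dvd hP).1 h)
    rw [card_pair (Ne.symm h0)]
    have h2 : ((2 : ℕ) : ℝ) / (Fintype.card K : ℝ) ^ P.natDegree = 2 * wt K P.natDegree := by
      unfold wt
      rw [div_eq_mul_inv]
      norm_num
    rw [h2]

theorem wt_quarter (hK : Even (Fintype.card K)) {H P : K[X]}
    (hH : Fintype.card K = 2 → X * (X + 1) ∣ H) (hP : P.Monic) (hi : Irreducible P)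
    (hd : ¬ P ∣ H) : wt K P.natDegree ≤ 1 / 4 := by
  have hQ : (4 : ℝ) ≤ (Fintype.card K : ℝ) ^ P.natDegree := by
    rcases Nat.lt_or_ge (Fintype.card K) 4 with h | h
    · have h1 : 1 < Fintype.card K := Fintype.one_lt_card
      have h2 : Fintype.card K = 2 := by
        obtain ⟨r, hr⟩ := hK
        omega
      have h3 : 2 ≤ P.natDegree := by
        by_contra hc
        have h4 : P.natDegree = 1 := by
          have := hi.natDegree_pos
          omega
        have h5 := hP.eq_X_add_C h4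
        have h6 : P.coeff 0 = 0 ∨ P.coeff 0 = 1 := by
          by_contra h7
          push Not at h7
          have h8 : ({0, 1, P.coeff 0} : Finset K).card = 3 := by
            rw [card_insert_of_notMem, card_pair (Ne.symm h7.2)]
            simp only [mem_insert, mem_singleton, not_or]
            exact ⟨zero_ne_one, Ne.symm h7.1⟩
          have h9 := card_le_univ ({0, 1, P.coeff 0} : Finset K)
          omega
        refine hd (dvd_trans ?_ (hH h2))
        rcases h6 with h6 | h6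
        · rw [h5, h6, C_0, add_zero]
          exact dvd_mul_right _ _
        · rw [h5, h6, C_1]
          exact dvd_mul_left _ _
      rw [h2]
      calc (4 : ℝ) = ((2 : ℕ) : ℝ) ^ 2 := by norm_num
        _ ≤ _ := pow_le_pow_right₀ (by norm_num) h3
    · have h1 : (4 : ℝ) ≤ Fintype.card K := by exact_mod_cast h
      calc (4 : ℝ) ≤ (Fintype.card K : ℝ) := h1
        _ = (Fintype.card K : ℝ) ^ 1 := (pow_one _).symm
        _ ≤ _ := pow_le_pow_right₀ (by linarith) hi.natDegree_pos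
  unfold wt
  rw [one_div]
  exact inv_anti₀ (by norm_num) hQ

/-- the elementary inequalities for a factor -/
theorem fac_bd {x : ℝ} (hx0 : 0 ≤ x) (hx : x ≤ 1 / 4) :
    Real.exp (-(4 * x ^ 2)) * (1 - x) ≤ (1 - 2 * x) / (1 - x) ∧ (1 - 2 * x) / (1 - x) ≤ 1 - x := by
  have h1 : 0 < 1 - x := by linarith
  constructor
  · rw [le_div_iff₀ h1, mul_assoc]
    have h2 : (0 : ℝ) < 1 + 4 * x ^ 2 := by positivity
    have h3 : Real.exp (-(4 * x ^ 2)) ≤ (1 + 4 * x ^ 2)⁻¹ := by
      rw [Real.exp_neg]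
      refine inv_anti₀ h2 ?_
      have := Real.add_one_le_exp (4 * x ^ 2)
      linarith
    have h4 : 0 ≤ (1 - x) * (1 - x) := by positivity
    refine (mul_le_mul_of_nonneg_right h3 h4).trans ?_
    rw [inv_mul_le_iff₀ h2]
    nlinarith [mul_nonneg (mul_nonneg hx0 hx0) (by linarith : 0 ≤ 1 / 4 - x)]
  · rw [div_le_iff₀ h1]
    nlinarith

/-- the final computation -/
theorem fin_arith {x y t v m : ℝ} {A : ℕ} (hm0 : 0 < m) (hp1 : 0 < x) (hp2p : 0 < y)
    (hp2 : (1 / 2 : ℝ) ^ A ≤ y) (hp2' : y ≤ 1) (hup : v ≤ t) (hlow : Real.exp (-4) * t ≤ v)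
    (hmu : x * t ≤ Real.exp 4 / m) (hml : Real.exp (-11) / m ≤ x * t) :
    Real.exp (-15) * (1 / 2) ^ A * (x * y)⁻¹ / m ≤ v ∧ v ≤ Real.exp 4 * (x * y)⁻¹ / m := by
  constructor
  · have h1 : Real.exp (-15) = Real.exp (-4) * Real.exp (-11) := by
      rw [← Real.exp_add]
      norm_num
    have h2 : Real.exp (-15) * (1 / 2) ^ A * (x * y)⁻¹ / m ≤ Real.exp (-15) * x⁻¹ / m := by
      have h3 : (1 / 2 : ℝ) ^ A * (x * y)⁻¹ ≤ x⁻¹ := by
        rw [mul_inv]
        have h4 : (1 / 2 : ℝ) ^ A * y⁻¹ ≤ 1 := by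
          rw [← div_eq_mul_inv, div_le_one hp2p]
          exact hp2
        calc (1 / 2 : ℝ) ^ A * (x⁻¹ * y⁻¹) = x⁻¹ * ((1 / 2 : ℝ) ^ A * y⁻¹) := by ring
          _ ≤ x⁻¹ * 1 := mul_le_mul_of_nonneg_left h4 (inv_pos.2 hp1).le
          _ = x⁻¹ := mul_one _
      rw [mul_assoc]
      exact div_le_div_of_nonneg_right (mul_le_mul_of_nonneg_left h3 (Real.exp_pos _).le) hm0.le
    refine h2.trans (le_trans ?_ hlow)
    rw [h1]
    have h5 : Real.exp (-11) / m * x⁻¹ ≤ t := by
      rw [← div_eq_mul_inv, div_le_iff₀ hp1, mul_comm t x]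
      exact hml
    calc Real.exp (-4) * Real.exp (-11) * x⁻¹ / m = Real.exp (-4) * (Real.exp (-11) / m * x⁻¹) := by
          ring
      _ ≤ _ := mul_le_mul_of_nonneg_left h5 (Real.exp_pos _).le
  · refine hup.trans ?_
    have h5 : t ≤ Real.exp 4 / m * x⁻¹ := by
      rw [← div_eq_mul_inv, le_div_iff₀ hp1, mul_comm t x]
      exact hmu
    refine h5.trans ?_
    have h6 : x⁻¹ ≤ (x * y)⁻¹ := by
      refine inv_anti₀ (mul_pos hp1 hp2p) ?_
      calc x * y ≤ x * 1 := mul_le_mul_of_nonneg_left hp2' hp1.le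
        _ = x := mul_one _
    calc Real.exp 4 / m * x⁻¹ ≤ Real.exp 4 / m * (x * y)⁻¹ :=
          mul_le_mul_of_nonneg_left h6 (by positivity)
      _ = Real.exp 4 * (x * y)⁻¹ / m := by ring

end VphH23

open VphH23 in
/-- **Task CG-VPH.** -/
theorem vphi : S_vphi := by
  intro K _ _ A hK
  refine ⟨Real.exp (-15) * (1 / 2) ^ A, Real.exp 4, by positivity, Real.exp_pos _, ?_⟩
  intro m H hm hH hA hX
  have hm0 : (0 : ℝ) < m := by exact_mod_cast hm
  have hq := q_ge (k := K)
  have hqN : (0 : ℝ) < (Fintype.card K : ℝ) ^ H.natDegree := by positivity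
  obtain ⟨S₁, hS₁⟩ : ∃ S, S = (PF H).filter (fun P => P.natDegree ≤ m) := ⟨_, rfl⟩
  obtain ⟨S₂, hS₂⟩ : ∃ S, S = (PF H).filter (fun P => ¬ P.natDegree ≤ m) := ⟨_, rfl⟩
  have hPF : ∀ P ∈ PF H, Irreducible P := fun P hP => ((mem_PF hH).1 hP).2.1
  obtain ⟨e, he⟩ : ∃ e : K[X] → ℝ, e = fun P => 1 - wt K P.natDegree := ⟨_, rfl⟩
  have he1 : ∀ P, Irreducible P → 1 / 2 ≤ e P ∧ e P ≤ 1 := fun P hP => by
    rw [he]
    exact ee_mem hP
  have hsplit : ∏ P ∈ PF H, e P = (∏ P ∈ S₁, e P) * ∏ P ∈ S₂, e P := by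
    rw [hS₁, hS₂, prod_filter_mul_prod_filter_not]
  have hp1 : 0 < ∏ P ∈ S₁, e P := prod_pos fun P hP => by
    rw [hS₁, mem_filter] at hP
    have := (he1 P (hPF P hP.1)).1
    linarith
  have hp2 : (1 / 2 : ℝ) ^ A ≤ ∏ P ∈ S₂, e P := by
    have h1 : S₂.card ≤ A := by
      have h2 : ∑ P ∈ S₂, P.natDegree ≤ H.natDegree :=
        sum_deg_PF hH (by rw [hS₂]; exact filter_subset _ _)
      have h3 : ∑ P ∈ S₂, (m + 1) ≤ ∑ P ∈ S₂, P.natDegree := by
        refine sum_le_sum fun P hP => ?_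
        rw [hS₂, mem_filter] at hP
        omega
      rw [sum_const, smul_eq_mul] at h3
      by_contra hc
      have h4 : (A + 1) * (m + 1) ≤ S₂.card * (m + 1) := Nat.mul_le_mul_right _ (by omega)
      have h5 : (A + 1) * (m + 1) = A * m + A + m + 1 := by ring
      omega
    have h2 : ∏ _P ∈ S₂, (1 / 2 : ℝ) ≤ ∏ P ∈ S₂, e P :=
      prod_le_prod (fun _ _ => by norm_num) fun P hP => by
        rw [hS₂, mem_filter] at hP
        exact (he1 P (hPF P hP.1)).1
    rw [prod_const] at h2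
    exact (pow_le_pow_of_le_one (by norm_num) (by norm_num) h1).trans h2
  have hp2' : ∏ P ∈ S₂, e P ≤ 1 := prod_le_one
    (fun P hP => by
      rw [hS₂, mem_filter] at hP
      have := (he1 P (hPF P hP.1)).1
      linarith)
    (fun P hP => by
      rw [hS₂, mem_filter] at hP
      exact (he1 P (hPF P hP.1)).2)
  have hp2p : 0 < ∏ P ∈ S₂, e P := lt_of_lt_of_le (by positivity) hp2
  have hphi : (Fintype.card K : ℝ) ^ H.natDegree / (phiQ H : ℝ) =
      ((∏ P ∈ S₁, e P) * ∏ P ∈ S₂, e P)⁻¹ := by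
    rw [phiQ_eq hH, ← hsplit, he, div_mul_eq_div_div, div_self hqN.ne', one_div]
  -- the product
  obtain ⟨T, hT⟩ : ∃ T, T = (PU K m).filter (fun P => ¬ P ∣ H) := ⟨_, rfl⟩
  have hS₁' : S₁ = (PU K m).filter (fun P => P ∣ H) := by
    rw [hS₁]
    ext P
    rw [mem_filter, mem_filter, mem_PF hH, mem_PU]
    tauto
  have hPU : ∏ P ∈ PU K m, e P = (∏ P ∈ S₁, e P) * ∏ P ∈ T, e P := by
    rw [hS₁', hT, prod_filter_mul_prod_filter_not]
  have hvp : vp m (fun _ : Fin 1 => H) =
      ∏ P ∈ T, (1 - 2 * wt K P.natDegree) / (1 - wt K P.natDegree) := by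
    unfold vp
    rw [hT, prod_filter]
    refine prod_congr rfl fun P hP => ?_
    have hP' := mem_PU.1 hP
    rw [fac_val hP'.1 hP'.2.1]
    by_cases hd : P ∣ H
    · rw [if_pos hd, if_neg (not_not.2 hd)]
    · rw [if_neg hd, if_pos hd]
  have hTm : ∀ P ∈ T, P.Monic ∧ Irreducible P ∧ ¬ P ∣ H := fun P hP => by
    rw [hT, mem_filter, mem_PU] at hP
    exact ⟨hP.1.1, hP.1.2.1, hP.2⟩
  have hTw : ∀ P ∈ T, wt K P.natDegree ≤ 1 / 4 := fun P hP =>
    wt_quarter hK hX (hTm P hP).1 (hTm P hP).2.1 (hTm P hP).2.2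
  have hTp : 0 < ∏ P ∈ T, e P := prod_pos fun P hP => by
    have := (he1 P (hTm P hP).2.1).1
    linarith
  have hup : vp m (fun _ : Fin 1 => H) ≤ ∏ P ∈ T, e P := by
    rw [hvp, he]
    refine prod_le_prod (fun P hP => ?_) fun P hP => (fac_bd (wt_nonneg _) (hTw P hP)).2
    have h1 := hTw P hP
    exact div_nonneg (by linarith) (by linarith)
  have hlow : Real.exp (-4) * ∏ P ∈ T, e P ≤ vp m (fun _ : Fin 1 => H) := by
    rw [hvp]
    have h1 : ∏ P ∈ T, (Real.exp (-(4 * wt K P.natDegree ^ 2)) * e P) ≤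
        ∏ P ∈ T, (1 - 2 * wt K P.natDegree) / (1 - wt K P.natDegree) := by
      refine prod_le_prod (fun P hP => ?_) fun P hP => ?_
      · have := (he1 P (hTm P hP).2.1).1
        exact mul_nonneg (Real.exp_pos _).le (by linarith)
      · rw [he]
        exact (fac_bd (wt_nonneg _) (hTw P hP)).1
    refine le_trans ?_ h1
    rw [prod_mul_distrib, ← Real.exp_sum]
    refine mul_le_mul_of_nonneg_right (Real.exp_le_exp.2 ?_) hTp.le
    rw [sum_neg_distrib, ← mul_sum]
    have h2 : ∑ P ∈ T, wt K P.natDegree ^ 2 ≤ ∑ P ∈ PU K m, wt K P.natDegree ^ 2 := by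
      rw [hT]
      exact sum_le_sum_of_subset_of_nonneg (filter_subset _ _) fun _ _ _ => sq_nonneg _
    have h3 := sum_wt_sq (K := K) m
    linarith
  have hmu : (∏ P ∈ S₁, e P) * ∏ P ∈ T, e P ≤ Real.exp 4 / m := by
    rw [← hPU, he]
    exact mert_up m hm
  have hml : Real.exp (-11) / m ≤ (∏ P ∈ S₁, e P) * ∏ P ∈ T, e P := by
    rw [← hPU, he]
    exact mert_low m hm
  rw [hphi]
  exact fin_arith hm0 hp1 hp2p hp2 hp2' hup hlow hmu hml

end Pool.Agent.H985.CG
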