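import Mathlib
import Pool.Agent.H985.CH.Stm

/-!
# Dickson's conjecture over `F_q[X]`, `q` even, one prime and almost primes with prescribed parity
(helper985): statements of the parts

Generalisation of `Pool/Agent/H985/CH` (there: forms `f + h i`) to linear forms `s i * f + b i` with
fixed monic slopes `s i`, and `f` in a fixed residue class `ρ` modulo a fixed `Q` divisible by all the
prime divisors of the `s i` and of the fixed `g`.  Only the primes not dividing `Q` are sieved.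
-/

namespace Pool.Agent.H985.CG

open Polynomial Finset
open scoped Classical
open Pool.Agent.H985.Chow (mob)
open Pool.Agent.H985.KP (PA mobg)
open Pool.Agent.H694.Typ (Mn Irn PU)
open Pool.Agent.H251.SP (Rgh Smo bw cf)
open Pool.Agent.H985.CH (SqM Bdd Exc)

/-- All the irreducible divisors of `x` divide `Q`. -/
def Sup {K : Type} [Field K] (Q x : K[X]) : Prop :=
  ∀ P : K[X], Irreducible P → P ∣ x → P ∣ Q

/-- The product of the forms `s i * f + b i`. -/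
noncomputable def Hg {K : Type} [Field K] {k : ℕ} (s b : Fin k → K[X]) (f : K[X]) : K[X] :=
  ∏ i, (s i * f + b i)

/-- The weight of level `y` with the coefficients `lam`; only divisors prime to `Q`. -/
noncomputable def Wg {K : Type} [Field K] [Fintype K] {k : ℕ} (Q : K[X]) (s b : Fin k → K[X])
    (lam : K[X] → ℝ) (y : ℕ) (f : K[X]) : ℝ :=
  ∑ E ∈ (SqM K y).filter (fun E => IsCoprime E Q ∧ E ∣ Hg s b f), lam E

/-- The slopes are monic and composed of primes dividing `Q`. -/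
def Slo {K : Type} [Field K] {k : ℕ} (Q : K[X]) (s : Fin k → K[X]) : Prop :=
  ∀ i, (s i).Monic ∧ Sup Q (s i)

/-- The constants are nonzero and `s i * f + b i` has the degree `n + deg (s i)` for monic `f` of
degree `n`. -/
def Shg {K : Type} [Field K] {k : ℕ} (n : ℕ) (s b : Fin k → K[X]) : Prop :=
  ∀ i, b i ≠ 0 ∧ (b i).natDegree < n + (s i).natDegree

/-- No `s i * f + b i` has an irreducible factor of degree at most `m` not dividing `Q`. -/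
def Sig {K : Type} [Field K] {k : ℕ} (Q : K[X]) (s b : Fin k → K[X]) (m : ℕ) (f : K[X]) : Prop :=
  ∀ i, ∀ P : K[X], P.Monic → Irreducible P → P ∣ s i * f + b i → ¬ P ∣ Q → m < P.natDegree

/-- **Task CG-MOM.**  Moments of the weights. -/
def S_momg : Prop :=
  ∀ (k r : ℕ) (K : Type) [Field K] [Fintype K], ∃ C : ℕ, ∀ (N y : ℕ) (Q D : K[X])
    (s b : Fin k → K[X]), Slo Q s → D.Monic → (∀ i, IsCoprime D (b i)) → r * y ≤ N →
    ∑ B ∈ Mn K N, (((SqM K y).filter (fun E => IsCoprime E Q ∧ E ∣ Hg s b (D * B))).card : ℝ) ^ r ≤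
      ((N : ℝ) + 2) ^ C * (Fintype.card K : ℝ) ^ N

/-- **Task CG-TII.**  Type II sums with the weights and with a square divisor. -/
def S_tiig : Prop :=
  ∀ (K : Type) [Field K] [Fintype K] [CharP K 2] (k : ℕ) (Q g : K[X]) (s : Fin k → K[X]) (ε : ℝ),
    Q.Monic → g.Monic → Slo Q s → 0 < ε →
    ∃ (C : ℕ) (c θ : ℝ), 0 < c ∧ 0 < θ ∧ ∃ n₀ : ℕ, ∀ n : ℕ, n₀ ≤ n →
    ∀ (j y : ℕ) (b : Fin k → K[X]) (h : K[X]) (lam α β : K[X] → ℝ), 1 ≤ j →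
      (j : ℝ) ≤ (1 / 4 - ε) * n → (y : ℝ) ≤ θ * n → h ≠ 0 → h.natDegree < n →
      (∀ i, b i ≠ 0 ∧ (b i).natDegree ≤ 3 * n) → Bdd lam → Bdd α → Bdd β →
      |∑ p ∈ Irn K j, ∑ B ∈ Mn K (n - j),
        α p * β B * (Wg Q s b lam y (p * B) * (mobg g (p * B + h) : ℝ))| ≤
        (n : ℝ) ^ C * (Fintype.card K : ℝ) ^ n *
          ((Fintype.card K : ℝ) ^ (-(j : ℝ) / 64) + (Fintype.card K : ℝ) ^ (-c * n))

/-- **Task CG-TI.**  Type I sums with the weights. -/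
def S_tig : Prop :=
  ∀ (K : Type) [Field K] [Fintype K] [CharP K 2] (k A₀ : ℕ) (Q g : K[X]) (s : Fin k → K[X]) (δ : ℝ),
    Q.Monic → g.Monic → Slo Q s → 0 < δ →
    ∃ θ : ℝ, 0 < θ ∧ ∃ n₀ : ℕ, ∀ n : ℕ, n₀ ≤ n →
    ∀ (z y : ℕ) (D ρ : K[X]) (b : Fin k → K[X]) (i₀ : Fin k) (lam : K[X] → ℝ),
      z ≤ A₀ * Nat.log 2 n → D.Monic → Squarefree D → IsCoprime D Q →
      2 * (D.natDegree : ℝ) ≤ (1 - δ) * n → (∀ i, IsCoprime D (b i)) → (y : ℝ) ≤ θ * n →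
      Shg n s b → Bdd lam →
      |∑ B ∈ (Mn K (n - D.natDegree)).filter (fun B => Rgh z B ∧ Q ∣ D * B - ρ),
        Wg Q s b lam y (D * B) * (mobg g (s i₀ * (D * B) + b i₀) : ℝ)| ≤
          (Fintype.card K : ℝ) ^ (n - D.natDegree) / (n : ℝ) ^ A₀

/-- **Task CG-TW.**  Type I sums twisted by the Moebius function, with the weights. -/
def S_twg : Prop :=
  ∀ (K : Type) [Field K] [Fintype K] [CharP K 2] (k A₀ : ℕ) (Q g : K[X]) (s : Fin k → K[X]),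
    Q.Monic → g.Monic → Slo Q s → ∃ θ : ℝ, 0 < θ ∧ ∃ n₀ : ℕ,
    ∀ n : ℕ, n₀ ≤ n → ∀ (z y : ℕ) (ρ : K[X]) (b : Fin k → K[X]) (i₀ : Fin k) (lam : K[X] → ℝ),
      z ≤ A₀ * Nat.log 2 n → (y : ℝ) ≤ θ * n → IsCoprime ρ Q → Shg n s b → Bdd lam →
      |∑ f ∈ (Mn K n).filter (fun f => Rgh z f ∧ Q ∣ f - ρ),
        Wg Q s b lam y f * ((mob f : ℝ) * (mobg g (s i₀ * f + b i₀) : ℝ))| ≤
          (Fintype.card K : ℝ) ^ n / (n : ℝ) ^ A₀

/-- **Task CG-SQ.**  The multiples of squares of large primes. -/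
def S_sqg : Prop :=
  ∀ (k : ℕ) (K : Type) [Field K] [Fintype K], ∃ C : ℕ, ∀ (N y z : ℕ) (Q D : K[X])
    (s b : Fin k → K[X]) (lam : K[X] → ℝ), Slo Q s → D.Monic → (∀ i, IsCoprime D (b i)) →
    2 * y ≤ N → Bdd lam →
    ∑ j ∈ Icc (max z 1) N, ∑ p ∈ Irn K j, ∑ B ∈ (Mn K (N - j)).filter (fun B => p ∣ B),
      |Wg Q s b lam y (D * (p * B))| ≤
      ((N : ℝ) + 2) ^ C * (Fintype.card K : ℝ) ^ N * (Fintype.card K : ℝ) ^ (-(z : ℝ) / 2)

/-- The number of the nonzero residues `r` modulo `P` such that `P` divides some `s i * r + b i`. -/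
noncomputable def nug {K : Type} [Field K] {k : ℕ} (s b : Fin k → K[X]) (P : K[X]) : ℝ :=
  ({r : K[X] | r.degree < P.degree ∧ r ≠ 0 ∧ ∃ i, P ∣ s i * r + b i}.ncard : ℝ)

/-- The density of the sifted set among the irreducible polynomials: the product over the
irreducible `P` of degree at most `m`, not dividing `Q`, of `1 - nug P / (|P| - 1)`. -/
noncomputable def vg {K : Type} [Field K] [Fintype K] {k : ℕ} (Q : K[X]) (m : ℕ)
    (s b : Fin k → K[X]) : ℝ :=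
  ∏ P ∈ (PU K m).filter (fun P => ¬ P ∣ Q), (1 - nug s b P / ((Fintype.card K : ℝ) ^ P.natDegree - 1))

/-- **Task CG-VP.**  Elementary properties of `vg`. -/
def S_vpg : Prop :=
  ∀ (K : Type) [Field K] [Fintype K] [CharP K 2] (k : ℕ), ∃ c : ℝ, 0 < c ∧ ∀ (m : ℕ) (Q : K[X])
    (s b : Fin k → K[X]), Q.Monic → Slo Q s → 1 ≤ m → 0 ≤ vg Q m s b ∧
      ((∀ P ∈ PU K m, ¬ P ∣ Q → ∃ r : K[X], ¬ P ∣ r ∧ ∀ i, ¬ P ∣ s i * r + b i) →
        c / (m : ℝ) ^ k ≤ vg Q m s b) ∧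
      ((∃ P ∈ PU K m, ¬ P ∣ Q ∧ ∀ r : K[X], ¬ P ∣ r → ∃ i, P ∣ s i * r + b i) → vg Q m s b = 0)

/-- **Task CG-BR.**  Sieve weights of the upper and of the lower sieve, in terms of `Wg`. -/
def S_brg : Prop :=
  ∀ (K : Type) [Field K] [Fintype K] (k : ℕ) (ε : ℝ), 0 < ε → ∃ A : ℕ,
    ∀ (m : ℕ) (Q : K[X]) (s b : Fin k → K[X]), Q.Monic → Slo Q s → 1 ≤ m → 0 < vg Q m s b →
      ∃ lamU lamV : K[X] → ℝ, Bdd lamU ∧ Bdd lamV ∧
        (∀ E, (lamU E ≠ 0 ∨ lamV E ≠ 0) → ∀ P : K[X], Irreducible P → P ∣ E → P.natDegree ≤ m) ∧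
        (∀ f : K[X], (if Sig Q s b m f then (1 : ℝ) else 0) ≤ Wg Q s b lamU (A * m) f ∧
          Wg Q s b lamV (A * m) f ≤ if Sig Q s b m f then (1 : ℝ) else 0) ∧
        (∑ E ∈ (SqM K (A * m)).filter (fun E => IsCoprime E Q),
            lamU E * ∏ P ∈ (PU K m).filter (fun P => P ∣ E),
              (nug s b P / ((Fintype.card K : ℝ) ^ P.natDegree - 1)) ≤ (1 + ε) * vg Q m s b) ∧
        ((1 - ε) * vg Q m s b ≤ ∑ E ∈ (SqM K (A * m)).filter (fun E => IsCoprime E Q),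
            lamV E * ∏ P ∈ (PU K m).filter (fun P => P ∣ E),
              (nug s b P / ((Fintype.card K : ℝ) ^ P.natDegree - 1)))

/-- **Task CG-PAP.**  The irreducible polynomials `p` with `D p` in a class modulo `Q` such that `E`
divides the product of the `s i * (D p) + b i`. -/
def S_papg : Prop :=
  ∀ (K : Type) [Field K] [Fintype K] [CharP K 2] (Q : K[X]), Q.Monic → ∃ φ : ℝ, 0 < φ ∧
    ∀ (k : ℕ) (N : ℕ) (D E ρ : K[X]) (s b : Fin k → K[X]), Slo Q s →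
      1 ≤ N → D.Monic → E.Monic → Squarefree E → IsCoprime D E → IsCoprime D Q → IsCoprime E Q →
      IsCoprime ρ Q → Q.natDegree + E.natDegree < N →
      |((((Irn K N).filter (fun p => Q ∣ D * p - ρ ∧ E ∣ Hg s b (D * p))).card : ℝ)) -
        (Fintype.card K : ℝ) ^ N / (N * φ) * ∏ P ∈ (PU K E.natDegree).filter (fun P => P ∣ E),
          (nug s b P / ((Fintype.card K : ℝ) ^ P.natDegree - 1))| ≤
        ((k : ℝ) + 1) ^ E.natDegree * (2 * (Q.natDegree + E.natDegree) + 4 : ℝ) *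
          Real.sqrt ((Fintype.card K : ℝ) ^ N)

/-- **Task CG-PRS.**  The sieve for the irreducible polynomials, simultaneously for the forms. -/
def S_prsg : Prop :=
  ∀ (K : Type) [Field K] [Fintype K] [CharP K 2] (Q : K[X]), Q.Monic → ∃ φ : ℝ, 0 < φ ∧
    ∀ (k : ℕ) (s : Fin k → K[X]) (ε : ℝ), Slo Q s → 0 < ε → ∃ (A : ℕ) (κ : ℝ),
    0 < κ ∧ ∃ n₀ : ℕ, ∀ n : ℕ, n₀ ≤ n → ∀ (m : ℕ) (b : Fin k → K[X]), 1 ≤ m → (m : ℝ) ≤ κ * n →
      0 < vg Q m s b →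
      ∃ lamU lamV : K[X] → ℝ, Bdd lamU ∧ Bdd lamV ∧
        (∀ f : K[X], (if Sig Q s b m f then (1 : ℝ) else 0) ≤ Wg Q s b lamU (A * m) f ∧
          Wg Q s b lamV (A * m) f ≤ if Sig Q s b m f then (1 : ℝ) else 0) ∧
        ∀ (N : ℕ) (D ρ : K[X]), n ≤ 5 * N → N ≤ n → D.Monic → Rgh (m + 1) D → IsCoprime D Q →
          IsCoprime ρ Q →
          ∑ p ∈ (Irn K N).filter (fun p => Q ∣ D * p - ρ), Wg Q s b lamU (A * m) (D * p) ≤
            (1 + ε) * (vg Q m s b * (Fintype.card K : ℝ) ^ N / (N * φ)) ∧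
          (1 - ε) * (vg Q m s b * (Fintype.card K : ℝ) ^ N / (N * φ)) ≤
            ∑ p ∈ (Irn K N).filter (fun p => Q ∣ D * p - ρ), Wg Q s b lamV (A * m) (D * p)

/-- **Task CG-FEW.**  The exceptional `f` in the sifted set. -/
def S_fewg : Prop :=
  ∀ (K : Type) [Field K] [Fintype K] [CharP K 2] (k : ℕ) (Q : K[X]) (s : Fin k → K[X]),
    Q.Monic → Slo Q s → ∃ C : ℝ, 0 < C ∧ ∀ ε δ : ℝ, 0 < ε →
    ε ≤ 1 / 100 → 0 < δ → δ ≤ 1 / 10 → ∃ (κ : ℝ), 0 < κ ∧ ∃ n₀ : ℕ, ∀ n : ℕ, n₀ ≤ n →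
    ∀ (l m : ℕ) (ρ : K[X]) (b : Fin k → K[X]), (1 / 4 - ε) * n ≤ l → 1 ≤ m → (m : ℝ) ≤ κ * n →
      0 < vg Q m s b → IsCoprime ρ Q →
    (((Mn K n).filter (fun f => Rgh l f ∧ Exc n δ f ∧ Sig Q s b m f ∧ Q ∣ f - ρ)).card : ℝ) ≤
      C * (ε ^ 3 + δ) * (vg Q m s b * (Fintype.card K : ℝ) ^ n / n)

/-- **Task CG-MAINA.**  The weighted sum over the polynomials without prime factors of degree less
than `l`, twisted by the Moebius function. -/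
def S_mainag : Prop :=
  ∀ (K : Type) [Field K] [Fintype K] [CharP K 2] (k A₁ : ℕ) (Q g : K[X]) (s : Fin k → K[X])
    (ε : ℝ), Q.Monic → g.Monic → Slo Q s → 0 < ε → ε ≤ 1 / 100 →
    ∃ θ : ℝ, 0 < θ ∧ ∃ n₀ : ℕ, ∀ n : ℕ, n₀ ≤ n →
    ∀ (l y : ℕ) (ρ : K[X]) (b : Fin k → K[X]) (i₀ : Fin k) (lam : K[X] → ℝ), (1 / 4 - ε) * n ≤ l →
      (l : ℝ) ≤ (1 / 4 - ε) * n + 1 → (y : ℝ) ≤ θ * n → IsCoprime ρ Q → Shg n s b → Bdd lam →
      |∑ f ∈ (Mn K n).filter (fun f => Rgh l f ∧ Q ∣ f - ρ),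
        Wg Q s b lam y f * (mobg g (s i₀ * f + b i₀) : ℝ) * (mob f : ℝ)| ≤
        (Fintype.card K : ℝ) ^ n / (n : ℝ) ^ A₁

/-- **Task CG-MAINB.**  The weighted sum over the polynomials without prime factors of degree less
than `l`, twisted by a divisor sum of level less than `n / 2`. -/
def S_mainbg : Prop :=
  ∀ (K : Type) [Field K] [Fintype K] [CharP K 2] (k A₁ : ℕ) (Q g : K[X]) (s : Fin k → K[X])
    (ε δ : ℝ), Q.Monic → g.Monic → Slo Q s → 0 < ε → ε ≤ 1 / 100 →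
    0 < δ → ∃ θ : ℝ, 0 < θ ∧ ∃ n₀ : ℕ, ∀ n : ℕ, n₀ ≤ n →
    ∀ (l y : ℕ) (ρ : K[X]) (b : Fin k → K[X]) (i₀ : Fin k) (lam : K[X] → ℝ), (1 / 4 - ε) * n ≤ l →
      (l : ℝ) ≤ (1 / 4 - ε) * n + 1 → (y : ℝ) ≤ θ * n → IsCoprime ρ Q → Shg n s b → Bdd lam →
      |∑ f ∈ (Mn K n).filter (fun f => Rgh l f ∧ Q ∣ f - ρ),
        Wg Q s b lam y f * (mobg g (s i₀ * f + b i₀) : ℝ) *
        ∑ i ∈ range (n + 1), ∑ D ∈ (Mn K i).filter (fun D => D ∣ f),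
          (if 2 * (i : ℝ) ≤ (1 - δ) * n then cf D else 0)| ≤
        (Fintype.card K : ℝ) ^ n / (n : ℝ) ^ A₁

/-- **Task CG-CHEN (first part).**  The parity of a form at the irreducible `p` in a class for which
no form has a small prime factor. -/
def S_cheng : Prop :=
  ∀ (K : Type) [Field K] [Fintype K] [CharP K 2] (k : ℕ) (Q g : K[X]) (s : Fin k → K[X]) (ε : ℝ),
    Q.Monic → g.Monic → Slo Q s → 0 < ε → ∃ κ : ℝ, 0 < κ ∧
    ∃ n₀ : ℕ, ∀ n : ℕ, n₀ ≤ n → ∀ (m : ℕ) (ρ : K[X]) (b : Fin k → K[X]) (i₀ : Fin k), 1 ≤ m →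
      (m : ℝ) ≤ κ * n → IsCoprime ρ Q → Shg n s b →
      |∑ p ∈ (Irn K n).filter (fun p => Q ∣ p - ρ ∧ Sig Q s b m p),
        (mobg g (s i₀ * p + b i₀) : ℝ)| ≤ ε * (vg Q m s b * (Fintype.card K : ℝ) ^ n / n)

/-- **Task CG-CHEN (second part).**  The number of these `p`. -/
def S_cntg : Prop :=
  ∀ (K : Type) [Field K] [Fintype K] [CharP K 2] (Q : K[X]), Q.Monic → ∃ φ : ℝ, 0 < φ ∧
    ∀ (k : ℕ) (s : Fin k → K[X]) (ε : ℝ), Slo Q s → 0 < ε → ∃ κ : ℝ, 0 < κ ∧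
    ∃ n₀ : ℕ, ∀ n : ℕ, n₀ ≤ n → ∀ (m : ℕ) (ρ : K[X]) (b : Fin k → K[X]), 1 ≤ m →
      (m : ℝ) ≤ κ * n → IsCoprime ρ Q →
      |(((Irn K n).filter (fun p => Q ∣ p - ρ ∧ Sig Q s b m p)).card : ℝ) -
        vg Q m s b * (Fintype.card K : ℝ) ^ n / (n * φ)| ≤
        ε * (vg Q m s b * (Fintype.card K : ℝ) ^ n / n)

end Pool.Agent.H985.CG
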