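import Pool.Agent.H985.CG.Stm
import Pool.Agent.H985.CH.BRW

/-!
# Dickson's conjecture over `F_q[X]` (helper985), task CG-BR (helper790, after helper618): the sieve
weights
-/

set_option autoImplicit false
set_option linter.unusedSectionVars false

namespace Pool.Agent.H985.CG

open Polynomial Finset
open scoped Classical
open Pool.Agent.H985.Par (S_brun)
open Pool.Agent.H694.Typ (Mn mem_Mn Irn mem_Irn PU mem_PU irn_one_le coprime_of_ne)
open Pool.Agent.H985.CH (SqM Bdd)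
open Pool.Agent.H985.CH.BRWx (Q_two dyadic pf_prod monic_prod prod_dvd lam lam_prod lam_ne lam_bdd
  lam_supp mem_SqM sum_lam)

namespace BRGx

variable {K : Type} [Field K] [Fintype K]

/-- the residues counted by `nug` -/
def SS {k : ℕ} (s b : Fin k → K[X]) (P : K[X]) : Set K[X] :=
  {r : K[X] | r.degree < P.degree ∧ r ≠ 0 ∧ ∃ i, P ∣ s i * r + b i}

/-- all residues -/
noncomputable def AA (P : K[X]) : Finset K[X] :=
  (Finset.univ : Finset (Fin P.natDegree → K)).image Pool.Agent.H694.Typ.pol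

theorem mem_AA {P r : K[X]} (hP : P.Monic) (hr : r.degree < P.degree) : r ∈ AA P := by
  unfold AA
  rw [mem_image]
  rw [degree_eq_natDegree hP.ne_zero] at hr
  obtain ⟨c, hc⟩ := Pool.Agent.H694.Typ.exists_pol hr
  exact ⟨c, mem_univ _, hc⟩

theorem card_AA (P : K[X]) : (AA P).card ≤ Fintype.card K ^ P.natDegree := by
  unfold AA
  refine Finset.card_image_le.trans ?_
  rw [card_univ, Fintype.card_fun, Fintype.card_fin]

theorem SS_sub {k : ℕ} (s b : Fin k → K[X]) {P : K[X]} (hP : P.Monic) :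
    SS s b P ⊆ ((AA P).erase 0 : Finset K[X]) := by
  intro r hr
  rw [mem_coe, mem_erase]
  exact ⟨hr.2.1, mem_AA hP hr.1⟩

theorem nug_le_card {k : ℕ} (s b : Fin k → K[X]) {P : K[X]} (hP : P.Monic)
    (hPi : Irreducible P) :
    nug s b P + 1 ≤ (Fintype.card K : ℝ) ^ P.natDegree := by
  have h1 : (SS s b P).ncard ≤ ((AA P).erase 0).card := by
    have h2 := Set.ncard_le_ncard (SS_sub s b hP) ((AA P).erase 0).finite_toSet
    rwa [Set.ncard_coe_finset] at h2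
  have h0 : (0 : K[X]) ∈ AA P := by
    apply mem_AA hP
    rw [degree_zero, degree_eq_natDegree hP.ne_zero]
    exact WithBot.bot_lt_coe _
  have h3 : ((AA P).erase 0).card + 1 = (AA P).card := Finset.card_erase_add_one h0
  have h4 := card_AA P
  have h5 : (SS s b P).ncard + 1 ≤ Fintype.card K ^ P.natDegree := by omega
  have h6 : nug s b P = ((SS s b P).ncard : ℝ) := rfl
  rw [h6]
  exact_mod_cast h5

theorem not_dvd_slope {k : ℕ} {Q : K[X]} {s : Fin k → K[X]} (hs : Slo Q s) {P : K[X]}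
    (hPi : Irreducible P) (hPQ : ¬ P ∣ Q) (i : Fin k) : ¬ P ∣ s i :=
  fun h => hPQ ((hs i).2 P hPi h)

theorem nug_le_k {k : ℕ} {Q : K[X]} {s b : Fin k → K[X]} (hs : Slo Q s) {P : K[X]} (hP : P.Monic)
    (hPi : Irreducible P) (hPQ : ¬ P ∣ Q) : nug s b P ≤ k := by
  have hfin : (SS s b P).Finite := ((AA P).erase 0).finite_toSet.subset (SS_sub s b hP)
  have h1 : (SS s b P).ncard ≤ k := by
    rw [Set.ncard_eq_toFinset_card _ hfin]
    have h2 : hfin.toFinset.card ≤ (Finset.range k).card := by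
      apply Finset.card_le_card_of_injOn
        (fun r => if h : ∃ i, P ∣ s i * r + b i then (h.choose : ℕ) else 0)
      · intro r hr
        rw [mem_coe, Set.Finite.mem_toFinset] at hr
        show (if h : ∃ i, P ∣ s i * r + b i then (h.choose : ℕ) else 0) ∈ (range k : Set ℕ)
        rw [dif_pos hr.2.2, mem_coe, mem_range]
        exact (hr.2.2.choose).2
      · intro r hr r' hr' he
        rw [mem_coe, Set.Finite.mem_toFinset] at hr hr'
        have he' : (if h : ∃ i, P ∣ s i * r + b i then (h.choose : ℕ) else 0) =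
          (if h : ∃ i, P ∣ s i * r' + b i then (h.choose : ℕ) else 0) := he
        rw [dif_pos hr.2.2, dif_pos hr'.2.2] at he'
        have h3 := hr.2.2.choose_spec
        have h4 := hr'.2.2.choose_spec
        have h5 : hr.2.2.choose = hr'.2.2.choose := Fin.ext he'
        rw [← h5] at h4
        have h6 : P ∣ s hr.2.2.choose * (r - r') := by
          have e : s hr.2.2.choose * (r - r') =
              (s hr.2.2.choose * r + b hr.2.2.choose) -
              (s hr.2.2.choose * r' + b hr.2.2.choose) := by ring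
          rw [e]
          exact dvd_sub h3 h4
        rcases hPi.prime.dvd_or_dvd h6 with h7 | h7
        · exact absurd h7 (not_dvd_slope hs hPi hPQ _)
        · by_contra hne
          have h8 : (r - r').degree < P.degree :=
            (degree_sub_le _ _).trans_lt (max_lt hr.1 hr'.1)
          exact absurd (degree_le_of_dvd h7 (sub_ne_zero.2 hne)) (not_le.2 h8)
    rwa [card_range] at h2
  have h6 : nug s b P = ((SS s b P).ncard : ℝ) := rfl
  rw [h6]
  exact_mod_cast h1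

/-- the densities -/
noncomputable def w {k : ℕ} (s b : Fin k → K[X]) (P : K[X]) : ℝ :=
  nug s b P / ((Fintype.card K : ℝ) ^ P.natDegree - 1)

theorem nug_nonneg {k : ℕ} (s b : Fin k → K[X]) (P : K[X]) : 0 ≤ nug s b P := Nat.cast_nonneg _

theorem w_nonneg {k : ℕ} (s b : Fin k → K[X]) {P : K[X]} (hP : 1 ≤ P.natDegree) :
    0 ≤ w s b P := by
  have h2 := Q_two (K := K) hP
  exact div_nonneg (nug_nonneg s b P) (by linarith)

theorem w_le' {k : ℕ} {Q : K[X]} {s b : Fin k → K[X]} (hs : Slo Q s) {P : K[X]} (hP : P.Monic)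
    (hPi : Irreducible P) (hPQ : ¬ P ∣ Q) :
    w s b P ≤ 2 * k / (Fintype.card K : ℝ) ^ P.natDegree := by
  have h2 := Q_two (K := K) hPi.natDegree_pos
  have h3 := nug_le_k (b := b) hs hP hPi hPQ
  have h4 := nug_nonneg s b P
  unfold w
  rw [div_le_div_iff₀ (by linarith) (by linarith)]
  have hk : (0 : ℝ) ≤ k := Nat.cast_nonneg k
  nlinarith

theorem w_le {k : ℕ} {Q : K[X]} {s b : Fin k → K[X]} (hs : Slo Q s) {P : K[X]} (hP : P.Monic)
    (hPi : Irreducible P) (hPQ : ¬ P ∣ Q)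
    (hne : 1 - nug s b P / ((Fintype.card K : ℝ) ^ P.natDegree - 1) ≠ 0) :
    w s b P ≤ 1 - 1 / (4 * (k : ℝ) + 4) := by
  have hk : (0 : ℝ) ≤ k := Nat.cast_nonneg k
  have h2 := Q_two (K := K) hPi.natDegree_pos
  have h3 := nug_le_k (b := b) hs hP hPi hPQ
  have h4 := nug_le_card s b hP hPi
  have h4' : nug s b P ≠ (Fintype.card K : ℝ) ^ P.natDegree - 1 := by
    intro h5
    apply hne
    rw [h5, div_self (by linarith), sub_self]
  have h5 : nug s b P + 2 ≤ (Fintype.card K : ℝ) ^ P.natDegree := by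
    have h6 : nug s b P = ((SS s b P).ncard : ℝ) := rfl
    rw [h6] at h4 h4' ⊢
    have h7 : (SS s b P).ncard + 1 ≤ Fintype.card K ^ P.natDegree := by exact_mod_cast h4
    have h8 : (SS s b P).ncard + 1 ≠ Fintype.card K ^ P.natDegree := by
      intro h9
      apply h4'
      have h10 : (((SS s b P).ncard : ℝ)) + 1 = (Fintype.card K : ℝ) ^ P.natDegree := by
        exact_mod_cast h9
      linarith
    have h9 : (SS s b P).ncard + 2 ≤ Fintype.card K ^ P.natDegree := by omega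
    exact_mod_cast h9
  unfold w
  obtain ⟨Y, hY⟩ : ∃ Y : ℝ, Y = (Fintype.card K : ℝ) ^ P.natDegree := ⟨_, rfl⟩
  obtain ⟨c, hc⟩ : ∃ c : ℝ, c = nug s b P := ⟨_, rfl⟩
  rw [← hY] at h2 h5 ⊢
  rw [← hc] at h3 h5 ⊢
  rw [div_le_iff₀ (by linarith)]
  by_cases h10 : Y - 1 ≤ 4 * (k : ℝ) + 4
  · have h11 : 1 / (4 * (k : ℝ) + 4) * (Y - 1) ≤ 1 := by
      rw [one_div, inv_mul_le_iff₀ (by linarith)]
      linarith
    linarith
  · push Not at h10
    have h11 : 1 / (4 * (k : ℝ) + 4) ≤ 1 / 4 :=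
      one_div_le_one_div_of_le (by norm_num) (by linarith)
    have h12 : 1 / (4 * (k : ℝ) + 4) * (Y - 1) ≤ 1 / 4 * (Y - 1) :=
      mul_le_mul_of_nonneg_right h11 (by linarith)
    linarith

/-- the sifting primes -/
noncomputable def PUQ (K : Type) [Field K] [Fintype K] (Q : K[X]) (m : ℕ) : Finset K[X] :=
  (PU K m).filter (fun P => ¬ P ∣ Q)

theorem cop_iff {m : ℕ} {Q : K[X]} {T : Finset K[X]} (hT : T ⊆ PU K m) :
    IsCoprime (∏ P ∈ T, P) Q ↔ ∀ P ∈ T, ¬ P ∣ Q := by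
  rw [IsCoprime.prod_left_iff]
  refine forall₂_congr fun P hP => ?_
  exact (mem_PU.1 (hT hP)).2.1.coprime_iff_not_dvd

theorem sum_inst {α : Type} (S : Finset α) (p : α → Prop) (d1 d2 : DecidablePred p) (F : α → ℝ) :
    ∑ x ∈ @Finset.filter α p d1 S, F x = ∑ x ∈ @Finset.filter α p d2 S, F x := by
  have h : d1 = d2 := Subsingleton.elim _ _
  rw [h]

theorem sum_lam' {m y : ℕ} {U : Finset K[X] → ℝ}
    (hU : ∀ T, U T ≠ 0 → T ⊆ PU K m ∧ ∑ P ∈ T, P.natDegree ≤ y) (Cd : K[X] → Prop)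
    (d1 : DecidablePred Cd) (d2 : DecidablePred fun T : Finset K[X] => Cd (∏ P ∈ T, P))
    (G : Finset K[X] → ℝ) :
    ∑ E ∈ @Finset.filter K[X] Cd d1 (SqM K y),
        lam m U E * G ((PU K m).filter (fun P => P ∣ E)) =
      ∑ T ∈ @Finset.filter (Finset K[X]) (fun T => Cd (∏ P ∈ T, P)) d2 (PU K m).powerset,
        U T * G T :=
  (sum_inst _ _ _ _ _).trans ((sum_lam hU Cd G).trans (sum_inst _ _ _ _ _))

theorem Wg_lam {k m y : ℕ} {Q : K[X]} (s b : Fin k → K[X]) {U : Finset K[X] → ℝ}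
    (hU : ∀ T, U T ≠ 0 → T ⊆ PU K m ∧ ∑ P ∈ T, P.natDegree ≤ y) (f : K[X]) :
    Wg Q s b (lam m U) y f =
      ∑ T ∈ ((PUQ K Q m).filter (fun P => P ∣ Hg s b f)).powerset, U T := by
  have h1 := sum_lam' hU (fun E => IsCoprime E Q ∧ E ∣ Hg s b f) (fun _ => instDecidableAnd)
    (fun _ => instDecidableAnd) (fun _ => 1)
  simp only [mul_one] at h1
  unfold Wg
  refine h1.trans (Finset.sum_congr ?_ fun _ _ => rfl)
  ext T
  rw [mem_filter, mem_powerset, mem_powerset]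
  constructor
  · rintro ⟨h2, h3, h4⟩ P hP
    exact mem_filter.2 ⟨mem_filter.2 ⟨h2 hP, (cop_iff h2).1 h3 P hP⟩, (prod_dvd h2).1 h4 P hP⟩
  · intro h2
    have h3 : T ⊆ PU K m := fun P hP => (mem_filter.1 (mem_filter.1 (h2 hP)).1).1
    exact ⟨h3, (cop_iff h3).2 fun P hP => (mem_filter.1 (mem_filter.1 (h2 hP)).1).2,
      (prod_dvd h3).2 fun P hP => (mem_filter.1 (h2 hP)).2⟩

theorem main_lam {m y : ℕ} {Q : K[X]} (v : K[X] → ℝ) {U : Finset K[X] → ℝ}
    (hU : ∀ T, U T ≠ 0 → T ⊆ PU K m ∧ ∑ P ∈ T, P.natDegree ≤ y) :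
    ∑ E ∈ (SqM K y).filter (fun E => IsCoprime E Q),
        lam m U E * ∏ P ∈ (PU K m).filter (fun P => P ∣ E), v P =
      ∑ T ∈ (PUQ K Q m).powerset, U T * ∏ P ∈ T, v P := by
  have h1 := sum_lam hU (fun E => IsCoprime E Q) (fun T => ∏ P ∈ T, v P)
  refine h1.trans ?_
  refine Finset.sum_congr ?_ fun _ _ => rfl
  ext T
  rw [mem_filter, mem_powerset, mem_powerset]
  constructor
  · rintro ⟨h2, h3⟩ P hP
    exact mem_filter.2 ⟨h2 hP, (cop_iff h2).1 h3 P hP⟩
  · intro h2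
    have h3 : T ⊆ PU K m := fun P hP => (mem_filter.1 (h2 hP)).1
    exact ⟨h3, (cop_iff h3).2 fun P hP => (mem_filter.1 (h2 hP)).2⟩

theorem Sig_iff {k m : ℕ} {Q : K[X]} (s b : Fin k → K[X]) (f : K[X]) :
    Sig Q s b m f ↔ (PUQ K Q m).filter (fun P => P ∣ Hg s b f) = ∅ := by
  rw [Finset.filter_eq_empty_iff]
  constructor
  · intro h1 P hP hd
    obtain ⟨hP1, hP2⟩ := mem_filter.1 hP
    obtain ⟨h2, h3, h4⟩ := mem_PU.1 hP1
    unfold Hg at hd
    obtain ⟨i, -, hi⟩ := (h3.prime.dvd_finsetProd_iff _).1 hd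
    have := h1 i P h2 h3 hi hP2
    omega
  · intro h1 i P h2 h3 hi hPQ
    by_contra h4
    refine h1 (mem_filter.2 ⟨mem_PU.2 ⟨h2, h3, by omega⟩, hPQ⟩) ?_
    unfold Hg
    exact hi.trans (dvd_prod_of_mem _ (mem_univ i))

end BRGx

open BRGx in
theorem brg (hb : S_brun) : S_brg := by
  intro K _ _ k ε hε
  obtain ⟨A, hA⟩ := hb (4 * (k : ℝ) + 4) ε (by positivity) hε
  refine ⟨A, fun m Q s b hQ hs hm hv => ?_⟩
  have hk : (0 : ℝ) ≤ k := Nat.cast_nonneg k
  have hsub : PUQ K Q m ⊆ PU K m := Finset.filter_subset _ _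
  have hP1 : ∀ P ∈ PUQ K Q m, P.Monic ∧ Irreducible P ∧ P.natDegree ≤ m ∧ ¬ P ∣ Q := by
    intro P hP
    obtain ⟨h1, h2⟩ := mem_filter.1 hP
    obtain ⟨h3, h4, h5⟩ := mem_PU.1 h1
    exact ⟨h3, h4, h5, h2⟩
  have hne : ∀ P ∈ PUQ K Q m,
      1 - nug s b P / ((Fintype.card K : ℝ) ^ P.natDegree - 1) ≠ 0 := by
    intro P hP h0
    have h1 : vg Q m s b = 0 := by
      unfold vg
      exact Finset.prod_eq_zero hP h0
    exact hv.ne' h1
  have hdeg : ∀ P ∈ PUQ K Q m, 1 ≤ P.natDegree := fun P hP => (hP1 P hP).2.1.natDegree_pos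
  obtain ⟨U, V, hUV1, hUV2, hU1, hV1, hU2, hV2⟩ := hA K[X] (PUQ K Q m) (fun P => P.natDegree)
    (w s b) m
    (fun P hP => ⟨hdeg P hP, (hP1 P hP).2.2.1⟩)
    (fun P hP => ⟨w_nonneg s b (hdeg P hP), w_le hs (hP1 P hP).1 (hP1 P hP).2.1
      (hP1 P hP).2.2.2 (hne P hP)⟩)
    (fun y => (dyadic (κ := 2 * (k : ℝ)) (by positivity) (w s b)
      (fun P hP => ⟨(hP1 P hP).1, (hP1 P hP).2.1⟩)
      (fun P hP => w_le' hs (hP1 P hP).1 (hP1 P hP).2.1 (hP1 P hP).2.2.2) y).trans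
        (by linarith))
  have hUs : ∀ T, U T ≠ 0 → T ⊆ PU K m ∧ ∑ P ∈ T, P.natDegree ≤ A * m := fun T hT =>
    ⟨(hUV2 T (Or.inl hT)).1.trans hsub, (hUV2 T (Or.inl hT)).2⟩
  have hVs : ∀ T, V T ≠ 0 → T ⊆ PU K m ∧ ∑ P ∈ T, P.natDegree ≤ A * m := fun T hT =>
    ⟨(hUV2 T (Or.inr hT)).1.trans hsub, (hUV2 T (Or.inr hT)).2⟩
  have hvp : ∏ P ∈ PUQ K Q m, (1 - w s b P) = vg Q m s b := rfl
  refine ⟨lam m U, lam m V, lam_bdd fun T => (hUV1 T).1, lam_bdd fun T => (hUV1 T).2, ?_, ?_, ?_, ?_⟩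
  · rintro E (hE | hE) P hP hd
    · exact lam_supp hE P hP hd
    · exact lam_supp hE P hP hd
  · intro f
    rw [Wg_lam s b hUs, Wg_lam s b hVs]
    have h1 := hU1 _ (Finset.filter_subset (fun P => P ∣ Hg s b f) (PUQ K Q m))
    have h2 := hV1 _ (Finset.filter_subset (fun P => P ∣ Hg s b f) (PUQ K Q m))
    by_cases h3 : Sig Q s b m f
    · rw [if_pos ((Sig_iff s b f).1 h3)] at h1 h2
      rw [if_pos h3]
      exact ⟨h1, h2⟩
    · rw [if_neg fun h4 => h3 ((Sig_iff s b f).2 h4)] at h1 h2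
      rw [if_neg h3]
      exact ⟨h1, h2⟩
  · have h1 := main_lam (Q := Q) (w s b) hUs
    unfold w at h1
    rw [h1, ← hvp]
    exact hU2
  · have h1 := main_lam (Q := Q) (w s b) hVs
    unfold w at h1
    rw [h1, ← hvp]
    exact hV2

end Pool.Agent.H985.CG
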