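import Pool.Agent.H985.CG.Stm
import Pool.Agent.H985.CH.CHEN

/-!
# Linear forms over `F_q[X]`, `q` even: the count and the final assembly (helper627 for helper985)

Adapted from `Pool/Agent/H985/CH/CHEN.lean` (helper17).
-/

set_option autoImplicit false
set_option linter.all false

namespace Pool.Agent.H985.CG

open Polynomial Finset
open scoped Classical
open Pool.Agent.H985.Chow (mob)
open Pool.Agent.H985.KP (PA mobg)
open Pool.Agent.H694.Typ (Mn Irn PU mem_Mn mem_Irn mem_PU wt wt_nonneg wt_add irn_one_le q_ge sum_PU)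
open Pool.Agent.H251.SP (Rgh Smo bw cf S_comb)
open Pool.Agent.H251.SP.Asm (rgh_mono rgh_dvd rgh_mul rgh_irr mob_abs mobg_abs MM mem_MM sum_MM)
open Pool.Agent.H985.CH (SqM Bdd Exc)
open Pool.Agent.H985.CH.ChenX (sum_image_le exists_dec not_dvd rgh_one Zs Zs_le Tf Tf_abs num1 num2)

namespace ChenG

section fin
variable {K : Type} [Field K] [Fintype K]

/-- the indicator function of the sifted set -/
noncomputable def si (S : K[X] → Prop) (f : K[X]) : ℝ := if S f then 1 else 0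

/-- a divisor of a polynomial in a reduced class -/
theorem cop {Q ρ D p : K[X]} (hρ : IsCoprime ρ Q) (h : Q ∣ D * p - ρ) : IsCoprime D Q := by
  obtain ⟨t, ht⟩ := h
  obtain ⟨a, b, hab⟩ := hρ
  refine ⟨a * p, b - a * t, ?_⟩
  have e : ρ = D * p - Q * t := by rw [← ht]; ring
  rw [e] at hab
  rw [← hab]
  ring

/-- the sum of `W - 1` over the rough `f` -/
theorem oversum (Q ρ : K[X]) (S : K[X] → Prop) (m n l : ℕ) (WU WV : K[X] → ℝ) (Y ε' : ℝ) (hn : 1 ≤ n)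
    (hl : 1 ≤ l) (hln : l ≤ n) (hn5 : n < 5 * l) (hml : m + 1 ≤ l) (hε' : 0 ≤ ε') (hY : 0 ≤ Y)
    (hρ : IsCoprime ρ Q) (hW : ∀ f, si S f ≤ WU f ∧ WV f ≤ si S f)
    (hP : ∀ (N : ℕ) (D : K[X]), n ≤ 5 * N → N ≤ n → D.Monic → Rgh (m + 1) D → IsCoprime D Q →
      ∑ p ∈ (Irn K N).filter (fun p => Q ∣ D * p - ρ), WU (D * p) ≤
        (1 + ε') * (Y * (Fintype.card K : ℝ) ^ N / N) ∧
        (1 - ε') * (Y * (Fintype.card K : ℝ) ^ N / N) ≤
          ∑ p ∈ (Irn K N).filter (fun p => Q ∣ D * p - ρ), WV (D * p)) :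
    ∑ f ∈ (Mn K n).filter (fun f => Rgh l f ∧ Q ∣ f - ρ), (WU f - si S f) ≤
      7810 * ε' * (Y * (Fintype.card K : ℝ) ^ n / n) := by
  have hq := q_ge (k := K)
  have hn0 : (0 : ℝ) < n := by exact_mod_cast hn
  set s : Finset (Σ _ : K[X], K[X]) := ((MM K (n - l + 1)).filter
    (fun D => Rgh l D ∧ IsCoprime D Q)).sigma
    (fun D => (Irn K (n - D.natDegree)).filter (fun p => Q ∣ D * p - ρ)) with hs
  have h1 : (Mn K n).filter (fun f => Rgh l f ∧ Q ∣ f - ρ) ⊆ s.image (fun x : (Σ _ : K[X], K[X]) => x.1 * x.2) := by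
    intro f hf
    rw [mem_filter, mem_Mn] at hf
    have hf1 : f ≠ 1 := by
      rintro rfl
      have := hf.1.2
      rw [natDegree_one] at this
      omega
    obtain ⟨D, p, hp, hpi, hD, hfD, hDr, hlp, hdeg⟩ := exists_dec hf.1.1 hf1 hf.2.1
    rw [mem_image]
    refine ⟨⟨D, p⟩, ?_, hfD.symm⟩
    rw [hs, mem_sigma, mem_filter, mem_filter, mem_MM, mem_Irn]
    have h2 := hf.1.2
    have h3 : Q ∣ D * p - ρ := by
      rw [← hfD]
      exact hf.2.2
    exact ⟨⟨⟨hD, by show D.natDegree < n - l + 1; omega⟩, hDr, cop hρ h3⟩,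
      ⟨hp, by show p.natDegree = n - D.natDegree; omega, hpi⟩, h3⟩
  have h2 : ∑ f ∈ (Mn K n).filter (fun f => Rgh l f ∧ Q ∣ f - ρ), (WU f - si S f) ≤
      ∑ x ∈ s, (WU (x.1 * x.2) - si S (x.1 * x.2)) :=
    sum_image_le s (fun x : (Σ _ : K[X], K[X]) => x.1 * x.2) (fun f => WU f - si S f)
      (fun f => by linarith [(hW f).1]) _ h1
  have h3 : ∑ x ∈ s, (WU (x.1 * x.2) - si S (x.1 * x.2)) =
      ∑ D ∈ (MM K (n - l + 1)).filter (fun D => Rgh l D ∧ IsCoprime D Q),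
        ∑ p ∈ (Irn K (n - D.natDegree)).filter (fun p => Q ∣ D * p - ρ),
        (WU (D * p) - si S (D * p)) := by
    rw [hs, sum_sigma]
  have h4 : ∀ D ∈ (MM K (n - l + 1)).filter (fun D => Rgh l D ∧ IsCoprime D Q),
        ∑ p ∈ (Irn K (n - D.natDegree)).filter (fun p => Q ∣ D * p - ρ),
        (WU (D * p) - si S (D * p)) ≤
        10 * ε' * (Y * (Fintype.card K : ℝ) ^ n / n) * wt K D.natDegree := by
    intro D hD
    rw [mem_filter, mem_MM] at hD
    obtain ⟨⟨hDm, hDd⟩, hDr, hDQ⟩ := hD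
    have e1 : ∑ p ∈ (Irn K (n - D.natDegree)).filter (fun p => Q ∣ D * p - ρ), (WU (D * p) - si S (D * p)) ≤
        ∑ p ∈ (Irn K (n - D.natDegree)).filter (fun p => Q ∣ D * p - ρ), (WU (D * p) - WV (D * p)) :=
      sum_le_sum fun p _ => by linarith [(hW (D * p)).2]
    have e1' : ∑ p ∈ (Irn K (n - D.natDegree)).filter (fun p => Q ∣ D * p - ρ), (WU (D * p) - WV (D * p)) =
        ∑ p ∈ (Irn K (n - D.natDegree)).filter (fun p => Q ∣ D * p - ρ), WU (D * p) - ∑ p ∈ (Irn K (n - D.natDegree)).filter (fun p => Q ∣ D * p - ρ), WV (D * p) :=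
      sum_sub_distrib _ _
    rw [e1'] at e1
    obtain ⟨e2, e3⟩ := hP (n - D.natDegree) D (by omega) (by omega) hDm (rgh_mono hml hDr) hDQ
    have hN0 : (0 : ℝ) < ((n - D.natDegree : ℕ) : ℝ) := by exact_mod_cast (by omega)
    have e4 : Y * (Fintype.card K : ℝ) ^ (n - D.natDegree) / ((n - D.natDegree : ℕ) : ℝ) ≤
        5 * (Y * (Fintype.card K : ℝ) ^ n / n * wt K D.natDegree) := by
      have e5 : (Fintype.card K : ℝ) ^ (n - D.natDegree) =
          (Fintype.card K : ℝ) ^ n * wt K D.natDegree := by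
        unfold Pool.Agent.H694.Typ.wt
        rw [pow_sub₀ _ (by positivity) (by omega)]
      rw [e5, div_le_iff₀ hN0]
      have e6 : (n : ℝ) ≤ 5 * ((n - D.natDegree : ℕ) : ℝ) := by exact_mod_cast (by omega)
      have e7 : 0 ≤ Y * (Fintype.card K : ℝ) ^ n / n * wt K D.natDegree := by
        have := wt_nonneg (k := K) D.natDegree
        positivity
      calc Y * ((Fintype.card K : ℝ) ^ n * wt K D.natDegree) =
          Y * (Fintype.card K : ℝ) ^ n / n * wt K D.natDegree * n := by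
            field_simp
        _ ≤ Y * (Fintype.card K : ℝ) ^ n / n * wt K D.natDegree *
            (5 * ((n - D.natDegree : ℕ) : ℝ)) := mul_le_mul_of_nonneg_left e6 e7
        _ = _ := by ring
    have e8 := mul_le_mul_of_nonneg_left e4 hε'
    linarith
  rw [h3] at h2
  refine h2.trans ((sum_le_sum h4).trans ?_)
  rw [← mul_sum]
  have h5 := Zs_le (K := K) l (n - l) hl (by omega)
  have h6 : ∑ D ∈ (MM K (n - l + 1)).filter (fun D => Rgh l D ∧ IsCoprime D Q), wt K D.natDegree ≤ 781 := by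
    refine le_trans (sum_le_sum_of_subset_of_nonneg ?_ fun _ _ _ => wt_nonneg _) h5
    intro D hD
    rw [mem_filter] at hD ⊢
    exact ⟨hD.1, hD.2.1⟩
  have h7 : 0 ≤ 10 * ε' * (Y * (Fintype.card K : ℝ) ^ n / n) := by positivity
  have h8 := mul_le_mul_of_nonneg_left h6 h7
  linarith

/-- **the identity with exceptions and weights** -/
theorem ident {n l : ℕ} (Q ρ : K[X]) (S : K[X] → Prop) (δ : ℝ) (φ WU : K[X] → ℝ) (hn : 1 ≤ n)
    (hδ : 0 < δ) (hln : l ≤ n) (hn5 : n < 5 * l) (hc : S_comb) (hφ : ∀ f, |φ f| ≤ 1)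
    (hW : ∀ f, si S f ≤ WU f) :
    |3 * ∑ p ∈ (Irn K n).filter (fun p => Q ∣ p - ρ ∧ S p), φ p| ≤
      |∑ f ∈ (Mn K n).filter (fun f => Rgh l f ∧ Q ∣ f - ρ), WU f * φ f * Tf n δ f| +
      |∑ f ∈ (Mn K n).filter (fun f => Rgh l f ∧ Q ∣ f - ρ), WU f * φ f * (mob f : ℝ)| +
      33 * ∑ f ∈ (Mn K n).filter (fun f => Rgh l f ∧ Q ∣ f - ρ), (WU f - si S f) +
      36 * (((Mn K n).filter (fun f => Rgh l f ∧ Exc n δ f ∧ S f ∧ Q ∣ f - ρ)).card : ℝ) := by
  have hsf0 : ∀ f, 0 ≤ si S f := by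
    intro f
    unfold si
    split_ifs <;> norm_num
  have s1 : 3 * ∑ p ∈ (Irn K n).filter (fun p => Q ∣ p - ρ ∧ S p), φ p =
      ∑ f ∈ (Mn K n).filter (fun f => Rgh l f ∧ Q ∣ f - ρ),
        si S f * φ f * (3 * (if Irreducible f then (1 : ℝ) else 0)) := by
    have e1 : ∑ p ∈ (Irn K n).filter (fun p => Q ∣ p - ρ ∧ S p), φ p =
        ∑ f ∈ Mn K n, (if Irreducible f then (if Q ∣ f - ρ then si S f * φ f else 0) else 0) := by
      unfold Pool.Agent.H694.Typ.Irn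
      rw [sum_filter, sum_filter]
      refine sum_congr rfl fun f _ => ?_
      unfold si
      by_cases h1 : Irreducible f
      · rw [if_pos h1, if_pos h1]
        by_cases h2 : Q ∣ f - ρ
        · rw [if_pos h2]
          by_cases h3 : S f
          · rw [if_pos ⟨h2, h3⟩, if_pos h3, one_mul]
          · rw [if_neg (fun h => h3 h.2), if_neg h3, zero_mul]
        · rw [if_neg (fun h => h2 h.1), if_neg h2]
      · rw [if_neg h1, if_neg h1]
    rw [e1, sum_filter, mul_sum]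
    refine sum_congr rfl fun f hf => ?_
    rw [mem_Mn] at hf
    by_cases h1 : Irreducible f
    · by_cases h2 : Q ∣ f - ρ
      · rw [if_pos h1, if_pos h2, if_pos ⟨rgh_irr hf.1 h1 (by omega), h2⟩, if_pos h1]
        ring
      · rw [if_pos h1, if_neg h2, if_neg (fun h => h2 h.2)]
        ring
    · rw [if_neg h1, if_neg h1]
      split_ifs <;> ring
  have s2 : ∀ f ∈ (Mn K n).filter (fun f => Rgh l f ∧ Q ∣ f - ρ), ¬ Exc n δ f →
      3 * (if Irreducible f then (1 : ℝ) else 0) = Tf n δ f - (mob f : ℝ) := by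
    intro f hf hex
    rw [mem_filter] at hf
    unfold Exc at hex
    rw [not_or, not_or, not_not] at hex
    obtain ⟨h1, h2, h3⟩ := hex
    exact hc K n l δ f hn hδ hf.1 hf.2.1 hn5 h1 h2 (by
      intro D hD hDf
      by_contra h4
      exact h3 ⟨D, hD, hDf, not_lt.1 h4⟩)
  have sT : ∀ f ∈ (Mn K n).filter (fun f => Rgh l f ∧ Q ∣ f - ρ), |Tf n δ f| ≤ 32 := by
    intro f hf
    rw [mem_filter, mem_Mn] at hf
    exact Tf_abs δ hf.1.1 hf.1.2 hf.2.1 hn5
  have s3 : ∀ f ∈ (Mn K n).filter (fun f => Rgh l f ∧ Q ∣ f - ρ),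
      |3 * (if Irreducible f then (1 : ℝ) else 0) - (Tf n δ f - (mob f : ℝ))| ≤ 36 := by
    intro f hf
    have e1 := sT f hf
    have e2 := mob_abs f
    rw [abs_le] at e1 e2 ⊢
    split_ifs <;> constructor <;> linarith [e1.1, e1.2, e2.1, e2.2]
  have s4 : |∑ f ∈ (Mn K n).filter (fun f => Rgh l f ∧ Q ∣ f - ρ),
      si S f * φ f * (3 * (if Irreducible f then (1 : ℝ) else 0) - (Tf n δ f - (mob f : ℝ)))| ≤
      36 * (((Mn K n).filter (fun f => Rgh l f ∧ Exc n δ f ∧ S f ∧ Q ∣ f - ρ)).card : ℝ) := by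
    have e1 : ∑ f ∈ (Mn K n).filter (fun f => Rgh l f ∧ Q ∣ f - ρ),
        si S f * φ f * (3 * (if Irreducible f then (1 : ℝ) else 0) - (Tf n δ f - (mob f : ℝ))) =
        ∑ f ∈ (Mn K n).filter (fun f => Rgh l f ∧ Exc n δ f ∧ S f ∧ Q ∣ f - ρ),
        si S f * φ f * (3 * (if Irreducible f then (1 : ℝ) else 0) -
          (Tf n δ f - (mob f : ℝ))) := by
      symm
      refine sum_subset ?_ ?_
      · intro f hf
        rw [mem_filter] at hf ⊢
        exact ⟨hf.1, hf.2.1, hf.2.2.2.2⟩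
      · intro f hf hf'
        by_cases h1 : Exc n δ f
        · have h2 : ¬ S f := by
            intro h2
            exact hf' (mem_filter.2 ⟨(mem_filter.1 hf).1, (mem_filter.1 hf).2.1, h1, h2,
              (mem_filter.1 hf).2.2⟩)
          unfold si
          rw [if_neg h2]
          ring
        · rw [s2 f hf h1, sub_self, mul_zero]
    rw [e1]
    refine (abs_sum_le_sum_abs _ _).trans ?_
    refine (sum_le_sum (g := fun _ => (36 : ℝ)) fun f hf => ?_).trans ?_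
    · rw [abs_mul, abs_mul]
      have e2 := s3 f (mem_filter.2 ⟨(mem_filter.1 hf).1, (mem_filter.1 hf).2.1,
        (mem_filter.1 hf).2.2.2.2⟩)
      have e3 : |si S f| ≤ 1 := by
        unfold si
        split_ifs <;> simp
      calc |si S f| * |φ f| * _ ≤ 1 * 1 * 36 :=
            mul_le_mul (mul_le_mul e3 (hφ f) (abs_nonneg _) (by norm_num)) e2 (abs_nonneg _)
              (by norm_num)
        _ = 36 := by norm_num
    · rw [sum_const, nsmul_eq_mul, mul_comm]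
  have s5 : |∑ f ∈ (Mn K n).filter (fun f => Rgh l f ∧ Q ∣ f - ρ),
      (WU f - si S f) * φ f * (Tf n δ f - (mob f : ℝ))| ≤
      33 * ∑ f ∈ (Mn K n).filter (fun f => Rgh l f ∧ Q ∣ f - ρ), (WU f - si S f) := by
    refine (abs_sum_le_sum_abs _ _).trans ?_
    rw [mul_sum]
    refine sum_le_sum fun f hf => ?_
    have e0 : 0 ≤ WU f - si S f := by linarith [hW f]
    have e1 := sT f hf
    have e2 := mob_abs f
    have e3 : |Tf n δ f - (mob f : ℝ)| ≤ 33 := by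
      rw [abs_le] at e1 e2 ⊢
      constructor <;> linarith [e1.1, e1.2, e2.1, e2.2]
    rw [abs_mul, abs_mul, abs_of_nonneg e0]
    calc (WU f - si S f) * |φ f| * |Tf n δ f - (mob f : ℝ)| ≤
        (WU f - si S f) * 1 * 33 :=
          mul_le_mul (mul_le_mul_of_nonneg_left (hφ f) e0) e3 (abs_nonneg _) (by linarith)
      _ = _ := by ring
  have s6 : ∑ f ∈ (Mn K n).filter (fun f => Rgh l f ∧ Q ∣ f - ρ),
        si S f * φ f * (3 * (if Irreducible f then (1 : ℝ) else 0)) =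
      ∑ f ∈ (Mn K n).filter (fun f => Rgh l f ∧ Q ∣ f - ρ), WU f * φ f * Tf n δ f -
      ∑ f ∈ (Mn K n).filter (fun f => Rgh l f ∧ Q ∣ f - ρ), WU f * φ f * (mob f : ℝ) -
      ∑ f ∈ (Mn K n).filter (fun f => Rgh l f ∧ Q ∣ f - ρ), (WU f - si S f) * φ f * (Tf n δ f - (mob f : ℝ)) +
      ∑ f ∈ (Mn K n).filter (fun f => Rgh l f ∧ Q ∣ f - ρ),
      si S f * φ f * (3 * (if Irreducible f then (1 : ℝ) else 0) -
        (Tf n δ f - (mob f : ℝ))) := by
    rw [← sum_sub_distrib, ← sum_sub_distrib, ← sum_add_distrib]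
    refine sum_congr rfl fun f _ => ?_
    ring
  rw [s1, s6]
  refine (abs_add_le _ _).trans (add_le_add ((abs_sub _ _).trans (add_le_add (abs_sub _ _) s5)) s4)

/-- if the density vanishes the sifted set is empty -/
theorem empty {k : ℕ} [CharP K 2] (hv : S_vpg) (m n : ℕ) (Q ρ : K[X]) (s b : Fin k → K[X])
    (hQ : Q.Monic) (hs : Slo Q s) (hm : 1 ≤ m) (hmn : m < n) (h0 : ¬ 0 < vg Q m s b) :
    vg Q m s b = 0 ∧ (Irn K n).filter (fun p => Q ∣ p - ρ ∧ Sig Q s b m p) = ∅ := by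
  obtain ⟨c, hc, hv⟩ := hv K k
  obtain ⟨v1, v2, v3⟩ := hv m Q s b hQ hs hm
  have h1 : ¬ ∀ P ∈ PU K m, ¬ P ∣ Q → ∃ r : K[X], ¬ P ∣ r ∧ ∀ i, ¬ P ∣ s i * r + b i := by
    intro h2
    refine h0 (lt_of_lt_of_le ?_ (v2 h2))
    have : (0 : ℝ) < m := by exact_mod_cast hm
    positivity
  push Not at h1
  obtain ⟨P, hP, hPQ, h2⟩ := h1
  refine ⟨v3 ⟨P, hP, hPQ, h2⟩, ?_⟩
  rw [filter_eq_empty_iff]
  intro p hp hS
  rw [mem_Irn] at hp
  rw [mem_PU] at hP
  obtain ⟨i, hi⟩ := h2 p (not_dvd hp.1 hp.2.2 hp.2.1 hP.1 hP.2.1 hP.2.2 hmn)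
  have h3 := hS.2 i P hP.1 hP.2.1 hi hPQ
  omega

end fin

end ChenG

open ChenG

/-- **Task CG-CHEN (second part).** -/
theorem cntg (hv : S_vpg) (hp : S_prsg) : S_cntg := by
  intro K _ _ _ Q hQ
  obtain ⟨φ, hφ, hp⟩ := hp K Q hQ
  refine ⟨φ, hφ, ?_⟩
  intro k s ε hs hε
  obtain ⟨A, κ, hκ, n₀, hpr⟩ := hp k s (ε * φ) hs (by positivity)
  refine ⟨min κ (1 / 2), lt_min hκ (by norm_num), n₀ + 1, ?_⟩
  intro n hn m ρ b hm hmn hρ
  have hn0 : (0 : ℝ) < n := by exact_mod_cast (by omega)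
  have h1 : (m : ℝ) ≤ κ * n := hmn.trans (mul_le_mul_of_nonneg_right (min_le_left _ _) hn0.le)
  have h2 : (m : ℝ) ≤ 1 / 2 * n := hmn.trans (mul_le_mul_of_nonneg_right (min_le_right _ _) hn0.le)
  have h3 : m < n := by
    have : (m : ℝ) < n := by linarith
    exact_mod_cast this
  by_cases h0 : 0 < vg Q m s b
  · obtain ⟨lamU, lamV, -, -, hW, hP⟩ := hpr n (by omega) m b hm h1 h0
    obtain ⟨e1, e2⟩ := hP n 1 ρ (by omega) le_rfl monic_one (rgh_one _) isCoprime_one_left hρ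
    have e3 : (((Irn K n).filter (fun p => Q ∣ p - ρ ∧ Sig Q s b m p)).card : ℝ) =
        ∑ p ∈ (Irn K n).filter (fun p => Q ∣ p - ρ), (if Sig Q s b m p then (1 : ℝ) else 0) := by
      rw [← filter_filter, card_filter]
      push_cast
      rfl
    have hf : (Irn K n).filter (fun p => Q ∣ 1 * p - ρ) = (Irn K n).filter (fun p => Q ∣ p - ρ) :=
      filter_congr fun p _ => by rw [one_mul]
    rw [hf] at e1 e2
    have e4 : ∑ p ∈ (Irn K n).filter (fun p => Q ∣ p - ρ), (if Sig Q s b m p then (1 : ℝ) else 0) ≤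
        ∑ p ∈ (Irn K n).filter (fun p => Q ∣ p - ρ), Wg Q s b lamU (A * m) (1 * p) := by
      refine sum_le_sum fun p _ => ?_
      rw [one_mul]
      exact (hW p).1
    have e5 : ∑ p ∈ (Irn K n).filter (fun p => Q ∣ p - ρ), Wg Q s b lamV (A * m) (1 * p) ≤
        ∑ p ∈ (Irn K n).filter (fun p => Q ∣ p - ρ), (if Sig Q s b m p then (1 : ℝ) else 0) := by
      refine sum_le_sum fun p _ => ?_
      rw [one_mul]
      exact (hW p).2
    have e6 : ε * φ * (vg Q m s b * (Fintype.card K : ℝ) ^ n / (n * φ)) =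
        ε * (vg Q m s b * (Fintype.card K : ℝ) ^ n / n) := by
      field_simp
    rw [abs_le, e3]
    constructor <;> linarith
  · obtain ⟨e1, e2⟩ := empty hv m n Q ρ s b hQ hs hm h3 h0
    rw [e1, e2]
    simp

/-- **Task CG-CHEN (first part).** -/
theorem cheng (hc : S_comb) (ha : S_mainag) (hB : S_mainbg) (hf : S_fewg) (hv : S_vpg)
    (hp : S_prsg) : S_cheng := by
  intro K _ _ _ k Q g s ε hQ hg hs hε
  have hq := q_ge (k := K)
  obtain ⟨φ, hφ, hp⟩ := hp K Q hQ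
  obtain ⟨C, hC0, hC⟩ := hf K k Q s hQ hs
  obtain ⟨c, hc0, hvp⟩ := hv K k
  obtain ⟨η, hη⟩ : ∃ η : ℝ, η = min (1 / 100) (ε / (72 * C)) := ⟨_, rfl⟩
  have hη0 : 0 < η := by
    rw [hη]
    exact lt_min (by norm_num) (by positivity)
  have hη1 : η ≤ 1 / 100 := by
    rw [hη]
    exact min_le_left _ _
  have hη2 : 72 * C * η ≤ ε := by
    have h1 : η ≤ ε / (72 * C) := by
      rw [hη]
      exact min_le_right _ _
    rw [le_div_iff₀ (by positivity)] at h1
    linarith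
  obtain ⟨A, κ₁, hκ₁, n₁, h₁⟩ := hp k s (ε * φ / 300000) hs (by positivity)
  obtain ⟨κ₂, hκ₂, n₂, h₂⟩ := hC η η hη0 hη1 hη0 (by linarith)
  obtain ⟨θ₁, hθ₁, n₃, h₃⟩ := ha K k (k + 2) Q g s η hQ hg hs hη0 hη1
  obtain ⟨θ₂, hθ₂, n₄, h₄⟩ := hB K k (k + 2) Q g s η η hQ hg hs hη0 hη1 hη0
  obtain ⟨κ, hκ⟩ : ∃ κ : ℝ, κ = min (min κ₁ κ₂) (min (min (θ₁ / (A + 1)) (θ₂ / (A + 1))) (1 / 10)) :=
    ⟨_, rfl⟩
  have hκ0 : 0 < κ := by
    rw [hκ]
    refine lt_min (lt_min hκ₁ hκ₂) (lt_min (lt_min ?_ ?_) (by norm_num)) <;> positivity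
  have k1 : κ ≤ κ₁ := by
    rw [hκ]
    exact (min_le_left _ _).trans (min_le_left _ _)
  have k2 : κ ≤ κ₂ := by
    rw [hκ]
    exact (min_le_left _ _).trans (min_le_right _ _)
  have k3 : κ ≤ θ₁ / (A + 1) := by
    rw [hκ]
    exact (min_le_right _ _).trans ((min_le_left _ _).trans (min_le_left _ _))
  have k4 : κ ≤ θ₂ / (A + 1) := by
    rw [hκ]
    exact (min_le_right _ _).trans ((min_le_left _ _).trans (min_le_right _ _))
  have k5 : κ ≤ 1 / 10 := by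
    rw [hκ]
    exact (min_le_right _ _).trans (min_le_right _ _)
  refine ⟨κ, hκ0, n₁ + n₂ + n₃ + n₄ + 10 + ⌈2 / (ε * c)⌉₊, ?_⟩
  intro n hn m ρ b i₀ hm hmn hρ hsh
  have hn10 : (10 : ℝ) ≤ n := by exact_mod_cast (by omega)
  have hn0 : (0 : ℝ) < n := by linarith
  have hm10 : (m : ℝ) ≤ 1 / 10 * n := hmn.trans (mul_le_mul_of_nonneg_right k5 hn0.le)
  have hmltn : m < n := by
    have : (m : ℝ) < n := by linarith
    exact_mod_cast this
  by_cases h0 : 0 < vg Q m s b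
  swap
  · obtain ⟨e1, e2⟩ := empty hv m n Q ρ s b hQ hs hm hmltn h0
    rw [e1, e2]
    simp
  -- the parameters
  obtain ⟨l, hl⟩ : ∃ l : ℕ, l = ⌊(1 / 4 - η) * n⌋₊ + 1 := ⟨_, rfl⟩
  have hk0 : 0 ≤ (1 / 4 - η) * n := by
    have : 0 ≤ 1 / 4 - η := by linarith
    positivity
  have hlge : (1 / 4 - η) * n ≤ l := by
    rw [hl]
    push_cast
    exact (Nat.lt_floor_add_one _).le
  have hlle : (l : ℝ) ≤ (1 / 4 - η) * n + 1 := by
    rw [hl]
    push_cast
    have := Nat.floor_le hk0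
    linarith
  have hl1 : 1 ≤ l := by omega
  have hl5 : n < 5 * l := by
    have e1 : (n : ℝ) < 5 * l := by nlinarith
    exact_mod_cast e1
  have hln : l ≤ n := by
    have e1 : (l : ℝ) ≤ n := by nlinarith
    exact_mod_cast e1
  have hml : m + 1 ≤ l := by
    have e1 : (m : ℝ) + 1 ≤ l := by nlinarith
    exact_mod_cast e1
  have hA0 : (0 : ℝ) < (A : ℝ) + 1 := by positivity
  have hm0 : (0 : ℝ) ≤ m := Nat.cast_nonneg _
  have hy : ∀ θ : ℝ, κ ≤ θ / (A + 1) → ((A * m : ℕ) : ℝ) ≤ θ * n := by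
    intro θ hθ
    rw [le_div_iff₀ hA0] at hθ
    push_cast
    calc (A : ℝ) * m ≤ (A + 1) * m := by linarith
      _ ≤ (A + 1) * (κ * n) := mul_le_mul_of_nonneg_left hmn hA0.le
      _ = κ * (A + 1) * n := by ring
      _ ≤ θ * n := mul_le_mul_of_nonneg_right hθ hn0.le
  obtain ⟨lamU, lamV, hU, hV, hW, hP⟩ := h₁ n (by omega) m b hm
    (hmn.trans (mul_le_mul_of_nonneg_right k1 hn0.le)) h0
  have a1 := h₃ n (by omega) l (A * m) ρ b i₀ lamU hlge hlle (hy θ₁ k3) hρ hsh hU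
  have a2 := h₄ n (by omega) l (A * m) ρ b i₀ lamU hlge hlle (hy θ₂ k4) hρ hsh hU
  have a3 := h₂ n (by omega) l m ρ b hlge hm (hmn.trans (mul_le_mul_of_nonneg_right k2 hn0.le)) h0 hρ
  have a4 := oversum Q ρ (Sig Q s b m) m n l (Wg Q s b lamU (A * m)) (Wg Q s b lamV (A * m))
    (vg Q m s b / φ) (ε * φ / 300000) (by omega) hl1 hln hl5 hml (by positivity)
    (div_nonneg h0.le hφ.le) hρ hW (fun N D b1 b2 b3 b4 b5 => by
      have hh : ∀ x : ℝ, x * (vg Q m s b / φ * (Fintype.card K : ℝ) ^ N / N) =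
          x * (vg Q m s b * (Fintype.card K : ℝ) ^ N / (N * φ)) := by
        intro x
        congr 1
        rw [div_mul_eq_mul_div, div_div, mul_comm φ]
      rw [hh, hh]
      exact hP N D ρ b1 b2 b3 b4 b5 hρ)
  have a5 := ident (n := n) (l := l) Q ρ (Sig Q s b m) η (fun f => (mobg g (s i₀ * f + b i₀) : ℝ))
    (Wg Q s b lamU (A * m)) (by omega) hη0 hln hl5 hc (fun f => mobg_abs _ _) (fun f => (hW f).1)
  obtain ⟨Y, hY⟩ : ∃ Y : ℝ, Y = vg Q m s b * (Fintype.card K : ℝ) ^ n / n := ⟨_, rfl⟩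
  have hqn : (0 : ℝ) < (Fintype.card K : ℝ) ^ n := by positivity
  have hY0 : 0 < Y := by
    rw [hY]
    positivity
  -- the density is not too small
  have b1 : c / (n : ℝ) ^ k ≤ vg Q m s b := by
    have e1 : c / (m : ℝ) ^ k ≤ vg Q m s b := by
      refine (hvp m Q s b hQ hs hm).2.1 ?_
      by_contra h5
      push Not at h5
      have h6 := (hvp m Q s b hQ hs hm).2.2 h5
      linarith
    refine le_trans ?_ e1
    have hm1 : (1 : ℝ) ≤ m := by exact_mod_cast hm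
    have hmn' : (m : ℝ) ≤ n := by exact_mod_cast hmltn.le
    gcongr
  have b2 : (Fintype.card K : ℝ) ^ n / (n : ℝ) ^ (k + 2) ≤ ε / 2 * Y := by
    have e1 : 2 / (ε * c) ≤ n := by
      refine (Nat.le_ceil _).trans ?_
      exact_mod_cast (show ⌈2 / (ε * c)⌉₊ ≤ n by omega)
    rw [div_le_iff₀ (by positivity)] at e1
    rw [hY]
    exact num2 k hε hc0 hn0 hqn e1 b1
  have b3 : 36 * (C * (η ^ 3 + η) * Y) ≤ ε * Y := num1 hC0 hη0 hη1 hη2 hY0
  have b4 : 33 * (7810 * (ε * φ / 300000) * (Y / φ)) ≤ ε * Y := by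
    have e1 : 33 * (7810 * (ε * φ / 300000) * (Y / φ)) = 33 * (7810 * (ε / 300000) * Y) := by
      field_simp
    rw [e1]
    have : 0 ≤ ε * Y := by positivity
    linarith
  have hYφ : vg Q m s b / φ * (Fintype.card K : ℝ) ^ n / n = Y / φ := by
    rw [hY]
    field_simp
  rw [hYφ] at a4
  rw [← hY] at a3 ⊢
  rw [abs_mul, abs_of_pos (show (0 : ℝ) < 3 by norm_num)] at a5
  have a6 : |∑ f ∈ (Mn K n).filter (fun f => Rgh l f ∧ Q ∣ f - ρ), Wg Q s b lamU (A * m) f *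
      (mobg g (s i₀ * f + b i₀) : ℝ) * Tf n η f| ≤
      (Fintype.card K : ℝ) ^ n / (n : ℝ) ^ (k + 2) := a2
  have b5 := mul_le_mul_of_nonneg_left a4 (show (0 : ℝ) ≤ 33 by norm_num)
  have b6 := mul_le_mul_of_nonneg_left a3 (show (0 : ℝ) ≤ 36 by norm_num)
  linarith

end Pool.Agent.H985.CG

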