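import Pool.Agent.H985.CG.Stm
import Pool.Agent.H985.CH.FEWS

set_option autoImplicit false

/-!
Task FEW of the project CG (helper985), proved by helper763; adaptation of
`Pool/Agent/H985/CH/FEWS.lean` (helper333) and `Pool/Agent/H251/SP/FEW.lean` (helper166).
-/

namespace Pool.Agent.H985.CG

open Polynomial Finset
open scoped Classical
open Pool.Agent.H985.KP (PA)
open Pool.Agent.H694.Typ (Mn Irn PU mem_Mn mem_Irn irn_one_le q_ge coprime_of_ne sq_bound)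
open Pool.Agent.H251.SP (Rgh)
open Pool.Agent.H251.SP.FewN
open Pool.Agent.H985.CH (Exc Bdd SqM)

namespace FewgAux

theorem coprime_of_dvd_sub {K : Type} [Field K] {Q D ρ p : K[X]} (h : IsCoprime ρ Q)
    (hd : Q ∣ D * p - ρ) : IsCoprime D Q := by
  obtain ⟨t, ht⟩ := hd
  obtain ⟨a, b, hab⟩ := h
  refine ⟨a * p, b - a * t, ?_⟩
  linear_combination a * ht + hab

end FewgAux

theorem fewg (hv : S_vpg) (hp : S_prsg) : S_fewg := by
  intro K _ _ _ k Q s hQ hs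
  obtain ⟨c, hc, hvp⟩ := hv K k
  obtain ⟨φ, hφ, hprs0⟩ := hp K Q hQ
  refine ⟨80000 * (1 + 1 / φ), by positivity, ?_⟩
  intro ε δ hε hε1 hδ hδ1
  have hq := q_ge (k := K)
  obtain ⟨A, κ, hκ, n₁, hprs⟩ := hprs0 k s 1 hs one_pos
  -- the choice of n₀
  have ht : Filter.Tendsto (fun m : ℕ => (m : ℝ) ^ (k + 1) * (1 / 2 : ℝ) ^ m) Filter.atTop
      (nhds 0) := tendsto_pow_const_mul_const_pow_of_lt_one (k + 1) (by norm_num) (by norm_num)
  have hev := (ht.eventually (ge_mem_nhds (show (0 : ℝ) < ε ^ 3 * c / 5 ^ (k + 1) by positivity)))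
  obtain ⟨m₀, hm₀⟩ := Filter.eventually_atTop.1 hev
  refine ⟨min κ (1 / 10), lt_min hκ (by norm_num),
    max (max (max 100 (5 * m₀)) (max (⌈1 / ε⌉₊) (⌈1 / δ⌉₊))) n₁, ?_⟩
  intro n hn k₁ m ρ b hk hm1 hmκ hvp0 hρ
  have hn5 : n₁ ≤ n := (le_max_right _ _).trans hn
  replace hn := (le_max_left _ _).trans hn
  have hn1 : 100 ≤ n := (le_max_left _ _).trans ((le_max_left _ _).trans hn)
  have hn2 : 5 * m₀ ≤ n := (le_max_right _ _).trans ((le_max_left _ _).trans hn)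
  have hn3 : 1 / ε ≤ n := Nat.ceil_le.1 ((le_max_left _ _).trans ((le_max_right _ _).trans hn))
  have hn4 : 1 / δ ≤ n := Nat.ceil_le.1 ((le_max_right _ _).trans ((le_max_right _ _).trans hn))
  have hn' : (100 : ℝ) ≤ n := by exact_mod_cast hn1
  have hn0 : (0 : ℝ) < n := by linarith
  have hmκ1 : (m : ℝ) ≤ κ * n := hmκ.trans (mul_le_mul_of_nonneg_right (min_le_left _ _) hn0.le)
  have hmκ2 : (m : ℝ) ≤ 1 / 10 * n :=
    hmκ.trans (mul_le_mul_of_nonneg_right (min_le_right _ _) hn0.le)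
  obtain ⟨Sf, hSf⟩ : ∃ Sf : K[X] → Prop, ∀ f, Sf f ↔ (Sig Q s b m f ∧ Q ∣ f - ρ) :=
    ⟨fun f => Sig Q s b m f ∧ Q ∣ f - ρ, fun f => Iff.rfl⟩
  -- the sieve bound
  obtain ⟨lamU, lamV, -, -, hind, hsum⟩ := hprs n hn5 m b hm1 hmκ1 hvp0
  have hU : Pool.Agent.H985.CH.Fews.Up n m (2 * (vg Q m s b / φ)) Sf := by
    intro N D h1 h2 hD hR
    by_cases hDQ : IsCoprime D Q
    · have e := (hsum N D ρ h1 h2 hD hR hDQ hρ).1
      have e1 : (((Irn K N).filter (fun p => Sf (D * p))).card : ℝ) =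
          ∑ p ∈ (Irn K N).filter (fun p => Q ∣ D * p - ρ),
            (if Sig Q s b m (D * p) then (1 : ℝ) else 0) := by
        have e2 : (Irn K N).filter (fun p => Sf (D * p)) =
            ((Irn K N).filter (fun p => Q ∣ D * p - ρ)).filter
              (fun p => Sig Q s b m (D * p)) := by
          rw [filter_filter]
          refine filter_congr fun p _ => ?_
          rw [hSf]
          exact And.comm
        rw [e2, card_filter]
        push_cast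
        rfl
      rw [e1]
      refine (sum_le_sum fun p _ => (hind (D * p)).1).trans (e.trans (le_of_eq ?_))
      have hφ' := hφ.ne'
      by_cases hN : (N : ℝ) = 0
      · rw [hN]
        simp
      · field_simp
        ring
    · have e2 : (Irn K N).filter (fun p => Sf (D * p)) = ∅ := by
        rw [filter_eq_empty_iff]
        intro p _ hp'
        exact hDQ (FewgAux.coprime_of_dvd_sub hρ ((hSf _).1 hp').2)
      rw [e2, card_empty]
      push_cast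
      positivity
  have hV : 0 ≤ 2 * (vg Q m s b / φ) := by positivity
  set k₀ := ⌈(1 / 4 - ε) * n⌉₊ with hk₀
  have e1 : (1 / 4 - ε) * n ≤ k₀ := Nat.le_ceil _
  have e2 : (k₀ : ℝ) < (1 / 4 - ε) * n + 1 := by
    apply Nat.ceil_lt_add_one
    have : (0 : ℝ) ≤ 1 / 4 - ε := by linarith
    positivity
  have e3 : ε * n ≤ 1 / 100 * n := by gcongr
  have e4 : 0 < ε * n := by positivity
  have e5 : (24 / 100 : ℝ) * n ≤ k₀ := by linarith
  have e6 : (k₀ : ℝ) ≤ 45 / 100 * n := by linarith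
  have e7 : k₀ ≤ k₁ := by
    rw [hk₀, Nat.ceil_le]
    exact hk
  have hk1 : 1 ≤ k₀ := by
    have : (1 : ℝ) ≤ k₀ := by linarith
    exact_mod_cast this
  have hmk : m + 1 ≤ k₀ := by
    have : (m : ℝ) + 1 ≤ k₀ := by linarith
    exact_mod_cast this
  have h5 : n < 5 * k₀ := by
    have : (n : ℝ) < 5 * k₀ := by linarith
    exact_mod_cast this
  have hsub : (Mn K n).filter (fun f => Rgh k₁ f ∧ Exc n δ f ∧ Sig Q s b m f ∧ Q ∣ f - ρ) ⊆
      ((Mn K n).filter (fun f => Rgh k₀ f ∧ ¬ Squarefree f)) ∪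
      (((Mn K n).filter (fun f => Rgh k₀ f ∧ (PA f).ncard = 4 ∧ Sf f)) ∪
      ((Mn K n).filter (fun f => Rgh k₀ f ∧ (∃ D : K[X], D.Monic ∧ D ∣ f ∧
        |2 * (D.natDegree : ℝ) - n| ≤ δ * n) ∧ Sf f))) := by
    intro f hf
    rw [mem_filter] at hf
    rw [mem_union, mem_union, mem_filter, mem_filter, mem_filter]
    obtain ⟨h1, h2, h3, h6⟩ := hf
    have h4 := rgh_mono h2 e7
    rcases h3 with h3 | h3 | h3
    · exact Or.inl ⟨h1, h4, h3⟩
    · exact Or.inr (Or.inl ⟨h1, h4, h3, (hSf f).2 h6⟩)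
    · exact Or.inr (Or.inr ⟨h1, h4, h3, (hSf f).2 h6⟩)
  have hc1 := (card_le_card hsub).trans
    ((card_union_le _ _).trans (Nat.add_le_add_left (card_union_le _ _) _))
  have hc' := (Nat.cast_le (α := ℝ)).2 hc1
  push_cast at hc'
  -- the density is not too small
  have hvlow : c / (n : ℝ) ^ k ≤ vg Q m s b := by
    obtain ⟨-, v1, v2⟩ := hvp m Q s b hQ hs hm1
    have v3 : ∀ P ∈ PU K m, ¬ P ∣ Q → ∃ r : K[X], ¬ P ∣ r ∧ ∀ i, ¬ P ∣ s i * r + b i := by
      by_contra hcon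
      push Not at hcon
      obtain ⟨P, hP, hPQ, hP'⟩ := hcon
      exact hvp0.ne' (v2 ⟨P, hP, hPQ, hP'⟩)
    refine le_trans ?_ (v1 v3)
    have hm' : (1 : ℝ) ≤ m := by exact_mod_cast hm1
    have : (m : ℝ) ≤ n := by linarith
    gcongr
  have b1 : (((Mn K n).filter (fun f => Rgh k₀ f ∧ ¬ Squarefree f)).card : ℝ) ≤
      vg Q m s b * (Fintype.card K : ℝ) ^ n * (ε ^ 3 / n) := by
    refine ((Nat.cast_le (α := ℝ)).2 (card_le_card (s1_sub n k₀ hk1))).trans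
      ((sq_bound n (k₀ - 1)).trans ?_)
    have hm1' : (n : ℝ) ≤ 5 * ((k₀ - 1 : ℕ) : ℝ) := by
      rw [Nat.cast_sub hk1]
      push_cast
      linarith
    have hm2 : m₀ ≤ k₀ - 1 := by
      have : (5 * m₀ : ℝ) ≤ 5 * ((k₀ - 1 : ℕ) : ℝ) := by
        have : ((5 * m₀ : ℕ) : ℝ) ≤ n := by exact_mod_cast hn2
        push_cast at this
        linarith
      have : (m₀ : ℝ) ≤ ((k₀ - 1 : ℕ) : ℝ) := by linarith
      exact_mod_cast this
    have hm3 := hm₀ (k₀ - 1) hm2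
    have hp0 : (0 : ℝ) ≤ (1 / 2 : ℝ) ^ (k₀ - 1) := by positivity
    have hm4 : (1 / 2 : ℝ) ^ (k₀ - 1) * (n : ℝ) ^ (k + 1) ≤ ε ^ 3 * c := by
      calc (1 / 2 : ℝ) ^ (k₀ - 1) * (n : ℝ) ^ (k + 1) ≤
          (1 / 2 : ℝ) ^ (k₀ - 1) * (5 * ((k₀ - 1 : ℕ) : ℝ)) ^ (k + 1) := by gcongr
        _ = 5 ^ (k + 1) * ((((k₀ - 1 : ℕ) : ℝ)) ^ (k + 1) * (1 / 2 : ℝ) ^ (k₀ - 1)) := by
            rw [mul_pow]
            ring
        _ ≤ 5 ^ (k + 1) * (ε ^ 3 * c / 5 ^ (k + 1)) := by gcongr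
        _ = ε ^ 3 * c := by field_simp
    have hm5 : (1 / 2 : ℝ) ^ (k₀ - 1) ≤ c / (n : ℝ) ^ k * (ε ^ 3 / n) := by
      have e8 : c / (n : ℝ) ^ k * (ε ^ 3 / n) = ε ^ 3 * c / (n : ℝ) ^ (k + 1) := by
        rw [pow_succ (n : ℝ) k, div_mul_div_comm, mul_comm c]
      rw [e8, le_div_iff₀ (by positivity)]
      exact hm4
    have hm6 : c / (n : ℝ) ^ k * (ε ^ 3 / n) ≤ vg Q m s b * (ε ^ 3 / n) :=
      mul_le_mul_of_nonneg_right hvlow (by positivity)
    calc (Fintype.card K : ℝ) ^ n * (1 / 2 : ℝ) ^ (k₀ - 1) ≤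
        (Fintype.card K : ℝ) ^ n * (vg Q m s b * (ε ^ 3 / n)) := by
          refine mul_le_mul_of_nonneg_left (hm5.trans hm6) (by positivity)
      _ = _ := by ring
  have b2 : (((Mn K n).filter (fun f => Rgh k₀ f ∧ (PA f).ncard = 4 ∧ Sf f)).card : ℝ) ≤
      vg Q m s b / φ * (Fintype.card K : ℝ) ^ n * (78000 * ε ^ 3 / n) := by
    refine (Pool.Agent.H985.CH.Fews.b_card hV hU hk1 hmk h5).trans ?_
    have c1 : ((n + 1 - 4 * k₀ : ℕ) : ℝ) ≤ 5 * (ε * n) := by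
      have hen : 1 ≤ ε * n := by
        rw [div_le_iff₀ hε] at hn3
        linarith
      rcases le_total (n + 1) (4 * k₀) with h | h
      · rw [Nat.sub_eq_zero_of_le h]
        push_cast
        linarith
      · rw [Nat.cast_sub h]
        push_cast
        linarith
    have hk0 : (0 : ℝ) < k₀ := by linarith
    calc ((n + 1 - 4 * k₀ : ℕ) : ℝ) ^ 3 *
        (2 * (vg Q m s b / φ) * (Fintype.card K : ℝ) ^ n / (k₀ : ℝ) ^ 4) ≤
        (5 * (ε * n)) ^ 3 *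
          (2 * (vg Q m s b / φ) * (Fintype.card K : ℝ) ^ n / (24 / 100 * n : ℝ) ^ 4) := by gcongr
      _ = vg Q m s b / φ * (Fintype.card K : ℝ) ^ n * ((250 * (100 / 24) ^ 4) * ε ^ 3 / n) := by
        field_simp
        norm_num
      _ ≤ _ := by
        gcongr
        norm_num
  have b3 := Pool.Agent.H985.CH.Fews.c_card hV hU hδ hδ1 hn1 hmk e5 e6
  have b4 : (δ * n + 1) * (200 * (2 * (vg Q m s b / φ)) * (Fintype.card K : ℝ) ^ n /
      (n : ℝ) ^ 2) ≤ vg Q m s b / φ * (Fintype.card K : ℝ) ^ n * (800 * δ / n) := by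
    have hen : 1 ≤ δ * n := by
      rw [div_le_iff₀ hδ] at hn4
      linarith
    calc (δ * n + 1) * (200 * (2 * (vg Q m s b / φ)) * (Fintype.card K : ℝ) ^ n / (n : ℝ) ^ 2) ≤
        (δ * n + δ * n) *
          (200 * (2 * (vg Q m s b / φ)) * (Fintype.card K : ℝ) ^ n / (n : ℝ) ^ 2) := by
          gcongr
      _ = _ := by
        field_simp
        ring
  refine hc'.trans ((add_le_add b1 (add_le_add b2 (b3.trans b4))).trans ?_)
  have : vg Q m s b * (Fintype.card K : ℝ) ^ n * (ε ^ 3 / n) +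
      (vg Q m s b / φ * (Fintype.card K : ℝ) ^ n * (78000 * ε ^ 3 / n) +
      vg Q m s b / φ * (Fintype.card K : ℝ) ^ n * (800 * δ / n)) =
      (ε ^ 3 + (78000 * ε ^ 3 + 800 * δ) * (1 / φ)) *
        (vg Q m s b * (Fintype.card K : ℝ) ^ n / n) := by ring
  rw [this]
  have hx : 0 ≤ ε ^ 3 := by positivity
  have hφi : 0 ≤ 1 / φ := by positivity
  refine mul_le_mul_of_nonneg_right ?_ (by positivity)
  nlinarith [mul_nonneg hx hφi, mul_nonneg hδ.le hφi]

end Pool.Agent.H985.CG
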