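import Mathlib
import Pool.Agent.H985.CG.Stm
import Pool.Agent.H985.Par.LinFew

/-!
# Dickson with one prime over `F_q[X]`, `q` even (helper985): reduction to one residue class
-/

set_option autoImplicit false

namespace Pool.Agent.H985.CG

open Polynomial Finset
open scoped Classical
open Pool.Agent.H985.Chow (mob)
open Pool.Agent.H985.KP (mobg)
open Pool.Agent.H985.Par (Sft Sft_irr factors_le sqf_sq cop_of_cong prime_not good_class mob_sqf)
open Pool.Agent.H694.Typ (Mn Irn mem_Mn mem_Irn card_Mn PU mem_PU)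
open Pool.Agent.H524.Ext (mob_mul_cop)

variable {K : Type} [Field K] [Fintype K]

/-- the monic `f` of degree `n` with `a₀ f + b₀` irreducible and the other forms sifted -/
noncomputable def Tf (K : Type) [Field K] [Fintype K] {k : ℕ} (a₀ b₀ : K[X]) (a b : Fin k → K[X])
    (n m : ℕ) : Finset K[X] :=
  (Mn K n).filter (fun f => Irreducible (a₀ * f + b₀) ∧ ∀ i, Sft m (a i * f + b i))

/-- monic normalisation -/
noncomputable def nrm (x : K[X]) : K[X] := x * C (x.leadingCoeff)⁻¹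

omit [Fintype K] in
theorem nrm_unit {x : K[X]} (hx : x ≠ 0) : IsUnit (C (x.leadingCoeff)⁻¹ : K[X]) :=
  isUnit_C.2 (IsUnit.mk0 _ (inv_ne_zero (mt leadingCoeff_eq_zero.1 hx)))

omit [Fintype K] in
theorem nrm_monic {x : K[X]} (hx : x ≠ 0) : (nrm x).Monic := monic_mul_leadingCoeff_inv hx

omit [Fintype K] in
theorem nrm_deg (x : K[X]) : (nrm x).natDegree = x.natDegree := by
  unfold nrm
  apply natDegree_mul_leadingCoeff_self_inv

section cls

variable {k : ℕ} (a₀ : K[X]) (a : Fin k → K[X])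

/-- the conductor -/
noncomputable def RR : K[X] := nrm a₀ * ∏ i, nrm (a i)

/-- the modulus for the primes -/
noncomputable def QQ : K[X] := nrm a₀ * RR a₀ a

/-- the constants -/
noncomputable def bb (b₀ : K[X]) (b : Fin k → K[X]) (i : Fin k) : K[X] :=
  (nrm a₀ * b i + a i * (b₀ * C (a₀.leadingCoeff)⁻¹)) * C ((a i).leadingCoeff)⁻¹

variable (ha₀ : a₀ ≠ 0) (ha : ∀ i, a i ≠ 0)

include ha₀ ha in
omit [Fintype K] in
theorem RR_monic : (RR a₀ a).Monic :=
  (nrm_monic ha₀).mul (monic_prod_of_monic _ _ fun i _ => nrm_monic (ha i))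

include ha₀ ha in
omit [Fintype K] in
theorem QQ_monic : (QQ a₀ a).Monic := (nrm_monic ha₀).mul (RR_monic a₀ a ha₀ ha)

omit [Fintype K] in
theorem RR_dvd_QQ : RR a₀ a ∣ QQ a₀ a := dvd_mul_left _ _

omit [Fintype K] in
theorem irr_QQ {P : K[X]} (hP : Irreducible P) (h : P ∣ QQ a₀ a) : P ∣ RR a₀ a := by
  unfold QQ at h
  rcases hP.prime.dvd_or_dvd h with h | h
  · exact h.trans (dvd_mul_right _ _)
  · exact h

include ha in
omit [Fintype K] in
theorem slo : Slo (QQ a₀ a) (fun i => nrm (a i)) := by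
  intro i
  refine ⟨nrm_monic (ha i), fun P _ hd => ?_⟩
  refine (hd.trans ?_).trans (RR_dvd_QQ a₀ a)
  unfold RR
  exact (Finset.dvd_prod_of_mem _ (Finset.mem_univ i)).mul_left _

omit [Fintype K] in
theorem key_id [CharP K 2] (b₀ : K[X]) (b : Fin k → K[X]) (f : K[X]) (i : Fin k) :
    nrm (a i) * (nrm a₀ * f + b₀ * C (a₀.leadingCoeff)⁻¹) + bb a₀ a b₀ b i =
      C ((a i).leadingCoeff)⁻¹ * nrm a₀ * (a i * f + b i) := by
  unfold bb
  rw [show nrm (a i) = a i * C ((a i).leadingCoeff)⁻¹ from rfl]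
  have h2 : (2 : K[X]) = 0 := CharTwo.two_eq_zero
  linear_combination (a i * (b₀ * C (a₀.leadingCoeff)⁻¹) * C ((a i).leadingCoeff)⁻¹) * h2

include ha₀ ha in
omit [Fintype K] in
theorem shg [CharP K 2] (n : ℕ) (b₀ : K[X]) (b : Fin k → K[X]) (h0 : b₀.natDegree < n + a₀.natDegree)
    (hb : ∀ i, (b i).natDegree < n + (a i).natDegree) (hne : ∀ i, a₀ * b i ≠ a i * b₀) :
    Shg (n + a₀.natDegree) (fun i => nrm (a i)) (bb a₀ a b₀ b) := by
  intro i
  constructor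
  · intro h
    apply hne i
    unfold bb at h
    rcases mul_eq_zero.1 h with h | h
    · have h1 : (nrm a₀ * b i + a i * (b₀ * C (a₀.leadingCoeff)⁻¹)) =
          (a₀ * b i + a i * b₀) * C (a₀.leadingCoeff)⁻¹ := by
        unfold nrm
        ring
      rw [h1] at h
      rcases mul_eq_zero.1 h with h | h
      · have h2 := CharTwo.add_eq_zero.1 h
        exact h2
      · exact absurd h (nrm_unit ha₀).ne_zero
    · exact absurd h (nrm_unit (ha i)).ne_zero
  · show (bb a₀ a b₀ b i).natDegree < n + a₀.natDegree + (nrm (a i)).natDegree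
    rw [nrm_deg]
    unfold bb
    have h1 : (C ((a i).leadingCoeff)⁻¹ : K[X]).natDegree = 0 := natDegree_C _
    have h2 := natDegree_mul_le (p := nrm a₀ * b i + a i * (b₀ * C (a₀.leadingCoeff)⁻¹))
      (q := C ((a i).leadingCoeff)⁻¹)
    have h3 := natDegree_add_le (nrm a₀ * b i) (a i * (b₀ * C (a₀.leadingCoeff)⁻¹))
    have h4 := natDegree_mul_le (p := nrm a₀) (q := b i)
    have h5 := natDegree_mul_le (p := a i) (q := b₀ * C (a₀.leadingCoeff)⁻¹)
    have h6 := natDegree_mul_le (p := b₀) (q := C (a₀.leadingCoeff)⁻¹)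
    rw [natDegree_C] at h6
    rw [nrm_deg] at h4
    have h7 := hb i
    have h8 : max (nrm a₀ * b i).natDegree (a i * (b₀ * C (a₀.leadingCoeff)⁻¹)).natDegree <
        n + a₀.natDegree + (a i).natDegree := max_lt (by omega) (by omega)
    omega

include ha₀ ha in
/-- the irreducible polynomials in a class and the polynomials in a class -/
theorem img [CharP K 2] (n m : ℕ) (b₀ : K[X]) (b : Fin k → K[X]) (r : K[X])
    (h0 : b₀.natDegree < n + a₀.natDegree)
    (hr : ∀ i, IsCoprime (a i * r + b i) (RR a₀ a)) :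
    (Irn K (n + a₀.natDegree)).filter (fun p =>
        QQ a₀ a ∣ p - (nrm a₀ * r + b₀ * C (a₀.leadingCoeff)⁻¹) ∧
          Sig (QQ a₀ a) (fun i => nrm (a i)) (bb a₀ a b₀ b) m p) =
      ((Tf K a₀ b₀ a b n m).filter (fun f => RR a₀ a ∣ f - r)).image
        (fun f => nrm a₀ * f + b₀ * C (a₀.leadingCoeff)⁻¹) := by
  have hA := nrm_monic ha₀
  have hA0 := hA.ne_zero
  have hB : (b₀ * C (a₀.leadingCoeff)⁻¹).natDegree < n + a₀.natDegree := by
    have h6 := natDegree_mul_le (p := b₀) (q := C (a₀.leadingCoeff)⁻¹)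
    rw [natDegree_C] at h6
    omega
  have hirr : ∀ f : K[X], Irreducible (a₀ * f + b₀) ↔
      Irreducible (nrm a₀ * f + b₀ * C (a₀.leadingCoeff)⁻¹) := by
    intro f
    have h1 : nrm a₀ * f + b₀ * C (a₀.leadingCoeff)⁻¹ = (a₀ * f + b₀) * C (a₀.leadingCoeff)⁻¹ := by
      unfold nrm
      ring
    rw [h1, irreducible_mul_isUnit (nrm_unit ha₀)]
  have hcop : ∀ f : K[X], RR a₀ a ∣ f - r → ∀ i, IsCoprime (a i * f + b i) (RR a₀ a) := by
    intro f hf i
    refine cop_of_cong (G' := a i * r + b i) ?_ (hr i)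
    have : a i * f + b i - (a i * r + b i) = a i * (f - r) := by ring
    rw [this]
    exact hf.mul_left _
  ext p
  unfold Tf
  rw [mem_filter, mem_image, mem_Irn]
  constructor
  · rintro ⟨⟨h1, h2, h3⟩, h4, h5⟩
    have h6 : nrm a₀ ∣ p - b₀ * C (a₀.leadingCoeff)⁻¹ := by
      have h7 : nrm a₀ ∣ p - (nrm a₀ * r + b₀ * C (a₀.leadingCoeff)⁻¹) :=
        (dvd_mul_right _ _).trans h4
      have h8 : p - b₀ * C (a₀.leadingCoeff)⁻¹ =
          (p - (nrm a₀ * r + b₀ * C (a₀.leadingCoeff)⁻¹)) + nrm a₀ * r := by ring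
      rw [h8]
      exact dvd_add h7 (dvd_mul_right _ _)
    obtain ⟨f, hf⟩ := h6
    have hp : p = nrm a₀ * f + b₀ * C (a₀.leadingCoeff)⁻¹ := by rw [← hf]; ring
    have hlt : (b₀ * C (a₀.leadingCoeff)⁻¹).degree < p.degree := by
      refine lt_of_le_of_lt degree_le_natDegree ?_
      rw [degree_eq_natDegree h1.ne_zero, h2]
      exact_mod_cast hB
    have h9 : (nrm a₀ * f).Monic := by
      rw [← hf]
      exact h1.sub_of_left hlt
    have hfm : f.Monic := hA.of_mul_monic_left h9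
    have h10 : (nrm a₀ * f).natDegree = n + a₀.natDegree := by
      rw [← hf, natDegree_sub_eq_left_of_natDegree_lt (by omega), h2]
    have hfd : f.natDegree = n := by
      rw [hA.natDegree_mul hfm, nrm_deg] at h10
      omega
    have hfr : RR a₀ a ∣ f - r := by
      have h11 : p - (nrm a₀ * r + b₀ * C (a₀.leadingCoeff)⁻¹) = nrm a₀ * (f - r) := by
        rw [hp]; ring
      rw [h11] at h4
      exact (mul_dvd_mul_iff_left hA0).1 h4
    refine ⟨f, ?_, hp.symm⟩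
    rw [mem_filter, mem_filter, mem_Mn]
    refine ⟨⟨⟨hfm, hfd⟩, (hirr f).2 (hp ▸ h3), fun i P hP hPi hPd => ?_⟩, hfr⟩
    have hPR := prime_not hPi (hcop f hfr i) hPd
    have hPQ : ¬ P ∣ QQ a₀ a := fun h => hPR (irr_QQ a₀ a hPi h)
    refine h5 i P hP hPi ?_ hPQ
    show P ∣ nrm (a i) * p + bb a₀ a b₀ b i
    rw [hp, key_id]
    exact hPd.mul_left _
  · rintro ⟨f, hf, rfl⟩
    rw [mem_filter, mem_filter, mem_Mn] at hf
    obtain ⟨⟨⟨h1, h2⟩, h3, h4⟩, h5⟩ := hf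
    have hm : (nrm a₀ * f).Monic := hA.mul h1
    have hmd : (nrm a₀ * f).natDegree = n + a₀.natDegree := by
      rw [hA.natDegree_mul h1, nrm_deg, h2, add_comm]
    have hlt : (b₀ * C (a₀.leadingCoeff)⁻¹).degree < (nrm a₀ * f).degree := by
      refine lt_of_le_of_lt degree_le_natDegree ?_
      rw [degree_eq_natDegree hm.ne_zero, hmd]
      exact_mod_cast hB
    refine ⟨⟨hm.add_of_left hlt, by rw [natDegree_add_eq_left_of_degree_lt hlt, hmd],
      (hirr f).1 h3⟩, ?_, fun i P hP hPi hPd hPQ => ?_⟩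
    · have h11 : nrm a₀ * f + b₀ * C (a₀.leadingCoeff)⁻¹ -
          (nrm a₀ * r + b₀ * C (a₀.leadingCoeff)⁻¹) = nrm a₀ * (f - r) := by ring
      rw [h11]
      exact mul_dvd_mul_left _ h5
    · change P ∣ nrm (a i) * (nrm a₀ * f + b₀ * C (a₀.leadingCoeff)⁻¹) + bb a₀ a b₀ b i at hPd
      rw [key_id, mul_assoc] at hPd
      rcases hPi.prime.dvd_or_dvd hPd with h | h
      · exact absurd (isUnit_of_dvd_unit h (nrm_unit (ha i))) hPi.not_isUnit
      · rcases hPi.prime.dvd_or_dvd h with h | h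
        · exact absurd (h.trans (dvd_mul_right _ _)) hPQ
        · exact h4 i P hP hPi h

include ha₀ ha in
/-- the Moebius function of the forms -/
theorem mobg_eq [CharP K 2] (b₀ : K[X]) (b : Fin k → K[X]) (f t g : K[X]) (hg : g.Monic)
    (htg : nrm a₀ = t * g ^ 2) (i : Fin k) (hc : IsCoprime (a i * f + b i) (RR a₀ a)) :
    mobg g (nrm (a i) * (nrm a₀ * f + b₀ * C (a₀.leadingCoeff)⁻¹) + bb a₀ a b₀ b i) =
      mob (C ((a i).leadingCoeff)⁻¹ * t) * mob (a i * f + b i) := by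
  rw [key_id]
  have h1 : C ((a i).leadingCoeff)⁻¹ * nrm a₀ * (a i * f + b i) =
      g ^ 2 * ((C ((a i).leadingCoeff)⁻¹ * t) * (a i * f + b i)) := by
    rw [htg]
    ring
  unfold mobg
  rw [h1, if_pos (dvd_mul_right _ _), mul_div_cancel_left₀ _ (pow_ne_zero 2 hg.ne_zero),
    mob_mul_cop]
  have h2 : t ∣ RR a₀ a := by
    unfold RR
    rw [htg]
    exact ((dvd_mul_right t _)).mul_right _
  exact ((isCoprime_mul_unit_left_left (nrm_unit (ha i)) _ _).2
    (hc.of_isCoprime_of_dvd_right h2).symm)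

end cls

/-- **One residue class.** -/
theorem cls (hcg : S_cheng) (hcn : S_cntg) (K : Type) [Field K] [Fintype K] [CharP K 2] {k : ℕ}
    (a₀ : K[X]) (a : Fin k → K[X]) (ha₀ : a₀ ≠ 0) (ha : ∀ i, a i ≠ 0) :
    ∃ φ : ℝ, 0 < φ ∧ ∀ ε : ℝ, 0 < ε → ∃ κ : ℝ, 0 < κ ∧ ∃ n₀ : ℕ, ∀ n : ℕ, n₀ ≤ n →
      ∀ (m : ℕ) (b₀ : K[X]) (b : Fin k → K[X]) (r : K[X]), 1 ≤ m → (m : ℝ) ≤ κ * n →
      b₀.natDegree < n + a₀.natDegree → (∀ i, (b i).natDegree < n + (a i).natDegree) →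
      (∀ i, a₀ * b i ≠ a i * b₀) → (∀ i, IsCoprime (a i * r + b i) (RR a₀ a)) →
      IsCoprime (a₀ * r + b₀) (RR a₀ a) →
      |((((Tf K a₀ b₀ a b n m).filter (fun f => RR a₀ a ∣ f - r)).card : ℝ)) -
          vg (QQ a₀ a) m (fun i => nrm (a i)) (bb a₀ a b₀ b) *
            (Fintype.card K : ℝ) ^ (n + a₀.natDegree) / (((n + a₀.natDegree : ℕ) : ℝ) * φ)| ≤
        ε * (vg (QQ a₀ a) m (fun i => nrm (a i)) (bb a₀ a b₀ b) *
            (Fintype.card K : ℝ) ^ (n + a₀.natDegree) / ((n + a₀.natDegree : ℕ) : ℝ)) ∧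
      ∀ j : Fin k, |∑ f ∈ (Tf K a₀ b₀ a b n m).filter (fun f => RR a₀ a ∣ f - r),
          (mob (a j * f + b j) : ℝ)| ≤
        ε * (vg (QQ a₀ a) m (fun i => nrm (a i)) (bb a₀ a b₀ b) *
            (Fintype.card K : ℝ) ^ (n + a₀.natDegree) / ((n + a₀.natDegree : ℕ) : ℝ)) := by
  have hQ := QQ_monic a₀ a ha₀ ha
  have hslo := slo a₀ a ha
  obtain ⟨t, g, hg, ht, htg⟩ := sqf_sq _ (nrm a₀) rfl (nrm_monic ha₀).ne_zero
  obtain ⟨φ, hφ, hcn'⟩ := hcn K (QQ a₀ a) hQ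
  refine ⟨φ, hφ, fun ε hε => ?_⟩
  obtain ⟨κ₁, hκ₁, n₁, h1⟩ := hcg K k (QQ a₀ a) g (fun i => nrm (a i)) ε hQ hg hslo hε
  obtain ⟨κ₂, hκ₂, n₂, h2⟩ := hcn' k (fun i => nrm (a i)) ε hslo hε
  refine ⟨min κ₁ κ₂, lt_min hκ₁ hκ₂, max n₁ n₂, ?_⟩
  intro n hn m b₀ b r hm hmκ h0 hb hne hr hr0
  have hn1 : n₁ ≤ n + a₀.natDegree := (le_trans (le_max_left _ _) hn).trans (Nat.le_add_right _ _)
  have hn2 : n₂ ≤ n + a₀.natDegree := (le_trans (le_max_right _ _) hn).trans (Nat.le_add_right _ _)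
  have hnn : (n : ℝ) ≤ ((n + a₀.natDegree : ℕ) : ℝ) := by exact_mod_cast Nat.le_add_right _ _
  have hm1 : (m : ℝ) ≤ κ₁ * ((n + a₀.natDegree : ℕ) : ℝ) :=
    hmκ.trans (mul_le_mul (min_le_left _ _) hnn (by positivity) hκ₁.le)
  have hm2 : (m : ℝ) ≤ κ₂ * ((n + a₀.natDegree : ℕ) : ℝ) :=
    hmκ.trans (mul_le_mul (min_le_right _ _) hnn (by positivity) hκ₂.le)
  have hsh := shg a₀ a ha₀ ha n b₀ b h0 hb hne
  set ρ : K[X] := nrm a₀ * r + b₀ * C (a₀.leadingCoeff)⁻¹ with hρ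
  have hρ1 : IsCoprime ρ (RR a₀ a) := by
    have h3 : ρ = C (a₀.leadingCoeff)⁻¹ * (a₀ * r + b₀) := by
      rw [hρ]
      unfold nrm
      ring
    rw [h3]
    exact (isCoprime_mul_unit_left_left (nrm_unit ha₀) _ _).2 hr0
  have hρ2 : IsCoprime ρ (QQ a₀ a) := by
    unfold QQ
    refine IsCoprime.mul_right ?_ hρ1
    exact hρ1.of_isCoprime_of_dvd_right (dvd_mul_right _ _)
  have himg := img a₀ a ha₀ ha n m b₀ b r h0 hr
  have hinj : Function.Injective (fun f : K[X] => nrm a₀ * f + b₀ * C (a₀.leadingCoeff)⁻¹) := by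
    intro f f' h
    exact mul_left_cancel₀ (nrm_monic ha₀).ne_zero (add_right_cancel h)
  have h3 := h2 (n + a₀.natDegree) hn2 m ρ (bb a₀ a b₀ b) hm hm2 hρ2
  rw [himg, card_image_of_injective _ hinj] at h3
  refine ⟨h3, fun j => ?_⟩
  have h4 := h1 (n + a₀.natDegree) hn1 m ρ (bb a₀ a b₀ b) j hm hm1 hρ2 hsh
  rw [himg, sum_image (fun f _ f' _ h => hinj h)] at h4
  have hcop : ∀ f : K[X], RR a₀ a ∣ f - r → ∀ i, IsCoprime (a i * f + b i) (RR a₀ a) := by
    intro f hf i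
    refine cop_of_cong (G' := a i * r + b i) ?_ (hr i)
    have : a i * f + b i - (a i * r + b i) = a i * (f - r) := by ring
    rw [this]
    exact hf.mul_left _
  have hut : Squarefree (C ((a j).leadingCoeff)⁻¹ * t) := by
    have h5 : Associated t (C ((a j).leadingCoeff)⁻¹ * t) :=
      (associated_isUnit_mul_right_iff (nrm_unit (ha j))).2 (Associated.refl t) |>.symm.symm
    exact (h5.squarefree_iff).1 ht
  have h6 : ∑ f ∈ (Tf K a₀ b₀ a b n m).filter (fun f => RR a₀ a ∣ f - r),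
      (mobg g (nrm (a j) * (nrm a₀ * f + b₀ * C (a₀.leadingCoeff)⁻¹) + bb a₀ a b₀ b j) : ℝ) =
      (mob (C ((a j).leadingCoeff)⁻¹ * t) : ℝ) *
        ∑ f ∈ (Tf K a₀ b₀ a b n m).filter (fun f => RR a₀ a ∣ f - r),
          (mob (a j * f + b j) : ℝ) := by
    rw [mul_sum]
    refine sum_congr rfl fun f hf => ?_
    rw [mobg_eq a₀ a ha₀ ha b₀ b f t g hg htg j (hcop f (mem_filter.1 hf).2 j)]
    push_cast
    ring
  rw [h6, abs_mul] at h4
  have h7 : |(mob (C ((a j).leadingCoeff)⁻¹ * t) : ℝ)| = 1 := by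
    rcases mob_sqf hut with h | h <;> rw [h] <;> norm_num
  rwa [h7, one_mul] at h4

end Pool.Agent.H985.CG
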