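import Mathlib
import Pool.Agent.H985.CG.Fin1
import Pool.Agent.H985.CH.Few

/-!
# Dickson with one prime over `F_q[X]`, `q` even (helper985): counting
-/

set_option autoImplicit false

namespace Pool.Agent.H985.CG

open Polynomial Finset
open scoped Classical
open Pool.Agent.H985.Chow (mob)
open Pool.Agent.H985.KP (mobg)
open Pool.Agent.H985.Par (Sft Sft_irr factors_le sqf_sq cop_of_cong prime_not good_class mob_sqf)
open Pool.Agent.H694.Typ (Mn Irn mem_Mn mem_Irn card_Mn PU mem_PU)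
open Pool.Agent.H985.CH (mob_val)
open UniqueFactorizationMonoid (factors)

variable {K : Type} [Field K] [Fintype K]

omit [Fintype K] in
theorem form_ne {n : ℕ} {a b f : K[X]} (ha : a ≠ 0) (hb : b.natDegree < n + a.natDegree)
    (hf : f.Monic) (hfd : f.natDegree = n) : a * f + b ≠ 0 := by
  intro h2
  have h3 : a * f = - b := eq_neg_of_add_eq_zero_left h2
  have h4 := congrArg natDegree h3
  rw [natDegree_neg, natDegree_mul ha hf.ne_zero, hfd] at h4
  omega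

omit [Fintype K] in
theorem form_deg {n : ℕ} {a b f : K[X]} (ha : a ≠ 0) (hb : b.natDegree < n + a.natDegree)
    (hf : f.Monic) (hfd : f.natDegree = n) : (a * f + b).natDegree = n + a.natDegree := by
  have h1 : (a * f).natDegree = n + a.natDegree := by
    rw [natDegree_mul ha hf.ne_zero, hfd, add_comm]
  rw [natDegree_add_eq_left_of_natDegree_lt (by omega), h1]

omit [Fintype K] in
theorem form_lc {n : ℕ} {a b f : K[X]} (ha : a ≠ 0) (hb : b.natDegree < n + a.natDegree)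
    (hf : f.Monic) (hfd : f.natDegree = n) : (a * f + b).leadingCoeff = a.leadingCoeff := by
  have h1 : (a * f).natDegree = n + a.natDegree := by
    rw [natDegree_mul ha hf.ne_zero, hfd, add_comm]
  have h2 : b.degree < (a * f).degree := by
    refine lt_of_le_of_lt degree_le_natDegree ?_
    rw [degree_eq_natDegree (mul_ne_zero ha hf.ne_zero), h1]
    exact_mod_cast hb
  rw [leadingCoeff_add_of_degree_lt' h2, leadingCoeff_mul, hf.leadingCoeff, mul_one]

theorem mem_Tf {k : ℕ} {a₀ b₀ : K[X]} {a b : Fin k → K[X]} {n m : ℕ} {f : K[X]} :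
    f ∈ Tf K a₀ b₀ a b n m ↔ (f.Monic ∧ f.natDegree = n) ∧ Irreducible (a₀ * f + b₀) ∧
      ∀ i, Sft m (a i * f + b i) := by
  unfold Tf
  rw [mem_filter, mem_Mn]

/-- those with some value not squarefree -/
theorem bad_card {k : ℕ} (n m : ℕ) (a₀ b₀ : K[X]) (a b : Fin k → K[X]) (ha : ∀ i, a i ≠ 0)
    (hb : ∀ i, (b i).natDegree < n + (a i).natDegree) :
    (((Tf K a₀ b₀ a b n m).filter (fun f => ∃ i, ¬ Squarefree (a i * f + b i))).card : ℝ) ≤
      (∑ i, (Fintype.card K : ℝ) ^ (a i).natDegree) *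
        ((Fintype.card K : ℝ) ^ n * (2 / (Fintype.card K : ℝ) ^ (m + 1))) := by
  have hsub : (Tf K a₀ b₀ a b n m).filter (fun f => ∃ i, ¬ Squarefree (a i * f + b i)) ⊆
      (Finset.univ : Finset (Fin k)).biUnion fun i =>
        (Tf K a₀ b₀ a b n m).filter (fun f => ¬ Squarefree (a i * f + b i)) := by
    intro p hp
    rw [mem_filter] at hp
    obtain ⟨h1, i, hi⟩ := hp
    rw [mem_biUnion]
    exact ⟨i, mem_univ _, mem_filter.2 ⟨h1, hi⟩⟩
  have h1 : ∀ i : Fin k, (((Tf K a₀ b₀ a b n m).filter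
      (fun f => ¬ Squarefree (a i * f + b i))).card : ℝ) ≤
      (Fintype.card K : ℝ) ^ (a i).natDegree *
        ((Fintype.card K : ℝ) ^ n * (2 / (Fintype.card K : ℝ) ^ (m + 1))) := by
    intro i
    have h2 := Pool.Agent.H985.CH.Buchw.card_Sq (K := K) (n + (a i).natDegree) (m + 1) (by omega)
    rw [pow_add] at h2
    have h3 : (((Tf K a₀ b₀ a b n m).filter (fun f => ¬ Squarefree (a i * f + b i))).card : ℝ) ≤
        ((Pool.Agent.H985.CH.Buchw.Sq K (n + (a i).natDegree) (m + 1)).card : ℝ) := by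
      norm_cast
      refine Finset.card_le_card_of_injOn
        (fun f => (a i * f + b i) * C ((a i).leadingCoeff)⁻¹) ?_ ?_
      · intro f hf
        rw [mem_coe, mem_filter, mem_Tf] at hf
        obtain ⟨⟨⟨hf1, hf2⟩, -, hf3⟩, hf4⟩ := hf
        rw [mem_coe]
        unfold Pool.Agent.H985.CH.Buchw.Sq
        rw [mem_filter, mem_Mn]
        have hne := form_ne (ha i) (hb i) hf1 hf2
        refine ⟨⟨?_, ?_⟩, ?_⟩
        · rw [← form_lc (ha i) (hb i) hf1 hf2]
          exact monic_mul_leadingCoeff_inv hne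
        · rw [← form_deg (ha i) (hb i) hf1 hf2, ← form_lc (ha i) (hb i) hf1 hf2]
          apply natDegree_mul_leadingCoeff_self_inv
        · rw [squarefree_iff_irreducible_sq_not_dvd_of_ne_zero hne] at hf4
          push Not at hf4
          obtain ⟨P, hP, hPd⟩ := hf4
          have hu : IsUnit (C (P.leadingCoeff)⁻¹ : K[X]) := nrm_unit hP.ne_zero
          refine ⟨P * C (P.leadingCoeff)⁻¹, monic_mul_leadingCoeff_inv hP.ne_zero,
            (irreducible_mul_isUnit hu).2 hP, ?_, ?_⟩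
          · have h2 := Sft_irr (hf3 i) hP ((dvd_mul_right P P).trans hPd)
            have h3 : (P * C (P.leadingCoeff)⁻¹).natDegree = P.natDegree := by
              apply natDegree_mul_leadingCoeff_self_inv
            omega
          · rw [mul_pow, (hu.pow 2).mul_right_dvd, sq]
            exact hPd.mul_right _
      · intro f _ f' _ hff
        have h4 := mul_right_cancel₀ (nrm_unit (ha i)).ne_zero hff
        exact mul_left_cancel₀ (ha i) (add_right_cancel h4)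
    refine h3.trans (h2.trans (le_of_eq ?_))
    ring
  have h2 := (Finset.card_le_card hsub).trans Finset.card_biUnion_le
  have h3 : (((Tf K a₀ b₀ a b n m).filter (fun f => ∃ i, ¬ Squarefree (a i * f + b i))).card : ℝ) ≤
      ∑ i : Fin k, (((Tf K a₀ b₀ a b n m).filter
        (fun f => ¬ Squarefree (a i * f + b i))).card : ℝ) := by
    exact_mod_cast h2
  refine h3.trans ((Finset.sum_le_sum fun i _ => h1 i).trans ?_)
  rw [Finset.sum_mul]

/-- half of a finite set -/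
theorem half {k : ℕ} (S : Finset K[X]) (F : Fin k → K[X] → K[X]) (i₀ : Fin k) (σ : ℤ)
    (hσ : σ = 1 ∨ σ = -1) :
    ((S.card : ℝ)) - |∑ p ∈ S, (mob (F i₀ p) : ℝ)| -
        3 * (S.filter (fun p => ∃ i, ¬ Squarefree (F i p))).card ≤
    2 * ((S.filter (fun p => (∀ i, Squarefree (F i p)) ∧ mob (F i₀ p) = σ)).card : ℝ) := by
  have hσ2 : (σ : ℝ) * σ = 1 := by
    rcases hσ with h | h <;> rw [h] <;> norm_num
  have hσa : |(σ : ℝ)| = 1 := by
    rcases hσ with h | h <;> rw [h] <;> norm_num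
  have hpt : ∀ p ∈ S, (1 : ℝ) + σ * (mob (F i₀ p) : ℝ) ≤
      2 * (if (∀ i, Squarefree (F i p)) ∧ mob (F i₀ p) = σ then (1 : ℝ) else 0) +
        3 * (if ∃ i, ¬ Squarefree (F i p) then (1 : ℝ) else 0) := by
    intro p _
    by_cases hb : ∃ i, ¬ Squarefree (F i p)
    · rw [if_pos hb]
      have h1 : (σ : ℝ) * (mob (F i₀ p) : ℝ) ≤ 1 := by
        rcases hσ with hs | hs <;> rcases mob_val (F i₀ p) with ⟨h2, -⟩ | h2 | h2 <;>
          rw [hs, h2] <;> norm_num
      have h2 : (0 : ℝ) ≤ 2 * (if (∀ i, Squarefree (F i p)) ∧ mob (F i₀ p) = σ then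
          (1 : ℝ) else 0) := by split_ifs <;> norm_num
      linarith
    · rw [if_neg hb]
      push Not at hb
      by_cases hm : mob (F i₀ p) = σ
      · rw [if_pos ⟨hb, hm⟩, hm, hσ2]
        norm_num
      · rw [if_neg (fun h => hm h.2)]
        have h2 : mob (F i₀ p) = -σ := by
          rcases mob_val (F i₀ p) with ⟨-, h3⟩ | h3 | h3
          · exact absurd (hb i₀) h3
          · rcases hσ with hs | hs
            · exact absurd (h3.trans hs.symm) hm
            · rw [h3, hs]; norm_num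
          · rcases hσ with hs | hs
            · rw [h3, hs]
            · exact absurd (h3.trans hs.symm) hm
        rw [h2]
        push_cast
        rw [mul_neg, hσ2]
        norm_num
  have hsum := Finset.sum_le_sum hpt
  rw [Finset.sum_add_distrib, Finset.sum_add_distrib, ← Finset.mul_sum, ← Finset.mul_sum,
    ← Finset.mul_sum, Finset.sum_boole, Finset.sum_boole, Finset.sum_const, nsmul_eq_mul,
    mul_one] at hsum
  have h5 : -|∑ p ∈ S, (mob (F i₀ p) : ℝ)| ≤ (σ : ℝ) * ∑ p ∈ S, (mob (F i₀ p) : ℝ) := by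
    have h6 := neg_abs_le ((σ : ℝ) * ∑ p ∈ S, (mob (F i₀ p) : ℝ))
    rwa [abs_mul, hσa, one_mul] at h6
  linarith

/-- the class of an element of `Tf` -/
theorem cop_Tf {k : ℕ} {a₀ b₀ : K[X]} {a b : Fin k → K[X]} {n m : ℕ} (ha₀ : a₀ ≠ 0)
    (ha : ∀ i, a i ≠ 0) (h0 : b₀.natDegree < n + a₀.natDegree)
    (hm : (RR a₀ a).natDegree ≤ m) (hn : (RR a₀ a).natDegree < n) {f₀ : K[X]}
    (hf : f₀ ∈ Tf K a₀ b₀ a b n m) :
    (∀ i, IsCoprime (a i * (f₀ %ₘ RR a₀ a) + b i) (RR a₀ a)) ∧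
      IsCoprime (a₀ * (f₀ %ₘ RR a₀ a) + b₀) (RR a₀ a) := by
  have hM := RR_monic a₀ a ha₀ ha
  rw [mem_Tf] at hf
  obtain ⟨⟨hf1, hf2⟩, hf3, hf4⟩ := hf
  have h2 := modByMonic_add_div f₀ (RR a₀ a)
  constructor
  · intro i
    have h1 : IsCoprime (a i * f₀ + b i) (RR a₀ a) := by
      refine isCoprime_of_irreducible_dvd (fun h => hM.ne_zero h.2) ?_
      intro P hP hPG hPM
      have h2 := Sft_irr (hf4 i) hP hPG
      have h3 := natDegree_le_of_dvd hPM hM.ne_zero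
      omega
    refine cop_of_cong (G' := a i * f₀ + b i) ?_ h1
    exact ⟨- (a i * (f₀ /ₘ RR a₀ a)), by linear_combination a i * h2⟩
  · have h1 : IsCoprime (a₀ * f₀ + b₀) (RR a₀ a) := by
      refine (hf3.coprime_iff_not_dvd).2 fun h => ?_
      have h3 := natDegree_le_of_dvd h hM.ne_zero
      rw [form_deg ha₀ h0 hf1 hf2] at h3
      omega
    refine cop_of_cong (G' := a₀ * f₀ + b₀) ?_ h1
    exact ⟨- (a₀ * (f₀ /ₘ RR a₀ a)), by linear_combination a₀ * h2⟩

/-- **The Moebius function of a form at the elements of `Tf` has small mean value.** -/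
theorem dick_sum (hcg : S_cheng) (hcn : S_cntg) (K : Type) [Field K] [Fintype K] [CharP K 2]
    {k : ℕ} (a₀ : K[X]) (a : Fin k → K[X]) (ha₀ : a₀ ≠ 0) (ha : ∀ i, a i ≠ 0) (ε : ℝ)
    (hε : 0 < ε) :
    ∃ κ : ℝ, 0 < κ ∧ ∃ m₀ n₀ : ℕ, ∀ n : ℕ, n₀ ≤ n →
      ∀ (m : ℕ) (b₀ : K[X]) (b : Fin k → K[X]), m₀ ≤ m → (m : ℝ) ≤ κ * n →
      b₀.natDegree < n + a₀.natDegree → (∀ i, (b i).natDegree < n + (a i).natDegree) →
      (∀ i, a₀ * b i ≠ a i * b₀) → ∀ j : Fin k,
      |∑ f ∈ Tf K a₀ b₀ a b n m, (mob (a j * f + b j) : ℝ)| ≤ ε * (Tf K a₀ b₀ a b n m).card := by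
  obtain ⟨φ, hφ, H⟩ := cls hcg hcn K a₀ a ha₀ ha
  obtain ⟨κ₁, hκ₁, n₁, h1⟩ := H (1 / (2 * φ)) (by positivity)
  obtain ⟨κ₂, hκ₂, n₂, h2⟩ := H (ε / (2 * φ)) (by positivity)
  set M := RR a₀ a with hMdef
  have hM : M.Monic := RR_monic a₀ a ha₀ ha
  refine ⟨min κ₁ κ₂, lt_min hκ₁ hκ₂, M.natDegree + 1, max (max n₁ n₂) (M.natDegree + 1), ?_⟩
  intro n hn m b₀ b hm hmκ h0 hb hne j
  have hn1 : n₁ ≤ n := le_trans (le_trans (le_max_left _ _) (le_max_left _ _)) hn
  have hn2 : n₂ ≤ n := le_trans (le_trans (le_max_right _ _) (le_max_left _ _)) hn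
  have hn3 : M.natDegree + 1 ≤ n := le_trans (le_max_right _ _) hn
  have hm1 : (m : ℝ) ≤ κ₁ * n :=
    hmκ.trans (mul_le_mul_of_nonneg_right (min_le_left _ _) (by positivity))
  have hm2 : (m : ℝ) ≤ κ₂ * n :=
    hmκ.trans (mul_le_mul_of_nonneg_right (min_le_right _ _) (by positivity))
  set L := Tf K a₀ b₀ a b n m with hL
  have hmaps : ∀ f ∈ L, f %ₘ M ∈ L.image (fun f => f %ₘ M) := fun f hf =>
    Finset.mem_image_of_mem _ hf
  have hfib : ∀ r ∈ L.image (fun f => f %ₘ M), ∀ f : K[X], f %ₘ M = r ↔ M ∣ f - r := by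
    intro r hr f
    rw [Finset.mem_image] at hr
    obtain ⟨f₀, -, rfl⟩ := hr
    constructor
    · intro h
      rw [← h]
      have h1 := modByMonic_add_div f M
      exact ⟨f /ₘ M, by linear_combination -h1⟩
    · intro h
      have h1 := modByMonic_add_div f₀ M
      have h2 : M ∣ f - f₀ := by
        have h3 : f - f₀ = (f - f₀ %ₘ M) - M * (f₀ /ₘ M) := by linear_combination h1
        rw [h3]
        exact dvd_sub h (dvd_mul_right _ _)
      exact (Polynomial.modByMonic_eq_of_dvd_sub hM h2)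
  have hcard1 : (L.card : ℝ) = ∑ r ∈ L.image (fun f => f %ₘ M),
      ((L.filter (fun f => M ∣ f - r)).card : ℝ) := by
    rw [Finset.card_eq_sum_card_fiberwise hmaps]
    push_cast
    refine Finset.sum_congr rfl fun r hr => ?_
    congr 2
    exact Finset.filter_congr fun f _ => hfib r hr f
  have hsum1 : ∑ f ∈ L, (mob (a j * f + b j) : ℝ) = ∑ r ∈ L.image (fun f => f %ₘ M),
      ∑ f ∈ L.filter (fun f => M ∣ f - r), (mob (a j * f + b j) : ℝ) := by
    rw [← Finset.sum_fiberwise_of_maps_to hmaps]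
    refine Finset.sum_congr rfl fun r hr => ?_
    exact Finset.sum_congr (Finset.filter_congr fun f _ => hfib r hr f) fun _ _ => rfl
  rw [hcard1, hsum1, Finset.mul_sum]
  refine (Finset.abs_sum_le_sum_abs _ _).trans (Finset.sum_le_sum fun r hr => ?_)
  rw [Finset.mem_image] at hr
  obtain ⟨f₀, hf₀, rfl⟩ := hr
  obtain ⟨c1, c2⟩ := cop_Tf ha₀ ha h0 (by rw [← hMdef]; omega) (by rw [← hMdef]; omega) hf₀
  obtain ⟨e1, -⟩ := h1 n hn1 m b₀ b (f₀ %ₘ M) (by omega) hm1 h0 hb hne c1 c2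
  obtain ⟨-, e2⟩ := h2 n hn2 m b₀ b (f₀ %ₘ M) (by omega) hm2 h0 hb hne c1 c2
  have e3 := e2 j
  set V : ℝ := vg (QQ a₀ a) m (fun i => nrm (a i)) (bb a₀ a b₀ b) *
            (Fintype.card K : ℝ) ^ (n + a₀.natDegree) with hV
  set N : ℝ := ((n + a₀.natDegree : ℕ) : ℝ) with hN
  have hNpos : 0 < N := by
    rw [hN]
    exact_mod_cast (by omega : 0 < n + a₀.natDegree)
  rw [abs_le] at e1
  have e4 : V / (N * φ) - 1 / (2 * φ) * (V / N) = 1 / (2 * φ) * (V / N) := by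
    field_simp
    ring
  have e5 : 1 / (2 * φ) * (V / N) ≤ ((L.filter (fun f => M ∣ f - f₀ %ₘ M)).card : ℝ) := by
    linarith [e1.1]
  refine e3.trans ?_
  calc ε / (2 * φ) * (V / N) = ε * (1 / (2 * φ) * (V / N)) := by ring
    _ ≤ ε * _ := mul_le_mul_of_nonneg_left e5 hε.le

/-- **Lower bound for the number of elements of `Tf`.** -/
theorem dick_low (hcg : S_cheng) (hcn : S_cntg) (hv : S_vpg) (K : Type) [Field K] [Fintype K]
    [CharP K 2] {k : ℕ} (a₀ : K[X]) (a : Fin k → K[X]) (ha₀ : a₀ ≠ 0) (ha : ∀ i, a i ≠ 0) :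
    ∃ (κ c : ℝ), 0 < κ ∧ 0 < c ∧ ∃ n₀ : ℕ, ∀ n : ℕ, n₀ ≤ n →
      ∀ (m : ℕ) (b₀ : K[X]) (b : Fin k → K[X]), 1 ≤ m → (m : ℝ) ≤ κ * n →
      b₀.natDegree < n + a₀.natDegree → (∀ i, (b i).natDegree < n + (a i).natDegree) →
      (∀ i, a₀ * b i ≠ a i * b₀) →
      (∀ P : K[X], P.Monic → Irreducible P →
        ∃ x : K[X], ¬ P ∣ a₀ * x + b₀ ∧ ∀ i, ¬ P ∣ a i * x + b i) →
      c * (Fintype.card K : ℝ) ^ n / ((n : ℝ) * (m : ℝ) ^ k) ≤ (Tf K a₀ b₀ a b n m).card := by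
  obtain ⟨φ, hφ, H⟩ := cls hcg hcn K a₀ a ha₀ ha
  obtain ⟨κ₁, hκ₁, n₁, h1⟩ := H (1 / (2 * φ)) (by positivity)
  obtain ⟨c, hc, hvp⟩ := hv K k
  set M := RR a₀ a with hMdef
  have hM : M.Monic := RR_monic a₀ a ha₀ ha
  refine ⟨κ₁, c / (4 * φ), hκ₁, by positivity, max n₁ (a₀.natDegree + 1), ?_⟩
  intro n hn m b₀ b hm hmκ h0 hb hne hadm
  have hn1 : n₁ ≤ n := le_trans (le_max_left _ _) hn
  have hn3 : a₀.natDegree + 1 ≤ n := le_trans (le_max_right _ _) hn
  -- a good class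
  have hadm' : ∀ P : K[X], P.Monic → Irreducible P →
      ∃ x : K[X], ∀ i : Fin (k + 1), ¬ P ∣ (Fin.cons a₀ a : Fin (k + 1) → K[X]) i * x +
        (Fin.cons b₀ b : Fin (k + 1) → K[X]) i := by
    intro P hP hPi
    obtain ⟨x, hx0, hx⟩ := hadm P hP hPi
    refine ⟨x, fun i => ?_⟩
    refine Fin.cases ?_ (fun i => ?_) i
    · exact hx0
    · exact hx i
  obtain ⟨r, hr⟩ := good_class (Fin.cons a₀ a : Fin (k + 1) → K[X])
    (Fin.cons b₀ b : Fin (k + 1) → K[X]) M hM hadm'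
  have hr0 : IsCoprime (a₀ * r + b₀) M := hr 0
  have hr1 : ∀ i, IsCoprime (a i * r + b i) M := fun i => hr i.succ
  obtain ⟨e1, -⟩ := h1 n hn1 m b₀ b r hm hmκ h0 hb hne hr1 hr0
  -- the singular product
  have hQ := QQ_monic a₀ a ha₀ ha
  obtain ⟨-, v1, -⟩ := hvp m (QQ a₀ a) (fun i => nrm (a i)) (bb a₀ a b₀ b) hQ (slo a₀ a ha) hm
  have v2 : c / (m : ℝ) ^ k ≤ vg (QQ a₀ a) m (fun i => nrm (a i)) (bb a₀ a b₀ b) := by
    refine v1 fun P hP hPQ => ?_
    rw [mem_PU] at hP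
    obtain ⟨x, hx0, hx⟩ := hadm P hP.1 hP.2.1
    refine ⟨nrm a₀ * x + b₀ * C (a₀.leadingCoeff)⁻¹, ?_, fun i => ?_⟩
    · have h1 : nrm a₀ * x + b₀ * C (a₀.leadingCoeff)⁻¹ = (a₀ * x + b₀) * C (a₀.leadingCoeff)⁻¹ := by
        unfold nrm
        ring
      rw [h1, (nrm_unit ha₀).dvd_mul_right]
      exact hx0
    · show ¬ P ∣ nrm (a i) * (nrm a₀ * x + b₀ * C (a₀.leadingCoeff)⁻¹) + bb a₀ a b₀ b i
      rw [key_id, mul_assoc]
      intro h
      rcases hP.2.1.prime.dvd_or_dvd h with h | h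
      · exact absurd (isUnit_of_dvd_unit h (nrm_unit (ha i))) hP.2.1.not_isUnit
      · rcases hP.2.1.prime.dvd_or_dvd h with h | h
        · exact hPQ (h.trans (dvd_mul_right _ _))
        · exact hx i h
  have hfil : (((Tf K a₀ b₀ a b n m).filter (fun f => M ∣ f - r)).card : ℝ) ≤
      (Tf K a₀ b₀ a b n m).card := by
    exact_mod_cast Finset.card_filter_le _ _
  set N : ℝ := ((n + a₀.natDegree : ℕ) : ℝ) with hN
  have hnpos : (0 : ℝ) < n := by exact_mod_cast (by omega : 0 < n)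
  have hNn : N ≤ 2 * n := by
    rw [hN]
    exact_mod_cast (by omega : n + a₀.natDegree ≤ 2 * n)
  have hNpos : 0 < N := by
    rw [hN]
    exact_mod_cast (by omega : 0 < n + a₀.natDegree)
  have hmpos : (0 : ℝ) < m := by exact_mod_cast (by omega : 0 < m)
  have hq1 : (1 : ℝ) ≤ (Fintype.card K : ℝ) := by exact_mod_cast Fintype.card_pos
  have hqn : (Fintype.card K : ℝ) ^ n ≤ (Fintype.card K : ℝ) ^ (n + a₀.natDegree) :=
    pow_le_pow_right₀ hq1 (by omega)
  set v := vg (QQ a₀ a) m (fun i => nrm (a i)) (bb a₀ a b₀ b) with hvdef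
  rw [abs_le] at e1
  have e4 : v * (Fintype.card K : ℝ) ^ (n + a₀.natDegree) / (N * φ) -
      1 / (2 * φ) * (v * (Fintype.card K : ℝ) ^ (n + a₀.natDegree) / N) =
      1 / (2 * φ) * (v * (Fintype.card K : ℝ) ^ (n + a₀.natDegree) / N) := by
    field_simp
    ring
  have e5 : 1 / (2 * φ) * (v * (Fintype.card K : ℝ) ^ (n + a₀.natDegree) / N) ≤
      (Tf K a₀ b₀ a b n m).card := by
    linarith [e1.1]
  refine le_trans ?_ e5
  have e6 : c / (m : ℝ) ^ k * (Fintype.card K : ℝ) ^ n ≤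
      v * (Fintype.card K : ℝ) ^ (n + a₀.natDegree) :=
    mul_le_mul v2 hqn (by positivity) (le_trans (by positivity) v2)
  have e7 : c / (m : ℝ) ^ k * (Fintype.card K : ℝ) ^ n / (2 * n) ≤
      v * (Fintype.card K : ℝ) ^ (n + a₀.natDegree) / N := by
    have h0v : 0 ≤ v * (Fintype.card K : ℝ) ^ (n + a₀.natDegree) := le_trans (by positivity) e6
    calc c / (m : ℝ) ^ k * (Fintype.card K : ℝ) ^ n / (2 * n)
        ≤ v * (Fintype.card K : ℝ) ^ (n + a₀.natDegree) / (2 * n) :=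
          div_le_div_of_nonneg_right e6 (by positivity)
      _ ≤ v * (Fintype.card K : ℝ) ^ (n + a₀.natDegree) / N :=
          div_le_div_of_nonneg_left h0v hNpos hNn
  calc c / (4 * φ) * (Fintype.card K : ℝ) ^ n / ((n : ℝ) * (m : ℝ) ^ k)
      = 1 / (2 * φ) * (c / (m : ℝ) ^ k * (Fintype.card K : ℝ) ^ n / (2 * n)) := by
        field_simp
        ring
    _ ≤ _ := mul_le_mul_of_nonneg_left e7 (by positivity)

/-- **One prime value and almost prime values with prescribed parity.** -/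
theorem dick_few (hcg : S_cheng) (hcn : S_cntg) (hv : S_vpg) (K : Type) [Field K] [Fintype K]
    [CharP K 2] {k : ℕ} (a₀ : K[X]) (a : Fin k → K[X]) (ha₀ : a₀ ≠ 0) (ha : ∀ i, a i ≠ 0) :
    ∃ (r : ℕ) (c : ℝ), 0 < c ∧ ∃ n₀ : ℕ, ∀ n : ℕ, n₀ ≤ n →
      ∀ (b₀ : K[X]) (b : Fin k → K[X]), b₀.natDegree < n + a₀.natDegree →
      (∀ i, (b i).natDegree < n + (a i).natDegree) → (∀ i, a₀ * b i ≠ a i * b₀) →
      (∀ P : K[X], P.Monic → Irreducible P →
        ∃ x : K[X], ¬ P ∣ a₀ * x + b₀ ∧ ∀ i, ¬ P ∣ a i * x + b i) →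
      ∀ (j : Fin k) (σ : ℤ), σ = 1 ∨ σ = -1 →
        c * (Fintype.card K : ℝ) ^ n / (n : ℝ) ^ (k + 1) ≤
          (((Mn K n).filter (fun f => Irreducible (a₀ * f + b₀) ∧
            (∀ i, Squarefree (a i * f + b i) ∧ Multiset.card (factors (a i * f + b i)) ≤ r ∧
              ∀ P : K[X], Irreducible P → P ∣ a i * f + b i → n ≤ (r + 1) * P.natDegree) ∧
                mob (a j * f + b j) = σ)).card : ℝ) := by
  obtain ⟨κ₁, hκ₁, m₁, n₁, hsum⟩ := dick_sum hcg hcn K a₀ a ha₀ ha (1 / 4) (by norm_num)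
  obtain ⟨κ₂, c, hκ₂, hc, n₂, hlow⟩ := dick_low hcg hcn hv K a₀ a ha₀ ha
  obtain ⟨κ, hκ⟩ : ∃ κ : ℝ, κ = min (min κ₁ κ₂) 1 := ⟨_, rfl⟩
  have hκ0 : 0 < κ := by rw [hκ]; exact lt_min (lt_min hκ₁ hκ₂) one_pos
  have hκ1 : κ ≤ κ₁ := by rw [hκ]; exact (min_le_left _ _).trans (min_le_left _ _)
  have hκ2 : κ ≤ κ₂ := by rw [hκ]; exact (min_le_left _ _).trans (min_le_right _ _)
  have hκ3 : κ ≤ 1 := by rw [hκ]; exact min_le_right _ _
  obtain ⟨r, hr⟩ := exists_nat_ge (2 / κ)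
  have hq : (2 : ℝ) ≤ (Fintype.card K : ℝ) := by
    exact_mod_cast Fintype.one_lt_card (α := K)
  obtain ⟨G, hG⟩ : ∃ G : ℝ, G = ∑ i, (Fintype.card K : ℝ) ^ (a i).natDegree := ⟨_, rfl⟩
  have hG0 : 0 ≤ G := by rw [hG]; positivity
  -- for large n the bad ones are few
  have hlim : ∃ n₃ : ℕ, ∀ n : ℕ, n₃ ≤ n →
      24 * G * (n : ℝ) ^ (k + 1) ≤ c * 2 ^ (κ * (n : ℝ)) := by
    have h1 : Filter.Tendsto (fun n : ℕ => ((n : ℝ) ^ (k + 1)) / Real.exp (κ * Real.log 2 * n))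
        Filter.atTop (nhds 0) := by
      have h2 := Real.tendsto_pow_mul_exp_neg_atTop_nhds_zero (k + 1)
      have hb : 0 < κ * Real.log 2 := mul_pos hκ0 (Real.log_pos (by norm_num))
      have h3 := (h2.comp (Filter.Tendsto.const_mul_atTop hb tendsto_natCast_atTop_atTop)).const_mul
        (1 / (κ * Real.log 2) ^ (k + 1))
      rw [mul_zero] at h3
      refine h3.congr fun n => ?_
      simp only [Function.comp_apply]
      rw [mul_pow, Real.exp_neg]
      have hb' := hb.ne'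
      field_simp
      ring
    have h4 : ∀ᶠ n : ℕ in Filter.atTop,
        ((n : ℝ) ^ (k + 1)) / Real.exp (κ * Real.log 2 * n) < c / (24 * G + 1) :=
      h1.eventually_lt_const (by positivity)
    obtain ⟨n₃, hn₃⟩ := Filter.eventually_atTop.1 h4
    refine ⟨n₃, fun n hn => ?_⟩
    have h5 := hn₃ n hn
    rw [div_lt_iff₀ (Real.exp_pos _)] at h5
    have h6 : Real.exp (κ * Real.log 2 * n) = 2 ^ (κ * (n : ℝ)) := by
      rw [Real.rpow_def_of_pos (by norm_num)]
      congr 1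
      ring
    rw [h6] at h5
    have h7 : (0 : ℝ) ≤ 2 ^ (κ * (n : ℝ)) := by positivity
    have h8 : 24 * G * (n : ℝ) ^ (k + 1) ≤ 24 * G * (c / (24 * G + 1) * 2 ^ (κ * (n : ℝ))) :=
      mul_le_mul_of_nonneg_left h5.le (by positivity)
    refine h8.trans ?_
    have h9 : 24 * G * (c / (24 * G + 1)) ≤ c := by
      have : 24 * G * (c / (24 * G + 1)) = c * (24 * G / (24 * G + 1)) := by ring
      rw [this]
      have h10 : 24 * G / (24 * G + 1) ≤ 1 := by
        rw [div_le_one (by positivity)]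
        linarith
      nlinarith
    nlinarith
  obtain ⟨n₃, hn₃⟩ := hlim
  obtain ⟨D, hD⟩ : ∃ D : ℕ, D = ∑ i, (a i).natDegree := ⟨_, rfl⟩
  have hDi : ∀ i, (a i).natDegree ≤ D := by
    intro i
    rw [hD]
    exact Finset.single_le_sum (f := fun i => (a i).natDegree) (fun _ _ => Nat.zero_le _)
      (Finset.mem_univ i)
  refine ⟨r, c / 4, by positivity, max (max n₁ n₂) (max (max n₃ D) (⌈((m₁ : ℝ) + 2) / κ⌉₊ + 1)), ?_⟩
  intro n hn b₀ b h0 hb hne hadm j σ hσ
  have hnn₁ : n₁ ≤ n := le_trans (le_trans (le_max_left _ _) (le_max_left _ _)) hn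
  have hnn₂ : n₂ ≤ n := le_trans (le_trans (le_max_right _ _) (le_max_left _ _)) hn
  have hnn₃ : n₃ ≤ n := le_trans (le_trans (le_trans (le_max_left _ _) (le_max_left _ _))
    (le_max_right _ _)) hn
  have hnD : D ≤ n := le_trans (le_trans (le_trans (le_max_right _ _) (le_max_left _ _))
    (le_max_right _ _)) hn
  have hnn₄ : ⌈((m₁ : ℝ) + 2) / κ⌉₊ + 1 ≤ n :=
    le_trans (le_trans (le_max_right _ _) (le_max_right _ _)) hn
  have hn1 : 1 ≤ n := by omega
  have hnpos : (0 : ℝ) < n := by exact_mod_cast hn1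
  have hn2 : (m₁ : ℝ) + 2 ≤ κ * n := by
    have h1 : ((m₁ : ℝ) + 2) / κ ≤ n := (Nat.le_ceil _).trans
      (by exact_mod_cast (by omega : ⌈((m₁ : ℝ) + 2) / κ⌉₊ ≤ n))
    rw [div_le_iff₀ hκ0] at h1
    linarith
  obtain ⟨m, hm⟩ : ∃ m : ℕ, m = ⌊κ * n⌋₊ := ⟨_, rfl⟩
  have hm1 : (m : ℝ) ≤ κ * n := by rw [hm]; exact Nat.floor_le (by positivity)
  have hm2 : κ * n < (m : ℝ) + 1 := by rw [hm]; exact Nat.lt_floor_add_one _
  have hm3 : m₁ + 1 ≤ m := by
    have : (m₁ : ℝ) + 1 < (m : ℝ) := by linarith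
    have h : m₁ + 1 < m := by exact_mod_cast this
    omega
  have hmn : (m : ℝ) ≤ n := hm1.trans (by nlinarith)
  have hmpos : (0 : ℝ) < m := by exact_mod_cast (by omega : 0 < m)
  have e1 := hsum n hnn₁ m b₀ b (by omega) (hm1.trans (by nlinarith)) h0 hb hne j
  have e2 := hlow n hnn₂ m b₀ b (by omega) (hm1.trans (by nlinarith)) h0 hb hne hadm
  have e4 := bad_card n m a₀ b₀ a b ha hb
  rw [← hG] at e4
  have e5 := half (Tf K a₀ b₀ a b n m) (fun i f => a i * f + b i) j σ hσ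
  set q : ℝ := (Fintype.card K : ℝ) with hqdef
  set T : ℝ := ((Tf K a₀ b₀ a b n m).card : ℝ) with hT
  have hTlow : c * q ^ n / (n : ℝ) ^ (k + 1) ≤ T := by
    refine le_trans ?_ e2
    refine div_le_div_of_nonneg_left (by positivity) (by positivity) ?_
    rw [pow_succ, mul_comm ((n : ℝ) ^ k)]
    exact mul_le_mul_of_nonneg_left (pow_le_pow_left₀ hmpos.le hmn k) hnpos.le
  have e6 : 12 * (G * (q ^ n * (2 / q ^ (m + 1)))) ≤ T := by
    refine le_trans ?_ hTlow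
    have h1 : (2 : ℝ) ^ (κ * (n : ℝ)) ≤ q ^ (m + 1) := by
      calc (2 : ℝ) ^ (κ * (n : ℝ)) ≤ 2 ^ ((m + 1 : ℕ) : ℝ) := by
            apply Real.rpow_le_rpow_of_exponent_le (by norm_num)
            push_cast
            linarith
        _ = 2 ^ (m + 1) := Real.rpow_natCast _ _
        _ ≤ q ^ (m + 1) := pow_le_pow_left₀ (by norm_num) hq _
    have h2 := hn₃ n hnn₃
    have h3 : 24 * G * (n : ℝ) ^ (k + 1) ≤ c * q ^ (m + 1) :=
      h2.trans (mul_le_mul_of_nonneg_left h1 hc.le)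
    rw [le_div_iff₀ (by positivity)]
    have h4 : 12 * (G * (q ^ n * (2 / q ^ (m + 1)))) * (n : ℝ) ^ (k + 1) =
        q ^ n * (24 * G * (n : ℝ) ^ (k + 1)) / q ^ (m + 1) := by ring
    rw [h4, div_le_iff₀ (by positivity)]
    have h5 : q ^ n * (24 * G * (n : ℝ) ^ (k + 1)) ≤ q ^ n * (c * q ^ (m + 1)) :=
      mul_le_mul_of_nonneg_left h3 (by positivity)
    linarith
  have hT0 : 0 ≤ T := le_trans (by positivity) hTlow
  have e7 : T / 4 ≤ (((Tf K a₀ b₀ a b n m).filter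
      (fun f => (∀ i, Squarefree (a i * f + b i)) ∧ mob (a j * f + b j) = σ)).card : ℝ) := by
    linarith
  have e8 : c / 4 * q ^ n / (n : ℝ) ^ (k + 1) ≤ T / 4 := by
    have : c / 4 * q ^ n / (n : ℝ) ^ (k + 1) = (c * q ^ n / (n : ℝ) ^ (k + 1)) / 4 := by ring
    rw [this]
    linarith
  refine (e8.trans e7).trans ?_
  norm_cast
  refine Finset.card_le_card fun f hf => ?_
  rw [mem_filter, mem_Tf] at hf
  obtain ⟨⟨⟨hf0, hf0'⟩, hf1, hf2⟩, hf3, hf4⟩ := hf
  rw [mem_filter, mem_Mn]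
  refine ⟨⟨hf0, hf0'⟩, hf1, fun i => ⟨hf3 i, ?_, ?_⟩, hf4⟩
  · have hne' := form_ne (ha i) (hb i) hf0 hf0'
    have hdg : (a i * f + b i).natDegree ≤ 2 * n := by
      rw [form_deg (ha i) (hb i) hf0 hf0']
      have := hDi i
      omega
    have h8 := factors_le hne' hdg (hf2 i)
    have h9 : (Multiset.card (factors (a i * f + b i)) : ℝ) * (κ * n) ≤ 2 * n := by
      have h10 : ((Multiset.card (factors (a i * f + b i)) : ℝ)) * ((m : ℝ) + 1) ≤ 2 * n := by
        exact_mod_cast h8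
      refine le_trans ?_ h10
      exact mul_le_mul_of_nonneg_left hm2.le (by positivity)
    have h11 : (Multiset.card (factors (a i * f + b i)) : ℝ) * κ ≤ 2 := by
      have h12 : ((Multiset.card (factors (a i * f + b i)) : ℝ) * κ) * n ≤ 2 * n := by linarith
      exact le_of_mul_le_mul_right h12 hnpos
    have h13 : (Multiset.card (factors (a i * f + b i)) : ℝ) ≤ r := by
      refine le_trans ?_ hr
      rw [le_div_iff₀ hκ0]
      exact h11
    exact_mod_cast h13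
  · intro P hP hPd
    have h8 := Sft_irr (hf2 i) hP hPd
    have h9 : (n : ℝ) ≤ ((r : ℝ) + 1) * P.natDegree := by
      have h10 : ((m : ℝ) + 1) ≤ P.natDegree := by exact_mod_cast h8
      have h11 : (n : ℝ) ≤ r * (κ * n) := by
        have : 1 ≤ r * κ := by
          rw [div_le_iff₀ hκ0] at hr
          linarith
        nlinarith
      have h12 : r * (κ * n) ≤ (r : ℝ) * P.natDegree :=
        mul_le_mul_of_nonneg_left (by linarith) (by positivity)
      have h13 : (0 : ℝ) ≤ P.natDegree := by positivity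
      linarith
    exact_mod_cast h9

end Pool.Agent.H985.CG
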