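import Mathlib
import Pool.Agent.H985.CG.Stm
import Pool.Agent.H985.CH.Maina

/-!
# Task CG-MAINA (helper903 for helper985): the weighted sum twisted by the Moebius function

Adaptation of `Pool/Agent/H985/CH/Maina.lean` (helper227) to the forms `s i * f + b i`.
-/

set_option autoImplicit false
set_option linter.all false

namespace Pool.Agent.H985.CG

open Polynomial Finset
open scoped Classical
open Pool.Agent.H985.Chow (mob)
open Pool.Agent.H985.KP (mobg)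
open Pool.Agent.H694.Typ (Mn Irn mem_Mn mem_Irn q_ge pol pol_degree exists_pol)
open Pool.Agent.H251.SP (Rgh bw)
open Pool.Agent.H251.SP.Asm (mob_abs mobg_abs mob_mul bw_abs log_small pow_small log_pow)
open Pool.Agent.H985.CH (SqM Bdd S_buchw)
open Pool.Agent.H985.CH.Maina (mul_abs_le abs_mul_le numer)

namespace MainaG

theorem cop {K : Type} [Field K] {Q t E : K[X]} (ht : t.Monic) (h : Sup Q t)
    (hE : IsCoprime E Q) : IsCoprime E t := by
  refine isCoprime_of_irreducible_dvd (fun h0 => ht.ne_zero h0.2) ?_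
  intro P hP h1 h2
  exact hP.not_isUnit (hE.isUnit_of_dvd' h1 (h P hP h2))

theorem wg_mul {K : Type} [Field K] [Fintype K] {k : ℕ} {Q t : K[X]} (s b : Fin k → K[X])
    (ht : t.Monic) (hQt : Sup Q t) (lam : K[X] → ℝ) (y : ℕ) (f : K[X]) :
    Wg Q s (fun i => t * b i) lam y (t * f) = Wg Q s b lam y f := by
  have h1 : Hg s (fun i => t * b i) (t * f) = t ^ k * Hg s b f := by
    unfold Hg
    have e : ∀ i, s i * (t * f) + t * b i = t * (s i * f + b i) := fun i => by ring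
    simp only [e, Finset.prod_mul_distrib, Finset.prod_const, Finset.card_univ, Fintype.card_fin]
  unfold Wg
  rw [h1]
  refine Finset.sum_congr (Finset.filter_congr fun E _ => ?_) fun _ _ => rfl
  constructor
  · rintro ⟨a, b⟩
    exact ⟨a, ((cop ht hQt a).pow_right).dvd_of_dvd_mul_left b⟩
  · rintro ⟨a, b⟩
    exact ⟨a, b.mul_left _⟩

/-- the indicator of a residue class -/
noncomputable def ic {K : Type} [Field K] (Q ρ f : K[X]) : ℝ := if Q ∣ f - ρ then 1 else 0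

theorem ic_abs {K : Type} [Field K] (Q ρ f : K[X]) : |ic Q ρ f| ≤ 1 := by
  unfold ic
  split_ifs <;> simp

/-- representatives of the residue classes -/
noncomputable def Us (K : Type) [Field K] [Fintype K] (d : ℕ) : Finset K[X] :=
  Finset.univ.image (pol : (Fin d → K) → K[X])

theorem card_Us (K : Type) [Field K] [Fintype K] (d : ℕ) : (Us K d).card ≤ Fintype.card K ^ d := by
  unfold Us
  refine Finset.card_image_le.trans ?_
  rw [Finset.card_univ, Fintype.card_fun, Fintype.card_fin]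

theorem ic_sum {K : Type} [Field K] [Fintype K] {Q : K[X]} (hQ : Q.Monic) (ρ p B : K[X]) :
    ∑ u ∈ Us K Q.natDegree, ic Q u p * ic Q ρ (u * B) = ic Q ρ (p * B) := by
  have hdeg : Q.degree = (Q.natDegree : WithBot ℕ) := degree_eq_natDegree hQ.ne_zero
  have h0 : Q ∣ p - p %ₘ Q := by
    have e := modByMonic_add_div p Q
    exact ⟨p /ₘ Q, by linear_combination -e⟩
  rw [Finset.sum_eq_single (p %ₘ Q)]
  · have h1 : ic Q (p %ₘ Q) p = 1 := by
      unfold ic
      rw [if_pos h0]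
    rw [h1, one_mul]
    unfold ic
    have h2 : Q ∣ (p - p %ₘ Q) * B := h0.mul_right _
    have h3 : (Q ∣ p %ₘ Q * B - ρ) ↔ (Q ∣ p * B - ρ) := by
      constructor
      · intro h
        have e : p * B - ρ = (p %ₘ Q * B - ρ) + (p - p %ₘ Q) * B := by ring
        rw [e]
        exact dvd_add h h2
      · intro h
        have e : p %ₘ Q * B - ρ = (p * B - ρ) - (p - p %ₘ Q) * B := by ring
        rw [e]
        exact dvd_sub h h2
    by_cases h : Q ∣ p * B - ρ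
    · rw [if_pos h, if_pos (h3.2 h)]
    · rw [if_neg h, if_neg (fun h' => h (h3.1 h'))]
  · intro u hu hne
    unfold Us at hu
    obtain ⟨c, -, rfl⟩ := Finset.mem_image.1 hu
    have h1 : ¬ Q ∣ p - pol c := by
      intro h
      apply hne
      have h2 := modByMonic_eq_of_dvd_sub hQ h
      rw [h2]
      exact ((modByMonic_eq_self_iff hQ).2 (by rw [hdeg]; exact pol_degree c)).symm
    unfold ic
    rw [if_neg h1, zero_mul]
  · intro hu
    exfalso
    apply hu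
    have h1 : (p %ₘ Q).degree < (Q.natDegree : WithBot ℕ) := by
      rw [← hdeg]
      exact degree_modByMonic_lt p hQ
    obtain ⟨c, hc⟩ := exists_pol h1
    unfold Us
    exact Finset.mem_image.2 ⟨c, Finset.mem_univ _, hc⟩

/-- **The type II sums.** -/
theorem two {K : Type} [Field K] [Fintype K] {k n j y : ℕ} {Q g t : K[X]} (s b : Fin k → K[X])
    (h ρ : K[X]) (lam β : K[X] → ℝ) (X : ℝ) (hQ : Q.Monic) (ht : t.Monic) (hQt : Sup Q t)
    (hj : j ≤ n) (hβ : Bdd β)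
    (H : ∀ α β' : K[X] → ℝ, Bdd α → Bdd β' →
      |∑ p ∈ Irn K j, ∑ B ∈ Mn K (n + t.natDegree - j), α p * β' B *
        (Wg Q s (fun i => t * b i) lam y (p * B) * (mobg g (p * B + h) : ℝ))| ≤ X) :
    |∑ p ∈ Irn K j, ∑ B ∈ Mn K (n - j), β B * (ic Q ρ (p * B) *
      (Wg Q s b lam y (p * B) * (mobg g (t * (p * B) + h) : ℝ)))| ≤
        (Fintype.card K : ℝ) ^ Q.natDegree * X := by
  have hX : 0 ≤ X := (abs_nonneg _).trans (H (fun _ => 0) (fun _ => 0) (fun _ => by simp)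
    (fun _ => by simp))
  have hinner : ∀ u : K[X], ∀ p : K[X],
      ∑ B ∈ Mn K (n - j), ic Q u p * (β B * ic Q ρ (u * B)) *
        (Wg Q s b lam y (p * B) * (mobg g (t * (p * B) + h) : ℝ)) =
      ∑ B ∈ Mn K (n + t.natDegree - j), ic Q u p *
        (if t ∣ B then β (B / t) * ic Q ρ (u * (B / t)) else 0) *
        (Wg Q s (fun i => t * b i) lam y (p * B) * (mobg g (p * B + h) : ℝ)) := by
    intro u p
    have hsub : (Mn K (n - j)).image (fun B => t * B) ⊆ Mn K (n + t.natDegree - j) := by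
      intro B' hB'
      obtain ⟨B, hB, rfl⟩ := Finset.mem_image.1 hB'
      rw [mem_Mn] at hB ⊢
      refine ⟨ht.mul hB.1, ?_⟩
      rw [ht.natDegree_mul hB.1, hB.2]
      omega
    rw [← Finset.sum_subset hsub]
    · rw [Finset.sum_image (fun a _ b _ hab => mul_left_cancel₀ ht.ne_zero hab)]
      refine Finset.sum_congr rfl fun B _ => ?_
      rw [if_pos (dvd_mul_right t B), mul_div_cancel_left₀ B ht.ne_zero]
      have e : p * (t * B) = t * (p * B) := by ring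
      rw [e, wg_mul s b ht hQt]
    · intro B' hB' hne
      have h1 : ¬ t ∣ B' := by
        rintro ⟨B, rfl⟩
        apply hne
        refine Finset.mem_image.2 ⟨B, ?_, rfl⟩
        rw [mem_Mn] at hB' ⊢
        have h2 : B.Monic := Monic.of_mul_monic_left ht hB'.1
        refine ⟨h2, ?_⟩
        have h3 := hB'.2
        rw [ht.natDegree_mul h2] at h3
        omega
      rw [if_neg h1]
      ring
  have hmain : ∑ p ∈ Irn K j, ∑ B ∈ Mn K (n - j), β B * (ic Q ρ (p * B) *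
      (Wg Q s b lam y (p * B) * (mobg g (t * (p * B) + h) : ℝ))) =
      ∑ u ∈ Us K Q.natDegree, ∑ p ∈ Irn K j, ∑ B ∈ Mn K (n + t.natDegree - j), ic Q u p *
        (if t ∣ B then β (B / t) * ic Q ρ (u * (B / t)) else 0) *
        (Wg Q s (fun i => t * b i) lam y (p * B) * (mobg g (p * B + h) : ℝ)) := by
    symm
    rw [Finset.sum_comm]
    refine Finset.sum_congr rfl fun p _ => ?_
    rw [Finset.sum_congr rfl (fun u _ => (hinner u p).symm), Finset.sum_comm]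
    refine Finset.sum_congr rfl fun B _ => ?_
    rw [← ic_sum hQ ρ p B, Finset.sum_mul, Finset.mul_sum]
    refine Finset.sum_congr rfl fun u _ => ?_
    ring
  rw [hmain]
  refine (Finset.abs_sum_le_sum_abs _ _).trans ?_
  have h1 : ∀ u ∈ Us K Q.natDegree, |∑ p ∈ Irn K j, ∑ B ∈ Mn K (n + t.natDegree - j), ic Q u p *
        (if t ∣ B then β (B / t) * ic Q ρ (u * (B / t)) else 0) *
        (Wg Q s (fun i => t * b i) lam y (p * B) * (mobg g (p * B + h) : ℝ))| ≤ X := by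
    intro u _
    refine H (fun p => ic Q u p) (fun B => if t ∣ B then β (B / t) * ic Q ρ (u * (B / t)) else 0)
      (fun p => ic_abs Q u p) (fun B => ?_)
    show |if t ∣ B then β (B / t) * ic Q ρ (u * (B / t)) else 0| ≤ 1
    split_ifs
    · exact mul_abs_le (hβ _) (ic_abs _ _ _)
    · simp
  refine (Finset.sum_le_sum h1).trans ?_
  rw [Finset.sum_const, nsmul_eq_mul]
  refine mul_le_mul_of_nonneg_right ?_ hX
  exact_mod_cast card_Us K Q.natDegree

/-- **The combinatorial part.** -/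
theorem part {K : Type} [Field K] [Fintype K] {k n z l y : ℕ} {Q g : K[X]} (s b : Fin k → K[X])
    (ρ : K[X]) (i₀ : Fin k) (lam : K[X] → ℝ) (X Y E : ℝ) (hX : 0 ≤ X) (hz1 : 1 ≤ z) (hzl : z ≤ l)
    (hln : l ≤ n) (hb : S_buchw)
    (hT : |∑ f ∈ (Mn K n).filter (fun f => Rgh z f ∧ Q ∣ f - ρ),
      Wg Q s b lam y f * ((mob f : ℝ) * (mobg g (s i₀ * f + b i₀) : ℝ))| ≤ Y)
    (hE : ∑ j ∈ Icc (max z 1) n, ∑ p ∈ Irn K j, ∑ B ∈ (Mn K (n - j)).filter (fun B => p ∣ B),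
      |Wg Q s b lam y (p * B)| ≤ E)
    (H : ∀ j ∈ Ico z l, ∀ β : K[X] → ℝ, Bdd β →
      |∑ p ∈ Irn K j, ∑ B ∈ Mn K (n - j), β B * (ic Q ρ (p * B) *
        (Wg Q s b lam y (p * B) * (mobg g (s i₀ * (p * B) + b i₀) : ℝ)))| ≤ X) :
    |∑ f ∈ (Mn K n).filter (fun f => Rgh l f ∧ Q ∣ f - ρ),
      Wg Q s b lam y f * (mobg g (s i₀ * f + b i₀) : ℝ) * (mob f : ℝ)| ≤
      Y + 2 * E + n * X := by
  obtain ⟨R, hR⟩ : ∃ R : ℕ → ℝ, ∀ j, R j = ∑ p ∈ Irn K j,
      ∑ B ∈ (Mn K (n - j)).filter (fun B => p ∣ B), |Wg Q s b lam y (p * B)| := ⟨_, fun _ => rfl⟩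
  have hR0 : ∀ j, 0 ≤ R j := by
    intro j
    rw [hR]
    exact sum_nonneg fun p _ => sum_nonneg fun B _ => abs_nonneg _
  have hRE : ∑ j ∈ Ico z l, R j ≤ E := by
    refine le_trans ?_ hE
    rw [sum_congr rfl (fun j _ => hR j)]
    refine sum_le_sum_of_subset_of_nonneg ?_ ?_
    · intro j hj
      rw [mem_Ico] at hj
      rw [mem_Icc]
      exact ⟨max_le hj.1 (hz1.trans hj.1), by omega⟩
    · intro j _ _
      exact sum_nonneg fun p _ => sum_nonneg fun B _ => abs_nonneg _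
  have hsplit : ∀ (w : ℕ) (F : K[X] → ℝ), ∑ f ∈ (Mn K n).filter (fun f => Rgh w f ∧ Q ∣ f - ρ), F f =
      ∑ f ∈ (Mn K n).filter (Rgh w), ic Q ρ f * F f := by
    intro w F
    rw [← Finset.filter_filter, Finset.sum_filter]
    refine sum_congr rfl fun f _ => ?_
    unfold ic
    split_ifs <;> ring
  have h1 := hb K n z l (fun f => ic Q ρ f *
    (Wg Q s b lam y f * (mobg g (s i₀ * f + b i₀) : ℝ) * (mob f : ℝ))) hz1 hzl hln
  rw [hsplit] at hT ⊢
  have h2 : ∑ f ∈ (Mn K n).filter (Rgh z), ic Q ρ f *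
      (Wg Q s b lam y f * (mobg g (s i₀ * f + b i₀) : ℝ) * (mob f : ℝ)) =
      ∑ f ∈ (Mn K n).filter (Rgh z), ic Q ρ f *
        (Wg Q s b lam y f * ((mob f : ℝ) * (mobg g (s i₀ * f + b i₀) : ℝ))) :=
    sum_congr rfl fun f _ => by ring
  have herr : ∑ j ∈ Ico z l, ∑ p ∈ Irn K j, ∑ B ∈ (Mn K (n - j)).filter (fun B => p ∣ B),
      |ic Q ρ (p * B) * (Wg Q s b lam y (p * B) * (mobg g (s i₀ * (p * B) + b i₀) : ℝ) *
        (mob (p * B) : ℝ))| ≤ E := by
    refine le_trans ?_ hRE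
    rw [sum_congr rfl (fun j _ => hR j)]
    refine sum_le_sum fun j _ => sum_le_sum fun p _ => sum_le_sum fun B _ => ?_
    have e1 : ic Q ρ (p * B) * (Wg Q s b lam y (p * B) * (mobg g (s i₀ * (p * B) + b i₀) : ℝ) *
        (mob (p * B) : ℝ)) =
        (ic Q ρ (p * B) * ((mobg g (s i₀ * (p * B) + b i₀) : ℝ) * (mob (p * B) : ℝ))) *
          Wg Q s b lam y (p * B) := by ring
    rw [e1]
    exact abs_mul_le (mul_abs_le (ic_abs _ _ _) (mul_abs_le (mobg_abs _ _) (mob_abs _)))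
  have h3 : ∀ j ∈ Ico z l, |∑ p ∈ Irn K j, ∑ B ∈ Mn K (n - j), bw j B *
      (ic Q ρ (p * B) * (Wg Q s b lam y (p * B) * (mobg g (s i₀ * (p * B) + b i₀) : ℝ) *
        (mob (p * B) : ℝ)))| ≤ X + R j := by
    intro j hj
    have e1 : ∀ p ∈ Irn K j, ∀ B ∈ Mn K (n - j), bw j B *
        (ic Q ρ (p * B) * (Wg Q s b lam y (p * B) * (mobg g (s i₀ * (p * B) + b i₀) : ℝ) *
          (mob (p * B) : ℝ))) =
        (-(bw j B * (mob B : ℝ))) * (ic Q ρ (p * B) *
          (Wg Q s b lam y (p * B) * (mobg g (s i₀ * (p * B) + b i₀) : ℝ))) +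
          (if p ∣ B then (bw j B * (mob B : ℝ) *
            (ic Q ρ (p * B) * (mobg g (s i₀ * (p * B) + b i₀) : ℝ))) *
            Wg Q s b lam y (p * B) else 0) := by
      intro p hp B hB
      rw [mob_mul p B (mem_Irn.1 hp).2.2 (mem_Mn.1 hB).1.ne_zero]
      split_ifs <;> ring
    rw [sum_congr rfl (fun p hp => sum_congr rfl (e1 p hp))]
    rw [sum_congr rfl (fun p hp => sum_add_distrib), sum_add_distrib]
    refine (abs_add_le _ _).trans (add_le_add ?_ ?_)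
    · refine H j hj (fun B => -(bw j B * (mob B : ℝ))) (fun B => ?_)
      rw [abs_neg]
      exact mul_abs_le (bw_abs j B) (mob_abs B)
    · rw [hR]
      refine (abs_sum_le_sum_abs _ _).trans (sum_le_sum fun p _ => ?_)
      rw [← sum_filter]
      refine (abs_sum_le_sum_abs _ _).trans (sum_le_sum fun B _ => ?_)
      exact abs_mul_le (mul_abs_le (mul_abs_le (bw_abs j B) (mob_abs B))
        (mul_abs_le (ic_abs _ _ _) (mobg_abs _ _)))
  have h4 : |∑ j ∈ Ico z l, ∑ p ∈ Irn K j, ∑ B ∈ Mn K (n - j), bw j B *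
      (ic Q ρ (p * B) * (Wg Q s b lam y (p * B) * (mobg g (s i₀ * (p * B) + b i₀) : ℝ) *
        (mob (p * B) : ℝ)))| ≤ n * X + E := by
    refine (abs_sum_le_sum_abs _ _).trans ((sum_le_sum h3).trans ?_)
    rw [sum_add_distrib]
    refine add_le_add ?_ hRE
    rw [sum_const, Nat.card_Ico, nsmul_eq_mul]
    refine mul_le_mul_of_nonneg_right ?_ hX
    exact_mod_cast (Nat.sub_le _ _).trans hln
  rw [h2] at h1
  have h5 := h1.trans herr
  rw [abs_le] at h5 hT h4 ⊢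
  constructor <;> linarith [h5.1, h5.2, hT.1, hT.2, h4.1, h4.2]

end MainaG

/-- **Task CG-MAINA.** -/
theorem mainag (h2 : S_tiig) (h3 : S_twg) (hb : S_buchw) (hs : S_sqg) : S_mainag := by
  intro K _ _ _ k A₁ Q g s ε hQ hg hslo hε hε2
  obtain ⟨C, c, θ₁, hc, hθ₁, n₁, H2⟩ := h2 K k Q g s ε hQ hg hslo hε
  obtain ⟨C', Hs⟩ := hs k K
  set E : ℕ := (C + 1) + C' + A₁ + 6 with hE
  obtain ⟨θ₂, hθ₂, n₂, H3⟩ := h3 K k (64 * E + 10) Q g s hQ hg hslo
  obtain ⟨n₃, H4⟩ := log_small (64 * E + 1)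
  have hq := q_ge (k := K)
  obtain ⟨n₄, H5⟩ := pow_small ((C + 1) + 1 + (A₁ + 1)) (Fintype.card K : ℝ) c hq hc
  obtain ⟨n₅, hn₅⟩ := exists_nat_ge (2 + 2 ^ E + 2 * 3 ^ C' * 2 ^ E : ℝ)
  obtain ⟨S, hS⟩ : ∃ S : ℕ, S = ∑ i, (s i).natDegree := ⟨_, rfl⟩
  have hSi : ∀ i, (s i).natDegree ≤ S := by
    intro i
    rw [hS]
    exact single_le_sum (f := fun i => (s i).natDegree) (fun _ _ => Nat.zero_le _) (mem_univ i)
  refine ⟨min (min θ₁ θ₂) (1 / 2), lt_min (lt_min hθ₁ hθ₂) (by norm_num),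
    max (max n₁ n₂) (max (max n₃ n₄) (max (max n₅ 4)
      (max S (Fintype.card K ^ Q.natDegree * (2 ^ C * Fintype.card K ^ S))))), ?_⟩
  intro n hn l y ρ b i₀ lam hl1 hl2 hy hρ hsh hbd
  simp only [max_le_iff] at hn
  obtain ⟨⟨hn1, hn2⟩, ⟨hn3, hn4⟩, ⟨hn5, hn6⟩, hnS, hnG⟩ := hn
  have hnr : (4 : ℝ) ≤ n := by exact_mod_cast hn6
  have hn0 : (0 : ℝ) ≤ n := by linarith
  have hy1 : (y : ℝ) ≤ θ₁ * n := hy.trans (mul_le_mul_of_nonneg_right
    ((min_le_left _ _).trans (min_le_left _ _)) hn0)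
  have hy2 : (y : ℝ) ≤ θ₂ * n := hy.trans (mul_le_mul_of_nonneg_right
    ((min_le_left _ _).trans (min_le_right _ _)) hn0)
  have hy3 : (y : ℝ) ≤ 1 / 2 * n := hy.trans (mul_le_mul_of_nonneg_right (min_le_right _ _) hn0)
  have hy4 : 2 * y ≤ n := by
    have : (2 : ℝ) * y ≤ n := by linarith
    exact_mod_cast this
  have hlog : 1 ≤ Nat.log 2 n := Nat.log_pos (by norm_num) (by omega)
  obtain ⟨z, hz⟩ : ∃ z : ℕ, z = 64 * E * Nat.log 2 n + 1 := ⟨_, rfl⟩
  have hz1 : 1 ≤ z := by omega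
  have hzA : z ≤ (64 * E + 10) * Nat.log 2 n := by
    rw [hz, add_mul]
    omega
  have hz5 : 5 * z ≤ n := by
    have e1 := H4 n hn3
    have e2 : z ≤ (64 * E + 1) * Nat.log 2 n := by
      rw [hz, add_mul]
      omega
    omega
  have hzl : z ≤ l := by
    have e1 : (5 : ℝ) * z ≤ n := by exact_mod_cast hz5
    have e2 : (0.24 : ℝ) * n ≤ (1 / 4 - ε) * n := mul_le_mul_of_nonneg_right (by linarith) hn0
    have e3 : (z : ℝ) ≤ l := by linarith
    exact_mod_cast e3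
  have hln : l ≤ n := by
    have e2 : (1 / 4 - ε) * n ≤ (1 / 4 : ℝ) * n := mul_le_mul_of_nonneg_right (by linarith) hn0
    have e3 : (l : ℝ) ≤ n := by linarith
    exact_mod_cast e3
  have hQn : (0 : ℝ) < (Fintype.card K : ℝ) ^ n := by positivity
  have hT := H3 n hn2 z y ρ b i₀ lam hzA hy2 hρ hsh hbd
  have hEs := Hs n y z Q 1 s b lam hslo monic_one (fun i => isCoprime_one_left) hy4 hbd
  simp only [one_mul] at hEs
  have hX : (0 : ℝ) ≤ (n : ℝ) ^ (C + 1) * (Fintype.card K : ℝ) ^ n *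
      ((Fintype.card K : ℝ) ^ (-(z : ℝ) / 64) + (Fintype.card K : ℝ) ^ (-c * n)) := by positivity
  refine (MainaG.part s b ρ i₀ lam _ _ _ hX hz1 hzl hln hb hT hEs ?_).trans
    (numer (C + 1) C' A₁ (64 * E + 10) E n z _ c _ hq hQn hE (by omega) (by omega)
      (hn₅.trans (by exact_mod_cast hn5)) (by omega) (H5 n hn4))
  intro j hj β hβ
  rw [mem_Ico] at hj
  set d : ℕ := (s i₀).natDegree with hd
  have hdS : d ≤ S := hSi i₀
  have hn'r : (n : ℝ) ≤ ((n + d : ℕ) : ℝ) := by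
    push_cast
    linarith [(Nat.cast_nonneg d : (0 : ℝ) ≤ (d : ℝ))]
  have hj1 : (j : ℝ) ≤ (1 / 4 - ε) * ((n + d : ℕ) : ℝ) := by
    have e1 : (j : ℝ) + 1 ≤ l := by exact_mod_cast hj.2
    have e2 : (1 / 4 - ε) * (n : ℝ) ≤ (1 / 4 - ε) * ((n + d : ℕ) : ℝ) :=
      mul_le_mul_of_nonneg_left hn'r (by linarith)
    linarith
  have hy1' : (y : ℝ) ≤ θ₁ * ((n + d : ℕ) : ℝ) :=
    hy1.trans (mul_le_mul_of_nonneg_left hn'r hθ₁.le)
  have hsm := (hslo i₀).1
  have hb' : ∀ i, s i₀ * b i ≠ 0 ∧ (s i₀ * b i).natDegree ≤ 3 * (n + d) := by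
    intro i
    refine ⟨mul_ne_zero hsm.ne_zero (hsh i).1, natDegree_mul_le.trans ?_⟩
    have e1 := (hsh i).2
    have e2 := hSi i
    omega
  have H := MainaG.two (n := n) (j := j) (y := y) (g := g) s b (b i₀) ρ lam β _ hQ hsm
    (hslo i₀).2 (by omega) hβ (fun α β' hα hβ' => H2 (n + d) (by omega) j y
      (fun i => s i₀ * b i) (b i₀) lam α β' (by omega) hj1 hy1' (hsh i₀).1 (hsh i₀).2 hb' hbd hα hβ')
  refine H.trans ?_
  have hq1 : (1 : ℝ) ≤ (Fintype.card K : ℝ) := by linarith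
  have e1 : (((n + d : ℕ) : ℝ)) ^ C ≤ 2 ^ C * (n : ℝ) ^ C := by
    rw [← mul_pow]
    refine pow_le_pow_left₀ (Nat.cast_nonneg _) ?_ _
    have : ((n + d : ℕ) : ℝ) ≤ ((2 * n : ℕ) : ℝ) := by exact_mod_cast (by omega : n + d ≤ 2 * n)
    refine this.trans (le_of_eq ?_)
    push_cast
    ring
  have e2 : (Fintype.card K : ℝ) ^ (n + d) ≤ (Fintype.card K : ℝ) ^ S * (Fintype.card K : ℝ) ^ n := by
    rw [← pow_add]
    exact pow_le_pow_right₀ hq1 (by omega)
  have e3 : (Fintype.card K : ℝ) ^ (-(j : ℝ) / 64) ≤ (Fintype.card K : ℝ) ^ (-(z : ℝ) / 64) := by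
    have e : (z : ℝ) ≤ j := by exact_mod_cast hj.1
    exact Real.rpow_le_rpow_of_exponent_le hq1 (by linarith)
  have e4 : (Fintype.card K : ℝ) ^ (-c * ((n + d : ℕ) : ℝ)) ≤ (Fintype.card K : ℝ) ^ (-c * n) := by
    refine Real.rpow_le_rpow_of_exponent_le hq1 ?_
    have := mul_le_mul_of_nonneg_left hn'r hc.le
    linarith
  have e5 : (Fintype.card K : ℝ) ^ (-(j : ℝ) / 64) +
      (Fintype.card K : ℝ) ^ (-c * ((n + d : ℕ) : ℝ)) ≤
      (Fintype.card K : ℝ) ^ (-(z : ℝ) / 64) + (Fintype.card K : ℝ) ^ (-c * n) := add_le_add e3 e4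
  have e6 : (((Fintype.card K ^ Q.natDegree * (2 ^ C * Fintype.card K ^ S) : ℕ)) : ℝ) ≤ n := by
    exact_mod_cast hnG
  push_cast at e6
  have hpos : (0 : ℝ) ≤ (Fintype.card K : ℝ) ^ (-(z : ℝ) / 64) + (Fintype.card K : ℝ) ^ (-c * n) := by
    positivity
  calc (Fintype.card K : ℝ) ^ Q.natDegree * (((n + d : ℕ) : ℝ) ^ C * (Fintype.card K : ℝ) ^ (n + d) *
        ((Fintype.card K : ℝ) ^ (-(j : ℝ) / 64) +
          (Fintype.card K : ℝ) ^ (-c * ((n + d : ℕ) : ℝ))))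
      ≤ (Fintype.card K : ℝ) ^ Q.natDegree * ((2 ^ C * (n : ℝ) ^ C) *
        ((Fintype.card K : ℝ) ^ S * (Fintype.card K : ℝ) ^ n) *
        ((Fintype.card K : ℝ) ^ (-(z : ℝ) / 64) + (Fintype.card K : ℝ) ^ (-c * n))) := by
        refine mul_le_mul_of_nonneg_left ?_ (by positivity)
        refine mul_le_mul ?_ e5 (by positivity) (by positivity)
        exact mul_le_mul e1 e2 (by positivity) (by positivity)
    _ = ((Fintype.card K : ℝ) ^ Q.natDegree * (2 ^ C * (Fintype.card K : ℝ) ^ S)) *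
        ((n : ℝ) ^ C * (Fintype.card K : ℝ) ^ n *
        ((Fintype.card K : ℝ) ^ (-(z : ℝ) / 64) + (Fintype.card K : ℝ) ^ (-c * n))) := by ring
    _ ≤ n * ((n : ℝ) ^ C * (Fintype.card K : ℝ) ^ n *
        ((Fintype.card K : ℝ) ^ (-(z : ℝ) / 64) + (Fintype.card K : ℝ) ^ (-c * n))) := by
        refine mul_le_mul_of_nonneg_right e6 ?_
        exact mul_nonneg (by positivity) hpos
    _ = (n : ℝ) ^ (C + 1) * (Fintype.card K : ℝ) ^ n *
      ((Fintype.card K : ℝ) ^ (-(z : ℝ) / 64) + (Fintype.card K : ℝ) ^ (-c * n)) := by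
        rw [pow_succ]
        ring

end Pool.Agent.H985.CG
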