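import Mathlib
import Pool.Agent.H985.CG.Stm
import Pool.Agent.H985.CH.Mainb

/-!
# Dickson's conjecture over `F_q[X]`: the part with the divisor sum (task CG-MAINB, helper120)

Adaptation of `Pool/Agent/H985/CH/Mainb.lean` (helper113).
-/

set_option autoImplicit false
set_option linter.all false

namespace Pool.Agent.H985.CG.MbgAux

open Polynomial Finset UniqueFactorizationMonoid
open scoped Classical
open Pool.Agent.H985.Chow (mob)
open Pool.Agent.H985.KP (PA mobg)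
open Pool.Agent.H694.Typ (Mn Irn mem_Mn mem_Irn card_Mn card_dvd card_dvd_le no_dvd irn_one_le q_ge
  wt wt_nonneg wt_add)
open Pool.Agent.H251.SP (Rgh Smo bw cf)
open Pool.Agent.H251.SP.Asm (rgh_mono rgh_dvd rgh_mul mob_abs card_rough cf_abs MM mem_MM sum_MM
  sum_dvd sum_MM_pow bw_abs card_Irn_le log_small pow_small log_pow)
open Pool.Agent.H985.CH (SqM Bdd)
open Pool.Agent.H985.CH.MainbAux (ccg ccg_abs cco cco_abs sum_div_le partB Bd exists_monic card_fac
  q_log pow_cmp numeric)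

section alg
variable {K : Type} [Field K]

theorem mobg_abs (g f : K[X]) : |(mobg g f : ℝ)| ≤ 1 := by
  unfold Pool.Agent.H985.KP.mobg
  split_ifs
  · exact mob_abs _
  · simp

/-- scaling of the forms -/
theorem hg_scale {k : ℕ} (s b : Fin k → K[X]) (t f : K[X]) :
    Hg s (fun i => t * b i) (t * f) = t ^ k * Hg s b f := by
  unfold Hg
  have h1 : ∀ i : Fin k, s i * (t * f) + t * b i = t * (s i * f + b i) := fun i => by ring
  rw [prod_congr rfl fun i _ => h1 i, prod_mul_distrib, prod_const, card_univ, Fintype.card_fin]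

theorem cop_of_sup {Q t E : K[X]} (ht : t ≠ 0) (hs : Sup Q t) (hE : IsCoprime E Q) :
    IsCoprime E t := by
  refine isCoprime_of_irreducible_dvd (fun h => ht h.2) ?_
  intro z hz h1 h2
  exact hz.not_isUnit (hE.isUnit_of_dvd' h1 (hs z hz h2))

theorem cop_of_rgh {Q D : K[X]} {l : ℕ} (hQ : Q ≠ 0) (hl : Q.natDegree < l) (hD : Rgh l D) :
    IsCoprime D Q := by
  refine isCoprime_of_irreducible_dvd (fun h => hQ h.2) ?_
  intro z hz h1 h2
  have h3 : (normalize z).Monic := monic_normalize hz.ne_zero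
  have h4 : Irreducible (normalize z) := (normalize_associated z).symm.irreducible hz
  have h5 := hD _ h3 h4 ((normalize_associated z).dvd.trans h1)
  have h6 := natDegree_le_of_dvd ((normalize_associated z).dvd.trans h2) hQ
  omega

/-- the representative of a residue class -/
theorem ex_rep {Q : K[X]} (hQ : Q.Monic) (p : K[X]) :
    ∃ F : K[X], (F.Monic ∧ F.natDegree = Q.natDegree ∧ Q ∣ p - F) ∧
      ∀ F' : K[X], F'.Monic → F'.natDegree = Q.natDegree → Q ∣ p - F' → F' = F := by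
  have hd := degree_modByMonic_lt p hQ
  have h1 : (Q + p %ₘ Q).Monic := hQ.add_of_left hd
  have h2 : (Q + p %ₘ Q).natDegree = Q.natDegree := natDegree_add_eq_left_of_degree_lt hd
  have h3 : Q ∣ p - (Q + p %ₘ Q) := by
    refine ⟨p /ₘ Q - 1, ?_⟩
    rw [modByMonic_eq_sub_mul_div]
    ring
  refine ⟨Q + p %ₘ Q, ⟨h1, h2, h3⟩, ?_⟩
  intro F' hF hF2 hF3
  have h4 : Q ∣ F' - (Q + p %ₘ Q) := by
    have h5 := dvd_sub h3 hF3
    have h6 : p - (Q + p %ₘ Q) - (p - F') = F' - (Q + p %ₘ Q) := by ring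
    rw [h6] at h5
    exact h5
  have h5 : (F' - (Q + p %ₘ Q)).degree < Q.degree := by
    have h6 : F'.degree = Q.degree := by
      rw [degree_eq_natDegree hF.ne_zero, degree_eq_natDegree hQ.ne_zero, hF2]
    have h7 : (Q + p %ₘ Q).degree = Q.degree := by
      rw [degree_eq_natDegree h1.ne_zero, degree_eq_natDegree hQ.ne_zero, h2]
    rw [← h6]
    exact degree_sub_lt (h6.trans h7.symm) hF.ne_zero (by rw [hF.leadingCoeff, h1.leadingCoeff])
  have h6 := eq_zero_of_dvd_of_degree_lt h4 h5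
  exact sub_eq_zero.1 h6

end alg

variable {K : Type} [Field K] [Fintype K]

theorem wg_scale {k : ℕ} {Q t : K[X]} (ht : t ≠ 0) (hs : Sup Q t) (s b : Fin k → K[X])
    (lam : K[X] → ℝ) (y : ℕ) (f : K[X]) :
    Wg Q s (fun i => t * b i) lam y (t * f) = Wg Q s b lam y f := by
  unfold Wg
  refine sum_congr (filter_congr fun E _ => ?_) fun _ _ => rfl
  refine and_congr_right fun hE => ?_
  rw [hg_scale]
  have h1 : IsCoprime E (t ^ k) := (cop_of_sup ht hs hE).pow_right
  exact ⟨fun h => h1.dvd_of_dvd_mul_left h, fun h => dvd_mul_of_dvd_right h _⟩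

/-- the number of the weights -/
noncomputable def tg {k : ℕ} (Q : K[X]) (s b : Fin k → K[X]) (y : ℕ) (f : K[X]) : ℝ :=
  (((SqM K y).filter (fun E => IsCoprime E Q ∧ E ∣ Hg s b f)).card : ℝ)

theorem tg_nonneg {k : ℕ} (Q : K[X]) (s b : Fin k → K[X]) (y : ℕ) (f : K[X]) :
    0 ≤ tg Q s b y f := Nat.cast_nonneg _

theorem wg_abs {k : ℕ} (Q : K[X]) (s b : Fin k → K[X]) {lam : K[X] → ℝ} (hl : Bdd lam) (y : ℕ)
    (f : K[X]) : |Wg Q s b lam y f| ≤ tg Q s b y f := by
  unfold Wg tg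
  refine (abs_sum_le_sum_abs _ _).trans ((sum_le_sum fun E _ => hl E).trans ?_)
  rw [sum_const, nsmul_eq_mul, mul_one]

/-- few bad polynomials -/
theorem card_bad {n l k : ℕ} (hl : 1 ≤ l) (h : Fin k → K[X])
    (hh : ∀ i, h i ≠ 0 ∧ (h i).natDegree ≤ 2 * n) :
    (((Mn K n).filter (fun f => Rgh l f ∧ Bd h f)).card : ℝ) ≤
      ((2 * k : ℕ) + 1 : ℝ) * (n + 1) * ((Fintype.card K : ℝ) ^ n * wt K l) := by
  have hq := q_ge (k := K)
  have hsub : (Mn K n).filter (fun f => Rgh l f ∧ Bd h f) ⊆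
      ((Icc l n).biUnion fun j => (Irn K j).biUnion fun P => (Mn K n).filter (fun f => P ^ 2 ∣ f)) ∪
      (univ : Finset (Fin k)).biUnion fun i =>
        ((normalizedFactors (h i)).toFinset.filter (fun P => l ≤ P.natDegree)).biUnion fun P =>
          (Mn K n).filter (fun f => P ∣ f) := by
    intro f hf
    rw [mem_filter] at hf
    obtain ⟨hf1, hf2, hf3⟩ := hf
    have hfm := (mem_Mn.1 hf1)
    rw [mem_union]
    rcases hf3 with hf3 | ⟨i, hf3⟩
    · left
      rw [squarefree_iff_no_irreducibles hfm.1.ne_zero] at hf3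
      push Not at hf3
      obtain ⟨P0, hP0, hP0f⟩ := hf3
      have hP : (normalize P0).Monic := monic_normalize hP0.ne_zero
      have hPi : Irreducible (normalize P0) := (normalize_associated P0).symm.irreducible hP0
      have hPf : (normalize P0) ^ 2 ∣ f := by
        refine dvd_trans ?_ hP0f
        rw [← pow_two]
        exact ((normalize_associated P0).pow_pow).dvd
      have hd := hf2 _ hP hPi ((dvd_pow_self _ two_ne_zero).trans hPf)
      have hd2 := natDegree_le_of_dvd hPf hfm.1.ne_zero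
      rw [natDegree_pow, hfm.2] at hd2
      rw [mem_biUnion]
      refine ⟨(normalize P0).natDegree, mem_Icc.2 ⟨hd, by omega⟩, ?_⟩
      rw [mem_biUnion]
      exact ⟨normalize P0, mem_Irn.2 ⟨hP, rfl, hPi⟩, mem_filter.2 ⟨hf1, hPf⟩⟩
    · right
      have hi := (hh i).1
      have h1 : ¬ IsUnit (gcd f (h i)) := by
        intro hu
        exact hf3 ((gcd_isUnit_iff f (h i)).1 hu)
      have h2 : gcd f (h i) ≠ 0 := gcd_ne_zero_of_right hi
      obtain ⟨P, hP, hPi, hPg⟩ := exists_monic h2 h1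
      have hPf : P ∣ f := hPg.trans (gcd_dvd_left _ _)
      have hPh : P ∣ h i := hPg.trans (gcd_dvd_right _ _)
      rw [mem_biUnion]
      refine ⟨i, mem_univ i, ?_⟩
      rw [mem_biUnion]
      refine ⟨P, ?_, mem_filter.2 ⟨hf1, hPf⟩⟩
      rw [mem_filter, Multiset.mem_toFinset, mem_normalizedFactors_iff' hi]
      exact ⟨⟨hPi, hP.normalize_eq_self, hPh⟩, hf2 P hP hPi hPf⟩
  have hw : 0 ≤ wt K l := wt_nonneg l
  have hwm : ∀ j, l ≤ j → wt K j ≤ wt K l := by
    intro j hj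
    unfold Pool.Agent.H694.Typ.wt
    exact inv_anti₀ (by positivity) (pow_le_pow_right₀ (by linarith) hj)
  have hA : (((Icc l n).biUnion fun j => (Irn K j).biUnion fun P =>
      (Mn K n).filter (fun f => P ^ 2 ∣ f)).card : ℝ) ≤
      ((n : ℝ) + 1) * ((Fintype.card K : ℝ) ^ n * wt K l) := by
    have h1 : ((Icc l n).biUnion fun j => (Irn K j).biUnion fun P =>
      (Mn K n).filter (fun f => P ^ 2 ∣ f)).card ≤ ∑ j ∈ Icc l n, ∑ P ∈ Irn K j,
        ((Mn K n).filter (fun f => P ^ 2 ∣ f)).card :=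
      card_biUnion_le.trans (sum_le_sum fun j _ => card_biUnion_le)
    have h2 : ∀ j ∈ Icc l n, ∑ P ∈ Irn K j, (((Mn K n).filter (fun f => P ^ 2 ∣ f)).card : ℝ) ≤
        (Fintype.card K : ℝ) ^ n * wt K l := by
      intro j hj
      rw [mem_Icc] at hj
      have h3 : ∀ P ∈ Irn K j, (((Mn K n).filter (fun f => P ^ 2 ∣ f)).card : ℝ) ≤
          (Fintype.card K : ℝ) ^ n * (wt K j * wt K j) := by
        intro P hP
        rw [mem_Irn] at hP
        refine (card_dvd_le (hP.1.pow 2)).trans ?_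
        rw [natDegree_pow, hP.2.1, two_mul, wt_add]
      refine (sum_le_sum h3).trans ?_
      rw [sum_const, nsmul_eq_mul]
      have h4 := card_Irn_le (K := K) j
      have h5 : (Fintype.card K : ℝ) ^ j * wt K j = 1 := by
        unfold Pool.Agent.H694.Typ.wt
        exact mul_inv_cancel₀ (by positivity)
      have hwj : 0 ≤ wt K j := wt_nonneg j
      calc ((Irn K j).card : ℝ) * ((Fintype.card K : ℝ) ^ n * (wt K j * wt K j)) ≤
            (Fintype.card K : ℝ) ^ j * ((Fintype.card K : ℝ) ^ n * (wt K j * wt K j)) :=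
            mul_le_mul_of_nonneg_right h4 (by positivity)
        _ = (Fintype.card K : ℝ) ^ n * wt K j * ((Fintype.card K : ℝ) ^ j * wt K j) := by ring
        _ = (Fintype.card K : ℝ) ^ n * wt K j := by rw [h5, mul_one]
        _ ≤ (Fintype.card K : ℝ) ^ n * wt K l :=
            mul_le_mul_of_nonneg_left (hwm j hj.1) (by positivity)
    calc _ ≤ ((∑ j ∈ Icc l n, ∑ P ∈ Irn K j,
        ((Mn K n).filter (fun f => P ^ 2 ∣ f)).card : ℕ) : ℝ) := by exact_mod_cast h1
      _ = ∑ j ∈ Icc l n, ∑ P ∈ Irn K j, (((Mn K n).filter (fun f => P ^ 2 ∣ f)).card : ℝ) := by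
          push_cast
          rfl
      _ ≤ ∑ j ∈ Icc l n, (Fintype.card K : ℝ) ^ n * wt K l := sum_le_sum h2
      _ ≤ _ := by
          rw [sum_const, nsmul_eq_mul, Nat.card_Icc]
          refine mul_le_mul_of_nonneg_right ?_ (by positivity)
          have : n + 1 - l ≤ n + 1 := Nat.sub_le _ _
          exact_mod_cast this
  have hB : (((univ : Finset (Fin k)).biUnion fun i =>
        ((normalizedFactors (h i)).toFinset.filter (fun P => l ≤ P.natDegree)).biUnion fun P =>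
          (Mn K n).filter (fun f => P ∣ f)).card : ℝ) ≤
      (k : ℝ) * (2 * n * ((Fintype.card K : ℝ) ^ n * wt K l)) := by
    have h1 : ((univ : Finset (Fin k)).biUnion fun i =>
        ((normalizedFactors (h i)).toFinset.filter (fun P => l ≤ P.natDegree)).biUnion fun P =>
          (Mn K n).filter (fun f => P ∣ f)).card ≤ ∑ i : Fin k,
        ∑ P ∈ (normalizedFactors (h i)).toFinset.filter (fun P => l ≤ P.natDegree),
          ((Mn K n).filter (fun f => P ∣ f)).card :=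
      card_biUnion_le.trans (sum_le_sum fun i _ => card_biUnion_le)
    have h2 : ∀ i : Fin k,
        ∑ P ∈ (normalizedFactors (h i)).toFinset.filter (fun P => l ≤ P.natDegree),
          (((Mn K n).filter (fun f => P ∣ f)).card : ℝ) ≤
        2 * n * ((Fintype.card K : ℝ) ^ n * wt K l) := by
      intro i
      have h3 : ∀ P ∈ (normalizedFactors (h i)).toFinset.filter (fun P => l ≤ P.natDegree),
          (((Mn K n).filter (fun f => P ∣ f)).card : ℝ) ≤
          (Fintype.card K : ℝ) ^ n * wt K l := by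
        intro P hP
        rw [mem_filter, Multiset.mem_toFinset, mem_normalizedFactors_iff' (hh i).1] at hP
        have hPm : P.Monic := by
          rw [← hP.1.2.1]
          exact monic_normalize hP.1.1.ne_zero
        exact (card_dvd_le hPm).trans (mul_le_mul_of_nonneg_left (hwm _ hP.2) (by positivity))
      refine (sum_le_sum h3).trans ?_
      rw [sum_const, nsmul_eq_mul]
      refine mul_le_mul_of_nonneg_right ?_ (by positivity)
      exact_mod_cast card_fac hl (hh i).1 (hh i).2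
    calc _ ≤ ((∑ i : Fin k,
        ∑ P ∈ (normalizedFactors (h i)).toFinset.filter (fun P => l ≤ P.natDegree),
          ((Mn K n).filter (fun f => P ∣ f)).card : ℕ) : ℝ) := by exact_mod_cast h1
      _ = ∑ i : Fin k, ∑ P ∈ (normalizedFactors (h i)).toFinset.filter (fun P => l ≤ P.natDegree),
          (((Mn K n).filter (fun f => P ∣ f)).card : ℝ) := by
          push_cast
          rfl
      _ ≤ ∑ i : Fin k, 2 * n * ((Fintype.card K : ℝ) ^ n * wt K l) := sum_le_sum fun i _ => h2 i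
      _ = _ := by
          rw [sum_const, card_univ, Fintype.card_fin, nsmul_eq_mul]
  have h1 := (card_le_card hsub).trans (card_union_le _ _)
  have h2 : (((Mn K n).filter (fun f => Rgh l f ∧ Bd h f)).card : ℝ) ≤
      ((n : ℝ) + 1) * ((Fintype.card K : ℝ) ^ n * wt K l) +
        (k : ℝ) * (2 * n * ((Fintype.card K : ℝ) ^ n * wt K l)) := by
    refine le_trans ?_ (add_le_add hA hB)
    exact_mod_cast h1
  refine h2.trans ?_
  have h3 : 0 ≤ (Fintype.card K : ℝ) ^ n * wt K l := by positivity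
  have h4 : (0 : ℝ) ≤ (k : ℝ) * ((Fintype.card K : ℝ) ^ n * wt K l) := by positivity
  push_cast
  nlinarith

/-- the sum of the weights over the bad polynomials -/
theorem sum_bad {n l k C : ℕ} (hl : 1 ≤ l) (h : Fin k → K[X])
    (hh : ∀ i, h i ≠ 0 ∧ (h i).natDegree ≤ 2 * n) (tb : K[X] → ℝ) (htb : ∀ f, 0 ≤ tb f)
    (hm : ∑ B ∈ Mn K n, (tb B) ^ 2 ≤ ((n : ℝ) + 2) ^ C * (Fintype.card K : ℝ) ^ n) :
    ∑ f ∈ (Mn K n).filter (fun f => Rgh l f ∧ Bd h f), tb f ≤
      (((n : ℝ) + 2) ^ C + ((2 * k : ℕ) + 1 : ℝ) * (n + 1)) * (Fintype.card K : ℝ) ^ n *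
        (1 / 2) ^ (l / 2) := by
  have hq := q_ge (k := K)
  have hqn : (0 : ℝ) < (Fintype.card K : ℝ) ^ n := by positivity
  obtain ⟨t, ht⟩ : ∃ t : ℝ, t = (1 / 2) ^ (l / 2) := ⟨_, rfl⟩
  have ht0 : 0 < t := by
    rw [ht]
    positivity
  have h1 := card_bad hl h hh
  have hwt : wt K l ≤ t * t := by
    have e1 := Pool.Agent.H694.Typ.wt_le_half (k := K) l
    refine e1.trans ?_
    rw [ht, ← pow_add]
    exact pow_le_pow_of_le_one (by norm_num) (by norm_num) (by omega)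
  have h2 : ∀ f ∈ (Mn K n).filter (fun f => Rgh l f ∧ Bd h f),
      tb f ≤ t * (tb f) ^ 2 + t⁻¹ := by
    intro f _
    have e1 : 0 ≤ (t * tb f - 1) ^ 2 := sq_nonneg _
    have e2 : 0 ≤ tb f := htb f
    have e3 : t * tb f ≤ t * (t * (tb f) ^ 2 + t⁻¹) := by
      rw [mul_add, mul_inv_cancel₀ ht0.ne']
      nlinarith
    exact le_of_mul_le_mul_left e3 ht0
  refine (sum_le_sum h2).trans ?_
  rw [sum_add_distrib, ← mul_sum, sum_const, nsmul_eq_mul]
  have h3 : ∑ f ∈ (Mn K n).filter (fun f => Rgh l f ∧ Bd h f), (tb f) ^ 2 ≤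
      ((n : ℝ) + 2) ^ C * (Fintype.card K : ℝ) ^ n :=
    (sum_le_sum_of_subset_of_nonneg (filter_subset _ _) fun _ _ _ => sq_nonneg _).trans hm
  have h4 : (((Mn K n).filter (fun f => Rgh l f ∧ Bd h f)).card : ℝ) * t⁻¹ ≤
      ((2 * k : ℕ) + 1 : ℝ) * (n + 1) * (Fintype.card K : ℝ) ^ n * t := by
    have e1 : ((2 * k : ℕ) + 1 : ℝ) * (n + 1) * ((Fintype.card K : ℝ) ^ n * wt K l) ≤
        ((2 * k : ℕ) + 1 : ℝ) * (n + 1) * ((Fintype.card K : ℝ) ^ n * (t * t)) := by gcongr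
    calc (((Mn K n).filter (fun f => Rgh l f ∧ Bd h f)).card : ℝ) * t⁻¹ ≤
          (((2 * k : ℕ) + 1 : ℝ) * (n + 1) * ((Fintype.card K : ℝ) ^ n * (t * t))) * t⁻¹ :=
          mul_le_mul_of_nonneg_right (h1.trans e1) (by positivity)
      _ = ((2 * k : ℕ) + 1 : ℝ) * (n + 1) * (Fintype.card K : ℝ) ^ n * t * (t * t⁻¹) := by ring
      _ = _ := by rw [mul_inv_cancel₀ ht0.ne', mul_one]
  rw [← ht]
  have h5 := mul_le_mul_of_nonneg_left h3 ht0.le
  nlinarith

/-- type II sums of a form with slope `t`, in a residue class -/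
theorem tII {k : ℕ} {Q g t h : K[X]} (hQ : Q.Monic) (ht : t.Monic) (hts : Sup Q t)
    (s b : Fin k → K[X]) (lam : K[X] → ℝ) (ρ : K[X]) {n j y : ℕ} (hj : j ≤ n) (X : ℝ)
    (H : ∀ α β : K[X] → ℝ, Bdd α → Bdd β →
      |∑ p ∈ Irn K j, ∑ B ∈ Mn K (n + t.natDegree - j), α p * β B *
        (Wg Q s (fun i => t * b i) lam y (p * B) * (mobg g (p * B + h) : ℝ))| ≤ X)
    (β : K[X] → ℝ) (hβ : ∀ B, |β B| ≤ 1) :
    |∑ p ∈ Irn K j, ∑ B ∈ Mn K (n - j), β B * (if Q ∣ p * B - ρ then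
      Wg Q s b lam y (p * B) * (mobg g (t * (p * B) + h) : ℝ) else 0)| ≤
      (Fintype.card K : ℝ) ^ Q.natDegree * X := by
  obtain ⟨V, hV⟩ : ∃ V : K[X] → ℝ, ∀ f, V f = Wg Q s b lam y f * (mobg g (t * f + h) : ℝ) :=
    ⟨_, fun _ => rfl⟩
  obtain ⟨a, ha⟩ : ∃ a : K[X] → K[X] → ℝ, ∀ F p, a F p = if Q ∣ p - F then 1 else 0 :=
    ⟨fun F p => if Q ∣ p - F then 1 else 0, fun _ _ => rfl⟩
  obtain ⟨c, hc⟩ : ∃ c : K[X] → K[X] → ℝ, ∀ F B, c F B = if Q ∣ F * B - ρ then β B else 0 :=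
    ⟨fun F B => if Q ∣ F * B - ρ then β B else 0, fun _ _ => rfl⟩
  have key : ∀ p B : K[X], β B * (if Q ∣ p * B - ρ then V (p * B) else 0) =
      ∑ F ∈ Mn K Q.natDegree, a F p * c F B * V (p * B) := by
    intro p B
    obtain ⟨F0, ⟨h1, h2, h3⟩, h4⟩ := ex_rep hQ p
    symm
    rw [sum_eq_single F0]
    · rw [ha, hc, if_pos h3, one_mul]
      have h5 : Q ∣ F0 * B - ρ ↔ Q ∣ p * B - ρ := by
        have h6 : p * B - ρ = (F0 * B - ρ) + (p - F0) * B := by ring
        rw [h6]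
        exact (dvd_add_left (h3.mul_right B)).symm
      by_cases h7 : Q ∣ p * B - ρ
      · rw [if_pos h7, if_pos (h5.2 h7)]
      · rw [if_neg h7, if_neg (fun h => h7 (h5.1 h)), zero_mul, mul_zero]
    · intro F hF hne
      rw [mem_Mn] at hF
      rw [ha, if_neg (fun h => hne (h4 F hF.1 hF.2 h)), zero_mul, zero_mul]
    · intro hF0
      exact absurd (mem_Mn.2 ⟨h1, h2⟩) hF0
  have e1 : ∑ p ∈ Irn K j, ∑ B ∈ Mn K (n - j), β B * (if Q ∣ p * B - ρ then
      Wg Q s b lam y (p * B) * (mobg g (t * (p * B) + h) : ℝ) else 0) =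
      ∑ F ∈ Mn K Q.natDegree, ∑ p ∈ Irn K j, ∑ B ∈ Mn K (n - j), a F p * c F B * V (p * B) := by
    symm
    rw [sum_comm]
    refine sum_congr rfl fun p _ => ?_
    rw [sum_comm]
    refine sum_congr rfl fun B _ => ?_
    rw [← key, hV]
  rw [e1]
  refine (abs_sum_le_sum_abs _ _).trans ?_
  have e2 : ∀ F ∈ Mn K Q.natDegree,
      |∑ p ∈ Irn K j, ∑ B ∈ Mn K (n - j), a F p * c F B * V (p * B)| ≤ X := by
    intro F _
    have e3 := H (a F) (fun B' => if t ∣ B' then c F (B' / t) else 0)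
      (by
        intro p
        rw [ha]
        split_ifs <;> simp)
      (by
        intro B'
        show |(if t ∣ B' then c F (B' / t) else 0)| ≤ 1
        split_ifs
        · rw [hc]
          split_ifs
          · exact hβ _
          · simp
        · simp)
    have e4 : ∀ p : K[X], ∑ B ∈ Mn K (n + t.natDegree - j),
        a F p * (if t ∣ B then c F (B / t) else 0) *
        (Wg Q s (fun i => t * b i) lam y (p * B) * (mobg g (p * B + h) : ℝ)) =
        ∑ B ∈ Mn K (n - j), a F p * c F B * V (p * B) := by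
      intro p
      have e5 : ∀ B ∈ Mn K (n + t.natDegree - j),
          a F p * (if t ∣ B then c F (B / t) else 0) *
          (Wg Q s (fun i => t * b i) lam y (p * B) * (mobg g (p * B + h) : ℝ)) =
          if t ∣ B then a F p * c F (B / t) *
          (Wg Q s (fun i => t * b i) lam y (p * B) * (mobg g (p * B + h) : ℝ)) else 0 := by
        intro B _
        split_ifs
        · rfl
        · rw [mul_zero, zero_mul]
      rw [sum_congr rfl e5, ← sum_filter, sum_dvd ht (by omega)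
        (fun B => a F p * c F (B / t) *
          (Wg Q s (fun i => t * b i) lam y (p * B) * (mobg g (p * B + h) : ℝ)))]
      have e6 : n + t.natDegree - j - t.natDegree = n - j := by omega
      rw [e6]
      refine sum_congr rfl fun B _ => ?_
      have e7 : p * (t * B) = t * (p * B) := by ring
      show a F p * c F (t * B / t) *
          (Wg Q s (fun i => t * b i) lam y (p * (t * B)) * (mobg g (p * (t * B) + h) : ℝ)) = _
      rw [mul_div_cancel_left₀ _ ht.ne_zero, e7, wg_scale ht.ne_zero hts, hV]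
    rw [sum_congr rfl fun p _ => e4 p] at e3
    exact e3
  refine (sum_le_sum e2).trans ?_
  rw [sum_const, nsmul_eq_mul, card_Mn]
  push_cast
  exact le_rfl

end Pool.Agent.H985.CG.MbgAux

namespace Pool.Agent.H985.CG

open Polynomial Finset
open scoped Classical
open Pool.Agent.H985.Chow (mob)
open Pool.Agent.H694.Typ (Mn Irn mem_Mn mem_Irn q_ge)
open Pool.Agent.H251.SP (Rgh Smo bw cf)
open Pool.Agent.H251.SP.Asm (rgh_mono rgh_dvd mob_abs MM mem_MM sum_MM log_small pow_small)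
open Pool.Agent.H985.KP (mobg)
open Pool.Agent.H985.CH (SqM Bdd S_buchw)
open Pool.Agent.H985.CH.MainbAux (ccg ccg_abs cco cco_abs sum_div_le partB Bd q_log pow_cmp
  numeric)
open MbgAux

/-- **Task CG-MAINB.** -/
theorem mainbg (h2 : S_tiig) (h3 : S_tig) (hb : S_buchw) (hs : S_sqg) (hm : S_momg) :
    S_mainbg := by
  intro K _ _ _ k A₁ Q g s ε δ hQ hg hSl hε hε1 hδ
  have hq := q_ge (k := K)
  obtain ⟨C0, c, θ2, hc0, hθ2, n2, h2'⟩ := h2 K k Q g s ε hQ hg hSl hε
  obtain ⟨C, hC⟩ : ∃ C : ℕ, C = C0 + 1 := ⟨_, rfl⟩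
  obtain ⟨C', hC'⟩ := hs k K
  obtain ⟨C'', hC''⟩ := hm k 2 K
  obtain ⟨E, hE⟩ : ∃ E : ℕ, E = C + C' + A₁ + 6 := ⟨_, rfl⟩
  obtain ⟨A₀, hA₀⟩ : ∃ A₀ : ℕ, A₀ = 64 * E + 10 := ⟨_, rfl⟩
  obtain ⟨θ3, hθ3, n3, h3'⟩ := h3 K k A₀ Q g s δ hQ hg hSl hδ
  obtain ⟨n5, h5⟩ := log_small (64 * E + 1)
  obtain ⟨n6, h6⟩ := pow_small E (Fintype.card K : ℝ) c hq hc0
  obtain ⟨n7, h7⟩ := pow_small (C'' + A₁ + 3) 2 (1 / 10) le_rfl (by norm_num)
  obtain ⟨P3, hP3⟩ : ∃ P3 : ℕ, P3 = 3 ^ C'' := ⟨_, rfl⟩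
  obtain ⟨Es, hEs⟩ : ∃ Es : ℕ, ∀ i, (s i).natDegree ≤ Es :=
    ⟨∑ i, (s i).natDegree, fun i => single_le_sum (f := fun i => (s i).natDegree)
      (fun _ _ => Nat.zero_le _) (mem_univ i)⟩
  obtain ⟨M, hM⟩ : ∃ M : ℕ, M = Fintype.card K ^ Q.natDegree *
    (2 ^ C0 * Fintype.card K ^ Es) := ⟨_, rfl⟩
  refine ⟨min (min θ2 θ3) (1 / 4), lt_min (lt_min hθ2 hθ3) (by norm_num),
    n2 + n3 + n5 + n6 + n7 + 25 + ⌈(4 + 4 * 3 ^ C' * 2 ^ E + 32 * (2 ^ E + 1) + 64 : ℝ)⌉₊ +
      (P3 + 2 * (2 * k + 1)) + (5 * Q.natDegree + Es + M), ?_⟩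
  intro n hn l y ρ h i₀ lam hl1 hl2 hy hρ hSh hlam
  have hn25 : 25 ≤ n := by omega
  have hn1 : (1 : ℝ) ≤ n := by exact_mod_cast (show 1 ≤ n by omega)
  have hn0 : (0 : ℝ) < n := by linarith
  have hnr : (25 : ℝ) ≤ n := by exact_mod_cast hn25
  have hbig : (4 + 4 * 3 ^ C' * 2 ^ E + 32 * (2 ^ E + 1) + 64 : ℝ) ≤ n := by
    refine (Nat.le_ceil _).trans ?_
    exact_mod_cast (show ⌈(4 + 4 * 3 ^ C' * 2 ^ E + 32 * (2 ^ E + 1) + 64 : ℝ)⌉₊ ≤ n by omega)
  have hk : 3 ^ C'' + 2 * (2 * k + 1) ≤ n := by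
    rw [← hP3]
    omega
  have hy2 : (y : ℝ) ≤ θ2 * n :=
    hy.trans (mul_le_mul_of_nonneg_right ((min_le_left _ _).trans (min_le_left _ _)) hn0.le)
  have hy3 : (y : ℝ) ≤ θ3 * n :=
    hy.trans (mul_le_mul_of_nonneg_right ((min_le_left _ _).trans (min_le_right _ _)) hn0.le)
  have hy4 : 4 * y ≤ n := by
    have e1 : (y : ℝ) ≤ 1 / 4 * n :=
      hy.trans (mul_le_mul_of_nonneg_right (min_le_right _ _) hn0.le)
    have e2 : (4 * y : ℝ) ≤ n := by linarith
    exact_mod_cast e2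
  -- the parameters
  have hlog : 1 ≤ Nat.log 2 n := (Nat.le_log_iff_pow_le (by norm_num) (by omega)).2 (by omega)
  obtain ⟨z, hz⟩ : ∃ z : ℕ, z = 64 * E * Nat.log 2 n + 1 := ⟨_, rfl⟩
  have hz1 : 1 ≤ z := by omega
  have hz5 : 5 * z ≤ n := by
    have e1 := h5 n (by omega)
    have e2 : z ≤ (64 * E + 1) * Nat.log 2 n := by
      rw [hz, add_mul, one_mul]
      omega
    omega
  have hzA : z ≤ A₀ * Nat.log 2 n := by
    rw [hz, hA₀, add_mul]
    omega
  have hl024 : (24 / 100 : ℝ) * n ≤ l := by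
    refine le_trans ?_ hl1
    exact mul_le_mul_of_nonneg_right (by linarith) hn0.le
  have hzl : z ≤ l := by
    have e1 : (5 * z : ℝ) ≤ n := by exact_mod_cast hz5
    have e2 : (z : ℝ) ≤ l := by linarith
    exact_mod_cast e2
  have hl5 : n < 5 * l := by
    have e1 : (n : ℝ) < 5 * l := by linarith
    exact_mod_cast e1
  have hln : 2 * l ≤ n := by
    have e1 : (l : ℝ) ≤ n / 4 + 1 := by
      have : (1 / 4 - ε) * n ≤ n / 4 := by nlinarith
      linarith
    have e2 : (2 * l : ℝ) ≤ n := by linarith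
    exact_mod_cast e2
  have hzE : E * Nat.log 2 n ≤ z / 64 := by
    rw [hz]
    have : 64 * E * Nat.log 2 n = 64 * (E * Nat.log 2 n) := by ring
    omega
  have hzE' : ((E * Nat.log 2 n : ℕ) : ℝ) ≤ (z : ℝ) / 64 := by
    have e1 : 64 * (E * Nat.log 2 n) ≤ z := by omega
    have e2 : (64 : ℝ) * ((E * Nat.log 2 n : ℕ) : ℝ) ≤ z := by exact_mod_cast e1
    linarith
  have hzr : (0 : ℝ) ≤ z := Nat.cast_nonneg z
  have hqz64 : (Fintype.card K : ℝ) ^ (-(z : ℝ) / 64) ≤ 2 ^ E / (n : ℝ) ^ E := by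
    rw [neg_div]
    exact q_log E n _ _ hq (by omega) hzE'
  have hqz2 : (Fintype.card K : ℝ) ^ (-(z : ℝ) / 2) ≤ 2 ^ E / (n : ℝ) ^ E := by
    rw [neg_div]
    exact q_log E n _ _ hq (by omega) (hzE'.trans (by linarith))
  have hqn : (0 : ℝ) < (Fintype.card K : ℝ) ^ n := by positivity
  have hQl : Q.natDegree < l := by omega
  have hh2 : ∀ i, h i ≠ 0 ∧ (h i).natDegree ≤ 2 * n := by
    intro i
    have e1 := (hSh i).2
    have e2 := hEs i
    exact ⟨(hSh i).1, by omega⟩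
  -- the function
  obtain ⟨Φ, hΦ⟩ : ∃ Φ : K[X] → ℝ, ∀ f, Φ f = if Q ∣ f - ρ then
      Wg Q s h lam y f * (mobg g (s i₀ * f + h i₀) : ℝ) else 0 :=
    ⟨fun f => if Q ∣ f - ρ then Wg Q s h lam y f * (mobg g (s i₀ * f + h i₀) : ℝ) else 0,
      fun _ => rfl⟩
  have hΦW : ∀ f, |Φ f| ≤ |Wg Q s h lam y f| := by
    intro f
    rw [hΦ]
    split_ifs
    · rw [abs_mul]
      exact mul_le_of_le_one_right (abs_nonneg _) (mobg_abs _ _)
    · rw [abs_zero]
      exact abs_nonneg _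
  obtain ⟨Y, hY⟩ : ∃ Y : ℝ, Y = 1 / (n : ℝ) ^ A₀ + ((n : ℝ) + 2) ^ C' *
    (Fintype.card K : ℝ) ^ (-(z : ℝ) / 2) := ⟨_, rfl⟩
  have hqz2p : 0 < (Fintype.card K : ℝ) ^ (-(z : ℝ) / 2) := Real.rpow_pos_of_pos (by linarith) _
  have hqz64p : 0 < (Fintype.card K : ℝ) ^ (-(z : ℝ) / 64) := Real.rpow_pos_of_pos (by linarith) _
  have hqcp : 0 < (Fintype.card K : ℝ) ^ (-c * n) := Real.rpow_pos_of_pos (by linarith) _
  have hY0 : 0 ≤ Y := by
    rw [hY]
    positivity
  obtain ⟨X, hX⟩ : ∃ X : ℝ, X = (n : ℝ) ^ C * (Fintype.card K : ℝ) ^ n *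
    ((Fintype.card K : ℝ) ^ (-(z : ℝ) / 64) + (Fintype.card K : ℝ) ^ (-c * n)) := ⟨_, rfl⟩
  have hX0 : 0 ≤ X := by
    rw [hX]
    positivity
  have hB := partB (z := z) (l := l) (n := n) δ h Φ X Y hX0 hY0 hln hl5 hδ.le
    (by
      intro D hD hDs hDr hDc hDn hDn2
      have hd := hb K (n - D.natDegree) z l (fun B => Φ (D * B)) hz1 hzl (by omega)
      have e1 : |∑ B ∈ (Mn K (n - D.natDegree)).filter (Rgh z), Φ (D * B)| ≤
          (Fintype.card K : ℝ) ^ (n - D.natDegree) / (n : ℝ) ^ A₀ := by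
        have e2 := h3' n (by omega) z y D ρ h i₀ lam hzA hD hDs
          (cop_of_rgh hQ.ne_zero hQl hDr) hDn hDc hy3 hSh hlam
        rw [← filter_filter, sum_filter] at e2
        rw [sum_congr rfl fun B _ => hΦ (D * B)]
        exact e2
      have e3 := hC' (n - D.natDegree) y z Q D s h lam hSl hD hDc (by omega) hlam
      have e4 : ∑ j ∈ Ico z l, ∑ p ∈ Irn K j,
          ∑ B ∈ (Mn K (n - D.natDegree - j)).filter (fun B => p ∣ B), |Φ (D * (p * B))| ≤
          ∑ j ∈ Icc (max z 1) (n - D.natDegree), ∑ p ∈ Irn K j,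
            ∑ B ∈ (Mn K (n - D.natDegree - j)).filter (fun B => p ∣ B),
              |Wg Q s h lam y (D * (p * B))| := by
        refine (sum_le_sum fun j _ => sum_le_sum fun p _ => sum_le_sum fun B _ =>
          hΦW (D * (p * B))).trans ?_
        refine sum_le_sum_of_subset_of_nonneg ?_ ?_
        · intro j hj
          rw [mem_Ico] at hj
          rw [mem_Icc]
          exact ⟨max_le hj.1 (by omega), by omega⟩
        · intro j _ _
          exact sum_nonneg fun p _ => sum_nonneg fun B _ => abs_nonneg _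
      have e5 : (((n - D.natDegree : ℕ) : ℝ) + 2) ^ C' ≤ ((n : ℝ) + 2) ^ C' := by
        refine pow_le_pow_left₀ (by positivity) ?_ _
        have : ((n - D.natDegree : ℕ) : ℝ) ≤ n := by exact_mod_cast Nat.sub_le _ _
        linarith
      have e6 : (((n - D.natDegree : ℕ) : ℝ) + 2) ^ C' *
          (Fintype.card K : ℝ) ^ (n - D.natDegree) * (Fintype.card K : ℝ) ^ (-(z : ℝ) / 2) ≤
          ((n : ℝ) + 2) ^ C' *
          (Fintype.card K : ℝ) ^ (n - D.natDegree) * (Fintype.card K : ℝ) ^ (-(z : ℝ) / 2) :=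
        mul_le_mul_of_nonneg_right (mul_le_mul_of_nonneg_right e5 (by positivity)) hqz2p.le
      have e7 : (Fintype.card K : ℝ) ^ (n - D.natDegree) * Y =
          (Fintype.card K : ℝ) ^ (n - D.natDegree) / (n : ℝ) ^ A₀ + ((n : ℝ) + 2) ^ C' *
          (Fintype.card K : ℝ) ^ (n - D.natDegree) * (Fintype.card K : ℝ) ^ (-(z : ℝ) / 2) := by
        rw [hY]
        ring
      rw [e7]
      have e8 := (hd.trans e4).trans (e3.trans e6)
      rw [abs_le] at e1 e8 ⊢
      constructor <;> linarith [e1.1, e1.2, e8.1, e8.2])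
    (by
      intro j hj β hβ
      rw [mem_Ico] at hj
      have hjn : (j : ℝ) ≤ (1 / 4 - ε) * n := by
        have e1 : (j : ℝ) + 1 ≤ l := by exact_mod_cast hj.2
        linarith
      have hjn2 : j ≤ n := by omega
      have hei := hEs i₀
      obtain ⟨e, he⟩ : ∃ e : ℕ, e = (s i₀).natDegree := ⟨_, rfl⟩
      rw [← he] at hei
      have her : (0 : ℝ) ≤ e := Nat.cast_nonneg e
      have hcast : ((n + e : ℕ) : ℝ) = n + e := by push_cast; ring
      have e1 := tII (g := g) (h := h i₀) (y := y) hQ (hSl i₀).1 (hSl i₀).2 s h lam ρ hjn2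
        (((n + e : ℕ) : ℝ) ^ C0 * (Fintype.card K : ℝ) ^ (n + e) *
          ((Fintype.card K : ℝ) ^ (-(j : ℝ) / 64) +
            (Fintype.card K : ℝ) ^ (-c * ((n + e : ℕ) : ℝ))))
        (by
          intro α β' hα hβ'
          rw [← he]
          refine h2' (n + e) (by omega) j y (fun i => s i₀ * h i) (h i₀) lam α β' (by omega)
            ?_ ?_ (hSh i₀).1 ?_ ?_ hlam hα hβ'
          · rw [hcast]
            have e4 : (1 / 4 - ε) * (n : ℝ) ≤ (1 / 4 - ε) * (n + e) :=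
              mul_le_mul_of_nonneg_left (by linarith) (by linarith)
            linarith
          · rw [hcast]
            have e4 : θ2 * (n : ℝ) ≤ θ2 * (n + e) :=
              mul_le_mul_of_nonneg_left (by linarith) hθ2.le
            linarith
          · rw [he]
            exact (hSh i₀).2
          · intro i
            refine ⟨mul_ne_zero (hSl i₀).1.ne_zero (hSh i).1, ?_⟩
            have e4 : (s i₀ * h i).natDegree ≤ (s i₀).natDegree + (h i).natDegree :=
              natDegree_mul_le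
            have e5 := (hh2 i).2
            rw [← he] at e4
            omega)
        β hβ
      have e2 : ∑ p ∈ Irn K j, ∑ B ∈ Mn K (n - j), β B * Φ (p * B) =
          ∑ p ∈ Irn K j, ∑ B ∈ Mn K (n - j), β B * (if Q ∣ p * B - ρ then
            Wg Q s h lam y (p * B) * (mobg g (s i₀ * (p * B) + h i₀) : ℝ) else 0) := by
        refine sum_congr rfl fun p _ => sum_congr rfl fun B _ => ?_
        rw [hΦ]
      rw [e2, hX]
      refine e1.trans ?_
      have e3 : (Fintype.card K : ℝ) ^ (-(j : ℝ) / 64) ≤ (Fintype.card K : ℝ) ^ (-(z : ℝ) / 64) := by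
        refine Real.rpow_le_rpow_of_exponent_le (by linarith) ?_
        have : (z : ℝ) ≤ j := by exact_mod_cast hj.1
        linarith
      have e4 : (Fintype.card K : ℝ) ^ (-c * ((n + e : ℕ) : ℝ)) ≤
          (Fintype.card K : ℝ) ^ (-c * n) := by
        refine Real.rpow_le_rpow_of_exponent_le (by linarith) ?_
        rw [hcast]
        nlinarith
      have e5 : ((n + e : ℕ) : ℝ) ^ C0 ≤ 2 ^ C0 * (n : ℝ) ^ C0 := by
        rw [← mul_pow]
        refine pow_le_pow_left₀ (by positivity) ?_ _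
        have : ((n + e : ℕ) : ℝ) ≤ ((2 * n : ℕ) : ℝ) := by exact_mod_cast (by omega)
        push_cast at this ⊢
        linarith
      have e6 : (Fintype.card K : ℝ) ^ (n + e) ≤
          (Fintype.card K : ℝ) ^ n * (Fintype.card K : ℝ) ^ Es := by
        rw [← pow_add]
        exact pow_le_pow_right₀ (by linarith) (by omega)
      have hMn : (Fintype.card K : ℝ) ^ Q.natDegree * (2 ^ C0 * (Fintype.card K : ℝ) ^ Es) ≤ n := by
        have e7 : (M : ℝ) ≤ n := by exact_mod_cast (by omega)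
        rw [hM] at e7
        push_cast at e7
        exact e7
      have hjp : 0 < (Fintype.card K : ℝ) ^ (-(j : ℝ) / 64) :=
        Real.rpow_pos_of_pos (by linarith) _
      have hcp : 0 < (Fintype.card K : ℝ) ^ (-c * ((n + e : ℕ) : ℝ)) :=
        Real.rpow_pos_of_pos (by linarith) _
      calc (Fintype.card K : ℝ) ^ Q.natDegree *
          (((n + e : ℕ) : ℝ) ^ C0 * (Fintype.card K : ℝ) ^ (n + e) *
          ((Fintype.card K : ℝ) ^ (-(j : ℝ) / 64) +
            (Fintype.card K : ℝ) ^ (-c * ((n + e : ℕ) : ℝ))))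
          ≤ (Fintype.card K : ℝ) ^ Q.natDegree *
          ((2 ^ C0 * (n : ℝ) ^ C0) * ((Fintype.card K : ℝ) ^ n * (Fintype.card K : ℝ) ^ Es) *
          ((Fintype.card K : ℝ) ^ (-(z : ℝ) / 64) + (Fintype.card K : ℝ) ^ (-c * n))) := by
            refine mul_le_mul_of_nonneg_left ?_ (by positivity)
            refine mul_le_mul (mul_le_mul e5 e6 (by positivity) (by positivity))
              (add_le_add e3 e4) (by positivity) (by positivity)
        _ = ((Fintype.card K : ℝ) ^ Q.natDegree * (2 ^ C0 * (Fintype.card K : ℝ) ^ Es)) *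
          ((n : ℝ) ^ C0 * (Fintype.card K : ℝ) ^ n *
          ((Fintype.card K : ℝ) ^ (-(z : ℝ) / 64) + (Fintype.card K : ℝ) ^ (-c * n))) := by ring
        _ ≤ n * ((n : ℝ) ^ C0 * (Fintype.card K : ℝ) ^ n *
          ((Fintype.card K : ℝ) ^ (-(z : ℝ) / 64) + (Fintype.card K : ℝ) ^ (-c * n))) :=
            mul_le_mul_of_nonneg_right hMn (by positivity)
        _ = (n : ℝ) ^ C * (Fintype.card K : ℝ) ^ n *
          ((Fintype.card K : ℝ) ^ (-(z : ℝ) / 64) + (Fintype.card K : ℝ) ^ (-c * n)) := by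
            rw [hC, pow_succ]
            ring)
  -- the divisor sums
  obtain ⟨T, hT⟩ : ∃ T : K[X] → ℝ, ∀ f, T f =
      ∑ D ∈ (MM K (n + 1)).filter (fun D => D ∣ f), cco n δ D := ⟨_, fun _ => rfl⟩
  obtain ⟨T', hT'⟩ : ∃ T' : K[X] → ℝ, ∀ f, T' f =
      ∑ D ∈ (MM K (n + 1)).filter (fun D => D ∣ f), ccg n l δ h D := ⟨_, fun _ => rfl⟩
  have hTi : ∀ f : K[X], ∑ i ∈ range (n + 1), ∑ D ∈ (Mn K i).filter (fun D => D ∣ f),
      (if 2 * (i : ℝ) ≤ (1 - δ) * n then cf D else 0) = T f := by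
    intro f
    rw [hT, sum_filter, sum_MM]
    refine sum_congr rfl fun i _ => ?_
    rw [sum_filter]
    refine sum_congr rfl fun D hD => ?_
    unfold cco
    rw [(mem_Mn.1 hD).2]
  have hTT : ∀ f ∈ (Mn K n).filter (Rgh l), ¬ Bd h f → T f = T' f := by
    intro f hf hfb
    rw [mem_filter] at hf
    unfold Bd at hfb
    push Not at hfb
    rw [hT, hT']
    refine sum_congr rfl fun D hD => ?_
    rw [mem_filter] at hD
    unfold cco ccg
    by_cases h8 : 2 * (D.natDegree : ℝ) ≤ (1 - δ) * n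
    · rw [if_pos h8, if_pos ⟨h8, hfb.1.squarefree_of_dvd hD.2, rgh_dvd hD.2 hf.2,
        fun i => (hfb.2 i).of_isCoprime_of_dvd_left hD.2⟩]
    · rw [if_neg h8, if_neg (fun hh => h8 hh.1)]
  have hTb : ∀ f ∈ (Mn K n).filter (Rgh l), |T f - T' f| ≤ 64 := by
    intro f hf
    rw [mem_filter, mem_Mn] at hf
    have e1 : |T f| ≤ 32 := by
      rw [hT]
      exact sum_div_le hf.1.1.ne_zero (by omega) hl5 _ _ (fun D => cco_abs n δ D)
        (fun D hD hr => absurd (rgh_dvd hD hf.2) hr)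
    have e2 : |T' f| ≤ 32 := by
      rw [hT']
      exact sum_div_le hf.1.1.ne_zero (by omega) hl5 _ _ (fun D => ccg_abs n l δ h D)
        (fun D hD hr => absurd (rgh_dvd hD hf.2) hr)
    refine (abs_sub _ _).trans ?_
    linarith
  have hmom : ∑ B ∈ Mn K n, (tg Q s h y B) ^ 2 ≤
      ((n : ℝ) + 2) ^ C'' * (Fintype.card K : ℝ) ^ n := by
    have e1 := hC'' n y Q 1 s h hSl monic_one (fun i => isCoprime_one_left) (by omega)
    simp only [one_mul] at e1
    exact e1
  have hbad := sum_bad (K := K) (n := n) (l := l) (C := C'') (by omega) h hh2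
    (tg Q s h y) (tg_nonneg Q s h y) hmom
  have hdiff : |∑ f ∈ (Mn K n).filter (Rgh l), Φ f * T f -
      ∑ f ∈ (Mn K n).filter (Rgh l), Φ f * T' f| ≤
      64 * ∑ f ∈ (Mn K n).filter (fun f => Rgh l f ∧ Bd h f), tg Q s h y f := by
    rw [← sum_sub_distrib]
    have e1 : ∑ f ∈ (Mn K n).filter (Rgh l), (Φ f * T f - Φ f * T' f) =
        ∑ f ∈ (Mn K n).filter (fun f => Rgh l f ∧ Bd h f), (Φ f * T f - Φ f * T' f) := by
      symm
      refine sum_subset ?_ ?_
      · intro f hf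
        rw [mem_filter] at hf ⊢
        exact ⟨hf.1, hf.2.1⟩
      · intro f hf hf'
        have e2 : ¬ Bd h f := fun hh => hf' (mem_filter.2 ⟨(mem_filter.1 hf).1,
          (mem_filter.1 hf).2, hh⟩)
        rw [hTT f hf e2, sub_self]
    rw [e1, mul_sum]
    refine (abs_sum_le_sum_abs _ _).trans (sum_le_sum fun f hf => ?_)
    rw [← mul_sub, abs_mul]
    have e2 := hTb f (mem_filter.2 ⟨(mem_filter.1 hf).1, (mem_filter.1 hf).2.1⟩)
    have e3 : |Φ f| ≤ tg Q s h y f := (hΦW f).trans (wg_abs Q s h hlam y f)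
    calc |Φ f| * |T f - T' f| ≤ tg Q s h y f * 64 :=
          mul_le_mul e3 e2 (abs_nonneg _) (tg_nonneg Q s h y f)
      _ = 64 * tg Q s h y f := by ring
  have hSe : ∑ f ∈ (Mn K n).filter (fun f => Rgh l f ∧ Q ∣ f - ρ),
        Wg Q s h lam y f * (mobg g (s i₀ * f + h i₀) : ℝ) *
        ∑ i ∈ range (n + 1), ∑ D ∈ (Mn K i).filter (fun D => D ∣ f),
          (if 2 * (i : ℝ) ≤ (1 - δ) * n then cf D else 0) =
      ∑ f ∈ (Mn K n).filter (Rgh l), Φ f * T f := by
    rw [← filter_filter, sum_filter]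
    refine sum_congr rfl fun f _ => ?_
    rw [hTi, hΦ]
    split_ifs
    · rfl
    · rw [zero_mul]
  have hB' : |∑ f ∈ (Mn K n).filter (Rgh l), Φ f * T' f| ≤
      2 * (n + 1) * (Fintype.card K : ℝ) ^ n * Y + n * (32 * X) := by
    have e1 : ∑ f ∈ (Mn K n).filter (Rgh l), Φ f * T' f = ∑ f ∈ (Mn K n).filter (Rgh l),
      Φ f * ∑ D ∈ (MM K (n + 1)).filter (fun D => D ∣ f), ccg n l δ h D :=
      sum_congr rfl fun f _ => by rw [hT']
    rw [e1]
    exact hB
  rw [hSe]
  have hL : ((n : ℝ) ^ (C'' + A₁ + 3)) * (1 / 2) ^ (l / 2) ≤ 1 := by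
    refine le_trans ?_ (h7 n (by omega))
    refine mul_le_mul_of_nonneg_left ?_ (by positivity)
    have e1 : ((1 : ℝ) / 2) ^ (l / 2) = (2 : ℝ) ^ (-((l / 2 : ℕ) : ℝ)) := by
      rw [Real.rpow_neg (by norm_num), Real.rpow_natCast, one_div, inv_pow]
    rw [e1]
    refine Real.rpow_le_rpow_of_exponent_le (by norm_num) ?_
    have e2 : l ≤ 2 * (l / 2) + 1 := by omega
    have e3 : (l : ℝ) ≤ 2 * ((l / 2 : ℕ) : ℝ) + 1 := by exact_mod_cast e2
    linarith
  refine numeric n C C' C'' A₁ (2 * k) A₀ E (l / 2) ((Fintype.card K : ℝ) ^ n)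
    ((Fintype.card K : ℝ) ^ (-(z : ℝ) / 2)) ((Fintype.card K : ℝ) ^ (-(z : ℝ) / 64))
    ((Fintype.card K : ℝ) ^ (-c * n)) _ (by omega) hqn (by omega) (by omega) hqz2 hqz64
    (h6 n (by omega)) hL hk hbig ?_
  have e1 : |∑ f ∈ (Mn K n).filter (Rgh l), Φ f * T f| ≤
      |∑ f ∈ (Mn K n).filter (Rgh l), Φ f * T' f| +
      |∑ f ∈ (Mn K n).filter (Rgh l), Φ f * T f - ∑ f ∈ (Mn K n).filter (Rgh l), Φ f * T' f| := by
    have e2 := abs_add_le (∑ f ∈ (Mn K n).filter (Rgh l), Φ f * T' f)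
      (∑ f ∈ (Mn K n).filter (Rgh l), Φ f * T f - ∑ f ∈ (Mn K n).filter (Rgh l), Φ f * T' f)
    rw [add_sub_cancel] at e2
    exact e2
  refine e1.trans (add_le_add ?_ ?_)
  · rw [hX, hY] at hB'
    exact hB'
  · exact hdiff.trans (mul_le_mul_of_nonneg_left hbad (by norm_num))

end Pool.Agent.H985.CG
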