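import Pool.Agent.H985.CG.Stm
import Pool.Agent.H985.CH.Momw

/-!
# Task CG-MOM (helper571 for helper985): moments of the sieve weights for linear forms

Adapted from `Pool/Agent/H985/CH/Momw.lean` (helper177).
-/

set_option autoImplicit false
set_option linter.all false

namespace Pool.Agent.H985.CG.MomG

open Polynomial Finset UniqueFactorizationMonoid
open scoped Classical
open Pool.Agent.H694.Typ (Mn Irn PU mem_Mn mem_Irn mem_PU card_Mn card_dvd sum_PU irn_one_le q_ge)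
open Pool.Agent.H985.CH (SqM)
open Pool.Agent.H985.CH.Momw (pr mem_pr mem_SqM prod_pr deg_pr sum_biUnion_le card_cong sum_inv_le)

variable {K : Type} [Field K] [Fintype K]

/-- the `r`-th power of the number of the divisors -/
theorem T_pow (r y N : ℕ) (hr : r * y ≤ N) (Q F : K[X]) :
    ((SqM K y).filter (fun E => IsCoprime E Q ∧ E ∣ F)).card ^ r ≤
      ∑ U ∈ ((PU K y).powerset).filter (fun U => ∑ P ∈ U, P.natDegree ≤ N ∧ ∀ P ∈ U, ¬ P ∣ Q ∧ P ∣ F),
        (2 ^ r) ^ U.card := by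
  obtain ⟨A, hA⟩ : ∃ A : Finset K[X], ∀ E, E ∈ A ↔ E ∈ SqM K y ∧ IsCoprime E Q ∧ E ∣ F :=
    ⟨(SqM K y).filter (fun E => IsCoprime E Q ∧ E ∣ F), fun E => mem_filter⟩
  have hAe : (SqM K y).filter (fun E => IsCoprime E Q ∧ E ∣ F) = A := by
    ext E
    rw [mem_filter, hA]
  obtain ⟨t, ht⟩ : ∃ t : Finset (Finset K[X]), ∀ U, U ∈ t ↔
      (∀ P ∈ U, P ∈ PU K y) ∧ ∑ P ∈ U, P.natDegree ≤ N ∧ ∀ P ∈ U, ¬ P ∣ Q ∧ P ∣ F :=
    ⟨((PU K y).powerset).filter (fun U => ∑ P ∈ U, P.natDegree ≤ N ∧ ∀ P ∈ U, ¬ P ∣ Q ∧ P ∣ F), fun U => by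
      rw [mem_filter, mem_powerset]
      exact Iff.rfl⟩
  have hte : ((PU K y).powerset).filter (fun U => ∑ P ∈ U, P.natDegree ≤ N ∧ ∀ P ∈ U, ¬ P ∣ Q ∧ P ∣ F) = t := by
    ext U
    rw [mem_filter, mem_powerset, ht]
    exact Iff.rfl
  rw [hAe, hte, ← Fintype.card_piFinset_const]
  obtain ⟨f, hf⟩ : ∃ f : (Fin r → K[X]) → Finset K[X],
      ∀ E P, P ∈ f E ↔ ∃ i, P ∈ pr y (E i) := ⟨fun E => univ.biUnion (fun i => pr y (E i)),
      fun E P => by
        rw [mem_biUnion]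
        exact ⟨fun ⟨i, _, h⟩ => ⟨i, h⟩, fun ⟨i, h⟩ => ⟨i, mem_univ _, h⟩⟩⟩
  have hmap : ∀ E : Fin r → K[X], (∀ i, E i ∈ A) → f E ∈ t := by
    intro E hE
    rw [ht]
    refine ⟨?_, ?_, ?_⟩
    · intro P hP
      obtain ⟨i, hi⟩ := (hf E P).1 hP
      exact mem_PU.2 ⟨(mem_pr.1 hi).1.1, (mem_pr.1 hi).1.2.1, (mem_pr.1 hi).1.2.2⟩
    · have e1 : f E = univ.biUnion (fun i => pr y (E i)) := by
        ext P
        rw [hf, mem_biUnion]
        exact ⟨fun ⟨i, h⟩ => ⟨i, mem_univ _, h⟩, fun ⟨i, _, h⟩ => ⟨i, h⟩⟩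
      rw [e1]
      refine (sum_biUnion_le _ _ _).trans (le_trans ?_ hr)
      calc ∑ i : Fin r, ∑ P ∈ pr y (E i), P.natDegree ≤ ∑ i : Fin r, y := by
            refine sum_le_sum fun i _ => ?_
            have h1 := ((hA (E i)).1 (hE i)).1
            rw [deg_pr h1]
            exact (mem_SqM.1 h1).1.2
        _ = r * y := by simp
    · intro P hP
      obtain ⟨i, hi⟩ := (hf E P).1 hP
      have h1 := ((hA (E i)).1 (hE i)).2
      refine ⟨fun hPQ => ?_, (mem_pr.1 hi).2.trans h1.2⟩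
      exact (mem_pr.1 hi).1.2.1.not_isUnit (h1.1.isUnit_of_dvd' (mem_pr.1 hi).2 hPQ)
  have hmap' : Set.MapsTo f ((Fintype.piFinset fun _ : Fin r => A : Finset (Fin r → K[X])) :
      Set (Fin r → K[X])) (t : Set (Finset K[X])) := by
    intro E hE
    exact hmap E (fun i => Fintype.mem_piFinset.1 hE i)
  rw [card_eq_sum_card_fiberwise hmap']
  refine sum_le_sum fun U hU => ?_
  have h1 : (2 ^ r) ^ U.card = (Fintype.piFinset fun _ : Fin r => U.powerset).card := by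
    rw [Fintype.card_piFinset_const, card_powerset, ← pow_mul, ← pow_mul, mul_comm]
  rw [h1]
  refine card_le_card_of_injOn (fun E i => pr y (E i)) ?_ ?_
  · intro E hE
    have hE' := (mem_filter.1 (Finset.mem_coe.1 hE)).2
    refine Finset.mem_coe.2 (Fintype.mem_piFinset.2 fun i => mem_powerset.2 ?_)
    intro P hP
    rw [← hE']
    exact (hf E P).2 ⟨i, hP⟩
  · intro E hE E' hE' he
    have h3 := Fintype.mem_piFinset.1 (mem_filter.1 (Finset.mem_coe.1 hE)).1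
    have h4 := Fintype.mem_piFinset.1 (mem_filter.1 (Finset.mem_coe.1 hE')).1
    funext i
    have h2 : pr y (E i) = pr y (E' i) := congrFun he i
    rw [← prod_pr ((hA (E i)).1 (h3 i)).1, ← prod_pr ((hA (E' i)).1 (h4 i)).1, h2]

theorem count {k N : ℕ} (Q D : K[X]) (s b : Fin k → K[X]) (hs : Slo Q s)
    (hD : ∀ i, IsCoprime D (b i)) (U : Finset K[X])
    (hU : ∀ P ∈ U, P.Monic ∧ Irreducible P) (hQ : ∀ P ∈ U, ¬ P ∣ Q)
    (hN : ∑ P ∈ U, P.natDegree ≤ N) :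
    ((Mn K N).filter (fun B => ∀ P ∈ U, P ∣ Hg s b (D * B))).card ≤
      k ^ U.card * Fintype.card K ^ (N - ∑ P ∈ U, P.natDegree) := by
  have hLm : (∏ P ∈ U, P).Monic := monic_prod_of_monic _ _ fun P hP => (hU P hP).1
  have hLd : (∏ P ∈ U, P).natDegree = ∑ P ∈ U, P.natDegree :=
    natDegree_prod_of_monic _ _ fun P hP => (hU P hP).1
  have hsub : (Mn K N).filter (fun B => ∀ P ∈ U, P ∣ Hg s b (D * B)) ⊆
      (univ : Finset (U → Fin k)).biUnion fun ι =>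
        (Mn K N).filter (fun B => ∀ P : U, (P : K[X]) ∣ s (ι P) * (D * B) + b (ι P)) := by
    intro B hB
    rw [mem_filter] at hB
    rw [mem_biUnion]
    have h1 : ∀ P : U, ∃ i : Fin k, (P : K[X]) ∣ s i * (D * B) + b i := by
      intro P
      have h2 := hB.2 P P.2
      unfold Hg at h2
      obtain ⟨i, -, hi⟩ := ((hU P P.2).2.prime.dvd_finsetProd_iff _).1 h2
      exact ⟨i, hi⟩
    choose ι hι using h1
    exact ⟨ι, mem_univ _, mem_filter.2 ⟨hB.1, hι⟩⟩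
  refine (card_le_card hsub).trans (card_biUnion_le.trans ?_)
  have h3 : ∀ ι ∈ (univ : Finset (U → Fin k)),
      ((Mn K N).filter (fun B => ∀ P : U, (P : K[X]) ∣ s (ι P) * (D * B) + b (ι P))).card ≤
        Fintype.card K ^ (N - ∑ P ∈ U, P.natDegree) := by
    intro ι _
    rw [← hLd]
    refine card_cong hLm (by omega) _ (filter_subset _ _) ?_
    intro B hB B' hB'
    rw [mem_filter] at hB hB'
    refine prod_dvd_of_coprime (s := fun P : K[X] => P) ?_ ?_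
    · intro P hP Q hQ hPQ
      refine ((hU P hP).2.coprime_iff_not_dvd).2 fun hdvd => hPQ ?_
      exact eq_of_monic_of_associated (hU P hP).1 (hU Q hQ).1
        ((hU P hP).2.associated_of_dvd (hU Q hQ).2 hdvd)
    · intro P hP
      have h4 := hB.2 ⟨P, hP⟩
      have h5 := hB'.2 ⟨P, hP⟩
      have h6 : P ∣ s (ι ⟨P, hP⟩) * (D * (B - B')) := by
        have h7 := dvd_sub h4 h5
        have h8 : s (ι ⟨P, hP⟩) * (D * B) + b (ι ⟨P, hP⟩) -
            (s (ι ⟨P, hP⟩) * (D * B') + b (ι ⟨P, hP⟩)) = s (ι ⟨P, hP⟩) * (D * (B - B')) := by ring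
        rwa [h8] at h7
      rcases (hU P hP).2.prime.dvd_or_dvd h6 with h7 | h7
      · exact absurd ((hs (ι ⟨P, hP⟩)).2 P (hU P hP).2 h7) (hQ P hP)
      rcases (hU P hP).2.prime.dvd_or_dvd h7 with h7 | h7
      · exfalso
        have h8 : P ∣ b (ι ⟨P, hP⟩) :=
          (dvd_add_right ((h7.mul_right B).mul_left (s (ι ⟨P, hP⟩)))).1 h4
        exact (hU P hP).2.not_isUnit ((hD (ι ⟨P, hP⟩)).isUnit_of_dvd' h7 h8)
      · exact h7
  refine (sum_le_sum h3).trans ?_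
  rw [sum_const, smul_eq_mul, card_univ, Fintype.card_fun, Fintype.card_fin, Fintype.card_coe]

end Pool.Agent.H985.CG.MomG

namespace Pool.Agent.H985.CG

open Polynomial Finset
open scoped Classical
open Pool.Agent.H694.Typ (Mn Irn PU mem_Mn mem_Irn mem_PU card_Mn card_dvd sum_PU irn_one_le q_ge)
open Pool.Agent.H985.CH (SqM)
open Pool.Agent.H985.CH.Momw (sum_inv_le)
open MomG

/-- **Task CG-MOM.** -/
theorem momg : S_momg := by
  intro k r K _ _
  refine ⟨2 * (k * 2 ^ r), ?_⟩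
  intro N y Q D s b hs hD hcop hry
  have hq := q_ge (k := K)
  have hqN : (0 : ℝ) < (Fintype.card K : ℝ) ^ N := by positivity
  rcases Nat.eq_zero_or_pos r with hr | hr
  · subst hr
    simp only [pow_zero, sum_const, nsmul_eq_mul, mul_one, card_Mn, Nat.cast_pow]
    have h1 : (1 : ℝ) ≤ ((N : ℝ) + 2) ^ (2 * k) :=
      one_le_pow₀ (by
        have : (0 : ℝ) ≤ N := Nat.cast_nonneg N
        linarith)
    nlinarith
  have hyN : y ≤ N := (Nat.le_mul_of_pos_left y hr).trans hry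
  -- the expansion
  have s1 : ∑ B ∈ Mn K N, (((SqM K y).filter (fun E => IsCoprime E Q ∧ E ∣ Hg s b (D * B))).card : ℝ) ^ r ≤
      ∑ B ∈ Mn K N, ∑ U ∈ (PU K y).powerset,
        (if ∑ P ∈ U, P.natDegree ≤ N ∧ ∀ P ∈ U, ¬ P ∣ Q ∧ P ∣ Hg s b (D * B) then ((2 : ℝ) ^ r) ^ U.card else 0) := by
    refine sum_le_sum fun B _ => ?_
    rw [← sum_filter]
    have h1 := T_pow r y N hry Q (Hg s b (D * B))
    exact_mod_cast h1
  have s2 : ∀ U ∈ (PU K y).powerset, ∑ B ∈ Mn K N,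
        (if ∑ P ∈ U, P.natDegree ≤ N ∧ ∀ P ∈ U, ¬ P ∣ Q ∧ P ∣ Hg s b (D * B) then ((2 : ℝ) ^ r) ^ U.card else 0) ≤
      (Fintype.card K : ℝ) ^ N * ∏ P ∈ U, (k * 2 ^ r * (1 / (Fintype.card K : ℝ) ^ P.natDegree)) := by
    intro U hU
    rw [mem_powerset] at hU
    have hU' : ∀ P ∈ U, P.Monic ∧ Irreducible P := by
      intro P hP
      have := mem_PU.1 (hU hP)
      exact ⟨this.1, this.2.1⟩
    have hprod : 0 ≤ ∏ P ∈ U, ((k : ℝ) * 2 ^ r * (1 / (Fintype.card K : ℝ) ^ P.natDegree)) :=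
      prod_nonneg fun P _ => by positivity
    by_cases hdeg : ∑ P ∈ U, P.natDegree ≤ N
    · rw [← sum_filter, sum_const, nsmul_eq_mul]
      have e1 : (Mn K N).filter (fun B => ∑ P ∈ U, P.natDegree ≤ N ∧ ∀ P ∈ U, ¬ P ∣ Q ∧ P ∣ Hg s b (D * B)) =
          (Mn K N).filter (fun B => ∀ P ∈ U, ¬ P ∣ Q ∧ P ∣ Hg s b (D * B)) := by
        refine filter_congr fun B _ => ?_
        exact ⟨fun h => h.2, fun h => ⟨hdeg, h⟩⟩
      rw [e1]
      have e2 : (((Mn K N).filter (fun B => ∀ P ∈ U, ¬ P ∣ Q ∧ P ∣ Hg s b (D * B))).card : ℝ) ≤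
          (k : ℝ) ^ U.card * (Fintype.card K : ℝ) ^ (N - ∑ P ∈ U, P.natDegree) := by
        by_cases hQ : ∀ P ∈ U, ¬ P ∣ Q
        · have e5 := count Q D s b hs hcop U hU' hQ hdeg
          have e6 : (Mn K N).filter (fun B => ∀ P ∈ U, ¬ P ∣ Q ∧ P ∣ Hg s b (D * B)) =
              (Mn K N).filter (fun B => ∀ P ∈ U, P ∣ Hg s b (D * B)) := by
            refine filter_congr fun B _ => ?_
            exact ⟨fun h P hP => (h P hP).2, fun h P hP => ⟨hQ P hP, h P hP⟩⟩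
          rw [e6]
          exact_mod_cast e5
        · push Not at hQ
          obtain ⟨P, hP, hPQ⟩ := hQ
          have e6 : (Mn K N).filter (fun B => ∀ P ∈ U, ¬ P ∣ Q ∧ P ∣ Hg s b (D * B)) = ∅ := by
            refine filter_eq_empty_iff.2 fun B _ h => ?_
            exact (h P hP).1 hPQ
          rw [e6, card_empty, Nat.cast_zero]
          positivity
      have e3 : (Fintype.card K : ℝ) ^ (N - ∑ P ∈ U, P.natDegree) =
          (Fintype.card K : ℝ) ^ N * ∏ P ∈ U, (1 / (Fintype.card K : ℝ) ^ P.natDegree) := by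
        rw [prod_div_distrib, prod_const_one, prod_pow_eq_pow_sum, mul_one_div,
          pow_sub₀ _ (by positivity) hdeg, div_eq_mul_inv]
      have e4 : ∏ P ∈ U, ((k : ℝ) * 2 ^ r * (1 / (Fintype.card K : ℝ) ^ P.natDegree)) =
          (k : ℝ) ^ U.card * ((2 : ℝ) ^ r) ^ U.card *
            ∏ P ∈ U, (1 / (Fintype.card K : ℝ) ^ P.natDegree) := by
        rw [prod_mul_distrib, prod_const, mul_pow]
      rw [e4]
      calc (((Mn K N).filter (fun B => ∀ P ∈ U, ¬ P ∣ Q ∧ P ∣ Hg s b (D * B))).card : ℝ) *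
            ((2 : ℝ) ^ r) ^ U.card ≤
          ((k : ℝ) ^ U.card * (Fintype.card K : ℝ) ^ (N - ∑ P ∈ U, P.natDegree)) *
            ((2 : ℝ) ^ r) ^ U.card := mul_le_mul_of_nonneg_right e2 (by positivity)
        _ = _ := by
          rw [e3]
          ring
    · have e1 : ∀ B ∈ Mn K N, (if ∑ P ∈ U, P.natDegree ≤ N ∧ ∀ P ∈ U, ¬ P ∣ Q ∧ P ∣ Hg s b (D * B) then
          ((2 : ℝ) ^ r) ^ U.card else 0) = 0 := fun B _ => if_neg fun h => hdeg h.1
      rw [sum_eq_zero e1]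
      positivity
  refine s1.trans ?_
  rw [sum_comm]
  refine (sum_le_sum s2).trans ?_
  rw [← mul_sum, ← prod_one_add, mul_comm]
  refine mul_le_mul_of_nonneg_right ?_ hqN.le
  have s3 : ∏ P ∈ PU K y, (1 + (k : ℝ) * 2 ^ r * (1 / (Fintype.card K : ℝ) ^ P.natDegree)) ≤
      Real.exp (∑ P ∈ PU K y, (k : ℝ) * 2 ^ r * (1 / (Fintype.card K : ℝ) ^ P.natDegree)) := by
    rw [Real.exp_sum]
    refine prod_le_prod (fun P _ => by positivity) fun P _ => ?_
    have := Real.add_one_le_exp ((k : ℝ) * 2 ^ r * (1 / (Fintype.card K : ℝ) ^ P.natDegree))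
    linarith
  refine s3.trans ?_
  rw [← mul_sum]
  have s4 := sum_inv_le (K := K) y N hyN
  have hN2 : (0 : ℝ) < (N : ℝ) + 2 := by positivity
  have s5 : ((N : ℝ) + 2) ^ (2 * (k * 2 ^ r)) =
      Real.exp ((k : ℝ) * 2 ^ r * (2 * Real.log (N + 2))) := by
    have e1 : (k : ℝ) * 2 ^ r * (2 * Real.log (N + 2)) =
        ((2 * (k * 2 ^ r) : ℕ) : ℝ) * Real.log (N + 2) := by
      push_cast
      ring
    rw [e1, Real.exp_nat_mul, Real.exp_log hN2]
  rw [s5]
  exact Real.exp_le_exp.2 (mul_le_mul_of_nonneg_left s4 (by positivity))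

end Pool.Agent.H985.CG
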