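import Mathlib
import Pool.Agent.H985.CG.Stm
import Pool.Agent.H985.CH.Prsw

/-!
# Project CG (helper985), task CG-PRS (helper396): the sieve for the irreducible polynomials
-/

set_option autoImplicit false
set_option linter.unusedSectionVars false

namespace Pool.Agent.H985.CG

open Polynomial Finset
open scoped Classical
open Pool.Agent.H694.Typ (Mn Irn PU mem_Mn card_Mn mem_Irn mem_PU q_ge)
open Pool.Agent.H251.SP (Rgh)
open Pool.Agent.H985.CH (SqM Bdd)

namespace PrsG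

/-- the main term of the sum over `E` -/
noncomputable def mainT {K : Type} [Field K] [Fintype K] {k : ℕ} (Q : K[X]) (s b : Fin k → K[X])
    (lam : K[X] → ℝ) (y m : ℕ) : ℝ :=
  ∑ E ∈ (SqM K y).filter (fun E => IsCoprime E Q), lam E *
    ∏ P ∈ (PU K m).filter (fun P => P ∣ E),
      (nug s b P / ((Fintype.card K : ℝ) ^ P.natDegree - 1))

/-- the weighted sum over the irreducible polynomials -/
lemma sum_Wg {K : Type} [Field K] [Fintype K] {φ : ℝ} {Q : K[X]}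
    (hp : ∀ (k : ℕ) (N : ℕ) (D E ρ : K[X]) (s b : Fin k → K[X]), Slo Q s →
      1 ≤ N → D.Monic → E.Monic → Squarefree E → IsCoprime D E → IsCoprime D Q → IsCoprime E Q →
      IsCoprime ρ Q → Q.natDegree + E.natDegree < N →
      |((((Irn K N).filter (fun p => Q ∣ D * p - ρ ∧ E ∣ Hg s b (D * p))).card : ℝ)) -
        (Fintype.card K : ℝ) ^ N / (N * φ) * ∏ P ∈ (PU K E.natDegree).filter (fun P => P ∣ E),
          (nug s b P / ((Fintype.card K : ℝ) ^ P.natDegree - 1))| ≤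
        ((k : ℝ) + 1) ^ E.natDegree * (2 * (Q.natDegree + E.natDegree) + 4 : ℝ) *
          Real.sqrt ((Fintype.card K : ℝ) ^ N))
    {k m N y : ℕ} (D ρ : K[X]) (s b : Fin k → K[X]) (lam : K[X] → ℝ) (hS : Slo Q s) (hB : Bdd lam)
    (hs : ∀ E, lam E ≠ 0 → ∀ P : K[X], Irreducible P → P ∣ E → P.natDegree ≤ m)
    (hN : 1 ≤ N) (hy : Q.natDegree + y < N) (hD : D.Monic) (hR : Rgh (m + 1) D)
    (hDQ : IsCoprime D Q) (hρ : IsCoprime ρ Q) :
    |∑ p ∈ (Irn K N).filter (fun p => Q ∣ D * p - ρ), Wg Q s b lam y (D * p) -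
      (Fintype.card K : ℝ) ^ N / (N * φ) * mainT Q s b lam y m| ≤
      ((SqM K y).card : ℝ) * (((k : ℝ) + 1) ^ y * (2 * (Q.natDegree + y) + 4 : ℝ) *
        Real.sqrt ((Fintype.card K : ℝ) ^ N)) := by
  have e1 : ∑ p ∈ (Irn K N).filter (fun p => Q ∣ D * p - ρ), Wg Q s b lam y (D * p) =
      ∑ E ∈ (SqM K y).filter (fun E => IsCoprime E Q), lam E *
        (((Irn K N).filter (fun p => Q ∣ D * p - ρ ∧ E ∣ Hg s b (D * p))).card : ℝ) := by
    have e2 : ∀ p, Wg Q s b lam y (D * p) = ∑ E ∈ (SqM K y).filter (fun E => IsCoprime E Q),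
        if E ∣ Hg s b (D * p) then lam E else 0 := by
      intro p
      unfold Wg
      rw [← sum_filter, filter_filter]
    simp only [e2]
    rw [sum_comm]
    refine sum_congr rfl fun E _ => ?_
    rw [← sum_filter, filter_filter, sum_const, nsmul_eq_mul, mul_comm]
  rw [e1, mainT, mul_sum, ← sum_sub_distrib]
  refine (abs_sum_le_sum_abs _ _).trans ?_
  have hsq : 0 ≤ Real.sqrt ((Fintype.card K : ℝ) ^ N) := Real.sqrt_nonneg _
  have hterm : ∀ E ∈ (SqM K y).filter (fun E => IsCoprime E Q),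
      |lam E * (((Irn K N).filter (fun p => Q ∣ D * p - ρ ∧ E ∣ Hg s b (D * p))).card : ℝ) -
        (Fintype.card K : ℝ) ^ N / (N * φ) * (lam E * ∏ P ∈ (PU K m).filter (fun P => P ∣ E),
          (nug s b P / ((Fintype.card K : ℝ) ^ P.natDegree - 1)))| ≤
      ((k : ℝ) + 1) ^ y * (2 * (Q.natDegree + y) + 4 : ℝ) *
        Real.sqrt ((Fintype.card K : ℝ) ^ N) := by
    intro E hE
    rw [mem_filter, CH.Prsw.mem_SqM] at hE
    obtain ⟨⟨hE1, hE2, hE3⟩, hEQ⟩ := hE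
    by_cases h0 : lam E = 0
    · rw [h0, zero_mul, zero_mul, mul_zero, sub_zero, abs_zero]
      positivity
    · have h1 := hp k N D E ρ s b hS hN hD hE1 hE3 (CH.Prsw.cop hD hR (hs E h0)) hDQ hEQ hρ
        (by omega)
      rw [CH.Prsw.filt hE1.ne_zero (hs E h0)] at h1
      have e2 : ∀ a b t v : ℝ, t * a - v * (t * b) = t * (a - v * b) := fun a b t v => by ring
      rw [e2, abs_mul]
      have h2 : |lam E| ≤ 1 := hB E
      refine (mul_le_mul h2 h1 (abs_nonneg _) zero_le_one).trans ?_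
      rw [one_mul]
      have hk1 : (1 : ℝ) ≤ (k : ℝ) + 1 := by
        have : (0 : ℝ) ≤ k := Nat.cast_nonneg k
        linarith
      have h3 : ((k : ℝ) + 1) ^ E.natDegree ≤ ((k : ℝ) + 1) ^ y := pow_le_pow_right₀ hk1 hE2
      have h4 : (2 * (Q.natDegree + E.natDegree) + 4 : ℝ) ≤ (2 * (Q.natDegree + y) + 4 : ℝ) := by
        have : (E.natDegree : ℝ) ≤ y := by exact_mod_cast hE2
        linarith
      exact mul_le_mul_of_nonneg_right (mul_le_mul h3 h4 (by positivity) (by positivity)) hsq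
  refine (sum_le_sum hterm).trans ?_
  rw [sum_const, nsmul_eq_mul]
  refine mul_le_mul_of_nonneg_right ?_ (by positivity)
  exact_mod_cast card_le_card (filter_subset _ _)

/-- the level is at most `N / 16` -/
lemma lev {k A m n N : ℕ} (hn : n ≤ 5 * N) (hmn : (m : ℝ) ≤ 1 / (40 * (k + 2) * (A + 1)) * n) :
    16 * (A * m) ≤ N := by
  have hk : (0 : ℝ) ≤ k := Nat.cast_nonneg k
  have hA : (0 : ℝ) ≤ A := Nat.cast_nonneg A
  have hm : (0 : ℝ) ≤ m := Nat.cast_nonneg m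
  have hnr : (n : ℝ) ≤ 5 * N := by exact_mod_cast hn
  have h3 : (m : ℝ) * (40 * ((k : ℝ) + 2) * (A + 1)) ≤ n := by
    rw [one_div, inv_mul_eq_div, le_div_iff₀ (by positivity)] at hmn
    exact hmn
  have h4 : (m : ℝ) * (80 * A) ≤ m * (40 * ((k : ℝ) + 2) * (A + 1)) := by
    refine mul_le_mul_of_nonneg_left ?_ hm
    have : 0 ≤ (k : ℝ) * A := mul_nonneg hk hA
    nlinarith
  have h5 : (16 : ℝ) * ((A : ℝ) * m) ≤ N := by linarith
  exact_mod_cast h5

end PrsG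

open PrsG in
/-- **Task CG-PRS** -/
theorem prsg (hv : S_vpg) (hb : S_brg) (hp : S_papg) : S_prsg := by
  intro K _ _ _ Q hQ
  obtain ⟨φ, hφ, hp⟩ := hp K Q hQ
  refine ⟨φ, hφ, ?_⟩
  intro k s ε hS hε
  obtain ⟨c, hc, hv⟩ := hv K k
  obtain ⟨A, hb⟩ := hb K k (ε / 2) (by positivity)
  obtain ⟨ε', hε'⟩ : ∃ ε' : ℝ, ε' = ε / (φ * (1 + Q.natDegree)) := ⟨_, rfl⟩
  have hε'0 : 0 < ε' := by rw [hε']; positivity
  obtain ⟨N₀, hnum⟩ := CH.Prsw.num k (ε' / 2 * c) (by positivity)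
  refine ⟨A, 1 / (40 * (k + 2) * (A + 1)), by positivity, 5 * (N₀ + 2 * Q.natDegree) + 1, ?_⟩
  intro n hn m b hm hmn hvp
  obtain ⟨lamU, lamV, hU, hV, hsupp, hsif, hUs, hVs⟩ := hb m Q s b hQ hS hm hvp
  have hlow : c / (m : ℝ) ^ k ≤ vg Q m s b := by
    refine (hv m Q s b hQ hS hm).2.1 ?_
    by_contra hno
    push Not at hno
    obtain ⟨P, hP, hPQ, hno⟩ := hno
    have := (hv m Q s b hQ hS hm).2.2 ⟨P, hP, hPQ, hno⟩
    linarith
  refine ⟨lamU, lamV, hU, hV, hsif, ?_⟩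
  intro N D ρ hnN hNn hD hR hDQ hρ
  have hN1 : 1 ≤ N := by omega
  have hq := q_ge (k := K)
  have hlev := lev hnN hmn
  obtain ⟨-, herr⟩ := CH.Prsw.err (q := (Fintype.card K : ℝ)) (v := vg Q m s b) hq hc hε'0 hm hN1
    hnN hmn hlow (hnum N (by omega))
  have hcard := CH.Prsw.card_SqM (K := K) (A * m)
  have hNr : (0 : ℝ) < N := by exact_mod_cast hN1
  have hq0 : (0 : ℝ) < (Fintype.card K : ℝ) ^ N / (N * φ) := by positivity
  have hdeg : Q.natDegree + A * m < N := by omega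
  have hd0 : (0 : ℝ) ≤ Q.natDegree := Nat.cast_nonneg _
  have hy0 : (0 : ℝ) ≤ ((A * m : ℕ) : ℝ) := Nat.cast_nonneg _
  have hsq : 0 ≤ Real.sqrt ((Fintype.card K : ℝ) ^ N) := Real.sqrt_nonneg _
  have hbound : ((SqM K (A * m)).card : ℝ) * (((k : ℝ) + 1) ^ (A * m) *
      (2 * (Q.natDegree + ((A * m : ℕ) : ℝ)) + 4 : ℝ) * Real.sqrt ((Fintype.card K : ℝ) ^ N)) ≤
      ε / 2 * (vg Q m s b * (Fintype.card K : ℝ) ^ N / (N * φ)) := by
    have h1 : (2 * (Q.natDegree + ((A * m : ℕ) : ℝ)) + 4 : ℝ) ≤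
        (2 * ((A * m : ℕ) : ℝ) + 4) * (1 + Q.natDegree) := by nlinarith
    have h2 : ((k : ℝ) + 1) ^ (A * m) * (2 * (Q.natDegree + ((A * m : ℕ) : ℝ)) + 4 : ℝ) *
        Real.sqrt ((Fintype.card K : ℝ) ^ N) ≤ ((k : ℝ) + 1) ^ (A * m) *
          ((2 * ((A * m : ℕ) : ℝ) + 4) * (1 + Q.natDegree)) *
            Real.sqrt ((Fintype.card K : ℝ) ^ N) :=
      mul_le_mul_of_nonneg_right (mul_le_mul_of_nonneg_left h1 (by positivity)) hsq
    have h3 := mul_le_mul hcard h2 (by positivity) (by positivity)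
    refine h3.trans ?_
    have h4 := mul_le_mul_of_nonneg_left herr (show (0 : ℝ) ≤ 1 + Q.natDegree by positivity)
    have h5 : (1 + (Q.natDegree : ℝ)) * (ε' / 2 * (vg Q m s b * (Fintype.card K : ℝ) ^ N / N)) =
        ε / 2 * (vg Q m s b * (Fintype.card K : ℝ) ^ N / (N * φ)) := by
      rw [hε']
      field_simp
    rw [h5] at h4
    refine le_trans (le_of_eq ?_) h4
    ring
  have e1 : ∀ x : ℝ, (Fintype.card K : ℝ) ^ N / (N * φ) * (x * vg Q m s b) =
      x * (vg Q m s b * (Fintype.card K : ℝ) ^ N / (N * φ)) := fun x => by ring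
  constructor
  · have h1 := (sum_Wg hp D ρ s b lamU hS hU (fun E hE => hsupp E (Or.inl hE)) hN1 hdeg hD hR hDQ
      hρ).trans hbound
    have h2 := mul_le_mul_of_nonneg_left hUs hq0.le
    rw [e1] at h2
    have h3 := (abs_le.1 h1).2
    unfold mainT at h3
    have e3 : (1 + ε) * (vg Q m s b * (Fintype.card K : ℝ) ^ N / (N * φ)) =
      ε / 2 * (vg Q m s b * (Fintype.card K : ℝ) ^ N / (N * φ)) +
        (1 + ε / 2) * (vg Q m s b * (Fintype.card K : ℝ) ^ N / (N * φ)) := by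
      ring
    rw [e3]
    linarith
  · have h1 := (sum_Wg hp D ρ s b lamV hS hV (fun E hE => hsupp E (Or.inr hE)) hN1 hdeg hD hR hDQ
      hρ).trans hbound
    have h2 := mul_le_mul_of_nonneg_left hVs hq0.le
    rw [e1] at h2
    have h3 := (abs_le.1 h1).1
    unfold mainT at h3
    have e3 : (1 - ε) * (vg Q m s b * (Fintype.card K : ℝ) ^ N / (N * φ)) =
      (1 - ε / 2) * (vg Q m s b * (Fintype.card K : ℝ) ^ N / (N * φ)) -
        ε / 2 * (vg Q m s b * (Fintype.card K : ℝ) ^ N / (N * φ)) := by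
      ring
    rw [e3]
    linarith

end Pool.Agent.H985.CG
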