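import Pool.Agent.H985.CG.Stm
import Pool.Agent.H985.CH.Buchw

/-!
# The multiples of squares of large primes (task CG-SQ, helper980)

Adaptation of `sqw` of `Pool/Agent/H985/CH/Buchw.lean`.
-/

set_option autoImplicit false

namespace Pool.Agent.H985.CG

open Polynomial Finset
open scoped Classical
open Pool.Agent.H694.Typ (Mn Irn PU mem_Mn mem_Irn card_Mn card_dvd_le card_dvd_eq no_dvd coprime_of_ne wt q_ge)
open Pool.Agent.H985.CH (SqM Bdd Exc)

namespace SqgH980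

/-- the number of divisors -/
noncomputable def tau {K : Type} [Field K] [Fintype K] {k : ℕ} (Q : K[X]) (s b : Fin k → K[X])
    (y : ℕ) (f : K[X]) : ℝ :=
  (((SqM K y).filter (fun E => IsCoprime E Q ∧ E ∣ Hg s b f)).card : ℝ)

theorem Wg_le {K : Type} [Field K] [Fintype K] {k : ℕ} (Q : K[X]) (s b : Fin k → K[X])
    {lam : K[X] → ℝ} (hl : Bdd lam) (y : ℕ) (f : K[X]) : |Wg Q s b lam y f| ≤ tau Q s b y f := by
  unfold Wg tau
  refine (Finset.abs_sum_le_sum_abs _ _).trans ?_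
  refine (Finset.sum_le_sum fun E _ => hl E).trans ?_
  rw [Finset.sum_const, nsmul_eq_mul, mul_one]

end SqgH980

open SqgH980
open Pool.Agent.H985.CH.Buchw (Sq card_Sq sum_le_N)

theorem sqg (hm : S_momg) : S_sqg := by
  intro k K _ _
  obtain ⟨C, hC⟩ := hm k 2 K
  refine ⟨C + 2, fun N y z Q D s b lam hslo hD hcop hy hl => ?_⟩
  have hq : (2 : ℝ) ≤ (Fintype.card K : ℝ) := q_ge
  set q := (Fintype.card K : ℝ) with hqd
  have hq0 : 0 < q := by linarith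
  have hw : 1 ≤ max z 1 := le_max_right _ _
  set X : ℝ := ∑ f ∈ Sq K N (max z 1), tau Q s b y (D * f) with hX
  have htau : ∀ f, 0 ≤ tau Q s b y (D * f) := fun f => by
    unfold tau
    positivity
  have hX0 : 0 ≤ X := Finset.sum_nonneg fun f _ => htau f
  have h1 : ∑ j ∈ Icc (max z 1) N, ∑ p ∈ Irn K j, ∑ B ∈ (Mn K (N - j)).filter (fun B => p ∣ B),
      |Wg Q s b lam y (D * (p * B))| ≤ (N : ℝ) * X := by
    refine le_trans ?_ (sum_le_N hw (fun f => tau Q s b y (D * f)) htau)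
    exact Finset.sum_le_sum fun j _ => Finset.sum_le_sum fun p _ => Finset.sum_le_sum fun B _ =>
      Wg_le Q s b hl y _
  have h2 : X ^ 2 ≤ (((N : ℝ) + 2) ^ (C + 1) * q ^ N * q ^ (-(z : ℝ) / 2)) ^ 2 := by
    have a1 : X ^ 2 ≤ ((Sq K N (max z 1)).card : ℝ) * ∑ f ∈ Sq K N (max z 1), tau Q s b y (D * f) ^ 2 :=
      sq_sum_le_card_mul_sum_sq
    have a2 : ∑ f ∈ Sq K N (max z 1), tau Q s b y (D * f) ^ 2 ≤ ((N : ℝ) + 2) ^ C * q ^ N := by
      refine le_trans ?_ (hC N y Q D s b hslo hD hcop hy)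
      refine Finset.sum_le_sum_of_subset_of_nonneg (Finset.filter_subset _ _) fun f _ _ => by positivity
    have a3 := card_Sq (K := K) N (max z 1) hw
    have a4 : q ^ N * (2 / q ^ (max z 1)) ≤ q ^ N * (2 / q ^ z) := by
      have : q ^ z ≤ q ^ (max z 1) := pow_le_pow_right₀ (by linarith) (le_max_left _ _)
      gcongr
    have a5 : (q ^ (-(z : ℝ) / 2)) ^ 2 = 1 / q ^ z := by
      rw [← Real.rpow_natCast, ← Real.rpow_mul hq0.le, ← Real.rpow_natCast, one_div, ← Real.rpow_neg hq0.le]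
      congr 1
      push_cast
      ring
    have hN : (2 : ℝ) ≤ (N : ℝ) + 2 := by
      have : (0 : ℝ) ≤ (N : ℝ) := Nat.cast_nonneg _
      linarith
    have a6 : 2 * ((N : ℝ) + 2) ^ C ≤ (((N : ℝ) + 2) ^ (C + 1)) ^ 2 := by
      have b1 : 1 ≤ ((N : ℝ) + 2) ^ (C + 1) := one_le_pow₀ (by linarith)
      calc 2 * ((N : ℝ) + 2) ^ C ≤ ((N : ℝ) + 2) * ((N : ℝ) + 2) ^ C := by gcongr
        _ = ((N : ℝ) + 2) ^ (C + 1) := by ring
        _ ≤ (((N : ℝ) + 2) ^ (C + 1)) ^ 2 := by nlinarith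
    calc X ^ 2 ≤ ((Sq K N (max z 1)).card : ℝ) * ∑ f ∈ Sq K N (max z 1), tau Q s b y (D * f) ^ 2 := a1
      _ ≤ (q ^ N * (2 / q ^ z)) * (((N : ℝ) + 2) ^ C * q ^ N) := by
          refine mul_le_mul (a3.trans a4) a2 ?_ (by positivity)
          exact Finset.sum_nonneg fun f _ => by positivity
      _ = (2 * ((N : ℝ) + 2) ^ C) * ((q ^ N) ^ 2 * (1 / q ^ z)) := by ring
      _ ≤ (((N : ℝ) + 2) ^ (C + 1)) ^ 2 * ((q ^ N) ^ 2 * (1 / q ^ z)) := by
          gcongr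
      _ = (((N : ℝ) + 2) ^ (C + 1) * q ^ N * q ^ (-(z : ℝ) / 2)) ^ 2 := by
          rw [mul_pow, mul_pow, a5]
          ring
  have h3 : X ≤ ((N : ℝ) + 2) ^ (C + 1) * q ^ N * q ^ (-(z : ℝ) / 2) :=
    (pow_le_pow_iff_left₀ hX0 (by positivity) two_ne_zero).1 h2
  refine h1.trans ?_
  calc (N : ℝ) * X ≤ ((N : ℝ) + 2) * (((N : ℝ) + 2) ^ (C + 1) * q ^ N * q ^ (-(z : ℝ) / 2)) := by
        refine mul_le_mul (by linarith) h3 hX0 (by positivity)
    _ = ((N : ℝ) + 2) ^ (C + 2) * q ^ N * q ^ (-(z : ℝ) / 2) := by ring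

end Pool.Agent.H985.CG
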