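import Pool.Agent.H985.CG.Stm
import Pool.Agent.H985.CH.TIW

/-!
# Task CG-TI of project CG (helper665, after task TIW of helper348): type I sums with the weights
-/

set_option autoImplicit false

namespace Pool.Agent.H985.CG

open Polynomial Finset
open scoped Classical
open Pool.Agent.H985.Chow (mob)
open Pool.Agent.H985.KP (PA mobg)
open Pool.Agent.H694.Typ (Mn Irn mem_Mn card_Mn PU mem_PU card_dvd_le no_dvd wt)
open Pool.Agent.H251.SP (Rgh Smo S_mob S_ps)
open Pool.Agent.H251.SP.TiN (Pz mem_Pz cop_pz prod_monic prod_dvd_iff prod_inj sieve_id prod_sqf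
  prod_smo card_small In In_mob)
open Pool.Agent.H251.SP.TW (abs_mob abs_mobg)
open Pool.Agent.H985.CH (SqM Bdd S_tailw)
open Pool.Agent.H985.CH.TIWa (sum_exp large mem_SqM card_SqM sqrt_le)

namespace TIGa

section main

variable {K : Type} [Field K] [Fintype K]

/-- periodicity -/
lemma Hg_dvd {k : ℕ} (s b : Fin k → K[X]) {E u v : K[X]} (h : E ∣ u - v) :
    E ∣ Hg s b u ↔ E ∣ Hg s b v := by
  have h1 : E ∣ Hg s b u - Hg s b v := by
    unfold Hg
    have h2 : ∀ S : Finset (Fin k), E ∣ ∏ i ∈ S, (s i * u + b i) - ∏ i ∈ S, (s i * v + b i) := by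
      intro S
      induction S using Finset.induction_on with
      | empty => simp
      | insert i S hi ih =>
        rw [prod_insert hi, prod_insert hi]
        have e : (s i * u + b i) * ∏ i ∈ S, (s i * u + b i) -
            (s i * v + b i) * ∏ i ∈ S, (s i * v + b i) =
            (u - v) * (s i * ∏ i ∈ S, (s i * u + b i)) +
              (s i * v + b i) * (∏ i ∈ S, (s i * u + b i) - ∏ i ∈ S, (s i * v + b i)) := by ring
        rw [e]
        exact dvd_add (h.mul_right _) (ih.mul_left _)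
    exact h2 univ
  constructor
  · intro h3
    have := dvd_sub h3 h1
    rwa [sub_sub_cancel] at this
  · intro h3
    have := dvd_add h1 h3
    rwa [sub_add_cancel] at this

/-- a condition modulo `E` -/
lemma res_sum {k : ℕ} (s b : Fin k → K[X]) {E : K[X]} (hE : E.Monic) (f : K[X]) (x : ℝ) :
    (if E ∣ Hg s b f then x else 0) =
      ∑ r ∈ (Mn K E.natDegree).filter (fun r => E ∣ Hg s b r), if E ∣ f - r then x else 0 := by
  obtain ⟨r₀, hr₀⟩ : ∃ r₀ : K[X], r₀ = E + f %ₘ E := ⟨_, rfl⟩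
  have hlt : (f %ₘ E).degree < E.degree := degree_modByMonic_lt f hE
  have hr1 : r₀ ∈ Mn K E.natDegree := by
    rw [mem_Mn, hr₀]
    refine ⟨hE.add_of_left hlt, ?_⟩
    exact natDegree_add_eq_left_of_degree_lt hlt
  have hr2 : E ∣ f - r₀ := by
    have h2 := modByMonic_add_div f E
    refine ⟨f /ₘ E - 1, ?_⟩
    rw [hr₀]
    linear_combination -h2
  by_cases hc : E ∣ Hg s b f
  · rw [if_pos hc, sum_eq_single_of_mem r₀ (mem_filter.2 ⟨hr1, (Hg_dvd s b hr2).1 hc⟩), if_pos hr2]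
    intro r hr hne
    rw [if_neg]
    intro hd
    apply hne
    rw [mem_filter, mem_Mn] at hr
    have h3 : E ∣ r₀ - r := by
      have e : r₀ - r = (f - r) - (f - r₀) := by ring
      rw [e]
      exact dvd_sub hd hr2
    have h4 : (r₀ - r).degree < E.degree := by
      have h5 := mem_Mn.1 hr1
      have h6 : r₀.degree = r.degree := by
        rw [degree_eq_natDegree h5.1.ne_zero, degree_eq_natDegree hr.1.1.ne_zero, h5.2, hr.1.2]
      have h7 := degree_sub_lt_left h6 h5.1.ne_zero (by rw [h5.1.leadingCoeff, hr.1.1.leadingCoeff])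
      rwa [degree_eq_natDegree h5.1.ne_zero, h5.2, ← degree_eq_natDegree hE.ne_zero] at h7
    have h5 : r₀ - r = 0 := by
      by_contra hne'
      exact absurd (degree_le_of_dvd h3 hne') (not_le.2 h4)
    exact (sub_eq_zero.1 h5).symm
  · rw [if_neg hc]
    symm
    refine sum_eq_zero fun r hr => ?_
    rw [if_neg]
    intro hd
    exact hc ((Hg_dvd s b hd).2 (mem_filter.1 hr).2)

/-- expansion of the weights -/
lemma W_exp {k : ℕ} (Q : K[X]) (s b : Fin k → K[X]) (lam : K[X] → ℝ) (hlam : Bdd lam) (y : ℕ)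
    (S : Finset K[X]) (g : K[X] → K[X]) (ψ : K[X] → ℝ) (S₀ : ℝ) (hS₀ : 0 ≤ S₀)
    (hb : ∀ E : K[X], E.Monic → E.natDegree ≤ y → IsCoprime E Q → ∀ r,
      |∑ B ∈ S.filter (fun B => E ∣ g B - r), ψ B| ≤ S₀) :
    |∑ B ∈ S, Wg Q s b lam y (g B) * ψ B| ≤ (Fintype.card K : ℝ) ^ (2 * y + 1) * S₀ := by
  have hq1 : (1 : ℝ) ≤ Fintype.card K := by exact_mod_cast Fintype.card_pos
  have e1 : ∑ B ∈ S, Wg Q s b lam y (g B) * ψ B =
      ∑ E ∈ (SqM K y).filter (fun E => IsCoprime E Q),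
        lam E * ∑ r ∈ (Mn K E.natDegree).filter (fun r => E ∣ Hg s b r),
        ∑ B ∈ S.filter (fun B => E ∣ g B - r), ψ B := by
    unfold Wg
    have h1 : ∀ B ∈ S, (∑ E ∈ (SqM K y).filter (fun E => IsCoprime E Q ∧ E ∣ Hg s b (g B)),
        lam E) * ψ B =
        ∑ E ∈ (SqM K y).filter (fun E => IsCoprime E Q),
          lam E * ∑ r ∈ (Mn K E.natDegree).filter (fun r => E ∣ Hg s b r),
          if E ∣ g B - r then ψ B else 0 := by
      intro B _
      rw [← filter_filter, sum_filter, sum_mul]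
      refine sum_congr rfl fun E hE => ?_
      rw [← res_sum s b (mem_SqM.1 (mem_filter.1 hE).1).1]
      split_ifs <;> ring
    rw [sum_congr rfl h1, sum_comm]
    refine sum_congr rfl fun E _ => ?_
    rw [← mul_sum, sum_comm]
    congr 1
    refine sum_congr rfl fun r _ => ?_
    rw [sum_filter]
  rw [e1]
  refine (Finset.abs_sum_le_sum_abs _ _).trans ?_
  have h2 : ∀ E ∈ (SqM K y).filter (fun E => IsCoprime E Q),
      |lam E * ∑ r ∈ (Mn K E.natDegree).filter (fun r => E ∣ Hg s b r),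
      ∑ B ∈ S.filter (fun B => E ∣ g B - r), ψ B| ≤ (Fintype.card K : ℝ) ^ y * S₀ := by
    intro E hE
    have hE1 := (mem_filter.1 hE).2
    have hE' := mem_SqM.1 (mem_filter.1 hE).1
    rw [abs_mul]
    refine (mul_le_of_le_one_left (abs_nonneg _) (hlam E)).trans ?_
    refine (Finset.abs_sum_le_sum_abs _ _).trans ?_
    refine (sum_le_card_nsmul _ _ _ fun r _ => hb E hE'.1 hE'.2.1 hE1 r).trans ?_
    rw [nsmul_eq_mul]
    refine mul_le_mul_of_nonneg_right ?_ hS₀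
    have h3 : (((Mn K E.natDegree).filter (fun r => E ∣ Hg s b r)).card : ℝ) ≤
        (Fintype.card K : ℝ) ^ E.natDegree := by
      have h4 : ((Mn K E.natDegree).filter (fun r => E ∣ Hg s b r)).card ≤
          Fintype.card K ^ E.natDegree := by
        rw [← card_Mn]
        exact card_filter_le _ _
      exact_mod_cast h4
    exact h3.trans (pow_le_pow_right₀ hq1 hE'.2.1)
  refine (sum_le_card_nsmul _ _ _ h2).trans ?_
  rw [nsmul_eq_mul]
  have h3 : (((SqM K y).filter (fun E => IsCoprime E Q)).card : ℝ) ≤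
      (Fintype.card K : ℝ) ^ (y + 1) := by
    refine le_trans ?_ (card_SqM y)
    exact_mod_cast card_filter_le _ _
  calc (((SqM K y).filter (fun E => IsCoprime E Q)).card : ℝ) * ((Fintype.card K : ℝ) ^ y * S₀)
      ≤ (Fintype.card K : ℝ) ^ (y + 1) * ((Fintype.card K : ℝ) ^ y * S₀) :=
        mul_le_mul_of_nonneg_right h3 (by positivity)
    _ = _ := by ring

lemma Wg_abs {k : ℕ} (Q : K[X]) (s b : Fin k → K[X]) (lam : K[X] → ℝ) (hlam : Bdd lam) (y : ℕ)
    (f : K[X]) : |Wg Q s b lam y f| ≤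
      (((SqM K y).filter (fun E => IsCoprime E Q ∧ E ∣ Hg s b f)).card : ℝ) := by
  unfold Wg
  refine (Finset.abs_sum_le_sum_abs _ _).trans ?_
  refine (sum_le_card_nsmul _ _ _ fun E _ => hlam E).trans ?_
  rw [nsmul_eq_mul, mul_one]

/-- the second moment -/
lemma mom {k : ℕ} {C : ℕ} {n N y : ℕ} {Q D : K[X]} {s b : Fin k → K[X]} (lam : K[X] → ℝ)
    (hlam : Bdd lam) (ψ : K[X] → ℝ) (hψ : ∀ B, |ψ B| ≤ 1) (hN : N ≤ n) (hn : 2 ≤ n)
    (hm : ∑ B ∈ Mn K N,
      (((SqM K y).filter (fun E => IsCoprime E Q ∧ E ∣ Hg s b (D * B))).card : ℝ) ^ 2 ≤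
      ((N : ℝ) + 2) ^ C * (Fintype.card K : ℝ) ^ N) :
    ∑ B ∈ Mn K N, (Wg Q s b lam y (D * B) * ψ B) ^ 2 ≤
      (n : ℝ) ^ (2 * C) * (Fintype.card K : ℝ) ^ N := by
  have h1 : ∀ B ∈ Mn K N, (Wg Q s b lam y (D * B) * ψ B) ^ 2 ≤
      (((SqM K y).filter (fun E => IsCoprime E Q ∧ E ∣ Hg s b (D * B))).card : ℝ) ^ 2 := by
    intro B _
    rw [mul_pow, ← sq_abs, ← sq_abs (ψ B)]
    have h2 : |ψ B| ^ 2 ≤ 1 := pow_le_one₀ (abs_nonneg _) (hψ B)
    have h3 := Wg_abs Q s b lam hlam y (D * B)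
    calc |Wg Q s b lam y (D * B)| ^ 2 * |ψ B| ^ 2 ≤ |Wg Q s b lam y (D * B)| ^ 2 * 1 :=
          mul_le_mul_of_nonneg_left h2 (by positivity)
      _ ≤ _ := by
          rw [mul_one]
          exact pow_le_pow_left₀ (abs_nonneg _) h3 2
  refine (sum_le_sum h1).trans (hm.trans ?_)
  refine mul_le_mul_of_nonneg_right ?_ (by positivity)
  rw [pow_mul]
  refine pow_le_pow_left₀ (by positivity) ?_ C
  have h2 : (N : ℝ) ≤ n := by exact_mod_cast hN
  have h3 : (2 : ℝ) ≤ n := by exact_mod_cast hn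
  nlinarith

/-- the sums over the classes -/
lemma cls (n : ℕ) {s D b g Q E ρ r d : K[X]} {S : ℝ} (hS : 0 ≤ S) (hs : s.Monic) (hD : D.Monic)
    (hd : d.Monic) (hQ : Q.Monic) (hE : E.Monic) (hcop : IsCoprime E Q)
    (hb : b.natDegree < n + s.natDegree) (hDn : D.natDegree ≤ n)
    (hdeg : D.natDegree + d.natDegree + (Q.natDegree + E.natDegree) ≤ 2 * n)
    (hmob : ∀ R a : K[X], R.Monic → R.natDegree ≤ 2 * (n + s.natDegree) →
      |∑ F ∈ (Mn K (n + s.natDegree)).filter (fun F => R ∣ F - a), (mobg g F : ℝ)| ≤ S) :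
    |∑ B ∈ (Mn K (n - D.natDegree)).filter (fun B => d ∣ B ∧ Q ∣ D * B - ρ ∧ E ∣ D * B - r),
      (mobg g (s * (D * B) + b) : ℝ)| ≤ S := by
  obtain ⟨u, v, huv⟩ := hcop
  obtain ⟨t, ht⟩ : ∃ t : K[X], t = ρ * (u * E) + r * (v * Q) := ⟨_, rfl⟩
  have hQt : Q ∣ t - ρ := by
    refine ⟨(r - ρ) * v, ?_⟩
    rw [ht]
    linear_combination ρ * huv
  have hEt : E ∣ t - r := by
    refine ⟨(ρ - r) * u, ?_⟩
    rw [ht]
    linear_combination r * huv
  have hQE : IsCoprime Q E := ⟨v, u, by linear_combination huv⟩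
  have hiff : ∀ x : K[X], s * (Q * E) ∣ s * x - s * t ↔ Q ∣ x - ρ ∧ E ∣ x - r := by
    intro x
    rw [← mul_sub, mul_dvd_mul_iff_left hs.ne_zero]
    constructor
    · intro h
      have h1 : x - ρ = (x - t) + (t - ρ) := by ring
      have h2 : x - r = (x - t) + (t - r) := by ring
      rw [h1, h2]
      exact ⟨dvd_add (dvd_of_mul_right_dvd h) hQt, dvd_add (dvd_of_mul_left_dvd h) hEt⟩
    · rintro ⟨h1, h2⟩
      have h3 : x - t = (x - ρ) - (t - ρ) := by ring
      have h4 : x - t = (x - r) - (t - r) := by ring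
      refine hQE.mul_dvd ?_ ?_
      · rw [h3]
        exact dvd_sub h1 hQt
      · rw [h4]
        exact dvd_sub h2 hEt
  have hdD : (s * D).natDegree = s.natDegree + D.natDegree := hs.natDegree_mul hD
  have hdQ : (s * (Q * E)).natDegree = s.natDegree + (Q.natDegree + E.natDegree) := by
    rw [hs.natDegree_mul (hQ.mul hE), hQ.natDegree_mul hE]
  have h1 := In_mob (K := K) (n + s.natDegree) (D := s * D) (h := b) (g := g) (Q := s * (Q * E))
    (r := s * t) (d := d) hS (hs.mul hD) hd (hs.mul (hQ.mul hE)) hb (by rw [hdD]; omega)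
    (by rw [hdD, hdQ]; omega) hmob
  refine le_trans (le_of_eq ?_) h1
  congr 1
  unfold In
  have hN : n + s.natDegree - (s * D).natDegree = n - D.natDegree := by
    rw [hdD]
    omega
  rw [hN]
  refine sum_congr ?_ fun B _ => by rw [mul_assoc]
  refine filter_congr fun B _ => ?_
  rw [mul_assoc, hiff]

end main

end TIGa

open TIGa

/-- **Task CG-TI.** -/
theorem tig (hm : S_mob) (ht : S_tailw) (hmo : S_momg) : S_tig := by
  intro K _ _ _ k A₀ Q g s δ hQ hg hs hδ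
  obtain ⟨q, hqdef⟩ : ∃ q : ℝ, q = Fintype.card K := ⟨_, rfl⟩
  have hq1 : (1 : ℝ) < q := by rw [hqdef]; exact_mod_cast Fintype.one_lt_card
  have hq0 : (0 : ℝ) < q := by linarith
  have hlq : 0 < Real.log q := Real.log_pos hq1
  obtain ⟨C₀, hC₀, hmob₀⟩ := hm K (δ * Real.log q / 8) (by positivity)
  obtain ⟨C₂, hmom⟩ := hmo k 2 K
  obtain ⟨n1, htail⟩ := ht K (2 * C₂ + 2 * A₀ + 2) (δ / 8) (by positivity)
  obtain ⟨σ, hσ⟩ : ∃ σ : ℕ, σ = ∑ i, (s i).natDegree := ⟨_, rfl⟩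
  obtain ⟨C, hCdef⟩ : ∃ C : ℝ, C = C₀ * q ^ ((σ : ℝ) / 2) * Real.exp (δ * Real.log q / 8 * σ) :=
    ⟨_, rfl⟩
  have hC : 0 < C := by
    rw [hCdef]
    positivity
  have hσi : ∀ i, (s i).natDegree ≤ σ := by
    intro i
    rw [hσ]
    exact single_le_sum (f := fun i => (s i).natDegree) (fun j _ => Nat.zero_le _) (mem_univ i)
  have hmob : ∀ (n : ℕ) (i : Fin k), g.natDegree ≤ n → ∀ R a : K[X], R.Monic →
      R.natDegree ≤ 2 * (n + (s i).natDegree) →
      |∑ F ∈ (Mn K (n + (s i).natDegree)).filter (fun F => R ∣ F - a), (mobg g F : ℝ)| ≤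
        C * q ^ ((n : ℝ) / 2) * Real.exp (δ * Real.log q / 8 * n) := by
    intro n i hgn R a hR hRd
    refine (hmob₀ (n + (s i).natDegree) R a g hR hRd hg (by omega)).trans ?_
    rw [← hqdef]
    have h1 : ((s i).natDegree : ℝ) ≤ σ := by exact_mod_cast hσi i
    have h2 : q ^ (((n + (s i).natDegree : ℕ) : ℝ) / 2) ≤ q ^ ((σ : ℝ) / 2) * q ^ ((n : ℝ) / 2) := by
      rw [← Real.rpow_add hq0]
      refine Real.rpow_le_rpow_of_exponent_le hq1.le ?_
      push_cast
      linarith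
    have h3 : Real.exp (δ * Real.log q / 8 * ((n + (s i).natDegree : ℕ) : ℝ)) ≤
        Real.exp (δ * Real.log q / 8 * σ) * Real.exp (δ * Real.log q / 8 * n) := by
      rw [← Real.exp_add]
      refine Real.exp_le_exp.2 ?_
      have h4 : 0 ≤ δ * Real.log q / 8 := by positivity
      push_cast
      nlinarith
    calc C₀ * q ^ (((n + (s i).natDegree : ℕ) : ℝ) / 2) *
          Real.exp (δ * Real.log q / 8 * ((n + (s i).natDegree : ℕ) : ℝ))
        ≤ C₀ * (q ^ ((σ : ℝ) / 2) * q ^ ((n : ℝ) / 2)) *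
          (Real.exp (δ * Real.log q / 8 * σ) * Real.exp (δ * Real.log q / 8 * n)) := by
          gcongr
      _ = _ := by
          rw [hCdef]
          ring
  have hr1 : 1 < q ^ (δ / 8) := Real.one_lt_rpow hq1 (by positivity)
  have hlim := (tendsto_pow_const_div_const_pow_of_one_lt A₀ hr1).const_mul (2 * C * q ^ 2)
  rw [mul_zero] at hlim
  obtain ⟨n2, hn2⟩ := Filter.eventually_atTop.1 (hlim.eventually (gt_mem_nhds one_pos))
  refine ⟨δ / 32, by positivity, n1 + n2 + A₀ + 2 + g.natDegree + Q.natDegree, ?_⟩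
  intro n hn z y D ρ b i₀ lam hz hD hDs hDQ hDd hcop hy hSh hlam
  rw [← hqdef]
  have hn0 : (0 : ℝ) < n := by exact_mod_cast (by omega : 0 < n)
  have hn2' : (2 : ℝ) ≤ n := by exact_mod_cast (by omega : 2 ≤ n)
  have hδ1 : δ ≤ 1 := by
    have h1 : (0 : ℝ) ≤ (1 - δ) * n := le_trans (by positivity) hDd
    have h2 : 0 ≤ 1 - δ := nonneg_of_mul_nonneg_left h1 hn0
    linarith
  have hδn : δ * n ≤ n := by nlinarith
  obtain ⟨Y, hY⟩ : ∃ Y : ℕ, Y = ⌈δ / 8 * n⌉₊ := ⟨_, rfl⟩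
  have hY1 : (Y : ℝ) < δ / 8 * n + 1 := by
    rw [hY]
    exact Nat.ceil_lt_add_one (by positivity)
  -- the degrees
  have hDn2 : (D.natDegree : ℝ) ≤ n / 2 := by nlinarith
  have hDn : D.natDegree ≤ n := by
    have : (D.natDegree : ℝ) ≤ n := by linarith
    exact_mod_cast this
  have hcast : ((n - D.natDegree : ℕ) : ℝ) = n - D.natDegree := by rw [Nat.cast_sub hDn]
  have h2y : 2 * y ≤ n - D.natDegree := by
    have : (2 : ℝ) * y ≤ ((n - D.natDegree : ℕ) : ℝ) := by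
      rw [hcast]
      nlinarith
    exact_mod_cast this
  obtain ⟨ψ, hψ⟩ : ∃ ψ : K[X] → ℝ, ψ = fun B => if Q ∣ D * B - ρ then
    (mobg g (s i₀ * (D * B) + b i₀) : ℝ) else 0 := ⟨_, rfl⟩
  have hψ1 : ∀ B, |ψ B| ≤ 1 := by
    intro B
    rw [hψ]
    by_cases hB : Q ∣ D * B - ρ
    · simp only [if_pos hB]
      exact abs_mobg _ _
    · simp only [if_neg hB, abs_zero]
      exact zero_le_one
  have hstart : ∑ B ∈ (Mn K (n - D.natDegree)).filter (fun B => Rgh z B ∧ Q ∣ D * B - ρ),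
      Wg Q s b lam y (D * B) * (mobg g (s i₀ * (D * B) + b i₀) : ℝ) =
      ∑ B ∈ (Mn K (n - D.natDegree)).filter (Rgh z), Wg Q s b lam y (D * B) * ψ B := by
    rw [← filter_filter, sum_filter]
    refine sum_congr rfl fun B _ => ?_
    rw [hψ]
    simp only
    split_ifs
    · rfl
    · rw [mul_zero]
  rw [hstart, sum_exp, ← Finset.sum_filter_add_sum_filter_not (Pz K z).powerset
    (fun T : Finset K[X] => (∏ P ∈ T, P).natDegree < Y)]
  refine (abs_add_le _ _).trans ?_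
  -- the small divisors
  have hsmall : |∑ T ∈ (Pz K z).powerset.filter (fun T => (∏ P ∈ T, P).natDegree < Y),
      (-1) ^ T.card * ∑ B ∈ (Mn K (n - D.natDegree)).filter (fun B => (∏ P ∈ T, P) ∣ B),
        Wg Q s b lam y (D * B) * ψ B| ≤
      q ^ Y * (q ^ (2 * y + 1) * (C * q ^ ((n : ℝ) / 2) * Real.exp (δ * Real.log q / 8 * n))) := by
    refine (Finset.abs_sum_le_sum_abs _ _).trans ?_
    have h1 : ∀ T ∈ (Pz K z).powerset.filter (fun T => (∏ P ∈ T, P).natDegree < Y),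
        |(-1) ^ T.card * ∑ B ∈ (Mn K (n - D.natDegree)).filter (fun B => (∏ P ∈ T, P) ∣ B),
          Wg Q s b lam y (D * B) * ψ B| ≤
        q ^ (2 * y + 1) * (C * q ^ ((n : ℝ) / 2) * Real.exp (δ * Real.log q / 8 * n)) := by
      intro T hT
      rw [mem_filter, mem_powerset] at hT
      rw [abs_mul, abs_pow, abs_neg, abs_one, one_pow, one_mul]
      have hW := W_exp Q s b lam hlam y ((Mn K (n - D.natDegree)).filter
        (fun B => (∏ P ∈ T, P) ∣ B)) (fun B => D * B) ψ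
        (C * q ^ ((n : ℝ) / 2) * Real.exp (δ * Real.log q / 8 * n)) (by positivity) ?_
      · rw [← hqdef] at hW
        exact hW
      intro E hE hEy hEQ r
      have h4 : ∑ B ∈ ((Mn K (n - D.natDegree)).filter (fun B => (∏ P ∈ T, P) ∣ B)).filter
          (fun B => E ∣ D * B - r), ψ B =
          ∑ B ∈ (Mn K (n - D.natDegree)).filter (fun B => (∏ P ∈ T, P) ∣ B ∧ Q ∣ D * B - ρ ∧
            E ∣ D * B - r), (mobg g (s i₀ * (D * B) + b i₀) : ℝ) := by
        rw [filter_filter, sum_filter, sum_filter]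
        refine sum_congr rfl fun B _ => ?_
        rw [hψ]
        by_cases a1 : (∏ P ∈ T, P) ∣ B <;> by_cases a2 : Q ∣ D * B - ρ <;>
          by_cases a3 : E ∣ D * B - r <;> simp [a1, a2, a3]
      rw [h4]
      refine cls n (by positivity) (hs i₀).1 hD (prod_monic hT.1) hQ hE hEQ (hSh i₀).2 hDn ?_ ?_
      · have h2 : ((∏ P ∈ T, P).natDegree : ℝ) < δ / 8 * n := by
          have h3 := hT.2
          rw [hY, Nat.lt_ceil] at h3
          exact h3
        have h5 : (E.natDegree : ℝ) ≤ δ / 32 * n := le_trans (by exact_mod_cast hEy) hy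
        have h3 : (D.natDegree : ℝ) + (∏ P ∈ T, P).natDegree + E.natDegree ≤ n := by nlinarith
        have h4 : D.natDegree + (∏ P ∈ T, P).natDegree + E.natDegree ≤ n := by exact_mod_cast h3
        omega
      · exact hmob n i₀ (by omega)
    refine (Finset.sum_le_sum h1).trans ?_
    rw [Finset.sum_const, nsmul_eq_mul]
    refine mul_le_mul_of_nonneg_right ?_ (by positivity)
    have h2 := card_small (K := K) z Y
    rw [← hqdef] at h2
    exact h2
  have hmm := mom lam hlam ψ hψ1 (Nat.sub_le n D.natDegree)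
    (by omega) (hmom (n - D.natDegree) y Q D s b hs hD hcop h2y)
  have htl := htail n (by omega) z (hz.trans (Nat.mul_le_mul_right _ (by omega)))
  rw [← hY] at htl
  have hlarge := large n (n - D.natDegree) z Y (Nat.sub_le _ _)
    (fun B => Wg Q s b lam y (D * B) * ψ B) _ _ hmm htl
  rw [← hqdef] at hlarge
  -- the sizes
  have hX : (q ^ (n - D.natDegree) : ℝ) = q ^ ((n : ℝ) - D.natDegree) := by
    rw [← Real.rpow_natCast, hcast]
  have hXpos : (0 : ℝ) < q ^ (n - D.natDegree) := by positivity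
  have hnA : (0 : ℝ) < (n : ℝ) ^ A₀ := by positivity
  have hs1 : q ^ Y * (q ^ (2 * y + 1) * (C * q ^ ((n : ℝ) / 2) *
      Real.exp (δ * Real.log q / 8 * n))) ≤ q ^ (n - D.natDegree) / (2 * (n : ℝ) ^ A₀) := by
    rw [le_div_iff₀ (by positivity)]
    have e2 : Real.exp (δ * Real.log q / 8 * n) = q ^ (δ / 8 * n) := by
      rw [Real.rpow_def_of_pos hq0]
      congr 1
      ring
    have e3 : (q : ℝ) ^ Y ≤ q ^ (δ / 8 * n + 1) := by
      rw [← Real.rpow_natCast]
      exact Real.rpow_le_rpow_of_exponent_le hq1.le hY1.le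
    have e4 : (q : ℝ) ^ (2 * y + 1) ≤ q ^ (δ / 16 * n + 1) := by
      rw [← Real.rpow_natCast]
      refine Real.rpow_le_rpow_of_exponent_le hq1.le ?_
      push_cast
      linarith
    have h3 : 2 * C * q ^ 2 * ((n : ℝ) ^ A₀ / (q ^ (δ / 8)) ^ n) < 1 := hn2 n (by omega)
    have h4 : 2 * C * q ^ 2 * (n : ℝ) ^ A₀ ≤ q ^ (δ / 8 * n) := by
      rw [← mul_div_assoc, div_lt_one (by positivity)] at h3
      have e4 : (q ^ (δ / 8)) ^ n = q ^ (δ / 8 * n) := by
        rw [← Real.rpow_natCast, ← Real.rpow_mul hq0.le]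
      rw [e4] at h3
      exact h3.le
    rw [hX, e2]
    calc q ^ Y * (q ^ (2 * y + 1) * (C * q ^ ((n : ℝ) / 2) * q ^ (δ / 8 * n))) *
          (2 * (n : ℝ) ^ A₀)
        ≤ q ^ (δ / 8 * n + 1) * (q ^ (δ / 16 * n + 1) * (C * q ^ ((n : ℝ) / 2) *
          q ^ (δ / 8 * n))) * (2 * (n : ℝ) ^ A₀) := by
          gcongr
      _ = (2 * C * q ^ 2 * (n : ℝ) ^ A₀) * (q ^ (δ / 8 * n) * q ^ (δ / 16 * n) *
          q ^ ((n : ℝ) / 2) * q ^ (δ / 8 * n)) := by
          rw [Real.rpow_add hq0, Real.rpow_add hq0, Real.rpow_one]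
          ring
      _ ≤ q ^ (δ / 8 * n) * (q ^ (δ / 8 * n) * q ^ (δ / 16 * n) *
          q ^ ((n : ℝ) / 2) * q ^ (δ / 8 * n)) := by
          gcongr
      _ = q ^ (δ / 8 * n + (δ / 8 * n + δ / 16 * n + (n : ℝ) / 2 + δ / 8 * n)) := by
          rw [← Real.rpow_add hq0, ← Real.rpow_add hq0, ← Real.rpow_add hq0, ← Real.rpow_add hq0]
      _ ≤ q ^ ((n : ℝ) - D.natDegree) := by
          apply Real.rpow_le_rpow_of_exponent_le hq1.le
          nlinarith
  have hs2 : q ^ (n - D.natDegree) * Real.sqrt ((n : ℝ) ^ (2 * C₂) *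
      (1 / (n : ℝ) ^ (2 * C₂ + 2 * A₀ + 2))) ≤ q ^ (n - D.natDegree) / (2 * (n : ℝ) ^ A₀) := by
    have h6 := sqrt_le (n := n) (C := C₂) (A₀ := A₀) (by omega)
    calc q ^ (n - D.natDegree) * Real.sqrt ((n : ℝ) ^ (2 * C₂) *
        (1 / (n : ℝ) ^ (2 * C₂ + 2 * A₀ + 2))) ≤ q ^ (n - D.natDegree) *
        (1 / (2 * (n : ℝ) ^ A₀)) := mul_le_mul_of_nonneg_left h6 hXpos.le
      _ = q ^ (n - D.natDegree) / (2 * (n : ℝ) ^ A₀) := by ring
  have hs3 : q ^ (n - D.natDegree) / (n : ℝ) ^ A₀ = q ^ (n - D.natDegree) / (2 * (n : ℝ) ^ A₀) +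
      q ^ (n - D.natDegree) / (2 * (n : ℝ) ^ A₀) := by
    field_simp
    ring
  rw [hs3]
  exact add_le_add (hsmall.trans hs1) (hlarge.trans hs2)

end Pool.Agent.H985.CG
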