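import Pool.Agent.H985.CG.Stm
import Pool.Agent.H985.CH.TIW

/-!
# Task CG-TW (helper81, after `CH/TWW.lean` of helper348): type I sums twisted by the Moebius
function, with the weights
-/

set_option autoImplicit false

namespace Pool.Agent.H985.CG

open Polynomial Finset
open scoped Classical
open Pool.Agent.H985.Chow (mob)
open Pool.Agent.H985.KP (PA mobg)
open Pool.Agent.H694.Typ (Mn Irn mem_Mn card_Mn PU mem_PU card_dvd_le no_dvd wt)
open Pool.Agent.H251.SP (Rgh Smo S_ps)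
open Pool.Agent.H251.SP.TiN (Pz mem_Pz prod_monic card_small)
open Pool.Agent.H251.SP.TW (abs_mob abs_mobg exists_lcm)
open Pool.Agent.H985.CH (SqM Bdd S_tailw)
open Pool.Agent.H985.CH.TIWa (sum_exp large sqrt_le mem_SqM card_SqM)

namespace TWg

section pol

variable {K : Type} [Field K]

lemma mob_cop {F G : K[X]} (h : IsCoprime F G) : mob (F * G) = mob F * mob G := by
  unfold mob
  by_cases hF : Squarefree F
  · by_cases hG : Squarefree G
    · have hFG : Squarefree (F * G) := squarefree_mul_iff.2 ⟨h.isRelPrime, hF, hG⟩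
      rw [if_pos hF, if_pos hG, if_pos hFG, ← pow_add]
      congr 1
      rw [Multiset.card_eq_card_of_rel (UniqueFactorizationMonoid.factors_mul hF.ne_zero hG.ne_zero),
        Multiset.card_add]
    · rw [if_neg hG, if_neg, mul_zero]
      exact fun h' => hG (squarefree_mul_iff.1 h').2.2
  · rw [if_neg hF, if_neg, zero_mul]
    exact fun h' => hF (squarefree_mul_iff.1 h').2.1

lemma mob_self {F : K[X]} (h : Squarefree F) : mob F * mob F = 1 := by
  unfold mob
  rw [if_pos h, ← mul_pow]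
  norm_num

/-- `A = s t ^ 2` with `s` squarefree -/
lemma sqf_sq (n : ℕ) : ∀ A : K[X], A.natDegree = n → A ≠ 0 →
    ∃ s t : K[X], t.Monic ∧ Squarefree s ∧ A = s * t ^ 2 := by
  induction n using Nat.strong_induction_on with
  | _ n ih =>
    intro A hn hA
    by_cases h : Squarefree A
    · exact ⟨A, 1, monic_one, h, by simp⟩
    · unfold Squarefree at h
      push Not at h
      obtain ⟨x, ⟨y, hy⟩, hx⟩ := h
      have hx0 : x ≠ 0 := by
        rintro rfl
        rw [mul_zero, zero_mul] at hy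
        exact hA hy
      have hy0 : y ≠ 0 := by
        rintro rfl
        rw [mul_zero] at hy
        exact hA hy
      have hlc : x.leadingCoeff ≠ 0 := mt leadingCoeff_eq_zero.1 hx0
      have hxd : 0 < x.natDegree := by
        rw [Nat.pos_iff_ne_zero]
        intro h0
        apply hx
        rw [eq_C_of_natDegree_eq_zero h0] at hx0 ⊢
        exact isUnit_C.2 (IsUnit.mk0 _ (fun h1 => hx0 (by rw [h1, C_0])))
      have hy'0 : C (x.leadingCoeff ^ 2) * y ≠ 0 :=
        mul_ne_zero (C_ne_zero.2 (pow_ne_zero 2 hlc)) hy0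
      have hy'd : (C (x.leadingCoeff ^ 2) * y).natDegree = y.natDegree := by
        rw [natDegree_C_mul (pow_ne_zero 2 hlc)]
      have hdeg : A.natDegree = x.natDegree + x.natDegree + y.natDegree := by
        rw [hy, natDegree_mul (mul_ne_zero hx0 hx0) hy0, natDegree_mul hx0 hx0]
      obtain ⟨s, t, ht, hs, hst⟩ := ih y.natDegree (by omega) _ hy'd hy'0
      refine ⟨s, x * C (x.leadingCoeff)⁻¹ * t, (monic_mul_leadingCoeff_inv hx0).mul ht, hs, ?_⟩
      have h1 : (C (x.leadingCoeff) : K[X]) * C (x.leadingCoeff)⁻¹ = 1 := by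
        rw [← C_mul, mul_inv_cancel₀ hlc, C_1]
      calc A = x * x * y := hy
        _ = x * x * ((C (x.leadingCoeff) * C (x.leadingCoeff)⁻¹) ^ 2 * y) := by rw [h1]; ring
        _ = (x * C (x.leadingCoeff)⁻¹) ^ 2 * (C (x.leadingCoeff ^ 2) * y) := by
          rw [C_pow]
          ring
        _ = (x * C (x.leadingCoeff)⁻¹) ^ 2 * (s * t ^ 2) := by rw [hst]
        _ = s * (x * C (x.leadingCoeff)⁻¹ * t) ^ 2 := by ring

lemma sqf_dec (s : K[X]) (hs : s.Monic) :
    ∃ s₁ g₁ : K[X], g₁.Monic ∧ Squarefree s₁ ∧ s = s₁ * g₁ ^ 2 :=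
  sqf_sq _ s rfl hs.ne_zero

end pol

section main

variable {K : Type} [Field K] [Fintype K]

/-- a condition modulo `E` -/
lemma res_sumg {k : ℕ} (s b : Fin k → K[X]) {E : K[X]} (hE : E.Monic) (f : K[X]) (x : ℝ) :
    (if E ∣ Hg s b f then x else 0) =
      ∑ r ∈ (Mn K E.natDegree).filter (fun r => E ∣ Hg s b r), if E ∣ f - r then x else 0 := by
  have hdiv : ∀ a c : K[X], E ∣ a - c → (E ∣ Hg s b a ↔ E ∣ Hg s b c) := by
    intro a c hab
    have h1 : E ∣ Hg s b a - Hg s b c := by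
      unfold Hg
      have h2 : ∀ t : Finset (Fin k), E ∣ ∏ i ∈ t, (s i * a + b i) - ∏ i ∈ t, (s i * c + b i) := by
        intro t
        induction t using Finset.induction_on with
        | empty => simp
        | insert i t hi ih =>
          rw [prod_insert hi, prod_insert hi]
          have e : (s i * a + b i) * ∏ i ∈ t, (s i * a + b i) -
              (s i * c + b i) * ∏ i ∈ t, (s i * c + b i) =
              (a - c) * (s i * ∏ i ∈ t, (s i * a + b i)) +
                (s i * c + b i) * (∏ i ∈ t, (s i * a + b i) - ∏ i ∈ t, (s i * c + b i)) := by ring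
          rw [e]
          exact dvd_add (hab.mul_right _) (ih.mul_left _)
      exact h2 univ
    constructor
    · intro h3
      have := dvd_sub h3 h1
      rwa [sub_sub_cancel] at this
    · intro h3
      have := dvd_add h1 h3
      rwa [sub_add_cancel] at this
  obtain ⟨r₀, hr₀⟩ : ∃ r₀ : K[X], r₀ = E + f %ₘ E := ⟨_, rfl⟩
  have hlt : (f %ₘ E).degree < E.degree := degree_modByMonic_lt f hE
  have hr1 : r₀ ∈ Mn K E.natDegree := by
    rw [mem_Mn, hr₀]
    refine ⟨hE.add_of_left hlt, ?_⟩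
    exact natDegree_add_eq_left_of_degree_lt hlt
  have hr2 : E ∣ f - r₀ := by
    have h2 := modByMonic_add_div f E
    refine ⟨f /ₘ E - 1, ?_⟩
    rw [hr₀]
    linear_combination -h2
  by_cases hc : E ∣ Hg s b f
  · rw [if_pos hc, sum_eq_single_of_mem r₀ (mem_filter.2 ⟨hr1, (hdiv f r₀ hr2).1 hc⟩), if_pos hr2]
    intro r hr hne
    rw [if_neg]
    intro hd
    apply hne
    rw [mem_filter, mem_Mn] at hr
    have h3 : E ∣ r₀ - r := by
      have e : r₀ - r = (f - r) - (f - r₀) := by ring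
      rw [e]
      exact dvd_sub hd hr2
    have h4 : (r₀ - r).degree < E.degree := by
      have h5 := mem_Mn.1 hr1
      have h6 : r₀.degree = r.degree := by
        rw [degree_eq_natDegree h5.1.ne_zero, degree_eq_natDegree hr.1.1.ne_zero, h5.2, hr.1.2]
      have h7 := degree_sub_lt_left h6 h5.1.ne_zero (by rw [h5.1.leadingCoeff, hr.1.1.leadingCoeff])
      rwa [degree_eq_natDegree h5.1.ne_zero, h5.2, ← degree_eq_natDegree hE.ne_zero] at h7
    have h5 : r₀ - r = 0 := by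
      by_contra hne'
      exact absurd (degree_le_of_dvd h3 hne') (not_le.2 h4)
    exact (sub_eq_zero.1 h5).symm
  · rw [if_neg hc]
    symm
    refine sum_eq_zero fun r hr => ?_
    rw [if_neg]
    intro hd
    exact hc ((hdiv f r hd).2 (mem_filter.1 hr).2)

/-- the weights without the condition of coprimality -/
lemma Wg_eq {k : ℕ} (Q : K[X]) (s b : Fin k → K[X]) (lam : K[X] → ℝ) (y : ℕ) (f : K[X]) :
    Wg Q s b lam y f = ∑ E ∈ (SqM K y).filter (fun E => E ∣ Hg s b f),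
      (if IsCoprime E Q then lam E else 0) := by
  unfold Wg
  rw [← sum_filter, filter_filter]
  refine sum_congr (filter_congr fun E _ => ?_) fun _ _ => rfl
  exact and_comm

/-- expansion of the weights -/
lemma Wg_exp {k : ℕ} (Q : K[X]) (s b : Fin k → K[X]) (lam : K[X] → ℝ) (hlam : Bdd lam) (y : ℕ)
    (S : Finset K[X]) (g : K[X] → K[X]) (ψ : K[X] → ℝ) (S₀ : ℝ) (hS₀ : 0 ≤ S₀)
    (hb : ∀ E : K[X], E.Monic → E.natDegree ≤ y → ∀ r,
      |∑ B ∈ S.filter (fun B => E ∣ g B - r), ψ B| ≤ S₀) :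
    |∑ B ∈ S, Wg Q s b lam y (g B) * ψ B| ≤ (Fintype.card K : ℝ) ^ (2 * y + 1) * S₀ := by
  have hq1 : (1 : ℝ) ≤ Fintype.card K := by exact_mod_cast Fintype.card_pos
  have hlam' : ∀ E : K[X], |(if IsCoprime E Q then lam E else 0)| ≤ 1 := by
    intro E
    split_ifs
    · exact hlam E
    · simp
  have e1 : ∑ B ∈ S, Wg Q s b lam y (g B) * ψ B =
      ∑ E ∈ SqM K y, (if IsCoprime E Q then lam E else 0) *
        ∑ r ∈ (Mn K E.natDegree).filter (fun r => E ∣ Hg s b r),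
        ∑ B ∈ S.filter (fun B => E ∣ g B - r), ψ B := by
    have h1 : ∀ B ∈ S, Wg Q s b lam y (g B) * ψ B =
        ∑ E ∈ SqM K y, (if IsCoprime E Q then lam E else 0) *
          ∑ r ∈ (Mn K E.natDegree).filter (fun r => E ∣ Hg s b r),
          if E ∣ g B - r then ψ B else 0 := by
      intro B _
      rw [Wg_eq, sum_filter, sum_mul]
      refine sum_congr rfl fun E hE => ?_
      rw [← res_sumg s b (mem_SqM.1 hE).1]
      split_ifs <;> ring
    rw [sum_congr rfl h1, sum_comm]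
    refine sum_congr rfl fun E _ => ?_
    rw [← mul_sum, sum_comm]
    congr 1
    refine sum_congr rfl fun r _ => ?_
    rw [sum_filter]
  rw [e1]
  refine (Finset.abs_sum_le_sum_abs _ _).trans ?_
  have h2 : ∀ E ∈ SqM K y, |(if IsCoprime E Q then lam E else 0) *
      ∑ r ∈ (Mn K E.natDegree).filter (fun r => E ∣ Hg s b r),
      ∑ B ∈ S.filter (fun B => E ∣ g B - r), ψ B| ≤ (Fintype.card K : ℝ) ^ y * S₀ := by
    intro E hE
    have hE' := mem_SqM.1 hE
    rw [abs_mul]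
    refine (mul_le_of_le_one_left (abs_nonneg _) (hlam' E)).trans ?_
    refine (Finset.abs_sum_le_sum_abs _ _).trans ?_
    refine (sum_le_card_nsmul _ _ _ fun r _ => hb E hE'.1 hE'.2.1 r).trans ?_
    rw [nsmul_eq_mul]
    refine mul_le_mul_of_nonneg_right ?_ hS₀
    have h3 : (((Mn K E.natDegree).filter (fun r => E ∣ Hg s b r)).card : ℝ) ≤
        (Fintype.card K : ℝ) ^ E.natDegree := by
      have h4 : ((Mn K E.natDegree).filter (fun r => E ∣ Hg s b r)).card ≤
          Fintype.card K ^ E.natDegree := by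
        rw [← card_Mn]
        exact card_filter_le _ _
      exact_mod_cast h4
    exact h3.trans (pow_le_pow_right₀ hq1 hE'.2.1)
  refine (sum_le_card_nsmul _ _ _ h2).trans ?_
  rw [nsmul_eq_mul]
  calc ((SqM K y).card : ℝ) * ((Fintype.card K : ℝ) ^ y * S₀)
      ≤ (Fintype.card K : ℝ) ^ (y + 1) * ((Fintype.card K : ℝ) ^ y * S₀) :=
        mul_le_mul_of_nonneg_right (card_SqM y) (by positivity)
    _ = _ := by ring

lemma Wg_abs {k : ℕ} (Q : K[X]) (s b : Fin k → K[X]) (lam : K[X] → ℝ) (hlam : Bdd lam) (y : ℕ)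
    (f : K[X]) : |Wg Q s b lam y f| ≤
      (((SqM K y).filter (fun E => IsCoprime E Q ∧ E ∣ Hg s b f)).card : ℝ) := by
  unfold Wg
  refine (Finset.abs_sum_le_sum_abs _ _).trans ?_
  refine (sum_le_card_nsmul _ _ _ fun E _ => hlam E).trans ?_
  rw [nsmul_eq_mul, mul_one]

/-- the second moment -/
lemma momm {k : ℕ} {C : ℕ} {n N y : ℕ} {D Q : K[X]} {s b : Fin k → K[X]} (lam : K[X] → ℝ)
    (hlam : Bdd lam) (ψ : K[X] → ℝ) (hψ : ∀ B, |ψ B| ≤ 1) (hN : N ≤ n) (hn : 2 ≤ n)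
    (hm : ∑ B ∈ Mn K N, (((SqM K y).filter
      (fun E => IsCoprime E Q ∧ E ∣ Hg s b (D * B))).card : ℝ) ^ 2 ≤
      ((N : ℝ) + 2) ^ C * (Fintype.card K : ℝ) ^ N) :
    ∑ B ∈ Mn K N, (Wg Q s b lam y (D * B) * ψ B) ^ 2 ≤
      (n : ℝ) ^ (2 * C) * (Fintype.card K : ℝ) ^ N := by
  have h1 : ∀ B ∈ Mn K N, (Wg Q s b lam y (D * B) * ψ B) ^ 2 ≤
      (((SqM K y).filter (fun E => IsCoprime E Q ∧ E ∣ Hg s b (D * B))).card : ℝ) ^ 2 := by
    intro B _
    rw [mul_pow, ← sq_abs, ← sq_abs (ψ B)]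
    have h2 : |ψ B| ^ 2 ≤ 1 := pow_le_one₀ (abs_nonneg _) (hψ B)
    have h3 := Wg_abs Q s b lam hlam y (D * B)
    calc |Wg Q s b lam y (D * B)| ^ 2 * |ψ B| ^ 2 ≤ |Wg Q s b lam y (D * B)| ^ 2 * 1 :=
          mul_le_mul_of_nonneg_left h2 (by positivity)
      _ ≤ _ := by
          rw [mul_one]
          exact pow_le_pow_left₀ (abs_nonneg _) h3 2
  refine (sum_le_sum h1).trans (hm.trans ?_)
  refine mul_le_mul_of_nonneg_right ?_ (by positivity)
  rw [pow_mul]
  refine pow_le_pow_left₀ (by positivity) ?_ C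
  have h2 : (N : ℝ) ≤ n := by exact_mod_cast hN
  have h3 : (2 : ℝ) ≤ n := by exact_mod_cast hn
  nlinarith

/-- the Moebius function of `f` in terms of `s * f` -/
lemma mob_s {s s₁ g₁ f Q ρ : K[X]} (hg1 : g₁.Monic) (hsq : Squarefree s₁) (hss : s = s₁ * g₁ ^ 2)
    (hsup : Sup Q s) (hρ : IsCoprime ρ Q) (hf : Q ∣ f - ρ) :
    mob f = mob s₁ * mobg g₁ (s * f) := by
  have hcop : IsCoprime s₁ f := by
    refine isCoprime_of_irreducible_dvd (fun h => hsq.ne_zero h.1) ?_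
    intro P hP h1 h2
    have hPQ : P ∣ Q := hsup P hP (by rw [hss]; exact h1.mul_right _)
    have hPρ : P ∣ ρ := by
      have h3 := dvd_sub h2 (hPQ.trans hf)
      rwa [sub_sub_cancel] at h3
    exact hP.not_isUnit (hρ.isUnit_of_dvd' hPρ hPQ)
  have h1 : mobg g₁ (s * f) = mob s₁ * mob f := by
    unfold mobg
    have e : s * f = g₁ ^ 2 * (s₁ * f) := by rw [hss]; ring
    rw [e, if_pos (dvd_mul_right _ _), mul_div_cancel_left₀ _ (pow_ne_zero 2 hg1.ne_zero),
      mob_cop hcop]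
  rw [h1, ← mul_assoc, mob_self hsq, one_mul]

/-- the sum in residue classes -/
lemma psg {n : ℕ} {X₀ : ℝ} {d E r ρ Q g b s s₁ g₁ : K[X]} (hd : d.Monic) (hE : E.Monic)
    (hQ : Q.Monic) (hs : s.Monic) (hg1 : g₁.Monic) (hsq : Squarefree s₁) (hss : s = s₁ * g₁ ^ 2)
    (hsup : Sup Q s) (hρ : IsCoprime ρ Q) (hX : 0 ≤ X₀)
    (hps : ∀ M r' : K[X], M.Monic → M.natDegree ≤ d.natDegree + E.natDegree + Q.natDegree →
      |∑ F ∈ (Mn K (n + s.natDegree)).filter (fun F => s * M ∣ F - r'),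
        (mobg g₁ F : ℝ) * (mobg g (F + b) : ℝ)| ≤ X₀) :
    |∑ f ∈ ((Mn K n).filter (fun f => d ∣ f)).filter (fun f => E ∣ f - r),
      (if Q ∣ f - ρ then (mob f : ℝ) * (mobg g (s * f + b) : ℝ) else 0)| ≤ X₀ := by
  have h0 : ∑ f ∈ ((Mn K n).filter (fun f => d ∣ f)).filter (fun f => E ∣ f - r),
      (if Q ∣ f - ρ then (mob f : ℝ) * (mobg g (s * f + b) : ℝ) else 0) =
      ∑ f ∈ (Mn K n).filter (fun f => d ∣ f ∧ E ∣ f - r ∧ Q ∣ f - ρ),
        (mob f : ℝ) * (mobg g (s * f + b) : ℝ) := by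
    rw [← sum_filter, filter_filter, filter_filter]
  rw [h0]
  by_cases hex : ∃ f₀ : K[X], d ∣ f₀ ∧ E ∣ f₀ - r ∧ Q ∣ f₀ - ρ
  · obtain ⟨f₀, hf1, hf2, hf3⟩ := hex
    obtain ⟨M₁, hM1, hM1d, hM1x⟩ := exists_lcm d E hd hE
    obtain ⟨M, hM, hMd, hMx⟩ := exists_lcm M₁ Q hM1 hQ
    have hs0 := hs.ne_zero
    have h3 : ∑ f ∈ (Mn K n).filter (fun f => d ∣ f ∧ E ∣ f - r ∧ Q ∣ f - ρ),
        (mob f : ℝ) * (mobg g (s * f + b) : ℝ) = (mob s₁ : ℝ) *
        ∑ F ∈ (Mn K (n + s.natDegree)).filter (fun F => s * M ∣ F - s * f₀),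
          (mobg g₁ F : ℝ) * (mobg g (F + b) : ℝ) := by
      have h4 : (Mn K (n + s.natDegree)).filter (fun F => s * M ∣ F - s * f₀) =
          ((Mn K n).filter (fun f => d ∣ f ∧ E ∣ f - r ∧ Q ∣ f - ρ)).image (fun f => s * f) := by
        have hiff : ∀ f : K[X], M ∣ f - f₀ ↔ d ∣ f ∧ E ∣ f - r ∧ Q ∣ f - ρ := by
          intro f
          rw [hMx, hM1x]
          have a1 : E ∣ f - r ↔ E ∣ f - f₀ := by
            rw [show f - r = (f - f₀) + (f₀ - r) by ring]
            exact (dvd_add_left hf2)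
          have a2 : d ∣ f ↔ d ∣ f - f₀ := (dvd_sub_left hf1).symm
          have a3 : Q ∣ f - ρ ↔ Q ∣ f - f₀ := by
            rw [show f - ρ = (f - f₀) + (f₀ - ρ) by ring]
            exact (dvd_add_left hf3)
          rw [a1, a2, a3]
          exact and_assoc
        ext F
        rw [mem_filter, mem_image, mem_Mn]
        constructor
        · rintro ⟨⟨h5, h6⟩, h7⟩
          have h8 : s ∣ F := by
            have h9 : s ∣ F - s * f₀ := (dvd_mul_right s M).trans h7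
            exact (dvd_sub_left (dvd_mul_right s f₀)).1 h9
          obtain ⟨f, rfl⟩ := h8
          have hf : f.Monic := hs.of_mul_monic_left h5
          refine ⟨f, ?_, rfl⟩
          rw [mem_filter, mem_Mn, ← hiff]
          refine ⟨⟨hf, ?_⟩, ?_⟩
          · rw [hs.natDegree_mul hf] at h6
            omega
          · rw [← mul_sub] at h7
            exact (mul_dvd_mul_iff_left hs0).1 h7
        · rintro ⟨f, hf, rfl⟩
          rw [mem_filter, mem_Mn, ← hiff] at hf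
          obtain ⟨⟨h5, h6⟩, h7⟩ := hf
          refine ⟨⟨hs.mul h5, by rw [hs.natDegree_mul h5, h6, add_comm]⟩, ?_⟩
          rw [← mul_sub]
          exact mul_dvd_mul_left s h7
      rw [h4, sum_image (fun f _ f' _ h => mul_left_cancel₀ hs0 h), mul_sum]
      refine sum_congr rfl fun f hf => ?_
      have h5 := mob_s hg1 hsq hss hsup hρ (mem_filter.1 hf).2.2.2
      have h6 : (mob f : ℝ) = (mob s₁ : ℝ) * (mobg g₁ (s * f) : ℝ) := by exact_mod_cast h5
      rw [h6]
      ring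
    rw [h3, abs_mul]
    refine (mul_le_of_le_one_left (abs_nonneg _) (abs_mob s₁)).trans ?_
    exact hps M (s * f₀) hM (by omega)
  · have h3 : ∑ f ∈ (Mn K n).filter (fun f => d ∣ f ∧ E ∣ f - r ∧ Q ∣ f - ρ),
        (mob f : ℝ) * (mobg g (s * f + b) : ℝ) = 0 := by
      rw [filter_eq_empty_iff.2, sum_empty]
      intro f _ hc
      exact hex ⟨f, hc⟩
    rw [h3, abs_zero]
    exact hX

end main

end TWg

open TWg

/-- **Task CG-TW.** -/
theorem twg (hp : S_ps) (ht : S_tailw) (hmo : S_momg) : S_twg := by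
  intro K _ _ _ k A₀ Q g s hQ hg hSlo
  obtain ⟨q, hqdef⟩ : ∃ q : ℝ, q = Fintype.card K := ⟨_, rfl⟩
  have hq1 : (1 : ℝ) < q := by rw [hqdef]; exact_mod_cast Fintype.one_lt_card
  have hq0 : (0 : ℝ) < q := by linarith
  obtain ⟨c₁, hc₁, n₁, hps₁⟩ := hp K 2 (by norm_num)
  obtain ⟨C₂, hmom⟩ := hmo k 2 K
  obtain ⟨Ds, hDs⟩ : ∃ Ds : ℕ, Ds = ∑ i, (s i).natDegree := ⟨_, rfl⟩
  have hsD : ∀ i, (s i).natDegree ≤ Ds := fun i => by
    rw [hDs]
    exact single_le_sum (f := fun i => (s i).natDegree) (fun _ _ => Nat.zero_le _) (mem_univ i)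
  -- a smaller constant
  obtain ⟨c, hc, hcc, hc1⟩ : ∃ c : ℝ, 0 < c ∧ c ≤ c₁ ∧ c ≤ 1 :=
    ⟨min c₁ 1, by positivity, min_le_left _ _, min_le_right _ _⟩
  obtain ⟨n2, htail⟩ := ht K (2 * C₂ + 2 * A₀ + 2) (c / 4) (by positivity)
  have hr1 : 1 < q ^ (c / 8) := Real.one_lt_rpow hq1 (by positivity)
  have hlim := (tendsto_pow_const_div_const_pow_of_one_lt A₀ hr1).const_mul (2 * q ^ (2 + Ds))
  rw [mul_zero] at hlim
  obtain ⟨n3, hn3⟩ := Filter.eventually_atTop.1 (hlim.eventually (gt_mem_nhds one_pos))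
  obtain ⟨n4, hn4⟩ := exists_nat_ge ((2 * (Ds + Q.natDegree + g.natDegree) : ℝ) / c)
  refine ⟨c / 16, by positivity, n₁ + n2 + n3 + n4 + A₀ + 2, ?_⟩
  intro n hn z y ρ b i₀ lam hz hy hρ hSh hlam
  rw [← hqdef]
  have hn0 : (0 : ℝ) < n := by exact_mod_cast (by omega : 0 < n)
  have hn2' : (2 : ℝ) ≤ n := by exact_mod_cast (by omega : 2 ≤ n)
  obtain ⟨Y, hY⟩ : ∃ Y : ℕ, Y = ⌈c / 4 * n⌉₊ := ⟨_, rfl⟩
  have hY1 : (Y : ℝ) < c / 4 * n + 1 := by
    rw [hY]
    exact Nat.ceil_lt_add_one (by positivity)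
  have hcn : c * n ≤ n := by nlinarith
  have h2y : 2 * y ≤ n := by
    have : (2 : ℝ) * y ≤ n := by linarith
    exact_mod_cast this
  have hbig : (Ds + Q.natDegree + g.natDegree : ℝ) ≤ c / 2 * n := by
    have h1 : (n4 : ℝ) ≤ n := by exact_mod_cast (by omega : n4 ≤ n)
    have h2 := hn4.trans h1
    rw [div_le_iff₀ hc] at h2
    linarith
  obtain ⟨s₁, g₁, hg1, hsq, hss⟩ := sqf_dec (s i₀) (hSlo i₀).1
  have hg1d : g₁.natDegree ≤ (s i₀).natDegree := by
    have h1 : g₁ ∣ s i₀ := by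
      rw [hss, sq]
      exact (dvd_mul_right _ _).mul_left _
    exact natDegree_le_of_dvd h1 (hSlo i₀).1.ne_zero
  have hsi := hsD i₀
  obtain ⟨hb0, hbd⟩ := hSh i₀
  -- the sum over a residue class
  have hps : ∀ M r' : K[X], M.Monic → (M.natDegree : ℝ) ≤ c / 4 * n + c / 16 * n + Q.natDegree →
      |∑ F ∈ (Mn K (n + (s i₀).natDegree)).filter (fun F => s i₀ * M ∣ F - r'),
        (mobg g₁ F : ℝ) * (mobg g (F + b i₀) : ℝ)| ≤ q ^ ((n : ℝ) + Ds - c * n) := by
    intro M r' hM hMd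
    have hcast : ((n + (s i₀).natDegree : ℕ) : ℝ) = n + (s i₀).natDegree := by push_cast; ring
    have hsr : ((s i₀).natDegree : ℝ) ≤ Ds := by exact_mod_cast hsi
    have hs0r : (0 : ℝ) ≤ ((s i₀).natDegree : ℝ) := Nat.cast_nonneg _
    have hg0r : (0 : ℝ) ≤ (g.natDegree : ℝ) := Nat.cast_nonneg _
    have hQ0r : (0 : ℝ) ≤ (Q.natDegree : ℝ) := Nat.cast_nonneg _
    have hD0r : (0 : ℝ) ≤ (Ds : ℝ) := Nat.cast_nonneg _
    have hcn0 : 0 ≤ c * n := by positivity
    have hmono : c * n ≤ c₁ * ((n + (s i₀).natDegree : ℕ) : ℝ) := by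
      rw [hcast]
      have h1 : c * n ≤ c₁ * n := mul_le_mul_of_nonneg_right hcc hn0.le
      have h2 : 0 ≤ c₁ * ((s i₀).natDegree : ℝ) := by positivity
      linarith
    have h1 : ∀ F : K[X], (mobg g₁ F : ℝ) * (mobg g (F + b i₀) : ℝ) =
        ∏ i : Fin 2, (mobg ((![g₁, g] : Fin 2 → K[X]) i)
          (F + (![0, b i₀] : Fin 2 → K[X]) i) : ℝ) := by
      intro F
      rw [Fin.prod_univ_two]
      simp only [Matrix.cons_val_zero, Matrix.cons_val_one, add_zero]
    rw [sum_congr rfl fun F _ => h1 F]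
    refine (hps₁ (n + (s i₀).natDegree) (by omega) ![0, b i₀] ![g₁, g] (s i₀ * M) r' ?_ ?_ ?_
      ((hSlo i₀).1.mul hM) ?_).trans ?_
    · intro a a' hab
      fin_cases a <;> fin_cases a'
      · rfl
      · exact absurd hab.symm hb0
      · exact absurd hab hb0
      · rfl
    · intro a
      fin_cases a
      · change (0 : K[X]).natDegree < n + (s i₀).natDegree
        rw [natDegree_zero]
        omega
      · exact hbd
    · intro a
      fin_cases a
      · refine ⟨hg1, le_trans ?_ hmono⟩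
        change (g₁.natDegree : ℝ) ≤ c * n
        have h2 : (g₁.natDegree : ℝ) ≤ ((s i₀).natDegree : ℝ) := by exact_mod_cast hg1d
        linarith
      · refine ⟨hg, le_trans ?_ hmono⟩
        change (g.natDegree : ℝ) ≤ c * n
        linarith
    · refine le_trans ?_ hmono
      rw [(hSlo i₀).1.natDegree_mul hM]
      push_cast
      nlinarith
    · rw [← hqdef]
      refine Real.rpow_le_rpow_of_exponent_le hq1.le ?_
      rw [hcast] at hmono ⊢
      linarith
  have hdec : ∑ f ∈ (Mn K n).filter (fun f => Rgh z f ∧ Q ∣ f - ρ),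
      Wg Q s b lam y f * ((mob f : ℝ) * (mobg g (s i₀ * f + b i₀) : ℝ)) =
      ∑ f ∈ (Mn K n).filter (Rgh z), Wg Q s b lam y f *
        (if Q ∣ f - ρ then (mob f : ℝ) * (mobg g (s i₀ * f + b i₀) : ℝ) else 0) := by
    have h1 : ∀ f : K[X], Wg Q s b lam y f *
        (if Q ∣ f - ρ then (mob f : ℝ) * (mobg g (s i₀ * f + b i₀) : ℝ) else 0) =
        if Q ∣ f - ρ then Wg Q s b lam y f *
          ((mob f : ℝ) * (mobg g (s i₀ * f + b i₀) : ℝ)) else 0 := by
      intro f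
      split_ifs
      · rfl
      · rw [mul_zero]
    rw [sum_congr rfl fun f _ => h1 f, ← sum_filter, filter_filter]
  rw [hdec, sum_exp, ← Finset.sum_filter_add_sum_filter_not (Pz K z).powerset
    (fun T : Finset K[X] => (∏ P ∈ T, P).natDegree < Y)]
  refine (abs_add_le _ _).trans ?_
  -- the small divisors
  have hsmall : |∑ T ∈ (Pz K z).powerset.filter (fun T => (∏ P ∈ T, P).natDegree < Y),
      (-1) ^ T.card * ∑ f ∈ (Mn K n).filter (fun f => (∏ P ∈ T, P) ∣ f),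
        Wg Q s b lam y f *
          (if Q ∣ f - ρ then (mob f : ℝ) * (mobg g (s i₀ * f + b i₀) : ℝ) else 0)| ≤
      q ^ Y * (q ^ (2 * y + 1) * q ^ ((n : ℝ) + Ds - c * n)) := by
    refine (Finset.abs_sum_le_sum_abs _ _).trans ?_
    have h1 : ∀ T ∈ (Pz K z).powerset.filter (fun T => (∏ P ∈ T, P).natDegree < Y),
        |(-1) ^ T.card * ∑ f ∈ (Mn K n).filter (fun f => (∏ P ∈ T, P) ∣ f),
          Wg Q s b lam y f *
            (if Q ∣ f - ρ then (mob f : ℝ) * (mobg g (s i₀ * f + b i₀) : ℝ) else 0)| ≤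
        q ^ (2 * y + 1) * q ^ ((n : ℝ) + Ds - c * n) := by
      intro T hT
      rw [mem_filter, mem_powerset] at hT
      rw [abs_mul, abs_pow, abs_neg, abs_one, one_pow, one_mul]
      have hW := Wg_exp Q s b lam hlam y ((Mn K n).filter (fun f => (∏ P ∈ T, P) ∣ f))
        (fun f => f)
        (fun f => if Q ∣ f - ρ then (mob f : ℝ) * (mobg g (s i₀ * f + b i₀) : ℝ) else 0)
        (q ^ ((n : ℝ) + Ds - c * n)) (by positivity) ?_
      · rw [← hqdef] at hW
        exact hW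
      intro E hE hEy r
      have h2 : ((∏ P ∈ T, P).natDegree : ℝ) < c / 4 * n := by
        have h3 := hT.2
        rw [hY, Nat.lt_ceil] at h3
        exact h3
      have h5 : (E.natDegree : ℝ) ≤ c / 16 * n := le_trans (by exact_mod_cast hEy) hy
      refine psg (prod_monic hT.1) hE hQ (hSlo i₀).1 hg1 hsq hss (hSlo i₀).2 hρ (by positivity) ?_
      intro M r' hM hMd
      refine hps M r' hM ?_
      have h6 : (M.natDegree : ℝ) ≤ ((∏ P ∈ T, P).natDegree : ℝ) + E.natDegree + Q.natDegree := by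
        exact_mod_cast hMd
      linarith
    refine (Finset.sum_le_sum h1).trans ?_
    rw [Finset.sum_const, nsmul_eq_mul]
    refine mul_le_mul_of_nonneg_right ?_ (by positivity)
    have h2 := card_small (K := K) z Y
    rw [← hqdef] at h2
    exact h2
  have hpsi : ∀ f : K[X],
      |(if Q ∣ f - ρ then (mob f : ℝ) * (mobg g (s i₀ * f + b i₀) : ℝ) else 0)| ≤ 1 := by
    intro f
    split_ifs
    · rw [abs_mul]
      exact mul_le_one₀ (abs_mob f) (abs_nonneg _) (abs_mobg _ _)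
    · simp
  have hmm := momm (D := 1) lam hlam
    (fun f => if Q ∣ f - ρ then (mob f : ℝ) * (mobg g (s i₀ * f + b i₀) : ℝ) else 0) hpsi le_rfl
    (by omega : 2 ≤ n) (hmom n y Q 1 s b hSlo monic_one (fun i => isCoprime_one_left) h2y)
  simp only [one_mul] at hmm
  have htl := htail n (by omega) z (hz.trans (Nat.mul_le_mul_right _ (by omega)))
  rw [← hY] at htl
  have hlarge := large n n z Y le_rfl
    (fun f => Wg Q s b lam y f *
      (if Q ∣ f - ρ then (mob f : ℝ) * (mobg g (s i₀ * f + b i₀) : ℝ) else 0)) _ _ hmm htl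
  rw [← hqdef] at hlarge
  -- the sizes
  have hXpos : (0 : ℝ) < q ^ n := by positivity
  have hnA : (0 : ℝ) < (n : ℝ) ^ A₀ := by positivity
  have hs1 : q ^ Y * (q ^ (2 * y + 1) * q ^ ((n : ℝ) + Ds - c * n)) ≤
      q ^ n / (2 * (n : ℝ) ^ A₀) := by
    rw [le_div_iff₀ (by positivity)]
    have e3 : (q : ℝ) ^ Y ≤ q ^ (c / 4 * n + 1) := by
      rw [← Real.rpow_natCast]
      exact Real.rpow_le_rpow_of_exponent_le hq1.le hY1.le
    have e4 : (q : ℝ) ^ (2 * y + 1) ≤ q ^ (c / 8 * n + 1) := by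
      rw [← Real.rpow_natCast]
      refine Real.rpow_le_rpow_of_exponent_le hq1.le ?_
      push_cast
      linarith
    have h3 : 2 * q ^ (2 + Ds) * ((n : ℝ) ^ A₀ / (q ^ (c / 8)) ^ n) < 1 := hn3 n (by omega)
    have h4 : 2 * q ^ (2 + Ds) * (n : ℝ) ^ A₀ ≤ q ^ (c / 8 * n) := by
      rw [← mul_div_assoc, div_lt_one (by positivity)] at h3
      have e4 : (q ^ (c / 8)) ^ n = q ^ (c / 8 * n) := by
        rw [← Real.rpow_natCast, ← Real.rpow_mul hq0.le]
      rw [e4] at h3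
      exact h3.le
    have e5 : q ^ ((n : ℝ) + Ds - c * n) = q ^ Ds * q ^ ((n : ℝ) - c * n) := by
      rw [← Real.rpow_natCast q Ds, ← Real.rpow_add hq0]
      congr 1
      ring
    rw [e5]
    calc q ^ Y * (q ^ (2 * y + 1) * (q ^ Ds * q ^ ((n : ℝ) - c * n))) * (2 * (n : ℝ) ^ A₀)
        ≤ q ^ (c / 4 * n + 1) * (q ^ (c / 8 * n + 1) * (q ^ Ds * q ^ ((n : ℝ) - c * n))) *
          (2 * (n : ℝ) ^ A₀) := by
          gcongr
      _ = (2 * q ^ (2 + Ds) * (n : ℝ) ^ A₀) * (q ^ (c / 4 * n) * q ^ (c / 8 * n) *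
          q ^ ((n : ℝ) - c * n)) := by
          rw [Real.rpow_add hq0, Real.rpow_add hq0, Real.rpow_one, pow_add]
          ring
      _ ≤ q ^ (c / 8 * n) * (q ^ (c / 4 * n) * q ^ (c / 8 * n) * q ^ ((n : ℝ) - c * n)) := by
          gcongr
      _ = q ^ (c / 8 * n + (c / 4 * n + c / 8 * n + ((n : ℝ) - c * n))) := by
          rw [← Real.rpow_add hq0, ← Real.rpow_add hq0, ← Real.rpow_add hq0]
      _ ≤ q ^ (n : ℝ) := by
          apply Real.rpow_le_rpow_of_exponent_le hq1.le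
          nlinarith
      _ = q ^ n := Real.rpow_natCast _ _
  have hs2 : q ^ n * Real.sqrt ((n : ℝ) ^ (2 * C₂) *
      (1 / (n : ℝ) ^ (2 * C₂ + 2 * A₀ + 2))) ≤ q ^ n / (2 * (n : ℝ) ^ A₀) := by
    have h6 := sqrt_le (n := n) (C := C₂) (A₀ := A₀) (by omega)
    calc q ^ n * Real.sqrt ((n : ℝ) ^ (2 * C₂) *
        (1 / (n : ℝ) ^ (2 * C₂ + 2 * A₀ + 2))) ≤ q ^ n *
        (1 / (2 * (n : ℝ) ^ A₀)) := mul_le_mul_of_nonneg_left h6 hXpos.le
      _ = q ^ n / (2 * (n : ℝ) ^ A₀) := by ring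
  have hs3 : q ^ n / (n : ℝ) ^ A₀ = q ^ n / (2 * (n : ℝ) ^ A₀) +
      q ^ n / (2 * (n : ℝ) ^ A₀) := by
    field_simp
    ring
  rw [hs3]
  exact add_le_add (hsmall.trans hs1) (hlarge.trans hs2)

end Pool.Agent.H985.CG
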