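import Pool.Agent.H985.CG.Stm
import Pool.Agent.H985.CH.Vpl

/-!
# Elementary properties of `vg` (task CG-VP, helper980)

Adaptation of `Pool/Agent/H985/CH/Vpl.lean`.
-/

set_option autoImplicit false
set_option linter.unusedSectionVars false

namespace Pool.Agent.H985.CG

open Polynomial Finset
open scoped Classical
open Pool.Agent.H694.Typ (Mn Irn PU mem_PU pol pol_inj exists_pol pol_degree wt wt_nonneg q_ge)
open Pool.Agent.H996.Par (sum_wt sum_wt_sq one_sub_ge)
open Pool.Agent.H985.CH.VPLx (Res Res_card mem_Res Q_ge inv_bd)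

namespace VpgH980

variable {K : Type} [Field K] [Fintype K]

/-- the nonzero residues modulo `P` which are hit -/
noncomputable def Hit {k : ℕ} (s b : Fin k → K[X]) (P : K[X]) : Finset K[X] :=
  ((Res P).erase 0).filter (fun r => ∃ i, P ∣ s i * r + b i)

theorem nug_eq {k : ℕ} (s b : Fin k → K[X]) {P : K[X]} (hP : P.Monic) :
    nug s b P = ((Hit s b P).card : ℝ) := by
  unfold nug
  have e : {r : K[X] | r.degree < P.degree ∧ r ≠ 0 ∧ ∃ i, P ∣ s i * r + b i} =
      ((Hit s b P : Finset K[X]) : Set K[X]) := by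
    ext r
    rw [Finset.mem_coe, Hit, mem_filter, mem_erase, mem_Res hP]
    constructor
    · rintro ⟨h1, h2, h3⟩
      exact ⟨⟨h2, h1⟩, h3⟩
    · rintro ⟨⟨h2, h1⟩, h3⟩
      exact ⟨h1, h2, h3⟩
  rw [e, Set.ncard_coe_finset]

theorem zero_mem_Res {P : K[X]} (hP : P.Monic) : (0 : K[X]) ∈ Res P := by
  rw [mem_Res hP, degree_zero, bot_lt_iff_ne_bot, ne_eq, degree_eq_bot]
  exact hP.ne_zero

theorem nz_card {P : K[X]} (hP : P.Monic) :
    ((Res P).erase 0).card + 1 = Fintype.card K ^ P.natDegree := by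
  rw [← Res_card P]
  exact card_erase_add_one (zero_mem_Res hP)

theorem hit_card_le {k : ℕ} (s b : Fin k → K[X]) {P : K[X]} (hP : P.Monic) :
    (Hit s b P).card + 1 ≤ Fintype.card K ^ P.natDegree := by
  rw [← nz_card hP]
  exact Nat.add_le_add_right (card_le_card (filter_subset _ _)) 1

/-- at most `k` residues are hit -/
theorem hit_card_le_k {k : ℕ} (s b : Fin k → K[X]) {P : K[X]} (hP : P.Monic) (hi : Irreducible P)
    (hs : ∀ i, ¬ P ∣ s i) : (Hit s b P).card ≤ k := by
  have h1 : Hit s b P ⊆ (univ : Finset (Fin k)).biUnion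
      (fun i => ((Res P).erase 0).filter (fun r => P ∣ s i * r + b i)) := by
    intro r hr
    unfold Hit at hr
    rw [mem_filter] at hr
    obtain ⟨h2, i, h3⟩ := hr
    rw [mem_biUnion]
    exact ⟨i, mem_univ _, mem_filter.2 ⟨h2, h3⟩⟩
  refine (card_le_card h1).trans (card_biUnion_le.trans ?_)
  have h2 : ∀ i ∈ (univ : Finset (Fin k)),
      (((Res P).erase 0).filter (fun r => P ∣ s i * r + b i)).card ≤ 1 := by
    intro i _
    rw [card_le_one]
    intro r hr r' hr'
    rw [mem_filter, mem_erase, mem_Res hP] at hr hr'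
    have h3 : P ∣ s i * (r - r') := by
      have h4 := dvd_sub hr.2 hr'.2
      have h5 : s i * r + b i - (s i * r' + b i) = s i * (r - r') := by ring
      rwa [h5] at h4
    rcases hi.prime.dvd_or_dvd h3 with h4 | h4
    · exact absurd h4 (hs i)
    · have h5 : (r - r').degree < P.degree :=
        (degree_sub_le _ _).trans_lt (max_lt hr.1.2 hr'.1.2)
      have h6 : r - r' = 0 := by
        by_contra h7
        exact absurd (degree_le_of_dvd h4 h7) (not_le.2 h5)
      exact sub_eq_zero.1 h6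
  refine (sum_le_sum h2).trans ?_
  rw [sum_const, card_univ, Fintype.card_fin, smul_eq_mul, mul_one]

/-- the factor -/
noncomputable def fc {k : ℕ} (s b : Fin k → K[X]) (P : K[X]) : ℝ :=
  1 - nug s b P / ((Fintype.card K : ℝ) ^ P.natDegree - 1)

theorem fc_nonneg {k : ℕ} (s b : Fin k → K[X]) {P : K[X]} (hP : P.Monic) (hi : Irreducible P) :
    0 ≤ fc s b P := by
  have hQ := Q_ge hi
  have h1 : ((Hit s b P).card : ℝ) + 1 ≤ (Fintype.card K : ℝ) ^ P.natDegree := by
    exact_mod_cast hit_card_le s b hP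
  unfold fc
  rw [nug_eq s b hP, sub_nonneg, div_le_one (by linarith)]
  linarith

/-- the lower bound for a factor -/
theorem fc_ge {k : ℕ} (s b : Fin k → K[X]) {P : K[X]} (hP : P.Monic) (hi : Irreducible P)
    (hs : ∀ i, ¬ P ∣ s i) (hr : ∃ r : K[X], ¬ P ∣ r ∧ ∀ i, ¬ P ∣ s i * r + b i) :
    Real.exp (-((k : ℝ) * wt K P.natDegree +
      (2 * (k : ℝ) + 4 * (8 * (k : ℝ) ^ 3 + 2 * (k : ℝ) ^ 2)) * wt K P.natDegree ^ 2)) ≤
      fc s b P := by
  have hQ := Q_ge hi
  have h1 : (Hit s b P).card + 2 ≤ Fintype.card K ^ P.natDegree := by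
    obtain ⟨r, hr1, hr2⟩ := hr
    have hmod : P ∣ r - r %ₘ P := by
      have h3 := modByMonic_add_div r P
      exact ⟨r /ₘ P, by linear_combination (-1 : K[X]) * h3⟩
    have h2 : r %ₘ P ∈ (Res P).erase 0 := by
      rw [mem_erase, mem_Res hP]
      refine ⟨fun h0 => hr1 ?_, degree_modByMonic_lt r hP⟩
      rwa [h0, sub_zero] at hmod
    have h4 : r %ₘ P ∉ Hit s b P := by
      intro h5
      unfold Hit at h5
      rw [mem_filter] at h5
      obtain ⟨-, i, h6⟩ := h5
      refine hr2 i ?_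
      have h7 : s i * r + b i = (s i * (r %ₘ P) + b i) + s i * (r - r %ₘ P) := by ring
      rw [h7]
      exact dvd_add h6 (hmod.mul_left _)
    have h5 : Hit s b P ⊂ (Res P).erase 0 :=
      (ssubset_iff_of_subset (filter_subset _ _)).2 ⟨_, h2, h4⟩
    have h6 := card_lt_card h5
    have h7 := nz_card (K := K) hP
    omega
  have h2 : ((Hit s b P).card : ℝ) + 1 ≤ (Fintype.card K : ℝ) ^ P.natDegree - 1 := by
    have : (((Hit s b P).card + 2 : ℕ) : ℝ) ≤ (Fintype.card K : ℝ) ^ P.natDegree := by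
      exact_mod_cast h1
    push_cast at this
    linarith
  unfold fc
  rw [nug_eq s b hP]
  refine le_trans ?_ (one_sub_ge k _ _ (hit_card_le_k s b hP hi hs) h2)
  rw [Real.exp_le_exp]
  apply neg_le_neg
  exact inv_bd k _ _ (Nat.cast_nonneg k) (by positivity) hQ

end VpgH980

open VpgH980 in
/-- **Task CG-VP.** -/
theorem vpg : S_vpg := by
  intro K _ _ _ k
  refine ⟨Real.exp (-((k : ℝ) + (2 * (k : ℝ) + 4 * (8 * (k : ℝ) ^ 3 + 2 * (k : ℝ) ^ 2)))),
    Real.exp_pos _, ?_⟩
  intro m Q s b hQm hslo hm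
  refine ⟨prod_nonneg fun P hP => ?_, fun hr => ?_, ?_⟩
  · rw [mem_filter, mem_PU] at hP
    exact fc_nonneg s b hP.1.1 hP.1.2.1
  · set C : ℝ := 2 * (k : ℝ) + 4 * (8 * (k : ℝ) ^ 3 + 2 * (k : ℝ) ^ 2) with hC
    have hC0 : 0 ≤ C := by positivity
    have hk0 : (0 : ℝ) ≤ k := Nat.cast_nonneg k
    have hm0 : (0 : ℝ) < m := by exact_mod_cast hm
    have h1 : ∏ P ∈ (PU K m).filter (fun P => ¬ P ∣ Q),
        Real.exp (-((k : ℝ) * wt K P.natDegree + C * wt K P.natDegree ^ 2)) ≤ vg Q m s b := by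
      refine prod_le_prod (fun _ _ => (Real.exp_pos _).le) fun P hP => ?_
      rw [mem_filter] at hP
      have hP' := mem_PU.1 hP.1
      exact fc_ge s b hP'.1 hP'.2.1
        (fun i hd => hP.2 ((hslo i).2 P hP'.2.1 hd)) (hr P hP.1 hP.2)
    refine le_trans ?_ h1
    rw [← Real.exp_sum]
    have h2 : ∑ P ∈ (PU K m).filter (fun P => ¬ P ∣ Q),
        (-((k : ℝ) * wt K P.natDegree + C * wt K P.natDegree ^ 2)) =
        -∑ P ∈ (PU K m).filter (fun P => ¬ P ∣ Q),
          ((k : ℝ) * wt K P.natDegree + C * wt K P.natDegree ^ 2) := by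
      rw [sum_neg_distrib]
    have h2' : ∑ P ∈ (PU K m).filter (fun P => ¬ P ∣ Q),
        ((k : ℝ) * wt K P.natDegree + C * wt K P.natDegree ^ 2) ≤
        (k : ℝ) * ∑ P ∈ PU K m, wt K P.natDegree + C * ∑ P ∈ PU K m, wt K P.natDegree ^ 2 := by
      rw [mul_sum, mul_sum, ← sum_add_distrib]
      refine sum_le_sum_of_subset_of_nonneg (filter_subset _ _) fun P _ _ => ?_
      exact add_nonneg (mul_nonneg hk0 (wt_nonneg _)) (mul_nonneg hC0 (sq_nonneg _))
    rw [h2]
    have h3 : Real.exp (-((k : ℝ) + C)) / (m : ℝ) ^ k =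
        Real.exp (-((k : ℝ) * (1 + Real.log m) + C * 1)) := by
      have h4 : (m : ℝ) ^ k = Real.exp (k * Real.log m) := by
        rw [mul_comm, ← Real.rpow_natCast, Real.rpow_def_of_pos hm0]
      rw [h4, ← Real.exp_sub]
      congr 1
      ring
    rw [h3, Real.exp_le_exp]
    apply neg_le_neg
    exact h2'.trans (add_le_add (mul_le_mul_of_nonneg_left (sum_wt m) hk0)
      (mul_le_mul_of_nonneg_left (sum_wt_sq m) hC0))
  · rintro ⟨P, hP, hPQ, hall⟩
    have hP' := mem_PU.1 hP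
    refine prod_eq_zero (mem_filter.2 ⟨hP, hPQ⟩) ?_
    have hQ := Q_ge hP'.2.1
    have h5 : Hit s b P = (Res P).erase 0 := by
      refine filter_true_of_mem fun r hr => ?_
      rw [mem_erase, mem_Res hP'.1] at hr
      refine hall r fun hd => ?_
      exact absurd (degree_le_of_dvd hd hr.1) (not_le.2 hr.2)
    have h6 : ((Hit s b P).card : ℝ) = (Fintype.card K : ℝ) ^ P.natDegree - 1 := by
      have h7 := nz_card (K := K) hP'.1
      rw [h5]
      have h8 : (((((Res P).erase 0).card + 1 : ℕ)) : ℝ) = (Fintype.card K : ℝ) ^ P.natDegree := by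
        exact_mod_cast h7
      push_cast at h8
      linarith
    rw [nug_eq s b hP'.1, h6, div_self (by linarith), sub_self]

end Pool.Agent.H985.CG
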