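import Mathlib
import Pool.Agent.H985.CH.Base
import Pool.Agent.H985.CG.Mom
import Pool.Agent.H985.CG.TI
import Pool.Agent.H985.CG.TW
import Pool.Agent.H985.CG.Sq
import Pool.Agent.H985.CG.Vp
import Pool.Agent.H985.CG.BR
import Pool.Agent.H985.CG.PAP
import Pool.Agent.H985.CG.Prs
import Pool.Agent.H985.CG.Few
import Pool.Agent.H985.CG.Maina
import Pool.Agent.H985.CG.Mainb
import Pool.Agent.H985.CG.CHEN
import Pool.Agent.H985.CG.Fin2

/-!
# Dickson's conjecture over `F_q[X]`, `q` even, one prime and almost primes with prescribed parity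
(helper985): assembly, given the type II estimate
-/

namespace Pool.Agent.H985.CG

open Pool.Agent.H251.SP
open Pool.Agent.H985.Gc (s_fb s_ps)
open Pool.Agent.H985.CH (tailw buchw)

theorem s_prsg : S_prsg := prsg vpg (brg Pool.Agent.H183.Par.brun) papg

theorem s_mainag0 (h : S_tiig) : S_mainag := mainag h (twg s_ps tailw momg) buchw (sqg momg)

theorem s_mainbg0 (h : S_tiig) : S_mainbg :=
  mainbg h (tig mob_prog tailw momg) buchw (sqg momg) momg

theorem s_cheng0 (h : S_tiig) : S_cheng :=
  cheng comb (s_mainag0 h) (s_mainbg0 h) (fewg vpg s_prsg) vpg s_prsg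

theorem s_cntg : S_cntg := cntg vpg s_prsg

end Pool.Agent.H985.CG
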