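import Pool.Agent.H985.CG.Stm
import Pool.Agent.H985.CH.TIIW

/-!
# Type II sums with the weights and with a square divisor (`S_tiig`)
-/

set_option autoImplicit false
set_option linter.all false

open Polynomial Finset
open scoped Classical
open Pool.Agent.H985.Chow (mob)
open Pool.Agent.H985.KP (PA mobg)
open Pool.Agent.H694.Typ (Mn Irn mem_Mn mem_Irn card_Mn pol pol_inj pol_degree exists_pol
  irn_wt_ge irn_one_le wt q_ge)
open Pool.Agent.H251.SP (Ds Frm Typ Gw S_fb S_bf S_wm)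
open Pool.Agent.H251.SP.TII
open Pool.Agent.H985.CH (SqM Bdd)
open Pool.Agent.H985.CH.TIIWL

namespace Pool.Agent.H985.CG

namespace TIIGL

variable {K : Type} [Field K] [Fintype K]

theorem Hg_eval {k : ℕ} (s b : Fin k → K[X]) (f : K[X]) :
    Hg s b f = Polynomial.eval f (∏ i, (Polynomial.C (s i) * Polynomial.X +
      Polynomial.C (b i)) : Polynomial K[X]) := by
  unfold Hg
  rw [Polynomial.eval_prod]
  refine prod_congr rfl fun i _ => ?_
  rw [Polynomial.eval_add, Polynomial.eval_mul, Polynomial.eval_X, Polynomial.eval_C,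
    Polynomial.eval_C]

theorem Hg_shift {k : ℕ} (s b : Fin k → K[X]) {E x d : K[X]} (hE : E ∣ d) :
    E ∣ Hg s b (x + d) ↔ E ∣ Hg s b x := by
  have h1 : (x + d) - x ∣ Hg s b (x + d) - Hg s b x := by
    rw [Hg_eval, Hg_eval]
    exact Polynomial.sub_dvd_eval_sub _ _ _
  rw [add_sub_cancel_left] at h1
  have h2 : E ∣ Hg s b (x + d) - Hg s b x := hE.trans h1
  have h3 : Hg s b (x + d) = (Hg s b (x + d) - Hg s b x) + Hg s b x := by ring
  rw [h3]
  exact dvd_add_right h2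

/-- one pair of divisors -/
theorem typ_oneG [CharP K 2] {n L j u a : ℕ} (hL : 2 * L + j + u = n + 1) (hjn : j ≤ n)
    (hun : u ≤ n) (ha : 4 ≤ a) (han : a ≤ n) {m A₁ A₂ h₀ : K[X]} (hm : m.Monic)
    (hmu : m.natDegree = u) (hA₁ : A₁.Monic) (hAj₁ : A₁.natDegree = j) (hA₂ : A₂.Monic)
    (hAj₂ : A₂.natDegree = j) (hh : h₀.natDegree < n) {g : K[X]} {H : K[X] → K[X]}
    (hH : ∀ E x d : K[X], E ∣ d → (E ∣ H (x + d) ↔ E ∣ H x))
    {E₁ E₂ : K[X]} {X₁ : ℝ} (hX₁ : 0 ≤ X₁)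
    (T : K[X] → Prop) (hT : ∀ B t, T (B + m * t ^ 2) ↔ T B)
    (hFB : ∀ B ∈ Mn K (n - j), T B → Gw a m A₁ h₀ B ≠ 0 → Gw a m A₂ h₀ B ≠ 0 →
      |∑ t ∈ (Pl K L).filter (fun t => E₁ * E₂ ∣ t), (mobg g (A₁ * (B + m * t ^ 2) + h₀) : ℝ) *
        (mobg g (A₂ * (B + m * t ^ 2) + h₀) : ℝ)| ≤ X₁) :
    |∑ B ∈ (Mn K (n - j)).filter T,
      (if E₁ ∣ H (A₁ * B) ∧ E₂ ∣ H (A₂ * B) then (1 : ℝ) else 0) *
      ((mobg g (A₁ * B + h₀) : ℝ) * (mobg g (A₂ * B + h₀) : ℝ) *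
      (Gw a m A₁ h₀ B * Gw a m A₂ h₀ B))| *
      (((Pl K L).filter (fun t => E₁ * E₂ ∣ t)).card : ℝ) ≤
    36 * (n : ℝ) ^ 4 * ((Fintype.card K : ℝ) ^ (n - j) * X₁) := by
  set PE := (Pl K L).filter (fun t => E₁ * E₂ ∣ t) with hPE
  set F : K[X] → ℝ := fun B => (mobg g (A₁ * B + h₀) : ℝ) * (mobg g (A₂ * B + h₀) : ℝ) with hF
  set w : K[X] → ℝ := fun B => (if T B then (1 : ℝ) else 0) *
    ((if E₁ ∣ H (A₁ * B) ∧ E₂ ∣ H (A₂ * B) then (1 : ℝ) else 0) *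
    (Gw a m A₁ h₀ B * Gw a m A₂ h₀ B)) with hw
  have hodd : (n + j + u) % 2 = 1 := by omega
  have hw1 : ∀ B ∈ Mn K (n - j), 0 ≤ w B ∧ w B ≤ 36 * (n : ℝ) ^ 4 := by
    intro B hB
    have h1 := Gw_le hjn hun ha han hodd hm hmu hA₁ hAj₁ hh hB
    have h2 := Gw_le hjn hun ha han hodd hm hmu hA₂ hAj₂ hh hB
    have h3 := Gw_nonneg a m A₁ h₀ B
    have h4 := Gw_nonneg a m A₂ h₀ B
    have h5 : Gw a m A₁ h₀ B * Gw a m A₂ h₀ B ≤ 36 * (n : ℝ) ^ 4 := by
      calc Gw a m A₁ h₀ B * Gw a m A₂ h₀ B ≤ (6 * (n : ℝ) ^ 2) * (6 * (n : ℝ) ^ 2) :=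
            mul_le_mul h1 h2 h4 (by positivity)
        _ = _ := by ring
    have h6 : 0 ≤ Gw a m A₁ h₀ B * Gw a m A₂ h₀ B := mul_nonneg h3 h4
    have h7 : (0 : ℝ) ≤ 36 * (n : ℝ) ^ 4 := by positivity
    rw [hw]
    simp only
    constructor
    · split_ifs <;> simp [h6]
    · split_ifs <;> simp [h5, h7]
  have hws : ∀ B, ∀ t ∈ PE, w (B + m * t ^ 2) = w B := fun B t ht => by
    have h1 : E₁ * E₂ ∣ t := (mem_filter.1 ht).2
    have h2 : E₁ ∣ A₁ * (m * t ^ 2) := by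
      have : E₁ ∣ t := (dvd_mul_right _ _).trans h1
      exact (((this.trans (dvd_pow_self t two_ne_zero)).mul_left _).mul_left _)
    have h3 : E₂ ∣ A₂ * (m * t ^ 2) := by
      have : E₂ ∣ t := (dvd_mul_left _ _).trans h1
      exact (((this.trans (dvd_pow_self t two_ne_zero)).mul_left _).mul_left _)
    rw [hw]
    have q1 := fun x => hH E₁ x _ h2
    have q2 := fun x => hH E₂ x _ h3
    simp only [Gw_shift, hT, mul_add, q1, q2]
  have key : (PE.card : ℝ) * ∑ B ∈ Mn K (n - j), F B * w B =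
      ∑ B ∈ Mn K (n - j), w B * ∑ t ∈ PE, F (B + m * t ^ 2) := by
    have h1 : (PE.card : ℝ) * ∑ B ∈ Mn K (n - j), F B * w B =
        ∑ t ∈ PE, ∑ B ∈ Mn K (n - j), F B * w B := by
      rw [sum_const, nsmul_eq_mul]
    rw [h1, sum_congr rfl (fun t ht => (sum_shift hL hmu (mem_filter.1 ht).1
      (fun B => F B * w B)).symm), sum_comm]
    refine sum_congr rfl fun B _ => ?_
    rw [mul_sum]
    refine sum_congr rfl fun t ht => ?_
    rw [hws B t ht]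
    ring
  have h0 : ∑ B ∈ (Mn K (n - j)).filter T,
      (if E₁ ∣ H (A₁ * B) ∧ E₂ ∣ H (A₂ * B) then (1 : ℝ) else 0) *
      ((mobg g (A₁ * B + h₀) : ℝ) * (mobg g (A₂ * B + h₀) : ℝ) *
      (Gw a m A₁ h₀ B * Gw a m A₂ h₀ B)) = ∑ B ∈ Mn K (n - j), F B * w B := by
    rw [sum_filter]
    refine sum_congr rfl fun B _ => ?_
    rw [hF, hw]
    simp only
    split_ifs <;> ring
  have h2 : |∑ B ∈ Mn K (n - j), F B * w B| * (PE.card : ℝ) =
      |∑ B ∈ Mn K (n - j), w B * ∑ t ∈ PE, F (B + m * t ^ 2)| := by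
    rw [← key, abs_mul, abs_of_nonneg (Nat.cast_nonneg PE.card : (0 : ℝ) ≤ (PE.card : ℝ)), mul_comm]
  rw [h0, h2]
  have hterm : ∀ B ∈ Mn K (n - j), |w B * ∑ t ∈ PE, F (B + m * t ^ 2)| ≤
      36 * (n : ℝ) ^ 4 * X₁ := by
    intro B hB
    obtain ⟨h3, h4⟩ := hw1 B hB
    rw [abs_mul, abs_of_nonneg h3]
    by_cases hz : w B = 0
    · rw [hz, zero_mul]
      positivity
    · have hTB : T B := by
        by_contra hc
        apply hz
        rw [hw]
        simp only [if_neg hc, zero_mul]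
      have h5 : Gw a m A₁ h₀ B ≠ 0 := fun h => hz (by rw [hw]; simp only [h, zero_mul, mul_zero])
      have h6 : Gw a m A₂ h₀ B ≠ 0 := fun h => hz (by rw [hw]; simp only [h, mul_zero])
      exact mul_le_mul h4 (hFB B hB hTB h5 h6) (abs_nonneg _) (by positivity)
  refine (abs_sum_le_sum_abs _ _).trans ((sum_le_sum hterm).trans ?_)
  rw [sum_const, card_Mn, nsmul_eq_mul]
  push_cast
  exact le_of_eq (by ring)

/-- the typical part of the sum for one multiplier -/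
theorem typ_partG [CharP K 2] {n L j u a y : ℕ} (hL : 2 * L + j + u = n + 1) (hjn : j ≤ n)
    (hun : u ≤ n) (ha : 4 ≤ a) (han : a ≤ n) {m A₁ A₂ h₀ : K[X]} (hm : m.Monic)
    (hmu : m.natDegree = u) (hA₁ : A₁.Monic) (hAj₁ : A₁.natDegree = j) (hA₂ : A₂.Monic)
    (hAj₂ : A₂.natDegree = j) (hh : h₀.natDegree < n) {g : K[X]} {H : K[X] → K[X]}
    (hH : ∀ E x d : K[X], E ∣ d → (E ∣ H (x + d) ↔ E ∣ H x))
    {lam : K[X] → ℝ} (hlam : Bdd lam) {W : K[X] → ℝ}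
    (hW : ∀ f : K[X], W f = ∑ E ∈ SqM K y, if E ∣ H f then lam E else 0) (hyL : 2 * y ≤ L) {X₁ : ℝ} (hX₁ : 0 ≤ X₁)
    (T : K[X] → Prop) (hT : ∀ B t, T (B + m * t ^ 2) ↔ T B)
    (hFB : ∀ E : K[X], E.Monic → E.natDegree ≤ 2 * y → ∀ B ∈ Mn K (n - j), T B →
      Gw a m A₁ h₀ B ≠ 0 → Gw a m A₂ h₀ B ≠ 0 →
      |∑ t ∈ (Pl K L).filter (fun t => E ∣ t), (mobg g (A₁ * (B + m * t ^ 2) + h₀) : ℝ) *
        (mobg g (A₂ * (B + m * t ^ 2) + h₀) : ℝ)| ≤ X₁) :
    |∑ B ∈ (Mn K (n - j)).filter T,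
      (W (A₁ * B) * (mobg g (A₁ * B + h₀) : ℝ)) *
      (W (A₂ * B) * (mobg g (A₂ * B + h₀) : ℝ)) *
      (Gw a m A₁ h₀ B * Gw a m A₂ h₀ B)| * (Fintype.card K : ℝ) ^ L ≤
    144 * (n : ℝ) ^ 4 * (Fintype.card K : ℝ) ^ (4 * y) *
      ((Fintype.card K : ℝ) ^ (n - j) * X₁) := by
  set Q : ℝ := (Fintype.card K : ℝ) with hQ
  have hQ2 : (2 : ℝ) ≤ Q := q_ge
  have hQ1 : (1 : ℝ) ≤ Q := by linarith
  set S : K[X] → K[X] → ℝ := fun E₁ E₂ => ∑ B ∈ (Mn K (n - j)).filter T,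
      (if E₁ ∣ H (A₁ * B) ∧ E₂ ∣ H (A₂ * B) then (1 : ℝ) else 0) *
      ((mobg g (A₁ * B + h₀) : ℝ) * (mobg g (A₂ * B + h₀) : ℝ) *
      (Gw a m A₁ h₀ B * Gw a m A₂ h₀ B)) with hS
  have h1 : ∑ B ∈ (Mn K (n - j)).filter T,
      (W (A₁ * B) * (mobg g (A₁ * B + h₀) : ℝ)) *
      (W (A₂ * B) * (mobg g (A₂ * B + h₀) : ℝ)) *
      (Gw a m A₁ h₀ B * Gw a m A₂ h₀ B) =
      ∑ E₁ ∈ SqM K y, ∑ E₂ ∈ SqM K y, lam E₁ * lam E₂ * S E₁ E₂ := by
    have h2 : ∀ B : K[X], (W (A₁ * B) * (mobg g (A₁ * B + h₀) : ℝ)) *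
      (W (A₂ * B) * (mobg g (A₂ * B + h₀) : ℝ)) *
      (Gw a m A₁ h₀ B * Gw a m A₂ h₀ B) =
      ∑ E₁ ∈ SqM K y, ∑ E₂ ∈ SqM K y, lam E₁ * lam E₂ *
        ((if E₁ ∣ H (A₁ * B) ∧ E₂ ∣ H (A₂ * B) then (1 : ℝ) else 0) *
      ((mobg g (A₁ * B + h₀) : ℝ) * (mobg g (A₂ * B + h₀) : ℝ) *
      (Gw a m A₁ h₀ B * Gw a m A₂ h₀ B))) := by
      intro B
      have h3 : (W (A₁ * B) * (mobg g (A₁ * B + h₀) : ℝ)) *
        (W (A₂ * B) * (mobg g (A₂ * B + h₀) : ℝ)) *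
        (Gw a m A₁ h₀ B * Gw a m A₂ h₀ B) = (W (A₁ * B) * W (A₂ * B)) *
        ((mobg g (A₁ * B + h₀) : ℝ) * (mobg g (A₂ * B + h₀) : ℝ) *
        (Gw a m A₁ h₀ B * Gw a m A₂ h₀ B)) := by ring
      rw [h3, hW, hW, sum_mul_sum, sum_mul]
      refine sum_congr rfl fun E₁ _ => ?_
      rw [sum_mul]
      refine sum_congr rfl fun E₂ _ => ?_
      by_cases c1 : E₁ ∣ H (A₁ * B) <;> by_cases c2 : E₂ ∣ H (A₂ * B) <;>
        simp [c1, c2] <;> ring
    rw [sum_congr rfl (fun B _ => h2 B), sum_comm]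
    refine sum_congr rfl fun E₁ _ => ?_
    rw [sum_comm]
    refine sum_congr rfl fun E₂ _ => ?_
    rw [hS]
    simp only
    rw [mul_sum]
  have h2 : ∀ E₁ ∈ SqM K y, ∀ E₂ ∈ SqM K y, |lam E₁ * lam E₂ * S E₁ E₂| * Q ^ L ≤
      Q ^ (2 * y) * (36 * (n : ℝ) ^ 4 * (Q ^ (n - j) * X₁)) := by
    intro E₁ hE₁ E₂ hE₂
    rw [mem_SqM] at hE₁ hE₂
    have hEm : (E₁ * E₂).Monic := hE₁.1.mul hE₂.1
    have hEd : (E₁ * E₂).natDegree ≤ 2 * y := by
      rw [hE₁.1.natDegree_mul hE₂.1]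
      omega
    have h3 := typ_oneG (g := g) (H := H) hL hjn hun ha han hm hmu hA₁ hAj₁ hA₂ hAj₂ hh hH hX₁ T hT
      (hFB (E₁ * E₂) hEm hEd)
    have h4 : Q ^ L ≤ (((Pl K L).filter (fun t => E₁ * E₂ ∣ t)).card : ℝ) * Q ^ (2 * y) := by
      have h5 := card_PlE (L := L) hEm (hEd.trans hyL)
      have h6 : Q ^ (L - (E₁ * E₂).natDegree) ≤
          (((Pl K L).filter (fun t => E₁ * E₂ ∣ t)).card : ℝ) := by
        rw [hQ]
        exact_mod_cast h5
      calc Q ^ L = Q ^ (L - (E₁ * E₂).natDegree) * Q ^ (E₁ * E₂).natDegree := by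
            rw [← pow_add]
            congr 1
            omega
        _ ≤ _ := mul_le_mul h6 (pow_le_pow_right₀ hQ1 hEd) (by positivity) (by positivity)
    have h5 : |lam E₁ * lam E₂ * S E₁ E₂| ≤ |S E₁ E₂| := by
      rw [abs_mul, abs_mul]
      exact mul_le_of_le_one_left (abs_nonneg _)
        (mul_le_one₀ (hlam _) (abs_nonneg _) (hlam _))
    calc |lam E₁ * lam E₂ * S E₁ E₂| * Q ^ L ≤ |S E₁ E₂| *
        ((((Pl K L).filter (fun t => E₁ * E₂ ∣ t)).card : ℝ) * Q ^ (2 * y)) :=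
          mul_le_mul h5 h4 (by positivity) (abs_nonneg _)
      _ = Q ^ (2 * y) * (|S E₁ E₂| *
        (((Pl K L).filter (fun t => E₁ * E₂ ∣ t)).card : ℝ)) := by ring
      _ ≤ _ := mul_le_mul_of_nonneg_left h3 (by positivity)
  rw [h1]
  have h3 : |∑ E₁ ∈ SqM K y, ∑ E₂ ∈ SqM K y, lam E₁ * lam E₂ * S E₁ E₂| * Q ^ L ≤
      ∑ E₁ ∈ SqM K y, ∑ E₂ ∈ SqM K y, |lam E₁ * lam E₂ * S E₁ E₂| * Q ^ L := by
    simp_rw [← sum_mul]
    refine mul_le_mul_of_nonneg_right ?_ (by positivity)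
    refine (abs_sum_le_sum_abs _ _).trans (sum_le_sum fun E₁ _ => ?_)
    exact abs_sum_le_sum_abs _ _
  refine h3.trans ((sum_le_sum fun E₁ hE₁ => sum_le_sum fun E₂ hE₂ => h2 E₁ hE₁ E₂ hE₂).trans ?_)
  rw [sum_const, sum_const, nsmul_eq_mul, nsmul_eq_mul]
  have hc := card_SqM (K := K) y
  rw [← hQ] at hc
  have hc0 : (0 : ℝ) ≤ ((SqM K y).card : ℝ) := Nat.cast_nonneg _
  have hX : 0 ≤ Q ^ (2 * y) * (36 * (n : ℝ) ^ 4 * (Q ^ (n - j) * X₁)) := by positivity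
  calc ((SqM K y).card : ℝ) * (((SqM K y).card : ℝ) *
      (Q ^ (2 * y) * (36 * (n : ℝ) ^ 4 * (Q ^ (n - j) * X₁)))) ≤
      (2 * Q ^ y) * ((2 * Q ^ y) * (Q ^ (2 * y) * (36 * (n : ℝ) ^ 4 * (Q ^ (n - j) * X₁)))) := by
        refine mul_le_mul hc (mul_le_mul_of_nonneg_right hc hX) (mul_nonneg hc0 hX) (by positivity)
    _ = _ := by
        rw [show 4 * y = y + (y + 2 * y) by ring, pow_add, pow_add]
        ring


/-- the estimate before the choice of the parameters -/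
theorem main_ineqG [CharP K 2] {n L j u a y C : ℕ} (hL : 2 * L + j + u = n + 1) (hjn : j ≤ n)
    (hun : u ≤ n) (hu4 : 4 ≤ u) (huj : u < j) (hja : j < a) (h4a : 4 * a ≤ n) (hyL : 2 * y ≤ L)
    {g : K[X]} {H : K[X] → K[X]}
    (hH : ∀ E x d : K[X], E ∣ d → (E ∣ H (x + d) ↔ E ∣ H x))
    {h₀ : K[X]}
    (hh : h₀.natDegree < n) {c0 c1 η X M2 M4 : ℝ} {lam α β : K[X] → ℝ} (hlam : Bdd lam)
    {W τ : K[X] → ℝ} (hτ0 : ∀ f, 0 ≤ τ f) (hWτ : ∀ f, |W f| ≤ τ f)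
    (hW : ∀ f : K[X], W f = ∑ E ∈ SqM K y, if E ∣ H f then lam E else 0)
    (hα : ∀ p, |α p| ≤ 1) (hβ : ∀ B, |β B| ≤ 1)
    (hM2 : ∑ p ∈ Irn K j, ∑ B ∈ Mn K (n - j), τ (p * B) ^ 2 ≤ M2)
    (hM4 : ∑ p ∈ Irn K j, ∑ B ∈ Mn K (n - j), τ (p * B) ^ 4 ≤ M4)
    (hfb : ∀ (E : K[X]), E.Monic → E.natDegree ≤ 2 * y →
      ∀ (m B : K[X]) (A P : Fin 2 → K[X]), m ∈ Irn K u → B ∈ Mn K (n - j) →
      Frm n j m A (fun _ => h₀) → Typ (η * n) m A (fun _ => h₀) B →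
      (∀ i, P i ∈ Irn K a ∧ P i ∣ Ds m (A i) h₀ B) →
      |∑ t ∈ (Pl K L).filter (fun t => E ∣ t), ∏ i, (mobg g (A i * (B + m * t ^ 2) + h₀) : ℝ)| ≤
        (Fintype.card K : ℝ) ^ ((L : ℝ) - c0 * n))
    (hbf : ∀ (m : K[X]) (A : Fin 2 → K[X]), m ∈ Irn K u → Frm n j m A (fun _ => h₀) →
      (∀ i l, i ≠ l →
        derivative (m * A i * h₀) * A l ^ 2 ≠ derivative (m * A l * h₀) * A i ^ 2) →
      (((Mn K (n - j)).filter (fun f => ¬ Typ (η * n) m A (fun _ => h₀) f)).card : ℝ) ≤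
        (Fintype.card K : ℝ) ^ (n - j) *
          (2 / (Fintype.card K : ℝ) ^ u + (Fintype.card K : ℝ) ^ (-c1 * n)))
    (hwm : ∑ A₁ ∈ (Irn K j).filter (fun A => ¬ A ∣ h₀),
      ∑ A₂ ∈ (Irn K j).filter (fun A => ¬ A ∣ h₀), ∑ f ∈ Mn K (n - j),
        (1 - (∑ m ∈ Irn K u, Gw a m A₁ h₀ f * Gw a m A₂ h₀ f) / ((Irn K u).card : ℝ)) ^ 2 ≤
      (n : ℝ) ^ C * (Fintype.card K : ℝ) ^ (n + j) * X) :
    (∑ p ∈ (Irn K j).filter (fun A => ¬ A ∣ h₀), ∑ B ∈ Mn K (n - j),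
      α p * β B * (W (p * B) * (mobg g (p * B + h₀) : ℝ))) ^ 2 ≤
    (Fintype.card K : ℝ) ^ (n - j) * (M2 +
      (((Fintype.card K : ℝ) ^ j) ^ 2 * (144 * (n : ℝ) ^ 4 * (Fintype.card K : ℝ) ^ (4 * y) *
        ((Fintype.card K : ℝ) ^ (n - j) * (Fintype.card K : ℝ) ^ (-c0 * n))) +
      36 * (n : ℝ) ^ 4 * √(((Fintype.card K : ℝ) ^ j) ^ 2 * ((Fintype.card K : ℝ) ^ (n - j) *
          (2 / (Fintype.card K : ℝ) ^ u + (Fintype.card K : ℝ) ^ (-c1 * n))) *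
          ((Fintype.card K : ℝ) ^ j * M4))) +
      √((Fintype.card K : ℝ) ^ j * M4 * ((n : ℝ) ^ C * (Fintype.card K : ℝ) ^ (n + j) * X))) := by
  set Q : ℝ := (Fintype.card K : ℝ) with hQ
  have hQ2 : (2 : ℝ) ≤ Q := q_ge
  have hQ0 : (0 : ℝ) < Q := by linarith
  set IA := (Irn K j).filter (fun A => ¬ A ∣ h₀) with hIA
  have ha4 : 4 ≤ a := by omega
  have han : a ≤ n := by omega
  have hodd : (n + j + u) % 2 = 1 := by omega
  have hMc : ((Mn K (n - j)).card : ℝ) = Q ^ (n - j) := by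
    rw [card_Mn]; push_cast; rfl
  have hIAc : (IA.card : ℝ) ≤ Q ^ j := by
    have h1 : (IA.card : ℝ) ≤ (Irn K j).card := by
      exact_mod_cast card_le_card (filter_subset _ _)
    exact h1.trans card_Irn_le
  have hu0 : 0 < (Irn K u).card := by
    have h1 := nu_ge (K := K) hu4
    by_contra hcon
    have h2 : (Irn K u).card = 0 := by omega
    rw [h2, Nat.cast_zero, zero_div] at h1
    have h3 : (0 : ℝ) < 1 / (2 * (u : ℝ)) := by
      have : (0 : ℝ) < u := by exact_mod_cast (by omega : 0 < u)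
      positivity
    linarith
  have hu0' : (0 : ℝ) < ((Irn K u).card : ℝ) := by exact_mod_cast hu0
  set T : K[X] → K[X] → ℝ := fun p B => τ (p * B) with hT
  set φ : K[X] → K[X] → ℝ := fun p B => W (p * B) * (mobg g (p * B + h₀) : ℝ) with hφ
  have hT0 : ∀ p B, 0 ≤ T p B := fun p B => hτ0 _
  have hφT : ∀ p B, |φ p B| ≤ T p B := by
    intro p B
    rw [hφ, hT]
    simp only
    rw [abs_mul]
    calc |W (p * B)| * |(mobg g (p * B + h₀) : ℝ)| ≤ τ (p * B) * 1 :=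
          mul_le_mul (hWτ _) (mobg_abs _ _) (abs_nonneg _) (hτ0 _)
      _ = _ := mul_one _
  have hN2 : ∑ p ∈ IA, ∑ B ∈ Mn K (n - j), T p B ^ 2 ≤ M2 := by
    refine le_trans ?_ hM2
    exact sum_le_sum_of_subset_of_nonneg (filter_subset _ _)
      fun _ _ _ => sum_nonneg fun _ _ => sq_nonneg _
  have hN4 : ∑ p ∈ IA, ∑ B ∈ Mn K (n - j), T p B ^ 4 ≤ M4 := by
    refine le_trans ?_ hM4
    refine sum_le_sum_of_subset_of_nonneg (filter_subset _ _)
      fun p _ _ => sum_nonneg fun B _ => ?_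
    have := hT0 p B
    positivity
  have hM40 : 0 ≤ M4 := by
    refine le_trans ?_ hN4
    refine sum_nonneg fun p _ => sum_nonneg fun B _ => ?_
    have := hT0 p B
    positivity
  -- the typical part
  set Yt : ℝ := 144 * (n : ℝ) ^ 4 * Q ^ (4 * y) * (Q ^ (n - j) * Q ^ (-c0 * n)) with hYt
  have hYt0 : 0 ≤ Yt := by
    rw [hYt]
    have := Real.rpow_nonneg hQ0.le (-c0 * n)
    positivity
  -- the other part
  set D : K[X] → K[X] → K[X] → K[X] → ℝ := fun m p p' B =>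
    if p ≠ p' ∧ ¬ Typ (η * n) m ![p, p'] (fun _ => h₀) B then 1 else 0 with hD
  have hD0 : ∀ m p p' B, 0 ≤ D m p p' B := by
    intro m p p' B
    rw [hD]
    simp only
    split_ifs <;> norm_num
  set Ym : K[X] → K[X] → K[X] → ℝ := fun m p p' => Yt +
    36 * (n : ℝ) ^ 4 * ∑ B ∈ Mn K (n - j), D m p p' B * (T p B * T p' B) with hYm
  have hYm0 : ∀ m p p', 0 ≤ Ym m p p' := by
    intro m p p'
    rw [hYm]
    simp only
    have : 0 ≤ ∑ B ∈ Mn K (n - j), D m p p' B * (T p B * T p' B) :=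
      sum_nonneg fun B _ => mul_nonneg (hD0 _ _ _ _) (mul_nonneg (hT0 _ _) (hT0 _ _))
    positivity
  have hFrmder : ∀ p ∈ IA, ∀ p' ∈ IA, p ≠ p' → ∀ m ∈ Irn K u, Frm n j m ![p, p'] (fun _ => h₀) ∧
      ∀ i l : Fin 2, i ≠ l → derivative (m * (![p, p'] : Fin 2 → K[X]) i * h₀) *
          (![p, p'] : Fin 2 → K[X]) l ^ 2 ≠
          derivative (m * (![p, p'] : Fin 2 → K[X]) l * h₀) *
            (![p, p'] : Fin 2 → K[X]) i ^ 2 := by
    intro p hp p' hp' hpp m hm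
    have hp1 := mem_Irn.1 (mem_filter.1 hp).1
    have hp2 := mem_Irn.1 (mem_filter.1 hp').1
    have hph := (mem_filter.1 hp).2
    have hph' := (mem_filter.1 hp').2
    have hm1 := mem_Irn.1 hm
    have hmp : ∀ x : K[X], x.natDegree = j → m ≠ x := by
      intro x hx hmx
      rw [hmx, hx] at hm1
      omega
    have hnd : ∀ x : K[X], x.Monic → Irreducible x → x.natDegree = j → ¬ m ∣ x := by
      intro x hx1 hx2 hx3 hd
      exact hmp x hx3 (eq_of_monic_of_associated hm1.1 hx1 (hm1.2.2.associated_of_dvd hx2 hd))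
    refine ⟨?_, ?_⟩
    · intro i
      fin_cases i
      · exact ⟨hp1.1, hp1.2.1, hp1.2.2.squarefree, (hp1.2.2.coprime_iff_not_dvd).2 hph, hh,
          hnd p hp1.1 hp1.2.2 hp1.2.1⟩
      · exact ⟨hp2.1, hp2.2.1, hp2.2.2.squarefree, (hp2.2.2.coprime_iff_not_dvd).2 hph', hh,
          hnd p' hp2.1 hp2.2.2 hp2.2.1⟩
    · intro i l hil
      fin_cases i <;> fin_cases l
      · exact absurd rfl hil
      · exact der_ne hm1.1 hm1.2.2 hp1.1 hp1.2.2 hp2.1 hp2.2.2 (hmp p hp1.2.1) hpp hph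
      · exact der_ne hm1.1 hm1.2.2 hp2.1 hp2.2.2 hp1.1 hp1.2.2 (hmp p' hp2.2.1) (Ne.symm hpp) hph'
      · exact absurd rfl hil
  have hone : ∀ p ∈ IA, ∀ p' ∈ IA, p ≠ p' → ∀ m ∈ Irn K u,
      |∑ B ∈ Mn K (n - j), φ p B * φ p' B * (Gw a m p h₀ B * Gw a m p' h₀ B)| ≤ Ym m p p' := by
    intro p hp p' hp' hpp m hm
    have hp1 := mem_Irn.1 (mem_filter.1 hp).1
    have hp2 := mem_Irn.1 (mem_filter.1 hp').1
    have hm1 := mem_Irn.1 hm
    obtain ⟨hFrm, hder⟩ := hFrmder p hp p' hp' hpp m hm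
    have h1 := typ_partG (g := g) (H := H) hL hjn hun ha4 han hm1.1 hm1.2.1 hp1.1 hp1.2.1 hp2.1 hp2.2.1 hh
      hH hlam hW hyL (Real.rpow_nonneg hQ0.le ((L : ℝ) - c0 * n))
      (Typ (η * n) m ![p, p'] (fun _ => h₀))
      (fun B t => Typ_shift _ _ _ _ _ _)
      (fun E hE1 hE2 B hB hTy hG1 hG2 => by
        obtain ⟨P1, hP1, hP1'⟩ := exists_P hG1
        obtain ⟨P2, hP2, hP2'⟩ := exists_P hG2
        have h2 := hfb E hE1 hE2 m B ![p, p'] ![P1, P2] hm hB hFrm hTy (by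
          intro i
          fin_cases i
          · exact ⟨hP1, hP1'⟩
          · exact ⟨hP2, hP2'⟩)
        simp only [Fin.prod_univ_two] at h2
        exact h2)
    have h2 : Q ^ ((L : ℝ) - c0 * n) = Q ^ L * Q ^ (-c0 * n) := by
      rw [← Real.rpow_natCast Q L, ← Real.rpow_add hQ0]
      congr 1; ring
    rw [← hQ, h2] at h1
    have hQL : (0 : ℝ) < Q ^ L := by positivity
    have h3 : 144 * (n : ℝ) ^ 4 * Q ^ (4 * y) * (Q ^ (n - j) * (Q ^ L * Q ^ (-c0 * n))) =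
        Yt * Q ^ L := by
      rw [hYt]; ring
    rw [h3] at h1
    have h4 := le_of_mul_le_mul_right h1 hQL
    rw [← sum_filter_add_sum_filter_not (Mn K (n - j)) (Typ (η * n) m ![p, p'] (fun _ => h₀))]
    refine (abs_add_le _ _).trans ?_
    rw [hYm]
    simp only
    refine add_le_add h4 ?_
    rw [sum_filter, mul_sum]
    refine (abs_sum_le_sum_abs _ _).trans (sum_le_sum fun B hB => ?_)
    by_cases hTy : Typ (η * n) m ![p, p'] (fun _ => h₀) B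
    · rw [if_neg (not_not.2 hTy), abs_zero]
      exact mul_nonneg (by positivity)
        (mul_nonneg (hD0 _ _ _ _) (mul_nonneg (hT0 _ _) (hT0 _ _)))
    · rw [if_pos hTy]
      have h5 : D m p p' B = 1 := by
        rw [hD]
        simp only
        exact if_pos ⟨hpp, hTy⟩
      rw [h5, one_mul, abs_mul, abs_mul]
      have g1 := Gw_le hjn hun ha4 han hodd hm1.1 hm1.2.1 hp1.1 hp1.2.1 hh hB
      have g2 := Gw_le hjn hun ha4 han hodd hm1.1 hm1.2.1 hp2.1 hp2.2.1 hh hB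
      have g3 := Gw_nonneg a m p h₀ B
      have g4 := Gw_nonneg a m p' h₀ B
      have g5 : |Gw a m p h₀ B * Gw a m p' h₀ B| ≤ 36 * (n : ℝ) ^ 4 := by
        rw [abs_of_nonneg (mul_nonneg g3 g4)]
        calc Gw a m p h₀ B * Gw a m p' h₀ B ≤ (6 * (n : ℝ) ^ 2) * (6 * (n : ℝ) ^ 2) :=
              mul_le_mul g1 g2 g4 (by positivity)
          _ = _ := by ring
      have g6 : |φ p B| * |φ p' B| ≤ T p B * T p' B :=
        mul_le_mul (hφT p B) (hφT p' B) (abs_nonneg _) (hT0 _ _)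
      calc |φ p B| * |φ p' B| * |Gw a m p h₀ B * Gw a m p' h₀ B| ≤
          (T p B * T p' B) * (36 * (n : ℝ) ^ 4) :=
            mul_le_mul g6 g5 (abs_nonneg _) (mul_nonneg (hT0 _ _) (hT0 _ _))
        _ = _ := by ring
  set Yf : K[X] → K[X] → ℝ := fun p p' => (∑ m ∈ Irn K u, Ym m p p') / ((Irn K u).card : ℝ) with hYf
  have hYf0 : ∀ p p', 0 ≤ Yf p p' := fun p p' =>
    div_nonneg (sum_nonneg fun m _ => hYm0 m p p') hu0'.le
  have hV : ∀ p ∈ IA, ∀ p' ∈ IA, p ≠ p' →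
      |∑ B ∈ Mn K (n - j), φ p B * φ p' B| ≤ Yf p p' + ∑ B ∈ Mn K (n - j), T p B * T p' B *
        |1 - (∑ m ∈ Irn K u, Gw a m p h₀ B * Gw a m p' h₀ B) / ((Irn K u).card : ℝ)| := by
    intro p hp p' hp' hpp
    exact V_boundW hu0 (fun B _ => by
      rw [abs_mul]
      exact mul_le_mul (hφT p B) (hφT p' B) (abs_nonneg _) (hT0 _ _)) _ (hone p hp p' hp' hpp)
  -- the sum of the `Ym`
  set Y : ℝ := (Q ^ j) ^ 2 * Yt + 36 * (n : ℝ) ^ 4 * √((Q ^ j) ^ 2 * (Q ^ (n - j) *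
          (2 / Q ^ u + Q ^ (-c1 * n))) * (Q ^ j * M4)) with hY
  have hYm1 : ∀ m ∈ Irn K u, ∑ p ∈ IA, ∑ p' ∈ IA, Ym m p p' ≤ Y := by
    intro m hm
    rw [hYm, hY]
    simp only [sum_add_distrib, ← mul_sum]
    refine add_le_add ?_ (mul_le_mul_of_nonneg_left ?_ (by positivity))
    · rw [sum_const, sum_const, nsmul_eq_mul, nsmul_eq_mul, ← mul_assoc, ← sq]
      exact mul_le_mul_of_nonneg_right (pow_le_pow_left₀ (Nat.cast_nonneg _) hIAc 2) hYt0
    · apply Real.le_sqrt_of_sq_le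
      refine (cs3 IA (Mn K (n - j)) (fun p p' B => D m p p' B) (fun p p' B => T p B * T p' B)).trans ?_
      have h11 := tt4 IA (Mn K (n - j)) T
      have h12 : (IA.card : ℝ) * ∑ p ∈ IA, ∑ B ∈ Mn K (n - j), T p B ^ 4 ≤ Q ^ j * M4 :=
        mul_le_mul hIAc hN4 (sum_nonneg fun p _ => sum_nonneg fun B _ => by
          have := hT0 p B
          positivity) (by positivity)
      have hb0 : 0 ≤ Q ^ (n - j) * (2 / Q ^ u + Q ^ (-c1 * n)) := by
        have := Real.rpow_nonneg hQ0.le (-c1 * n)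
        positivity
      have h13 : ∑ p ∈ IA, ∑ p' ∈ IA, ∑ B ∈ Mn K (n - j), D m p p' B ^ 2 ≤
          (Q ^ j) ^ 2 * (Q ^ (n - j) * (2 / Q ^ u + Q ^ (-c1 * n))) := by
        have h14 : ∀ p ∈ IA, ∀ p' ∈ IA, ∑ B ∈ Mn K (n - j), D m p p' B ^ 2 ≤
            Q ^ (n - j) * (2 / Q ^ u + Q ^ (-c1 * n)) := by
          intro p hp p' hp'
          by_cases hpp : p = p'
          · have : ∀ B, D m p p' B = 0 := by
              intro B
              rw [hD]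
              simp only
              exact if_neg (fun hc => hc.1 hpp)
            simp only [this]
            simpa using hb0
          · obtain ⟨hFrm, hder⟩ := hFrmder p hp p' hp' hpp m hm
            have h15 := hbf m ![p, p'] hm hFrm hder
            refine le_trans (le_of_eq ?_) h15
            rw [card_filter]
            push_cast
            refine sum_congr rfl fun B _ => ?_
            rw [hD]
            simp only
            by_cases hTy : Typ (η * n) m ![p, p'] (fun _ => h₀) B <;> simp [hTy, hpp]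
        refine (sum_le_sum fun p hp => sum_le_sum fun p' hp' => h14 p hp p' hp').trans ?_
        rw [sum_const, sum_const, nsmul_eq_mul, nsmul_eq_mul, ← mul_assoc, ← sq]
        exact mul_le_mul_of_nonneg_right (pow_le_pow_left₀ (Nat.cast_nonneg _) hIAc 2) hb0
      refine mul_le_mul h13 (h11.trans h12) ?_ ?_
      · exact sum_nonneg fun _ _ => sum_nonneg fun _ _ => sum_nonneg fun _ _ => sq_nonneg _
      · positivity
  have hYsum : ∑ p ∈ IA, ∑ p' ∈ IA, Yf p p' ≤ Y := by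
    have e1 : ∑ p ∈ IA, ∑ p' ∈ IA, Yf p p' =
        (∑ m ∈ Irn K u, ∑ p ∈ IA, ∑ p' ∈ IA, Ym m p p') / ((Irn K u).card : ℝ) := by
      rw [hYf]
      simp only
      simp_rw [← sum_div]
      congr 1
      exact ((sum_comm (s := Irn K u) (t := IA)
        (f := fun m p => ∑ p' ∈ IA, Ym m p p')).trans
        (sum_congr rfl fun p _ => sum_comm)).symm
    rw [e1, div_le_iff₀ hu0']
    refine (sum_le_sum hYm1).trans ?_
    rw [sum_const, nsmul_eq_mul, mul_comm]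
  have hbil := bilinearW (IA := IA) (Bn := Mn K (n - j)) (α := α) (β := β)
    (φ := φ) (T := T)
    (R := fun A₁ A₂ f =>
      1 - (∑ m ∈ Irn K u, Gw a m A₁ h₀ f * Gw a m A₂ h₀ f) / ((Irn K u).card : ℝ))
    (Yf := Yf) (N2 := M2) (N4 := M4)
    (Y := Y) (Z := (n : ℝ) ^ C * Q ^ (n + j) * X) hα hβ hφT hYf0 hV hN2 hN4 hYsum hwm
  refine hbil.trans ?_
  rw [hMc]
  have hX0 : 0 ≤ (n : ℝ) ^ C * Q ^ (n + j) * X := by
    refine le_trans ?_ hwm
    exact sum_nonneg fun _ _ => sum_nonneg fun _ _ => sum_nonneg fun _ _ => sq_nonneg _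
  refine mul_le_mul_of_nonneg_left ?_ (by positivity)
  refine add_le_add le_rfl (Real.sqrt_le_sqrt ?_)
  exact mul_le_mul_of_nonneg_right (mul_le_mul_of_nonneg_right hIAc hM40) hX0


end TIIGL

open TIIGL in
/-- **Task CG-TII.** -/
theorem tiig (hf : S_fb) (hb : S_bf) (hw : S_wm) (hmo : S_momg) : S_tiig := by
  intro K _ _ _ k Qp g s ε hQp hg hSlo hε
  set Q : ℝ := (Fintype.card K : ℝ) with hQ
  have hQ2 : (2 : ℝ) ≤ Q := q_ge
  have hQ0 : (0 : ℝ) < Q := by linarith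
  have hQ1 : (1 : ℝ) ≤ Q := by linarith
  set e1 : ℝ := min ε (1 / 20) / 2 with he1
  have he10 : 0 < e1 := by
    rw [he1]; exact half_pos (lt_min hε (by norm_num))
  have he1ε : e1 ≤ ε / 2 := by
    rw [he1]; linarith [min_le_left ε (1 / 20)]
  have he140 : e1 ≤ 1 / 40 := by
    rw [he1]; linarith [min_le_right ε (1 / 20)]
  obtain ⟨η, c0, hη, hc0, n1, hfb⟩ := hf K 2 (e1 / 4) (by norm_num) (by linarith)
  obtain ⟨c1, hc1, n2, hbf⟩ := hb K 2 (e1 / 4) η (by linarith) hη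
  obtain ⟨Cw, hwm⟩ := hw K
  obtain ⟨C1, hmo1⟩ := hmo k 1 K
  obtain ⟨C2, hmo2⟩ := hmo k 2 K
  obtain ⟨C4, hmo4⟩ := hmo k 4 K
  set c : ℝ := min (min (c0 / 4) (c1 / 4)) (min (e1 / 8) (ε / 4)) with hc
  have hcpos : 0 < c := by
    rw [hc]
    refine lt_min (lt_min ?_ ?_) (lt_min ?_ ?_) <;> linarith
  have hcc0 : 4 * c ≤ c0 := by
    have : c ≤ c0 / 4 := (min_le_left _ _).trans (min_le_left _ _)
    linarith
  have hcc1 : 4 * c ≤ c1 := by
    have : c ≤ c1 / 4 := (min_le_left _ _).trans (min_le_right _ _)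
    linarith
  have hcce : 2 * c ≤ e1 / 4 := by
    have : c ≤ e1 / 8 := (min_le_right _ _).trans (min_le_left _ _)
    linarith
  have hccε : 2 * c ≤ ε / 2 := by
    have : c ≤ ε / 4 := (min_le_right _ _).trans (min_le_right _ _)
    linarith
  set θ : ℝ := min (η / 2) (min (c0 / 8) (1 / 40)) with hθ
  have hθpos : 0 < θ := by
    rw [hθ]
    refine lt_min ?_ (lt_min ?_ ?_) <;> linarith
  have hθη : θ ≤ η / 2 := min_le_left _ _
  have hθc : θ ≤ c0 / 8 := (min_le_right _ _).trans (min_le_left _ _)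
  have hθ40 : θ ≤ 1 / 40 := (min_le_right _ _).trans (min_le_right _ _)
  obtain ⟨CC, hCC1, hCC2, hCC4⟩ : ∃ CC : ℕ, 2 * C1 + 1 ≤ CC ∧ 2 * C2 + 1 ≤ CC ∧
      2 * C4 + 1 ≤ CC := ⟨2 * C1 + 2 * C2 + 2 * C4 + 2, by omega, by omega, by omega⟩
  -- the lower bound for `n`
  obtain ⟨n3, hn3⟩ := exists_nat_ge (max (max 144 (2 * Q + 2)) (max (g.natDegree / η) (max (20 / e1) (4 / ε))))
  refine ⟨CC + Cw + 9, c, θ, hcpos, hθpos, max (max n1 n2) n3, ?_⟩
  intro n hn j y b h₀ lam α β hj1 hjε hyθ h0 hh hbd hlam hα hβ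
  have hn1 : n1 ≤ n := (le_max_left _ _).trans ((le_max_left _ _).trans hn)
  have hn2 : n2 ≤ n := (le_max_right _ _).trans ((le_max_left _ _).trans hn)
  have hn3' : (n3 : ℝ) ≤ n := by exact_mod_cast (le_max_right _ _).trans hn
  have hnmax := hn3.trans hn3'
  have hn144 : (144 : ℝ) ≤ n := ((le_max_left _ _).trans (le_max_left _ _)).trans hnmax
  have hnQ : 2 * Q + 2 ≤ n := ((le_max_right _ _).trans (le_max_left _ _)).trans hnmax
  have hngη : (g.natDegree : ℝ) / η ≤ n := ((le_max_left _ _).trans (le_max_right _ _)).trans hnmax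
  have hne1 : 20 / e1 ≤ n :=
    (((le_max_left _ _).trans (le_max_right _ _)).trans (le_max_right _ _)).trans hnmax
  have hnε : 4 / ε ≤ n :=
    (((le_max_right _ _).trans (le_max_right _ _)).trans (le_max_right _ _)).trans hnmax
  have hne1' : 20 ≤ e1 * n := by
    rw [div_le_iff₀ he10] at hne1; linarith
  have hnε' : 4 ≤ ε * n := by
    rw [div_le_iff₀ hε] at hnε; linarith
  have hn0 : (0 : ℝ) < n := by linarith
  have hn1' : (1 : ℝ) ≤ n := by linarith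
  have hjn4 : (j : ℝ) ≤ n / 4 - 4 := by nlinarith
  have hjn : j ≤ n := by
    have : (j : ℝ) ≤ n := by linarith
    exact_mod_cast this
  have hj0 : (0 : ℝ) ≤ j := Nat.cast_nonneg _
  have hyn : (y : ℝ) ≤ n / 40 := by nlinarith
  have h4y : 4 * y ≤ n := by
    have : (4 : ℝ) * y ≤ n := by linarith
    exact_mod_cast this
  have hMc : ((Mn K (n - j)).card : ℝ) = Q ^ (n - j) := by
    rw [card_Mn]; push_cast; rfl
  have hQn : Q ^ n = Q ^ j * Q ^ (n - j) := by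
    rw [← pow_add]; congr 1; omega
  have hA0 : (0 : ℝ) < Q ^ (n - j) := by positivity
  have hQnpos : (0 : ℝ) < Q ^ n := by positivity
  set W : K[X] → ℝ := fun f => Wg Qp s b lam y f with hWd
  set τ : K[X] → ℝ := fun f =>
    (((SqM K y).filter (fun E => IsCoprime E Qp ∧ E ∣ Hg s b f)).card : ℝ) with hτd
  set lam' : K[X] → ℝ := fun E => if IsCoprime E Qp then lam E else 0 with hlamd
  have hlam' : Bdd lam' := by
    intro E
    rw [hlamd]
    simp only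
    split_ifs
    · exact hlam E
    · rw [abs_zero]; exact zero_le_one
  have hτ0 : ∀ f, 0 ≤ τ f := fun f => Nat.cast_nonneg _
  have hWτ : ∀ f, |W f| ≤ τ f := by
    intro f
    rw [hWd, hτd]
    simp only
    unfold Wg
    refine (abs_sum_le_sum_abs _ _).trans ((sum_le_sum fun E _ => hlam E).trans ?_)
    rw [sum_const, nsmul_eq_mul, mul_one]
  have hW : ∀ f : K[X], W f = ∑ E ∈ SqM K y, if E ∣ Hg s b f then lam' E else 0 := by
    intro f
    rw [hWd, hlamd]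
    simp only
    unfold Wg
    rw [sum_filter]
    refine sum_congr rfl fun E _ => ?_
    by_cases c1 : IsCoprime E Qp <;> by_cases c2 : E ∣ Hg s b f <;> simp [c1, c2]
  have hgη : (g.natDegree : ℝ) ≤ η * n := by
    rw [div_le_iff₀ hη] at hngη
    linarith
  have hWe : ∀ f, Wg Qp s b lam y f = W f := fun f => rfl
  have hτe : ∀ f, (((SqM K y).filter (fun E => IsCoprime E Qp ∧ E ∣ Hg s b f)).card : ℝ) = τ f :=
    fun f => rfl
  clear hWd hτd hlamd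
  clear_value W τ lam'
  simp only [hWe]
  -- the moments
  have hmom : ∀ (r C : ℕ), (∀ (N y : ℕ) (Q D : K[X]) (s b : Fin k → K[X]), Slo Q s → D.Monic →
      (∀ i, IsCoprime D (b i)) → r * y ≤ N →
      ∑ B ∈ Mn K N,
        (((SqM K y).filter (fun E => IsCoprime E Q ∧ E ∣ Hg s b (D * B))).card : ℝ) ^ r ≤
      ((N : ℝ) + 2) ^ C * (Fintype.card K : ℝ) ^ N) → r * y ≤ n → 2 * C + 1 ≤ CC →
      ∑ p ∈ Irn K j, ∑ B ∈ Mn K (n - j), τ (p * B) ^ r ≤ (n : ℝ) ^ CC * Q ^ n := by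
    intro r C hm hr hC
    have h1 := pB_le hj1 hjn (fun f => τ f ^ r) (fun f => pow_nonneg (hτ0 _) r)
    refine h1.trans ?_
    have h2 := hm n y Qp 1 s b hSlo monic_one (fun i => isCoprime_one_left) hr
    simp only [one_mul, hτe] at h2
    rw [← hQ] at h2
    have h3 : ((n : ℝ) + 2) ^ C ≤ (n : ℝ) ^ (2 * C) := by
      rw [pow_mul]
      exact pow_le_pow_left₀ (by positivity) (by nlinarith) C
    calc (n : ℝ) * ∑ f ∈ Mn K n, τ f ^ r ≤ n * (((n : ℝ) + 2) ^ C * Q ^ n) :=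
          mul_le_mul_of_nonneg_left h2 hn0.le
      _ ≤ n * ((n : ℝ) ^ (2 * C) * Q ^ n) :=
          mul_le_mul_of_nonneg_left (mul_le_mul_of_nonneg_right h3 hQnpos.le) hn0.le
      _ = (n : ℝ) ^ (2 * C + 1) * Q ^ n := by ring
      _ ≤ _ := mul_le_mul_of_nonneg_right (pow_le_pow_right₀ hn1' hC) hQnpos.le
  have hM1 := hmom 1 C1 hmo1 (by omega) (by omega)
  have hM2 := hmom 2 C2 hmo2 (by omega) (by omega)
  have hM4 := hmom 4 C4 hmo4 (by omega) (by omega)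
  simp only [pow_one] at hM1
  set φ : K[X] → K[X] → ℝ := fun p B => W (p * B) * (mobg g (p * B + h₀) : ℝ) with hφ
  have hφT : ∀ p B, |φ p B| ≤ τ (p * B) := by
    intro p B
    rw [hφ]
    simp only
    rw [abs_mul]
    calc |W (p * B)| * |(mobg g (p * B + h₀) : ℝ)| ≤ τ (p * B) * 1 :=
          mul_le_mul (hWτ _) (mobg_abs _ _) (abs_nonneg _) (hτ0 _)
      _ = _ := mul_one _
  have hterm : ∀ p B : K[X], |α p * β B * φ p B| ≤ τ (p * B) := by
    intro p B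
    rw [abs_mul, abs_mul]
    have h1 : |α p| * |β B| ≤ 1 := mul_le_one₀ (hα p) (abs_nonneg _) (hβ B)
    calc |α p| * |β B| * |φ p B| ≤ 1 * τ (p * B) :=
          mul_le_mul h1 (hφT p B) (abs_nonneg _) zero_le_one
      _ = _ := one_mul _
  have hy1 : 0 < Q ^ (-(j : ℝ) / 64) := Real.rpow_pos_of_pos hQ0 _
  have hy2 : 0 < Q ^ (-c * n) := Real.rpow_pos_of_pos hQ0 _
  show |∑ p ∈ Irn K j, ∑ B ∈ Mn K (n - j), α p * β B * φ p B| ≤
    (n : ℝ) ^ (CC + Cw + 9) * Q ^ n * (Q ^ (-(j : ℝ) / 64) + Q ^ (-c * n))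
  have hCn : (1 : ℝ) ≤ (n : ℝ) ^ Cw := one_le_pow₀ hn1'
  have hCCn : (1 : ℝ) ≤ (n : ℝ) ^ CC := one_le_pow₀ hn1'
  by_cases hj40 : j < 40
  · -- trivial bound
    have h1 : |∑ p ∈ Irn K j, ∑ B ∈ Mn K (n - j), α p * β B * φ p B| ≤ (n : ℝ) ^ CC * Q ^ n := by
      refine (abs_sum_le_sum_abs _ _).trans (le_trans (sum_le_sum fun p _ => ?_) hM1)
      exact (abs_sum_le_sum_abs _ _).trans (sum_le_sum fun B _ => hterm p B)
    refine h1.trans ?_
    have h2 : 1 ≤ (n : ℝ) ^ 1 * Q ^ (-(j : ℝ) / 64) := by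
      have h3 : Q ^ (-1 : ℝ) ≤ Q ^ (-(j : ℝ) / 64) := by
        apply Real.rpow_le_rpow_of_exponent_le hQ1
        have : (j : ℝ) ≤ 40 := by exact_mod_cast hj40.le
        linarith
      have h4 : Q ^ (-1 : ℝ) = Q⁻¹ := Real.rpow_neg_one Q
      rw [h4] at h3
      calc (1 : ℝ) = Q * Q⁻¹ := by
            rw [mul_inv_cancel₀ (by positivity)]
        _ ≤ (n : ℝ) ^ 1 * Q ^ (-(j : ℝ) / 64) := by
            rw [pow_one]
            exact mul_le_mul (by linarith) h3 (by positivity) (by positivity)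
    have h5 : (n : ℝ) ^ CC * (n : ℝ) ^ 1 ≤ (n : ℝ) ^ (CC + Cw + 9) := by
      rw [← pow_add]
      exact pow_le_pow_right₀ hn1' (by omega)
    calc (n : ℝ) ^ CC * Q ^ n = (n : ℝ) ^ CC * Q ^ n * 1 := by ring
      _ ≤ (n : ℝ) ^ CC * Q ^ n * ((n : ℝ) ^ 1 * Q ^ (-(j : ℝ) / 64)) :=
          mul_le_mul_of_nonneg_left h2 (by positivity)
      _ = ((n : ℝ) ^ CC * (n : ℝ) ^ 1) * Q ^ n * Q ^ (-(j : ℝ) / 64) := by ring
      _ ≤ (n : ℝ) ^ (CC + Cw + 9) * Q ^ n * Q ^ (-(j : ℝ) / 64) :=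
          mul_le_mul_of_nonneg_right (mul_le_mul_of_nonneg_right h5 hQnpos.le) hy1.le
      _ ≤ _ := mul_le_mul_of_nonneg_left (by linarith) (by positivity)
  · rw [not_lt] at hj40
    have hj40' : (40 : ℝ) ≤ j := by exact_mod_cast hj40
    -- the parameters
    set w : ℝ := min ((j : ℝ) / 2) (e1 * n / 2) with hwdef
    have hw10 : 10 ≤ w := le_min (by linarith) (by linarith)
    have hwj : w ≤ j / 2 := min_le_left _ _
    have hwe : w ≤ e1 * n / 2 := min_le_right _ _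
    set v : ℕ := ⌊w⌋₊ with hv
    have hv1 : (v : ℝ) ≤ w := Nat.floor_le (by linarith)
    have hv2 : w < v + 1 := Nat.lt_floor_add_one w
    have hv9 : 9 ≤ v := by
      have : (9 : ℝ) < v := by linarith
      exact_mod_cast this.le
    obtain ⟨u, huv, huv', hodd⟩ : ∃ u : ℕ, u ≤ v ∧ v ≤ u + 1 ∧ (n + j + u) % 2 = 1 := by
      by_cases hp : (n + j + v) % 2 = 1
      · exact ⟨v, le_rfl, by omega, hp⟩
      · exact ⟨v - 1, by omega, by omega, by omega⟩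
    have hu4 : 4 ≤ u := by omega
    have huvR : (u : ℝ) ≤ v := by exact_mod_cast huv
    have huvR' : (v : ℝ) ≤ u + 1 := by exact_mod_cast huv'
    have huj2 : (u : ℝ) ≤ j / 2 := by linarith
    have hue : (u : ℝ) ≤ e1 * n / 2 := by linarith
    have huj : u < j := by
      have : (u : ℝ) < j := by linarith
      exact_mod_cast this
    have hun : u ≤ n := by omega
    obtain ⟨L, hL⟩ : ∃ L : ℕ, 2 * L + j + u = n + 1 := by
      have h1 : j + u ≤ n + 1 := by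
        have : (j : ℝ) + u ≤ n + 1 := by linarith
        exact_mod_cast this
      exact ⟨(n + 1 - j - u) / 2, by omega⟩
    have hLR : 2 * (L : ℝ) + j + u = n + 1 := by exact_mod_cast hL
    set a : ℕ := j + ⌈e1 * n⌉₊ with ha
    have ha1 : (j : ℝ) + e1 * n ≤ a := by
      rw [ha]; push_cast; linarith [Nat.le_ceil (e1 * (n : ℝ))]
    have ha2 : (a : ℝ) < j + e1 * n + 1 := by
      rw [ha]; push_cast; linarith [Nat.ceil_lt_add_one (show 0 ≤ e1 * (n : ℝ) by positivity)]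
    have hja : j < a := by
      have : (j : ℝ) < a := by linarith
      exact_mod_cast this
    have hen : e1 * n ≤ ε / 2 * n := mul_le_mul_of_nonneg_right he1ε hn0.le
    have hen40 : e1 * n ≤ 1 / 40 * n := mul_le_mul_of_nonneg_right he140 hn0.le
    have h4a : 4 * a ≤ n := by
      have : 4 * (a : ℝ) ≤ n := by nlinarith
      exact_mod_cast this
    have hL1 : 1 ≤ L := by
      have : (1 : ℝ) ≤ L := by linarith
      exact_mod_cast this
    have hyL : 2 * y ≤ L := by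
      have : 2 * (y : ℝ) ≤ L := by linarith
      exact_mod_cast this
    have hyη : 2 * (y : ℝ) ≤ η * n := by nlinarith
    -- the window bound
    have hfb' : ∀ (E : K[X]), E.Monic → E.natDegree ≤ 2 * y →
        ∀ (m B : K[X]) (A P : Fin 2 → K[X]), m ∈ Irn K u → B ∈ Mn K (n - j) →
        Frm n j m A (fun _ => h₀) → Typ (η * n) m A (fun _ => h₀) B →
        (∀ i, P i ∈ Irn K a ∧ P i ∣ Ds m (A i) h₀ B) →
        |∑ t ∈ (Pl K L).filter (fun t => E ∣ t),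
          ∏ i, (mobg g (A i * (B + m * t ^ 2) + h₀) : ℝ)| ≤ Q ^ ((L : ℝ) - c0 * n) := by
      intro E hE1 hE2 m B A P hm hB hFrm hT hP
      obtain ⟨hm1, hm2, hm3⟩ := mem_Irn.1 hm
      obtain ⟨hB1, hB2⟩ := mem_Mn.1 hB
      have hE2' : (E.natDegree : ℝ) ≤ η * n := by
        have : (E.natDegree : ℝ) ≤ 2 * y := by exact_mod_cast hE2
        linarith
      have h1 := hfb n hn1 L j u m B E A (fun _ => h₀) (fun _ => g) P hL hm1 hm3 hm2 hB1
        (by omega) hE1 hE2' hFrm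
        (fun _ => ⟨hg, hgη⟩) hT
        (fun i => by
          obtain ⟨hP1, hP2⟩ := hP i
          obtain ⟨hP3, hP4, hP5⟩ := mem_Irn.1 hP1
          refine ⟨hP3, hP5, hP2, ?_, ?_, ?_⟩
          · rw [hP4]; linarith
          · rw [hP4]; linarith
          · rw [hP4]; linarith)
      have hset : {t : K[X] | t.degree < (L : WithBot ℕ) ∧ E ∣ t} =
          ↑((Pl K L).filter (fun t => E ∣ t)) := by
        ext t
        simp only [Set.mem_setOf_eq, coe_filter, mem_Pl]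
      rw [hset, finsum_mem_coe_finset] at h1
      exact h1
    have hbf' : ∀ (m : K[X]) (A : Fin 2 → K[X]), m ∈ Irn K u → Frm n j m A (fun _ => h₀) →
        (∀ i l, i ≠ l →
          derivative (m * A i * h₀) * A l ^ 2 ≠ derivative (m * A l * h₀) * A i ^ 2) →
        (((Mn K (n - j)).filter (fun f => ¬ Typ (η * n) m A (fun _ => h₀) f)).card : ℝ) ≤
          Q ^ (n - j) * (2 / Q ^ u + Q ^ (-c1 * n)) := by
      intro m A hm hFrm hder
      obtain ⟨hm1, hm2, hm3⟩ := mem_Irn.1 hm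
      have h1 := hbf n hn2 L j u m A (fun _ => h₀) hL (by linarith) hm1 hm3 hm2 hFrm hder
      push_cast at h1
      exact h1
    have hwm' := hwm n L j u a h₀ hL hL1 hu4 huj hja h4a h0 hh
    have hmain := main_ineqG (g := g) (H := Hg s b) hL hjn hun hu4 huj hja h4a hyL
      (fun E x d => Hg_shift s b) hh hlam' hτ0 hWτ hW hα hβ hM2 hM4 hfb' hbf' hwm'
    rw [← hQ] at hmain
    set X : ℝ := Q ^ (((u : ℝ) - j) / 4) + Q ^ (-(u : ℝ)) + Q ^ (2 * (a : ℝ) - n / 2) with hX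
    have hX0 : 0 ≤ X := by
      have x1 := Real.rpow_nonneg hQ0.le (((u : ℝ) - j) / 4)
      have x2 := Real.rpow_nonneg hQ0.le (-(u : ℝ))
      have x3 := Real.rpow_nonneg hQ0.le (2 * (a : ℝ) - n / 2)
      rw [hX]
      linarith
    have hnum := final_numW (Q := Q) (N := n) (J := j) (U := u) (A := a) (Y := y) (c0 := c0)
      (c1 := c1) (e1 := e1) (ε := ε) (c := c) (n := n) (j := j) (u := u) (y := y) (C := CC)
      (C' := Cw) (P2 := (n : ℝ) ^ CC) (P4 := (n : ℝ) ^ CC) hQ2 rfl rfl rfl rfl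
      hn144 hnQ huj2 (by linarith) ha2.le hjε he1ε hcc0 hcc1 hcce hccε (by nlinarith) le_rfl le_rfl
      (by positivity)
    rw [← hX] at hnum
    -- the main part
    set S1 : ℝ := ∑ p ∈ (Irn K j).filter (fun A => ¬ A ∣ h₀), ∑ B ∈ Mn K (n - j),
      α p * β B * φ p B with hS1
    have hre : Q ^ (n - j) * ((n : ℝ) ^ CC * Q ^ n +
      ((Q ^ j) ^ 2 * (144 * (n : ℝ) ^ 4 * Q ^ (4 * y) * (Q ^ (n - j) * Q ^ (-c0 * n))) +
      36 * (n : ℝ) ^ 4 * √((Q ^ j) ^ 2 * (Q ^ (n - j) * (2 / Q ^ u + Q ^ (-c1 * n))) *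
          (Q ^ j * ((n : ℝ) ^ CC * Q ^ n)))) +
      √(Q ^ j * ((n : ℝ) ^ CC * Q ^ n) * ((n : ℝ) ^ Cw * Q ^ (n + j) * X))) =
      (Q ^ n) ^ 2 * (1 / Q ^ j * (n : ℝ) ^ CC + 144 * (n : ℝ) ^ 4 * Q ^ (4 * y) * Q ^ (-c0 * n) +
      36 * (n : ℝ) ^ 4 * √((2 / Q ^ u + Q ^ (-c1 * n)) * (n : ℝ) ^ CC) +
      √((n : ℝ) ^ CC * ((n : ℝ) ^ Cw * X))) := by
      have hQj : (0 : ℝ) < Q ^ j := by positivity
      have hQnj : Q ^ (n + j) = Q ^ j * Q ^ (n - j) * Q ^ j := by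
        rw [← hQn]
        exact pow_add Q n j
      rw [hQnj, hQn]
      exact hre_lem hQj hA0
    have hS1sq : S1 ^ 2 ≤ (Q ^ n) ^ 2 * ((n : ℝ) ^ (CC + Cw + 7) *
        (Q ^ (-(j : ℝ) / 32) + Q ^ (-(2 * c) * n))) := by
      refine hmain.trans ?_
      rw [hre]
      exact mul_le_mul_of_nonneg_left hnum (by positivity)
    have hS1abs : |S1| ≤ Q ^ n * ((n : ℝ) ^ (CC + Cw + 7) *
        (Q ^ (-(j : ℝ) / 64) + Q ^ (-c * n))) := by
      apply abs_le_of_sq_le_sq _ (by positivity)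
      refine hS1sq.trans ?_
      rw [mul_pow (Q ^ n)]
      apply mul_le_mul_of_nonneg_left _ (by positivity)
      rw [mul_pow]
      apply mul_le_mul
      · have h1 : (1 : ℝ) ≤ (n : ℝ) ^ (CC + Cw + 7) := one_le_pow₀ (by linarith)
        exact le_self_pow₀ h1 (by norm_num)
      · have e1' : Q ^ (-(j : ℝ) / 32) = (Q ^ (-(j : ℝ) / 64)) ^ 2 := by
          rw [← Real.rpow_natCast, ← Real.rpow_mul hQ0.le]; congr 1; push_cast; ring
        have e2' : Q ^ (-(2 * c) * n) = (Q ^ (-c * n)) ^ 2 := by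
          rw [← Real.rpow_natCast, ← Real.rpow_mul hQ0.le]; congr 1; push_cast; ring
        rw [e1', e2']
        nlinarith [mul_pos hy1 hy2]
      · have h1 : 0 < Q ^ (-(j : ℝ) / 32) := Real.rpow_pos_of_pos hQ0 _
        have h2 : 0 < Q ^ (-(2 * c) * n) := Real.rpow_pos_of_pos hQ0 _
        positivity
      · positivity
    -- the bad `p`
    have hsplit : ∑ p ∈ Irn K j, ∑ B ∈ Mn K (n - j), α p * β B * φ p B =
        ∑ p ∈ (Irn K j).filter (fun A => A ∣ h₀), ∑ B ∈ Mn K (n - j),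
          α p * β B * φ p B + S1 := by
      rw [hS1, sum_filter_add_sum_filter_not]
    have hS2 : |∑ p ∈ (Irn K j).filter (fun A => A ∣ h₀), ∑ B ∈ Mn K (n - j),
          α p * β B * φ p B| ≤ Q ^ n * ((n : ℝ) ^ (CC + 1) * Q ^ (-(j : ℝ) / 64)) := by
      have h1 : |∑ p ∈ (Irn K j).filter (fun A => A ∣ h₀), ∑ B ∈ Mn K (n - j),
          α p * β B * φ p B| ≤ ∑ p ∈ (Irn K j).filter (fun A => A ∣ h₀), ∑ B ∈ Mn K (n - j),
          τ (p * B) := by
        refine (abs_sum_le_sum_abs _ _).trans (sum_le_sum fun p _ => ?_)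
        exact (abs_sum_le_sum_abs _ _).trans (sum_le_sum fun B _ => hterm p B)
      refine h1.trans ?_
      apply le_of_sq_le_sq _ (by positivity)
      rw [← sum_product']
      refine (sq_sum_le_card_mul_sum_sq (s := (Irn K j).filter (fun A => A ∣ h₀) ×ˢ Mn K (n - j))).trans ?_
      rw [card_product, sum_product' (f := fun p B => τ (p * B) ^ 2)]
      push_cast
      rw [hMc]
      have h2 : ∑ p ∈ (Irn K j).filter (fun A => A ∣ h₀), ∑ B ∈ Mn K (n - j),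
          τ (p * B) ^ 2 ≤ (n : ℝ) ^ CC * Q ^ n := by
        refine le_trans ?_ hM2
        exact sum_le_sum_of_subset_of_nonneg (filter_subset _ _)
          fun _ _ _ => sum_nonneg fun _ _ => sq_nonneg _
      have h3 := card_bad (K := K) hj1 h0 hh
      have h4 : Q ^ (-(j : ℝ)) ≤ (Q ^ (-(j : ℝ) / 64)) ^ 2 := by
        rw [← Real.rpow_natCast, ← Real.rpow_mul hQ0.le]
        apply Real.rpow_le_rpow_of_exponent_le hQ1
        push_cast
        linarith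
      have h5 : Q ^ (n - j) = Q ^ n * Q ^ (-(j : ℝ)) := by
        rw [Real.rpow_neg hQ0.le, Real.rpow_natCast, hQn]
        field_simp
      have h6 : (n : ℝ) * (n : ℝ) ^ CC ≤ ((n : ℝ) ^ (CC + 1)) ^ 2 := by
        rw [← pow_succ', ← pow_mul]
        exact pow_le_pow_right₀ hn1' (by omega)
      calc (((Irn K j).filter (fun A => A ∣ h₀)).card : ℝ) * Q ^ (n - j) *
          ∑ p ∈ (Irn K j).filter (fun A => A ∣ h₀), ∑ B ∈ Mn K (n - j), τ (p * B) ^ 2 ≤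
          (n * Q ^ (n - j)) * ((n : ℝ) ^ CC * Q ^ n) := by
            refine mul_le_mul (mul_le_mul_of_nonneg_right h3 hA0.le) h2 ?_ (by positivity)
            exact sum_nonneg fun _ _ => sum_nonneg fun _ _ => sq_nonneg _
        _ = (Q ^ n) ^ 2 * (((n : ℝ) * (n : ℝ) ^ CC) * Q ^ (-(j : ℝ))) := by
            rw [h5]
            ring
        _ ≤ (Q ^ n) ^ 2 * (((n : ℝ) ^ (CC + 1)) ^ 2 * (Q ^ (-(j : ℝ) / 64)) ^ 2) := by
            apply mul_le_mul_of_nonneg_left _ (by positivity)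
            exact mul_le_mul h6 h4 (Real.rpow_nonneg hQ0.le _) (by positivity)
        _ = _ := by ring
    rw [hsplit]
    refine (abs_add_le _ _).trans ((add_le_add hS2 hS1abs).trans ?_)
    have hb1 : (n : ℝ) ^ (CC + 1) ≤ (n : ℝ) ^ (CC + Cw + 7) := pow_le_pow_right₀ hn1' (by omega)
    have hb2 : (n : ℝ) ^ (CC + Cw + 9) = (n : ℝ) ^ (CC + Cw + 7) * (n * n) := by
      rw [show CC + Cw + 9 = (CC + Cw + 7) + 2 by ring, pow_add]
      ring
    set G := (n : ℝ) ^ (CC + Cw + 7) with hG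
    have hGpos : 0 < G := by positivity
    have h1 : 0 < Q ^ n * Q ^ (-(j : ℝ) / 64) := by positivity
    have h2 : 0 < Q ^ n * Q ^ (-c * n) := by positivity
    rw [hb2]
    have hnn : (2 : ℝ) ≤ n * n := by nlinarith
    calc Q ^ n * ((n : ℝ) ^ (CC + 1) * Q ^ (-(j : ℝ) / 64)) +
          Q ^ n * (G * (Q ^ (-(j : ℝ) / 64) + Q ^ (-c * n))) ≤
          Q ^ n * (G * Q ^ (-(j : ℝ) / 64)) +
          Q ^ n * (G * (Q ^ (-(j : ℝ) / 64) + Q ^ (-c * n))) := by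
            refine add_le_add ?_ le_rfl
            exact mul_le_mul_of_nonneg_left (mul_le_mul_of_nonneg_right hb1 hy1.le) hQnpos.le
      _ ≤ (G * 2) * Q ^ n * (Q ^ (-(j : ℝ) / 64) + Q ^ (-c * n)) := by
          have h9 : 0 < G * (Q ^ n * Q ^ (-c * n)) := mul_pos hGpos h2
          have h8 : (G * 2) * Q ^ n * (Q ^ (-(j : ℝ) / 64) + Q ^ (-c * n)) -
              (Q ^ n * (G * Q ^ (-(j : ℝ) / 64)) +
                Q ^ n * (G * (Q ^ (-(j : ℝ) / 64) + Q ^ (-c * n)))) =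
              G * (Q ^ n * Q ^ (-c * n)) := by ring
          exact sub_nonneg.1 (h8 ▸ h9.le)
      _ ≤ G * (n * n) * Q ^ n * (Q ^ (-(j : ℝ) / 64) + Q ^ (-c * n)) := by
          apply mul_le_mul_of_nonneg_right _ (add_pos hy1 hy2).le
          apply mul_le_mul_of_nonneg_right _ hQnpos.le
          exact mul_le_mul_of_nonneg_left hnn hGpos.le

end Pool.Agent.H985.CG
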