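import Mathlib
import Pool.Agent.H985.CG.Base0
import Pool.Agent.H985.CG.TIIG

/-!
# Dickson's conjecture over `F_q[X]`, `q` even, one prime and almost primes with prescribed parity
(helper985): assembly
-/

namespace Pool.Agent.H985.CG

open Pool.Agent.H251.SP
open Pool.Agent.H985.Gc (s_fb s_ps)

theorem s_tiig : S_tiig := tiig s_fb bf (wm (wm1 ls1) (wm2 ls2)) momg

theorem s_cheng : S_cheng := s_cheng0 s_tiig

end Pool.Agent.H985.CG
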