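import Mathlib
import Pool.Agent.H985.CG.Base

/-!
# Admissibility of two linear forms over a finite field of characteristic two (helper985)
-/

set_option autoImplicit false

namespace Pool.Agent.H985.CG

open Polynomial Finset
open scoped Classical

variable {K : Type} [Field K] [Fintype K]

/-- an irreducible polynomial of norm two over the field with two elements divides `X (X + 1)` -/
theorem dvd_XX (hK : Even (Fintype.card K)) {P : K[X]} (hP : P.Monic) (hPi : Irreducible P)
    (hc : Fintype.card K = 2) (hd : P.natDegree = 1) : P ∣ X * (X + 1) := by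
  obtain ⟨x, hx⟩ : ∃ x : K, P.IsRoot x := exists_root_of_degree_eq_one
    (by rw [degree_eq_natDegree hP.ne_zero, hd]; rfl)
  have hcard : x = 0 ∨ x = 1 := by
    by_contra h
    push Not at h
    have h1 : ({0, 1, x} : Finset K).card ≤ Fintype.card K := Finset.card_le_univ _
    rw [Finset.card_insert_of_notMem (by simp [h.1.symm]),
      Finset.card_insert_of_notMem (by simp [h.2.symm]), Finset.card_singleton, hc] at h1
    omega
  have h2 : Associated P (X - C x) := by
    have h3 : X - C x ∣ P := dvd_iff_isRoot.2 hx
    exact ((irreducible_X_sub_C x).associated_of_dvd hPi h3).symm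
  have := Pool.Agent.H985.Cor.charTwo_of_even hK
  rcases hcard with rfl | rfl
  · rw [C_0, sub_zero] at h2
    exact h2.dvd.trans (dvd_mul_right _ _)
  · rw [C_1, CharTwo.sub_eq_add] at h2
    exact h2.dvd.trans (dvd_mul_left _ _)

/-- a class different from two given ones -/
theorem avoid (hK : Even (Fintype.card K)) {P : K[X]} (hP : P.Monic) (hPi : Irreducible P)
    (s t : K[X]) (hst : Fintype.card K = 2 → P.natDegree = 1 → P ∣ s * t) (hs : ¬ P ∣ s) :
    ∃ x : K[X], ¬ P ∣ x ∧ ¬ P ∣ s * x + t := by
  have := Pool.Agent.H985.Cor.charTwo_of_even hK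
  by_cases h1 : P ∣ s * 1 + t
  · -- then `P` does not divide `t`
    have ht : ¬ P ∣ t := fun h => hs (by
      have := (dvd_sub h1 h)
      rwa [mul_one, add_sub_cancel_right] at this)
    -- choose `x` different from `0` and `1` modulo `P`
    have hx : ∃ x : K[X], ¬ P ∣ x ∧ ¬ P ∣ x - 1 := by
      by_cases hd : P.natDegree = 1
      · have hc : Fintype.card K ≠ 2 := by
          intro hc
          rcases hPi.prime.dvd_or_dvd (hst hc hd) with h | h
          · exact hs h
          · exact ht h
        have hcard : 2 < Fintype.card K := by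
          have := Fintype.one_lt_card (α := K)
          omega
        obtain ⟨x, hx⟩ : ∃ x : K, x ∉ ({0, 1} : Finset K) := by
          by_contra hcon
          push Not at hcon
          have h4 : (Finset.univ : Finset K) ⊆ {0, 1} := fun x _ => hcon x
          have h5 := Finset.card_le_card h4
          rw [Finset.card_univ] at h5
          have h6 : ({0, 1} : Finset K).card ≤ 2 := Finset.card_le_two
          omega
        simp only [Finset.mem_insert, Finset.mem_singleton, not_or] at hx
        refine ⟨C x, fun h => ?_, fun h => ?_⟩
        · exact hPi.not_isUnit (isUnit_of_dvd_unit h (isUnit_C.2 (IsUnit.mk0 _ hx.1)))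
        · rw [← C_1, ← C_sub] at h
          exact hPi.not_isUnit (isUnit_of_dvd_unit h (isUnit_C.2 (IsUnit.mk0 _ (sub_ne_zero.2 hx.2))))
      · have hd1 : 1 < P.natDegree := by
          have h := hPi.natDegree_pos
          omega
        refine ⟨X, fun h => ?_, fun h => ?_⟩
        · have h7 := natDegree_le_of_dvd h X_ne_zero
          rw [natDegree_X] at h7
          omega
        · have h7 := natDegree_le_of_dvd h (X_sub_C_ne_zero (1 : K))
          rw [← C_1, natDegree_X_sub_C] at h7
          omega
    obtain ⟨x, hx0, hx1⟩ := hx
    refine ⟨x, hx0, fun h => ?_⟩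
    have h8 : P ∣ s * (x - 1) := by
      have h9 : s * (x - 1) = (s * x + t) - (s * 1 + t) := by ring
      rw [h9]
      exact dvd_sub h h1
    rcases hPi.prime.dvd_or_dvd h8 with h | h
    · exact hs h
    · exact hx1 h
  · exact ⟨1, fun h => hPi.not_isUnit (isUnit_of_dvd_one h), h1⟩

end Pool.Agent.H985.CG
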