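import Mathlib
import Pool.Agent.H985.CG.Adm

/-!
# The solutions of `a p - b f = c` over a finite field of characteristic two (helper985)
-/

set_option autoImplicit false

namespace Pool.Agent.H985.CG

open Polynomial Finset
open scoped Classical

variable {K : Type} [Field K]

/-- one solution -/
theorem part_sol {a b : K[X]} (hb : b ≠ 0) (hab : IsCoprime a b) (c : K[X]) :
    ∃ p₀ f₀ : K[X], a * p₀ - b * f₀ = c ∧ p₀.natDegree ≤ b.natDegree := by
  obtain ⟨u, v, huv⟩ := hab
  have hbm := nrm_monic hb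
  have h1 := modByMonic_add_div (c * u) (nrm b)
  refine ⟨(c * u) %ₘ (nrm b), - (c * v + a * C (b.leadingCoeff)⁻¹ * ((c * u) /ₘ (nrm b))), ?_, ?_⟩
  · have h2 : nrm b = b * C (b.leadingCoeff)⁻¹ := rfl
    have h3 : (c * u) %ₘ (nrm b) = c * u - nrm b * ((c * u) /ₘ (nrm b)) := by
      linear_combination h1
    rw [h3, h2]
    linear_combination c * huv
  · have h4 := degree_modByMonic_lt (c * u) hbm
    have h5 := natDegree_le_natDegree h4.le
    rwa [nrm_deg] at h5

/-- all the solutions with monic `p` -/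
theorem all_sol {a b c p₀ f₀ : K[X]} (hb : b ≠ 0) (hab : IsCoprime a b)
    (h0 : a * p₀ - b * f₀ = c) {n n' : ℕ} (hn : n = n' + b.natDegree) (hn' : 1 ≤ n')
    (hp₀ : p₀.natDegree ≤ b.natDegree) (p f : K[X]) :
    (p.Monic ∧ p.natDegree = n ∧ a * p - b * f = c) ↔
      ∃ t : K[X], (t.Monic ∧ t.natDegree = n') ∧ nrm b * t + p₀ = p ∧
        C (b.leadingCoeff)⁻¹ * a * t + f₀ = f := by
  have hbm := nrm_monic hb
  have hu : IsUnit (C (b.leadingCoeff)⁻¹ : K[X]) := nrm_unit hb
  have hlc : C (b.leadingCoeff) * C (b.leadingCoeff)⁻¹ = (1 : K[X]) := by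
    rw [← C_mul, mul_inv_cancel₀ (mt leadingCoeff_eq_zero.1 hb), C_1]
  have h2 : nrm b = b * C (b.leadingCoeff)⁻¹ := rfl
  constructor
  · rintro ⟨h1, h3, h4⟩
    have h5 : b ∣ a * (p - p₀) := ⟨f - f₀, by linear_combination h4 - h0⟩
    have h6 : b ∣ p - p₀ := hab.symm.dvd_of_dvd_mul_left h5
    obtain ⟨s, hs⟩ := h6
    refine ⟨C (b.leadingCoeff) * s, ?_, ?_, ?_⟩
    · have h7 : nrm b * (C (b.leadingCoeff) * s) = p - p₀ := by
        rw [h2, hs]
        linear_combination (b * s) * hlc
      have hlt : p₀.degree < p.degree := by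
        refine lt_of_le_of_lt degree_le_natDegree ?_
        rw [degree_eq_natDegree h1.ne_zero, h3]
        exact_mod_cast (by omega : p₀.natDegree < n)
      have h8 : (nrm b * (C (b.leadingCoeff) * s)).Monic := by
        rw [h7]
        exact h1.sub_of_left hlt
      have h9 : (C (b.leadingCoeff) * s).Monic := hbm.of_mul_monic_left h8
      refine ⟨h9, ?_⟩
      have h10 := hbm.natDegree_mul h9
      rw [h7, nrm_deg, natDegree_sub_eq_left_of_natDegree_lt (by omega), h3] at h10
      omega
    · rw [h2]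
      linear_combination (b * s) * hlc - hs
    · have h11 : b * (f - f₀) = b * (a * s) := by
        linear_combination h0 - h4 + a * hs
      have h12 := mul_left_cancel₀ hb h11
      linear_combination (a * s) * hlc - h12
  · rintro ⟨t, ⟨ht, htd⟩, rfl, rfl⟩
    have hm : (nrm b * t).Monic := hbm.mul ht
    have hmd : (nrm b * t).natDegree = n := by
      rw [hbm.natDegree_mul ht, nrm_deg, htd, hn, add_comm]
    have hlt : p₀.degree < (nrm b * t).degree := by
      refine lt_of_le_of_lt degree_le_natDegree ?_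
      rw [degree_eq_natDegree hm.ne_zero, hmd]
      exact_mod_cast (by omega : p₀.natDegree < n)
    refine ⟨hm.add_of_left hlt, by rw [natDegree_add_eq_left_of_degree_lt hlt, hmd], ?_⟩
    rw [h2]
    linear_combination h0

end Pool.Agent.H985.CG
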