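import Mathlib
import Pool.Agent.H985.CG.Lin

/-!
# A prime and an almost prime in `a p - b f = c` (helper985)
-/

set_option autoImplicit false

namespace Pool.Agent.H985.CG

open Polynomial Finset
open scoped Classical
open Pool.Agent.H985.Chow (mob)
open Pool.Agent.H985.Par (Sft)
open Pool.Agent.H694.Typ (Mn Irn mem_Mn mem_Irn)
open UniqueFactorizationMonoid (factors)

variable {K : Type} [Field K]

/-- the parameters of the solutions -/
theorem par {a b c : K[X]} (ha : a ≠ 0) (hb : b ≠ 0) (hab : IsCoprime a b) (hc : c ≠ 0) {n n' : ℕ}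
    (hn : n = n' + b.natDegree) (hn' : b.natDegree + 1 ≤ n') (hcd : c.natDegree < n + a.natDegree) :
    ∃ p₀ f₀ : K[X], a * p₀ - b * f₀ = c ∧ p₀.natDegree ≤ b.natDegree ∧
      p₀.natDegree < n' + (nrm b).natDegree ∧
      f₀.natDegree < n' + (C (b.leadingCoeff)⁻¹ * a).natDegree ∧
      nrm b * f₀ ≠ C (b.leadingCoeff)⁻¹ * a * p₀ := by
  obtain ⟨p₀, f₀, h0, hp₀⟩ := part_sol hb hab c
  have hu : IsUnit (C (b.leadingCoeff)⁻¹ : K[X]) := nrm_unit hb
  have hlc : (b.leadingCoeff)⁻¹ ≠ 0 := inv_ne_zero (mt leadingCoeff_eq_zero.1 hb)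
  refine ⟨p₀, f₀, h0, hp₀, by rw [nrm_deg]; omega, ?_, ?_⟩
  · rw [natDegree_C_mul hlc]
    by_cases hf : f₀ = 0
    · rw [hf, natDegree_zero]
      omega
    · have h1 : b * f₀ = a * p₀ - c := by linear_combination -h0
      have h2 := congrArg natDegree h1
      rw [natDegree_mul hb hf] at h2
      have h3 := natDegree_sub_le (a * p₀) c
      have h4 := natDegree_mul_le (p := a) (q := p₀)
      have h5 : max (a * p₀).natDegree c.natDegree < n + a.natDegree := max_lt (by omega) hcd
      omega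
  · intro h
    apply hc
    have h2 : nrm b = b * C (b.leadingCoeff)⁻¹ := rfl
    rw [h2] at h
    have h3 : C (b.leadingCoeff)⁻¹ * (a * p₀ - b * f₀) = 0 := by linear_combination -h
    rcases mul_eq_zero.1 h3 with h4 | h4
    · exact absurd h4 hu.ne_zero
    · rw [← h0, h4]

/-- admissibility of the two forms -/
theorem adm2 [Fintype K] (hK : Even (Fintype.card K)) {a b c p₀ f₀ : K[X]} (hb : b ≠ 0)
    (hab : IsCoprime a b) (hac : IsCoprime a c) (hbc : IsCoprime b c)
    (h2 : Fintype.card K = 2 → X * (X + 1) ∣ a * b * c) (h0 : a * p₀ - b * f₀ = c) {P : K[X]}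
    (hP : P.Monic) (hPi : Irreducible P) :
    ∃ x : K[X], ¬ P ∣ nrm b * x + p₀ ∧ ¬ P ∣ C (b.leadingCoeff)⁻¹ * a * x + f₀ := by
  have := Pool.Agent.H985.Cor.charTwo_of_even hK
  have hu : IsUnit (C (b.leadingCoeff)⁻¹ : K[X]) := nrm_unit hb
  have hlc : C (b.leadingCoeff) * C (b.leadingCoeff)⁻¹ = (1 : K[X]) := by
    rw [← C_mul, mul_inv_cancel₀ (mt leadingCoeff_eq_zero.1 hb), C_1]
  have hnb : nrm b = b * C (b.leadingCoeff)⁻¹ := rfl
  -- `a p - b f = c` along the forms
  have hid : ∀ x : K[X], a * (nrm b * x + p₀) - b * (C (b.leadingCoeff)⁻¹ * a * x + f₀) = c := by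
    intro x
    rw [hnb]
    linear_combination h0
  have hna : P ∣ a → ¬ P ∣ c := fun h h' => hPi.not_isUnit (hac.isUnit_of_dvd' h h')
  have hnb' : P ∣ b → ¬ P ∣ c := fun h h' => hPi.not_isUnit (hbc.isUnit_of_dvd' h h')
  by_cases hPb : P ∣ b
  · -- `P` divides `b`: the first form is never divisible by `P`
    have hPa : ¬ P ∣ C (b.leadingCoeff)⁻¹ * a := by
      intro h
      rcases hPi.prime.dvd_or_dvd h with h | h
      · exact hPi.not_isUnit (isUnit_of_dvd_unit h hu)
      · exact hPi.not_isUnit (hab.isUnit_of_dvd' h hPb)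
    have hcp : IsCoprime (C (b.leadingCoeff)⁻¹ * a) P := (hPi.coprime_iff_not_dvd.2 hPa).symm
    obtain ⟨u, v, huv⟩ := hcp
    refine ⟨u * (1 - f₀), fun h => hnb' hPb ?_, fun h => ?_⟩
    · rw [← hid (u * (1 - f₀))]
      exact dvd_sub (h.mul_left _) (hPb.mul_right _)
    · have h3 : C (b.leadingCoeff)⁻¹ * a * (u * (1 - f₀)) + f₀ = 1 - P * (v * (1 - f₀)) := by
        linear_combination (1 - f₀) * huv
      rw [h3] at h
      exact hPi.not_isUnit (isUnit_of_dvd_one ((dvd_sub_left (dvd_mul_right _ _)).1 h))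
  · have hPnb : ¬ P ∣ nrm b := by
      rw [hnb, hu.dvd_mul_right]
      exact hPb
    have hcp : IsCoprime (nrm b) P := (hPi.coprime_iff_not_dvd.2 hPnb).symm
    obtain ⟨u, v, huv⟩ := hcp
    -- choose the value `y` of the first form
    have hy : ∃ y : K[X], ¬ P ∣ y ∧ ¬ P ∣ a * y + c := by
      by_cases hPa : P ∣ a
      · refine ⟨1, fun h => hPi.not_isUnit (isUnit_of_dvd_one h), fun h => hna hPa ?_⟩
        exact (dvd_add_right (hPa.mul_right 1)).1 h
      · refine avoid hK hP hPi a c (fun hc hd => ?_) hPa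
        have h3 := (dvd_XX hK hP hPi hc hd).trans (h2 hc)
        rcases hPi.prime.dvd_or_dvd h3 with h | h
        · rcases hPi.prime.dvd_or_dvd h with h | h
          · exact h.mul_right _
          · exact absurd h hPb
        · exact h.mul_left _
    obtain ⟨y, hy0, hy1⟩ := hy
    have h4 : nrm b * (u * (y - p₀)) + p₀ = y - P * (v * (y - p₀)) := by
      linear_combination (y - p₀) * huv
    refine ⟨u * (y - p₀), fun h => hy0 ?_, fun h => hy1 ?_⟩
    · rw [h4] at h
      exact (dvd_sub_left (dvd_mul_right _ _)).1 h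
    · have h5 := hid (u * (y - p₀))
      rw [h4] at h5
      have h6 : a * y + c = b * (C (b.leadingCoeff)⁻¹ * a * (u * (y - p₀)) + f₀) +
          P * (a * (v * (y - p₀))) + 2 * c := by
        linear_combination h5
      rw [h6, CharTwo.two_eq_zero, zero_mul, add_zero]
      exact dvd_add (h.mul_left _) (dvd_mul_right _ _)

end Pool.Agent.H985.CG
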