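import Mathlib
import Pool.Agent.H985.CG.Stm
import Pool.Agent.H985.CH.Stm

/-!
# Dickson over `F_q[X]`, `q` even, one prime and almost primes (helper985): statements, second part
-/

namespace Pool.Agent.H985.CG

open Polynomial Finset
open scoped Classical
open Pool.Agent.H694.Typ (Mn Irn PU)
open Pool.Agent.H985.CH (vp)

/-- Euler's function: the number of the reduced residue classes modulo `Q`. -/
noncomputable def phiQ {K : Type} [Field K] (Q : K[X]) : ℕ :=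
  {r : K[X] | r.degree < Q.degree ∧ IsCoprime r Q}.ncard

/-- **Task CG-PHI.**  `S_cntg` with the value of the constant. -/
def S_cntp : Prop :=
  ∀ (K : Type) [Field K] [Fintype K] [CharP K 2] (k : ℕ) (Q : K[X]) (s : Fin k → K[X]) (ε : ℝ),
    Q.Monic → Slo Q s → 0 < ε → ∃ κ : ℝ, 0 < κ ∧
    ∃ n₀ : ℕ, ∀ n : ℕ, n₀ ≤ n → ∀ (m : ℕ) (ρ : K[X]) (b : Fin k → K[X]), 1 ≤ m →
      (m : ℝ) ≤ κ * n → IsCoprime ρ Q →
      |(((Irn K n).filter (fun p => Q ∣ p - ρ ∧ Sig Q s b m p)).card : ℝ) -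
        vg Q m s b * (Fintype.card K : ℝ) ^ n / (n * (phiQ Q : ℝ))| ≤
        ε * (vg Q m s b * (Fintype.card K : ℝ) ^ n / n)

/-- **Task CG-VGU.**  Upper bound for `vg` for a fixed system. -/
def S_vgup : Prop :=
  ∀ (K : Type) [Field K] [Fintype K] (k : ℕ) (Q : K[X]) (s b : Fin k → K[X]), Q.Monic → Slo Q s →
    (∀ i, b i ≠ 0) → (∀ i j, i ≠ j → s i * b j ≠ s j * b i) →
    ∃ C : ℝ, 0 < C ∧ ∀ m : ℕ, 1 ≤ m → vg Q m s b ≤ C / (m : ℝ) ^ k

/-- **Task CG-VPH.**  The singular product of the Goldbach problem has the order `|H| / (φ(H) m)`. -/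
def S_vphi : Prop :=
  ∀ (K : Type) [Field K] [Fintype K] (A : ℕ), Even (Fintype.card K) → ∃ c C : ℝ, 0 < c ∧ 0 < C ∧
    ∀ (m : ℕ) (H : K[X]), 1 ≤ m → H ≠ 0 → H.natDegree ≤ A * m →
      (Fintype.card K = 2 → X * (X + 1) ∣ H) →
      c * ((Fintype.card K : ℝ) ^ H.natDegree / (phiQ H : ℝ)) / m ≤ vp m (fun _ : Fin 1 => H) ∧
        vp m (fun _ : Fin 1 => H) ≤ C * ((Fintype.card K : ℝ) ^ H.natDegree / (phiQ H : ℝ)) / m

end Pool.Agent.H985.CG
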