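import Mathlib
import Pool.Agent.H985.CG.Stm2

/-!
# One prime and one almost prime over `F_q[X]`, `q` even (helper985): counting in explicit form
-/

namespace Pool.Agent.H985.CG

open Polynomial Finset
open scoped Classical
open Pool.Agent.H694.Typ (Mn Irn PU)

/-- The product of `1 - 1 / (|P| - 1)`, `|P| = q ^ deg P`, over the monic irreducible `P` of degree at
most `m` not dividing `F`. -/
noncomputable def sing {K : Type} [Field K] [Fintype K] (F : K[X]) (m : ℕ) : ℝ :=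
  ∏ᶠ P ∈ {P : K[X] | P.Monic ∧ Irreducible P ∧ P.natDegree ≤ m ∧ ¬ P ∣ F},
    (1 - 1 / ((Fintype.card K : ℝ) ^ P.natDegree - 1))

/-- **Task SNG.**  `vg` for one form. -/
def S_sng : Prop :=
  ∀ (K : Type) [Field K] [Fintype K] (m : ℕ) (Q s b : K[X]), Q.Monic → s.Monic → Sup Q s →
    vg Q m (fun _ : Fin 1 => s) (fun _ => b) = sing (Q * b) m

/-- The monic irreducible `p` of degree `n` such that `a + p * d` has no irreducible factor of degree
at most `m`. -/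
def SP {K : Type} [Field K] (a d : K[X]) (n m : ℕ) : Set K[X] :=
  {p | p.Monic ∧ p.natDegree = n ∧ Irreducible p ∧
    ∀ P : K[X], P.Monic → Irreducible P → P ∣ a + p * d → m < P.natDegree}

/-- **Task GCNT.** -/
def S_gcnt : Prop :=
  ∀ (K : Type) [Field K] [Fintype K] [CharP K 2] (d : K[X]), d ≠ 0 → ∀ ε : ℝ, 0 < ε →
    ∃ κ : ℝ, 0 < κ ∧ ∃ N : ℕ, ∀ n m : ℕ, N ≤ n → 1 ≤ m → (m : ℝ) ≤ κ * n →
      ∀ a : K[X], IsCoprime a d →
        |((SP a d n m).ncard : ℝ) - sing (a * d) m * (Fintype.card K : ℝ) ^ n / n| ≤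
          ε * (sing (a * d) m * (Fintype.card K : ℝ) ^ n / n)

def S_tgcnt : Prop := S_cntp → S_sng → S_gcnt

/-- The pairs `(p, f)` with `a * p - b * f = c`, `p` monic irreducible of degree `n`, such that `f`
has no irreducible factor of degree at most `m`. -/
def SS {K : Type} [Field K] (a b c : K[X]) (n m : ℕ) : Set (K[X] × K[X]) :=
  {x | (x.1.Monic ∧ x.1.natDegree = n ∧ Irreducible x.1 ∧ a * x.1 - b * x.2 = c) ∧
    ∀ P : K[X], P.Monic → Irreducible P → P ∣ x.2 → m < P.natDegree}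

/-- **Task HCNT.** -/
def S_hcnt : Prop :=
  ∀ (K : Type) [Field K] [Fintype K] [CharP K 2] (a b : K[X]), a ≠ 0 → b ≠ 0 → IsCoprime a b →
    ∀ ε : ℝ, 0 < ε → ∃ κ : ℝ, 0 < κ ∧ ∃ M N : ℕ, ∀ n m : ℕ, N ≤ n → M ≤ m → (m : ℝ) ≤ κ * n →
      ∀ c : K[X], IsCoprime a c → IsCoprime b c →
        |((SS a b c n m).ncard : ℝ) - sing (a * b * c) m *
            (Fintype.card K : ℝ) ^ n / (n * (Fintype.card K : ℝ) ^ b.natDegree)| ≤
          ε * (sing (a * b * c) m * (Fintype.card K : ℝ) ^ n / n)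

def S_thcnt : Prop := S_cntp → S_sng → S_hcnt

/-- The pairs `(p, f)` with `p + f = H`, `p` irreducible, both monic of degree `n`, `p` in the class of
`ρ` modulo `Q`, such that `f` has no irreducible factor of degree at most `m`. -/
def RP {K : Type} [Field K] (Q ρ H : K[X]) (n m : ℕ) : Set (K[X] × K[X]) :=
  {x | x.1.Monic ∧ x.1.natDegree = n ∧ Irreducible x.1 ∧ x.2.Monic ∧ x.2.natDegree = n ∧
    x.1 + x.2 = H ∧ Q ∣ x.1 - ρ ∧
    ∀ P : K[X], P.Monic → Irreducible P → P ∣ x.2 → m < P.natDegree}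

/-- **Task FCNT.** -/
def S_fcnt : Prop :=
  ∀ (K : Type) [Field K] [Fintype K] [CharP K 2] (Q : K[X]), Q.Monic → ∀ ε : ℝ, 0 < ε →
    ∃ κ : ℝ, 0 < κ ∧ ∃ N : ℕ, ∀ n m : ℕ, N ≤ n → 1 ≤ m → (m : ℝ) ≤ κ * n →
      ∀ H ρ : K[X], H ≠ 0 → H.natDegree < n → IsCoprime ρ Q → IsCoprime (H - ρ) Q →
        |((RP Q ρ H n m).ncard : ℝ) - sing (Q * H) m * (Fintype.card K : ℝ) ^ n / (n * (phiQ Q : ℝ))| ≤
          ε * (sing (Q * H) m * (Fintype.card K : ℝ) ^ n / n) ∧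
        |∑ᶠ x ∈ RP Q ρ H n m, (Pool.Agent.H985.Chow.mob x.2 : ℝ)| ≤
          ε * (sing (Q * H) m * (Fintype.card K : ℝ) ^ n / n)

def S_tfcnt : Prop := S_cntp → S_cheng → S_sng → S_fcnt

end Pool.Agent.H985.CG
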