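import Mathlib
import Pool.Agent.H985.CG.Adm
import Pool.Agent.H985.CG.Stm3

/-!
# A prime in a residue class plus an almost prime of prescribed parity (helper985)
-/

set_option autoImplicit false

namespace Pool.Agent.H985.CG

open Polynomial Finset
open scoped Classical
open Pool.Agent.H985.Chow (mob)
open Pool.Agent.H694.Typ (Mn mem_Mn)
open UniqueFactorizationMonoid (factors)

/-- admissibility in a class -/
theorem adm_class {K : Type} [Field K] [Fintype K] (hK : Even (Fintype.card K)) {Q ρ ρ₀ H P : K[X]}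
    (hQρ : Q ∣ ρ₀ - ρ) (hρ : IsCoprime ρ Q) (hHρ : IsCoprime (H - ρ) Q)
    (h2 : Fintype.card K = 2 → X * (X + 1) ∣ Q * H) (hP : P.Monic) (hPi : Irreducible P) :
    ∃ x : K[X], ¬ P ∣ Q * x + ρ₀ ∧ ¬ P ∣ Q * x + (ρ₀ + H) := by
  have := Pool.Agent.H985.Cor.charTwo_of_even hK
  by_cases hPQ : P ∣ Q
  · refine ⟨0, fun h => ?_, fun h => ?_⟩
    · rw [mul_zero, zero_add] at h
      have h3 : P ∣ ρ := by
        have h4 := dvd_sub h (hPQ.trans hQρ)
        rwa [sub_sub_cancel] at h4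
      exact hPi.not_isUnit (hρ.isUnit_of_dvd' h3 hPQ)
    · rw [mul_zero, zero_add] at h
      have h3 : P ∣ H - ρ := by
        have h4 := dvd_sub h (hPQ.trans hQρ)
        have h5 : H - ρ = ρ₀ + H - (ρ₀ - ρ) - (ρ + ρ) := by ring
        rw [h5, CharTwo.add_self_eq_zero, sub_zero]
        exact h4
      exact hPi.not_isUnit (hHρ.isUnit_of_dvd' h3 hPQ)
  · obtain ⟨y, hy0, hy1⟩ := avoid hK hP hPi 1 H (fun hc hd => by
      rw [one_mul]
      exact (hPi.prime.dvd_or_dvd ((dvd_XX hK hP hPi hc hd).trans (h2 hc))).resolve_left hPQ)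
      (fun h => hPi.not_isUnit (isUnit_of_dvd_one h))
    obtain ⟨u, v, huv⟩ := (hPi.coprime_iff_not_dvd).2 hPQ
    have hx : P ∣ (Q * (v * (y - ρ₀)) + ρ₀) - y := ⟨-(u * (y - ρ₀)), by
      linear_combination (y - ρ₀) * huv⟩
    refine ⟨v * (y - ρ₀), fun h => hy0 ?_, fun h => hy1 ?_⟩
    · have h4 := dvd_sub h hx
      rwa [sub_sub_cancel] at h4
    · have h4 := dvd_sub h hx
      have h5 : 1 * y + H = Q * (v * (y - ρ₀)) + (ρ₀ + H) - (Q * (v * (y - ρ₀)) + ρ₀ - y) := by ring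
      rw [h5]
      exact h4

/-- **The lower bound in a class.** -/
theorem fclass (K : Type) [Field K] [Fintype K] (hK : Even (Fintype.card K)) (Q : K[X])
    (hQ : Q.Monic) :
    ∃ (r : ℕ) (c : ℝ), 0 < c ∧ ∃ N : ℕ, ∀ n : ℕ, N ≤ n → ∀ H ρ : K[X], H ≠ 0 → H.natDegree < n →
      IsCoprime ρ Q → IsCoprime (H - ρ) Q → (Fintype.card K = 2 → X * (X + 1) ∣ Q * H) →
      ∀ σ : ℤ, (σ = 1 ∨ σ = -1) →
        c * (Fintype.card K : ℝ) ^ n / (n : ℝ) ^ 2 ≤
          ({x : K[X] × K[X] | x.1.Monic ∧ x.1.natDegree = n ∧ Irreducible x.1 ∧ x.2.Monic ∧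
            x.2.natDegree = n ∧ x.1 + x.2 = H ∧ Q ∣ x.1 - ρ ∧ (Squarefree x.2 ∧
              Multiset.card (factors x.2) ≤ r ∧
              ∀ P : K[X], Irreducible P → P ∣ x.2 → n ≤ (r + 1) * P.natDegree) ∧
              mob x.2 = σ}.ncard : ℝ) := by
  have := Pool.Agent.H985.Cor.charTwo_of_even hK
  obtain ⟨r, c, hc, N, hd⟩ := dick_few s_cheng s_cntg vpg K (k := 1) Q (fun _ => Q) hQ.ne_zero
    (fun _ => hQ.ne_zero)
  have hq : (0 : ℝ) < Fintype.card K := by exact_mod_cast Fintype.card_pos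
  refine ⟨2 * r + 1, c / (Fintype.card K : ℝ) ^ Q.natDegree, by positivity,
    N + 2 * Q.natDegree + 2, fun n hn H ρ hH0 hHn hρ hHρ h2 σ hσ => ?_⟩
  obtain ⟨n', hn'⟩ : ∃ n', n = n' + Q.natDegree := ⟨n - Q.natDegree, by omega⟩
  obtain ⟨ρ₀, hρ₀⟩ : ∃ ρ₀, ρ₀ = ρ %ₘ Q := ⟨_, rfl⟩
  have hQρ : Q ∣ ρ₀ - ρ := ⟨-(ρ /ₘ Q), by
    have h := modByMonic_add_div ρ Q
    rw [← hρ₀] at h
    linear_combination h⟩
  have hρd : ρ₀.natDegree < n := by
    by_cases h1 : Q = 1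
    · rw [hρ₀, h1, modByMonic_one, natDegree_zero]
      omega
    · rw [hρ₀]
      have := natDegree_modByMonic_lt ρ hQ h1
      omega
  have hρHd : (ρ₀ + H).natDegree < n := lt_of_le_of_lt (natDegree_add_le _ _) (max_lt hρd hHn)
  have h3 := hd n' (by omega) ρ₀ (fun _ => ρ₀ + H) (by omega) (fun _ => by omega)
    (fun _ h => hH0 (by
      have h4 := mul_left_cancel₀ hQ.ne_zero h
      exact add_eq_left.1 h4))
    (fun P hP hPi => by
      obtain ⟨x, hx0, hx1⟩ := adm_class hK hQρ hρ hHρ h2 hP hPi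
      exact ⟨x, hx0, fun _ => hx1⟩) 0 σ hσ
  have h4 : c / (Fintype.card K : ℝ) ^ Q.natDegree * (Fintype.card K : ℝ) ^ n / (n : ℝ) ^ 2 ≤
      c * (Fintype.card K : ℝ) ^ n' / (n' : ℝ) ^ (1 + 1) := by
    have h5 : c / (Fintype.card K : ℝ) ^ Q.natDegree * (Fintype.card K : ℝ) ^ n =
        c * (Fintype.card K : ℝ) ^ n' := by
      rw [hn', pow_add]
      field_simp
    rw [h5]
    refine div_le_div_of_nonneg_left (by positivity) ?_ ?_
    · have : (0 : ℝ) < n' := by exact_mod_cast (by omega : 0 < n')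
      positivity
    · exact pow_le_pow_left₀ (by positivity) (by exact_mod_cast (by omega : n' ≤ n)) 2
  refine h4.trans (h3.trans ?_)
  have hinj : Function.Injective (fun t : K[X] => (Q * t + ρ₀, Q * t + (ρ₀ + H))) := by
    intro t t' h
    exact mul_left_cancel₀ hQ.ne_zero (add_right_cancel (Prod.ext_iff.1 h).1)
  norm_cast
  rw [← Set.ncard_coe_finset, ← Set.ncard_image_of_injective _ hinj]
  refine Set.ncard_le_ncard ?_ ?_
  · rintro _ ⟨t, ht, rfl⟩
    rw [Finset.mem_coe, Finset.mem_filter, mem_Mn] at ht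
    obtain ⟨⟨h5, h6⟩, h7, h8, h9⟩ := ht
    obtain ⟨h10, h11, h12⟩ := h8 0
    have hm : ∀ u : K[X], u.natDegree < n → (Q * t + u).Monic ∧ (Q * t + u).natDegree = n := by
      intro u hu
      have hqt : (Q * t).Monic := hQ.mul h5
      have hqd : (Q * t).natDegree = n := by rw [hQ.natDegree_mul h5, h6]; omega
      have hlt : u.degree < (Q * t).degree := by
        refine lt_of_le_of_lt degree_le_natDegree ?_
        rw [degree_eq_natDegree hqt.ne_zero, hqd]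
        exact_mod_cast hu
      exact ⟨hqt.add_of_left hlt, by rw [natDegree_add_eq_left_of_degree_lt hlt, hqd]⟩
    refine ⟨(hm _ hρd).1, (hm _ hρd).2, h7, (hm _ hρHd).1, (hm _ hρHd).2, ?_, ?_,
      ⟨h10, h11.trans (by omega), fun P hP hPd => ?_⟩, h9⟩
    · show Q * t + ρ₀ + (Q * t + (ρ₀ + H)) = H
      have h13 : Q * t + ρ₀ + (Q * t + (ρ₀ + H)) = (Q * t + ρ₀) + (Q * t + ρ₀) + H := by ring
      rw [h13, CharTwo.add_self_eq_zero, zero_add]
    · show Q ∣ Q * t + ρ₀ - ρ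
      have h13 : Q * t + ρ₀ - ρ = Q * t + (ρ₀ - ρ) := by ring
      rw [h13]
      exact dvd_add (dvd_mul_right _ _) hQρ
    · have h13 := h12 P hP hPd
      have h14 : n ≤ 2 * n' := by omega
      calc n ≤ 2 * n' := h14
        _ ≤ 2 * ((r + 1) * P.natDegree) := Nat.mul_le_mul_left 2 h13
        _ = (2 * r + 1 + 1) * P.natDegree := by ring
  · refine Set.Finite.subset ((Mn K n ×ˢ Mn K n).finite_toSet) fun x hx => ?_
    rw [Finset.mem_coe, Finset.mem_product, mem_Mn, mem_Mn]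
    exact ⟨⟨hx.1, hx.2.1⟩, ⟨hx.2.2.2.1, hx.2.2.2.2.1⟩⟩

end Pool.Agent.H985.CG
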