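import Mathlib
import Pool.Agent.H985.CG.Stm3
import Pool.Agent.H985.Gc.Mobu

/-!
# Task CG3-FCNT (written by helper807): sums of a prime in a class and a polynomial without small
factors
-/

set_option autoImplicit false

namespace Pool.Agent.H985.CG

open Polynomial Finset
open scoped Classical
open Pool.Agent.H985.Chow (mob)
open Pool.Agent.H985.KP (mobg)
open Pool.Agent.H694.Typ (Mn Irn PU mem_Irn)

namespace FcntN

variable {K : Type} [Field K]

theorem sup_one (Q : K[X]) : Sup Q 1 := fun _ hP h => absurd (isUnit_of_dvd_one h) hP.not_isUnit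

theorem two [CharP K 2] (f : K[X]) : f + f = 0 := CharTwo.add_self_eq_zero f

theorem deg_add {p H : K[X]} {n : ℕ} (hp : p.Monic) (hn : p.natDegree = n) (hH : H.natDegree < n) :
    (p + H).Monic ∧ (p + H).natDegree = n := by
  have h1 : H.degree < p.degree := by
    by_cases h0 : H = 0
    · rw [h0, degree_zero]
      exact bot_lt_iff_ne_bot.2 (degree_eq_bot.not.2 hp.ne_zero)
    · exact (natDegree_lt_natDegree_iff h0).1 (by rw [hn]; exact hH)
  exact ⟨hp.add_of_left h1, by rw [natDegree_add_eq_left_of_degree_lt h1, hn]⟩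

theorem image [Fintype K] [CharP K 2] {Q ρ H : K[X]} {n m : ℕ} (hHn : H.natDegree < n)
    (hHρ : IsCoprime (H - ρ) Q) :
    RP Q ρ H n m = (fun p : K[X] => (p, p + H)) ''
      (((Irn K n).filter (fun p => Q ∣ p - ρ ∧ Sig Q (fun _ : Fin 1 => (1 : K[X])) (fun _ => H) m p) :
        Finset K[X]) : Set K[X]) := by
  ext ⟨x, y⟩
  constructor
  · rintro ⟨h1, h2, h3, -, -, h6, h7, h8⟩
    have hy : y = x + H := by
      rw [← h6, ← add_assoc, two, zero_add]
    refine ⟨x, ?_, by rw [hy]⟩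
    rw [mem_coe, mem_filter, mem_Irn]
    refine ⟨⟨h1, h2, h3⟩, h7, fun _ P hP1 hP2 hP3 _ => h8 P hP1 hP2 ?_⟩
    rw [one_mul] at hP3
    show P ∣ y
    rw [hy]
    exact hP3
  · rintro ⟨p, hp, hpx⟩
    rw [mem_coe, mem_filter, mem_Irn] at hp
    obtain ⟨⟨h1, h2, h3⟩, h7, h8⟩ := hp
    have hx : x = p := (congrArg Prod.fst hpx).symm
    have hy : y = p + H := (congrArg Prod.snd hpx).symm
    obtain ⟨h4, h5⟩ := deg_add h1 h2 hHn
    subst hx hy
    refine ⟨h1, h2, h3, h4, h5, ?_, h7, ?_⟩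
    · show x + (x + H) = H
      rw [← add_assoc, two, zero_add]
    · intro P hP1 hP2 hP3
      refine h8 0 P hP1 hP2 (by rw [one_mul]; exact hP3) fun hPQ => ?_
      have e1 : P ∣ (x + H) - (x - ρ) := dvd_sub hP3 (hPQ.trans h7)
      have e2 : (x + H) - (x - ρ) = (H - ρ) + (ρ + ρ) := by ring
      rw [e2, two, add_zero] at e1
      exact hP2.not_isUnit (hHρ.isUnit_of_dvd' e1 hPQ)

theorem inj (H : K[X]) : Function.Injective (fun p : K[X] => (p, p + H)) :=
  fun _ _ h => congrArg Prod.fst h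

end FcntN

open FcntN in
theorem fcnt : S_tfcnt := by
  intro hcnt hch hsng K _ _ _ Q hQ ε hε
  have hslo : Slo Q (fun _ : Fin 1 => (1 : K[X])) := fun _ => ⟨monic_one, sup_one Q⟩
  obtain ⟨κ1, hκ1, n1, h1⟩ := hcnt K 1 Q (fun _ => 1) ε hQ hslo hε
  obtain ⟨κ2, hκ2, n2, h2⟩ := hch K 1 Q 1 (fun _ => 1) ε hQ monic_one hslo hε
  refine ⟨min κ1 κ2, lt_min hκ1 hκ2, max n1 n2, ?_⟩
  intro n m hn hm hmn H ρ hH hHn hρ hHρ
  have hk1 : (m : ℝ) ≤ κ1 * n :=
    hmn.trans (mul_le_mul_of_nonneg_right (min_le_left _ _) (Nat.cast_nonneg _))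
  have hk2 : (m : ℝ) ≤ κ2 * n :=
    hmn.trans (mul_le_mul_of_nonneg_right (min_le_right _ _) (Nat.cast_nonneg _))
  have a1 := h1 n ((le_max_left _ _).trans hn) m ρ (fun _ => H) hm hk1 hρ
  have a2 := h2 n ((le_max_right _ _).trans hn) m ρ (fun _ => H) 0 hm hk2 hρ
    (fun _ => ⟨hH, by rw [natDegree_one, add_zero]; exact hHn⟩)
  have hv : vg Q m (fun _ : Fin 1 => (1 : K[X])) (fun _ => H) = sing (Q * H) m :=
    hsng K m Q 1 H hQ monic_one (sup_one Q)
  rw [hv] at a1 a2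
  rw [image hHn hHρ]
  constructor
  · rw [Set.ncard_image_of_injective _ (inj H), Set.ncard_coe_finset]
    exact a1
  · rw [finsum_mem_image (inj H).injOn, finsum_mem_coe_finset]
    refine le_trans (le_of_eq ?_) a2
    congr 1
    refine sum_congr rfl fun p _ => ?_
    rw [Pool.Agent.H985.Gc.Mobu.mobg_one, one_mul]

end Pool.Agent.H985.CG

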