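import Pool.Agent.H985.CG.Stm2

/-!
# Linear forms over `F_q[X]`, `q` even: the constant of `S_cntg` is the function `phiQ`
(helper77 for helper985)
-/

set_option autoImplicit false
set_option linter.all false

namespace Pool.Agent.H985.CG

open Polynomial Finset
open scoped Classical
open Pool.Agent.H694.Typ (Mn Irn PU mem_Mn mem_Irn irn_one_le irn_ge q_ge)

namespace PhiG

variable {K : Type} [Field K] [Fintype K]

theorem fin_deg (Q : K[X]) : {r : K[X] | r.degree < Q.degree}.Finite := by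
  have h : {r : K[X] | r.degree < Q.degree} ⊆
      Set.range (fun c : Fin (Q.natDegree) → K => Pool.Agent.H694.Typ.pol c) := by
    intro r hr
    have hr' : r.degree < Q.degree := hr
    have hQ : Q ≠ 0 := by
      rintro rfl
      rw [degree_zero] at hr'
      exact not_lt_bot hr'
    rw [degree_eq_natDegree hQ] at hr'
    obtain ⟨c, hc⟩ := Pool.Agent.H694.Typ.exists_pol hr'
    exact ⟨c, hc⟩
  exact (Set.finite_range _).subset h

theorem fin_red (Q : K[X]) : {r : K[X] | r.degree < Q.degree ∧ IsCoprime r Q}.Finite :=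
  (fin_deg Q).subset fun _ h => h.1

/-- the reduced residues -/
noncomputable def Rd (Q : K[X]) : Finset K[X] := (fin_red Q).toFinset

theorem mem_Rd {Q r : K[X]} : r ∈ Rd Q ↔ r.degree < Q.degree ∧ IsCoprime r Q := by
  unfold Rd
  rw [Set.Finite.mem_toFinset]
  exact Iff.rfl

theorem card_Rd (Q : K[X]) : (Rd Q).card = phiQ Q := by
  unfold Rd phiQ
  rw [Set.ncard_eq_toFinset_card _ (fin_red Q)]

/-- an irreducible polynomial of large degree is in a reduced class -/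
theorem cop {Q p : K[X]} {n : ℕ} (hQ : Q.Monic) (hn : Q.natDegree < n) (hp : p ∈ Irn K n) :
    IsCoprime p Q := by
  rw [mem_Irn] at hp
  obtain ⟨h1, h2, h3⟩ := hp
  refine (h3.coprime_iff_not_dvd).2 ?_
  intro hd
  have := natDegree_le_of_dvd hd hQ.ne_zero
  omega

theorem decomp {Q : K[X]} {n : ℕ} (hQ : Q.Monic) (hn : Q.natDegree < n) :
    ((Irn K n).card : ℝ) = ∑ r ∈ Rd Q, (((Irn K n).filter (fun p => Q ∣ p - r)).card : ℝ) := by
  have h1 : Irn K n = (Rd Q).biUnion (fun r => (Irn K n).filter (fun p => Q ∣ p - r)) := by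
    ext p
    rw [mem_biUnion]
    constructor
    · intro hp
      have hc := cop hQ hn hp
      have he := modByMonic_add_div p Q
      have hd : Q ∣ p - p %ₘ Q := ⟨p /ₘ Q, by rw [sub_eq_iff_eq_add, add_comm]; exact he.symm⟩
      refine ⟨p %ₘ Q, ?_, ?_⟩
      · rw [mem_Rd]
        refine ⟨degree_modByMonic_lt p hQ, ?_⟩
        have h2 : p %ₘ Q = p + Q * (-(p /ₘ Q)) := by
          have := he
          linear_combination this
        rw [h2]
        exact hc.add_mul_left_left _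
      · rw [mem_filter]
        exact ⟨hp, hd⟩
    · rintro ⟨r, _, hr⟩
      exact (mem_filter.1 hr).1
  have h2 : (Irn K n).card = ∑ r ∈ Rd Q, ((Irn K n).filter (fun p => Q ∣ p - r)).card := by
    conv_lhs => rw [h1]
    rw [card_biUnion]
    intro r hr r' hr' hne
    rw [Function.onFun, disjoint_left]
    intro p hp hp'
    apply hne
    rw [mem_filter] at hp hp'
    rw [mem_coe, mem_Rd] at hr hr'
    have h3 : Q ∣ r - r' := by
      have := dvd_sub hp'.2 hp.2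
      have e : p - r' - (p - r) = r - r' := by ring
      rwa [e] at this
    have h4 : (r - r').degree < Q.degree := lt_of_le_of_lt (degree_sub_le _ _) (max_lt hr.1 hr'.1)
    exact sub_eq_zero.1 (eq_zero_of_dvd_of_degree_lt h3 h4)
  exact_mod_cast h2

/-- the empty system -/
theorem vg_zero (Q : K[X]) (m : ℕ) (s b : Fin 0 → K[X]) : vg Q m s b = 1 := by
  unfold vg
  apply prod_eq_one
  intro P _
  have h : nug s b P = 0 := by
    unfold nug
    have e : {r : K[X] | r.degree < P.degree ∧ r ≠ 0 ∧ ∃ i : Fin 0, P ∣ s i * r + b i} = ∅ := by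
      ext r
      simp
    rw [e, Set.ncard_empty]
    norm_num
  rw [h, zero_div, sub_zero]

theorem filt (Q r : K[X]) (m n : ℕ) (s b : Fin 0 → K[X]) :
    (Irn K n).filter (fun p => Q ∣ p - r ∧ Sig Q s b m p) = (Irn K n).filter (fun p => Q ∣ p - r) := by
  apply filter_congr
  intro p _
  constructor
  · exact fun h => h.1
  · exact fun h => ⟨h, fun i => i.elim0⟩

theorem pnt {n : ℕ} (hn : 0 < n) :
    |(n : ℝ) * ((Irn K n).card : ℝ) - (Fintype.card K : ℝ) ^ n| ≤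
      2 * (Fintype.card K : ℝ) ^ (n / 2) := by
  have h1 : (n : ℝ) * ((Irn K n).card : ℝ) ≤ (Fintype.card K : ℝ) ^ n := by
    exact_mod_cast irn_one_le (k := K) hn
  have h2 : (Fintype.card K : ℝ) ^ n ≤ (n : ℝ) * ((Irn K n).card : ℝ) +
      2 * (Fintype.card K : ℝ) ^ (n / 2) := by
    exact_mod_cast irn_ge (k := K) hn
  rw [abs_le]
  constructor
  · linarith
  · have : (0 : ℝ) ≤ 2 * (Fintype.card K : ℝ) ^ (n / 2) := by positivity
    linarith

theorem eqphi (h : S_cntg) [CharP K 2] {Q : K[X]} (hQ : Q.Monic) (φ : ℝ) (hφ : 0 < φ)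
    (H : ∀ (k : ℕ) (s : Fin k → K[X]) (ε : ℝ), Slo Q s → 0 < ε → ∃ κ : ℝ, 0 < κ ∧
    ∃ n₀ : ℕ, ∀ n : ℕ, n₀ ≤ n → ∀ (m : ℕ) (ρ : K[X]) (b : Fin k → K[X]), 1 ≤ m →
      (m : ℝ) ≤ κ * n → IsCoprime ρ Q →
      |(((Irn K n).filter (fun p => Q ∣ p - ρ ∧ Sig Q s b m p)).card : ℝ) -
        vg Q m s b * (Fintype.card K : ℝ) ^ n / (n * φ)| ≤
        ε * (vg Q m s b * (Fintype.card K : ℝ) ^ n / n)) : φ = (phiQ Q : ℝ) := by
  have hq : (2 : ℝ) ≤ (Fintype.card K : ℝ) := q_ge (k := K)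
  have key : ∀ ε : ℝ, 0 < ε → |1 - (phiQ Q : ℝ) / φ| ≤ ((phiQ Q : ℝ) + 1) * ε := by
    intro ε hε
    obtain ⟨κ, hκ, n₀, h1⟩ := H 0 (fun i => i.elim0) ε (fun i => i.elim0) hε
    obtain ⟨n₁, hn₁⟩ := exists_nat_gt (1 / κ)
    obtain ⟨n₂, hn₂⟩ := exists_pow_lt_of_lt_one (show (0 : ℝ) < ε / 2 by positivity)
      (show (1 / 2 : ℝ) < 1 by norm_num)
    set n : ℕ := n₀ + n₁ + 2 * n₂ + Q.natDegree + 1 with hn
    have hn0 : 0 < n := by omega
    have hnR : (0 : ℝ) < n := by exact_mod_cast hn0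
    have hqn : (0 : ℝ) < (Fintype.card K : ℝ) ^ n := by positivity
    have hκn : ((1 : ℕ) : ℝ) ≤ κ * n := by
      have h2 : (n₁ : ℝ) ≤ n := by exact_mod_cast (show n₁ ≤ n by omega)
      have h3 : 1 / κ ≤ n := le_trans hn₁.le h2
      rw [div_le_iff₀ hκ] at h3
      push_cast
      linarith
    have h2 : ∀ r ∈ Rd Q, |(((Irn K n).filter (fun p => Q ∣ p - r)).card : ℝ) -
        (Fintype.card K : ℝ) ^ n / (n * φ)| ≤ ε * ((Fintype.card K : ℝ) ^ n / n) := by
      intro r hr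
      rw [mem_Rd] at hr
      have h3 := h1 n (by omega) 1 r (fun i => i.elim0) le_rfl hκn hr.2
      rw [filt, vg_zero, one_mul] at h3
      exact h3
    have h4 : |((Irn K n).card : ℝ) - (phiQ Q : ℝ) * ((Fintype.card K : ℝ) ^ n / (n * φ))| ≤
        (phiQ Q : ℝ) * (ε * ((Fintype.card K : ℝ) ^ n / n)) := by
      have e1 : ((Rd Q).card : ℝ) * ((Fintype.card K : ℝ) ^ n / (n * φ)) =
          ∑ r ∈ Rd Q, ((Fintype.card K : ℝ) ^ n / (n * φ)) := by rw [sum_const, nsmul_eq_mul]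
      have e2 : ((Rd Q).card : ℝ) * (ε * ((Fintype.card K : ℝ) ^ n / n)) =
          ∑ r ∈ Rd Q, (ε * ((Fintype.card K : ℝ) ^ n / n)) := by rw [sum_const, nsmul_eq_mul]
      rw [decomp hQ (show Q.natDegree < n by omega), ← card_Rd, e1, e2, ← sum_sub_distrib]
      exact le_trans (abs_sum_le_sum_abs _ _) (sum_le_sum h2)
    have h5 := pnt (K := K) hn0
    have h6 : (Fintype.card K : ℝ) ^ (n / 2) * (2 : ℝ) ^ n₂ ≤ (Fintype.card K : ℝ) ^ n := by
      have h7 : (2 : ℝ) ^ n₂ ≤ (Fintype.card K : ℝ) ^ n₂ := pow_le_pow_left₀ (by norm_num) hq _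
      calc (Fintype.card K : ℝ) ^ (n / 2) * (2 : ℝ) ^ n₂ ≤
          (Fintype.card K : ℝ) ^ (n / 2) * (Fintype.card K : ℝ) ^ n₂ :=
            mul_le_mul_of_nonneg_left h7 (by positivity)
        _ = (Fintype.card K : ℝ) ^ (n / 2 + n₂) := by rw [pow_add]
        _ ≤ (Fintype.card K : ℝ) ^ n := pow_le_pow_right₀ (by linarith) (by omega)
    have h8 : 2 * (Fintype.card K : ℝ) ^ (n / 2) ≤ ε * (Fintype.card K : ℝ) ^ n := by
      have h9 : (1 / 2 : ℝ) ^ n₂ * (2 : ℝ) ^ n₂ = 1 := by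
        rw [← mul_pow]; norm_num
      have h10 : (0 : ℝ) < (2 : ℝ) ^ n₂ := by positivity
      have h11 : 1 ≤ ε / 2 * (2 : ℝ) ^ n₂ := by
        rw [← h9]
        exact mul_le_mul_of_nonneg_right hn₂.le h10.le
      have h12 : (0 : ℝ) ≤ (Fintype.card K : ℝ) ^ (n / 2) := by positivity
      calc 2 * (Fintype.card K : ℝ) ^ (n / 2) = 2 * ((Fintype.card K : ℝ) ^ (n / 2) * 1) := by ring
        _ ≤ 2 * ((Fintype.card K : ℝ) ^ (n / 2) * (ε / 2 * (2 : ℝ) ^ n₂)) := by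
          have := mul_le_mul_of_nonneg_left h11 h12
          linarith
        _ = ε * ((Fintype.card K : ℝ) ^ (n / 2) * (2 : ℝ) ^ n₂) := by ring
        _ ≤ ε * (Fintype.card K : ℝ) ^ n := mul_le_mul_of_nonneg_left h6 hε.le
    have h13 : (n : ℝ) * ((phiQ Q : ℝ) * ((Fintype.card K : ℝ) ^ n / (n * φ))) =
        (phiQ Q : ℝ) / φ * (Fintype.card K : ℝ) ^ n := by
      field_simp
    have h14 : (n : ℝ) * ((phiQ Q : ℝ) * (ε * ((Fintype.card K : ℝ) ^ n / n))) =
        (phiQ Q : ℝ) * ε * (Fintype.card K : ℝ) ^ n := by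
      field_simp
    have h15 : |(n : ℝ) * ((Irn K n).card : ℝ) - (phiQ Q : ℝ) / φ * (Fintype.card K : ℝ) ^ n| ≤
        (phiQ Q : ℝ) * ε * (Fintype.card K : ℝ) ^ n := by
      rw [← h13, ← h14, ← mul_sub, abs_mul, abs_of_pos hnR]
      exact mul_le_mul_of_nonneg_left h4 hnR.le
    have h16 : |(1 - (phiQ Q : ℝ) / φ) * (Fintype.card K : ℝ) ^ n| ≤
        ((phiQ Q : ℝ) + 1) * ε * (Fintype.card K : ℝ) ^ n := by
      have e : (1 - (phiQ Q : ℝ) / φ) * (Fintype.card K : ℝ) ^ n =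
          ((n : ℝ) * ((Irn K n).card : ℝ) - (phiQ Q : ℝ) / φ * (Fintype.card K : ℝ) ^ n) -
          ((n : ℝ) * ((Irn K n).card : ℝ) - (Fintype.card K : ℝ) ^ n) := by ring
      rw [e]
      refine le_trans (abs_sub _ _) ?_
      nlinarith [h15, h5, h8]
    rw [abs_mul, abs_of_pos hqn] at h16
    exact le_of_mul_le_mul_right h16 hqn
  have h0 : |1 - (phiQ Q : ℝ) / φ| ≤ 0 := by
    apply le_of_forall_pos_le_add
    intro δ hδ
    have h1 := key (δ / ((phiQ Q : ℝ) + 1)) (by positivity)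
    have h2 : ((phiQ Q : ℝ) + 1) * (δ / ((phiQ Q : ℝ) + 1)) = δ := by field_simp
    rw [h2] at h1
    linarith
  have h3 : 1 - (phiQ Q : ℝ) / φ = 0 := abs_nonpos_iff.1 h0
  have h4 : (phiQ Q : ℝ) / φ = 1 := by linarith
  rw [div_eq_one_iff_eq hφ.ne'] at h4
  exact h4.symm

end PhiG

theorem cntp (h : S_cntg) : S_cntp := by
  intro K _ _ _ k Q s ε hQ hs hε
  obtain ⟨φ, hφ, H⟩ := h K Q hQ
  have e := PhiG.eqphi h hQ φ hφ H
  subst e
  exact H k s ε hs hε

end Pool.Agent.H985.CG
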