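import Mathlib
import Pool.Agent.H985.CG.Stm3
import Pool.Agent.H985.CG.Fin1
import Pool.Agent.H985.CG.Phi

/-!
# One prime and one almost prime over `F_q[X]`, `q` even: the number of the primes `p` such that
`a + p * d` has no small prime factor (helper653 for helper985)
-/

set_option autoImplicit false

namespace Pool.Agent.H985.CG

open Polynomial Finset
open scoped Classical
open Pool.Agent.H694.Typ (Mn Irn PU mem_Irn)

namespace GcntG

variable {K : Type} [Field K]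

/-- the leading coefficient, as a unit -/
theorem unitC {d : K[X]} (hd : d ≠ 0) : IsUnit (C (d.leadingCoeff)⁻¹ : K[X]) := nrm_unit hd

theorem dvd_mul_unit {P x u : K[X]} (hu : IsUnit u) : P ∣ x * u ↔ P ∣ x :=
  hu.dvd_mul_right

/-- the classes -/
theorem mod_iff {Q p r : K[X]} (hQ : Q.Monic) (hr : r.degree < Q.degree) :
    p %ₘ Q = r ↔ Q ∣ p - r := by
  have he := modByMonic_add_div p Q
  constructor
  · rintro rfl
    exact ⟨p /ₘ Q, by rw [sub_eq_iff_eq_add, add_comm]; exact he.symm⟩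
  · intro h
    have h1 : Q ∣ p %ₘ Q - r := by
      have e : p %ₘ Q - r = (p - r) - Q * (p /ₘ Q) := by
        linear_combination he
      rw [e]
      exact dvd_sub h (dvd_mul_right _ _)
    have h2 : (p %ₘ Q - r).degree < Q.degree :=
      lt_of_le_of_lt (degree_sub_le _ _) (max_lt (degree_modByMonic_lt p hQ) hr)
    exact sub_eq_zero.1 (eq_zero_of_dvd_of_degree_lt h1 h2)

theorem mod_cop {Q p : K[X]} (hc : IsCoprime p Q) : IsCoprime (p %ₘ Q) Q := by
  have h2 : p %ₘ Q = p + Q * (-(p /ₘ Q)) := by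
    have := modByMonic_add_div p Q
    linear_combination this
  rw [h2]
  exact hc.add_mul_left_left _

variable [Fintype K]

theorem phi_pos {Q : K[X]} (hQ : Q.Monic) : 0 < phiQ Q := by
  rw [← PhiG.card_Rd, Finset.card_pos]
  exact ⟨1 %ₘ Q, PhiG.mem_Rd.2 ⟨degree_modByMonic_lt 1 hQ, mod_cop isCoprime_one_left⟩⟩

theorem split {Q : K[X]} {n : ℕ} (hQ : Q.Monic) (hn : Q.natDegree < n) (R : K[X] → Prop) :
    ((Irn K n).filter (fun p => R p)).card =
      ∑ r ∈ PhiG.Rd Q, ((Irn K n).filter (fun p => Q ∣ p - r ∧ R p)).card := by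
  rw [Finset.card_eq_sum_card_fiberwise (f := fun p => p %ₘ Q) (t := PhiG.Rd Q)]
  · apply Finset.sum_congr rfl
    intro r hr
    rw [PhiG.mem_Rd] at hr
    congr 1
    rw [Finset.filter_filter]
    apply Finset.filter_congr
    intro p _
    rw [mod_iff hQ hr.1]
    exact and_comm
  · intro p hp
    rw [Finset.mem_coe, mem_filter] at hp
    rw [Finset.mem_coe, PhiG.mem_Rd]
    exact ⟨degree_modByMonic_lt p hQ, mod_cop (PhiG.cop hQ hn hp.1)⟩

theorem sp_eq {a d : K[X]} (hd : d ≠ 0) (hc : IsCoprime a d) (n m : ℕ) :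
    SP a d n m = (((Irn K n).filter (fun p => Sig (nrm d) (fun _ : Fin 1 => nrm d)
      (fun _ => a * C (d.leadingCoeff)⁻¹) m p) : Finset K[X]) : Set K[X]) := by
  have e : ∀ p : K[X], nrm d * p + a * C (d.leadingCoeff)⁻¹ =
      (a + p * d) * C (d.leadingCoeff)⁻¹ := by
    intro p
    unfold nrm
    ring
  ext p
  rw [Finset.mem_coe, mem_filter, mem_Irn]
  constructor
  · rintro ⟨h1, h2, h3, h4⟩
    refine ⟨⟨h1, h2, h3⟩, ?_⟩
    intro _ P hP hPi hPd _
    have h5 : P ∣ nrm d * p + a * C (d.leadingCoeff)⁻¹ := hPd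
    rw [e, dvd_mul_unit (unitC hd)] at h5
    exact h4 P hP hPi h5
  · rintro ⟨⟨h1, h2, h3⟩, h4⟩
    refine ⟨h1, h2, h3, ?_⟩
    intro P hP hPi hPd
    refine h4 0 P hP hPi ?_ ?_
    · show P ∣ nrm d * p + a * C (d.leadingCoeff)⁻¹
      rw [e, dvd_mul_unit (unitC hd)]
      exact hPd
    · intro hPQ
      have h5 : P ∣ d := by
        unfold nrm at hPQ
        rwa [dvd_mul_unit (unitC hd)] at hPQ
      have h6 : P ∣ a := by
        have e2 : a = (a + p * d) - p * d := by ring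
        rw [e2]
        exact dvd_sub hPd (h5.mul_left p)
      exact hPi.not_isUnit (hc.isUnit_of_dvd' h6 h5)

theorem sing_eq {a d : K[X]} (hd : d ≠ 0) (m : ℕ) :
    sing (nrm d * (a * C (d.leadingCoeff)⁻¹)) m = sing (a * d) m := by
  have e : nrm d * (a * C (d.leadingCoeff)⁻¹) =
      (a * d) * (C (d.leadingCoeff)⁻¹ * C (d.leadingCoeff)⁻¹) := by
    unfold nrm
    ring
  unfold sing
  simp only [e, dvd_mul_unit ((unitC hd).mul (unitC hd))]

end GcntG

open GcntG

theorem gcnt : S_tgcnt := by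
  intro hcnt hsng K _ _ _ d hd ε hε
  have hQ : (nrm d).Monic := nrm_monic hd
  have hφ : (0 : ℝ) < (phiQ (nrm d) : ℝ) := by exact_mod_cast phi_pos hQ
  have hslo : Slo (nrm d) (fun _ : Fin 1 => nrm d) := fun _ => ⟨hQ, fun _ _ h => h⟩
  obtain ⟨κ, hκ, n₀, h⟩ := hcnt K 1 (nrm d) (fun _ => nrm d) (ε / phiQ (nrm d)) hQ hslo
    (div_pos hε hφ)
  refine ⟨κ, hκ, max n₀ (d.natDegree + 1), ?_⟩
  intro n m hn hm hmk a hc
  have hn0 : n₀ ≤ n := (le_max_left _ _).trans hn
  have hn1 : (nrm d).natDegree < n := by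
    rw [nrm_deg]
    have := (le_max_right n₀ (d.natDegree + 1)).trans hn
    omega
  have hnR : (0 : ℝ) < n := by
    have : 0 < n := by omega
    exact_mod_cast this
  set b : Fin 1 → K[X] := fun _ => a * C (d.leadingCoeff)⁻¹ with hb
  have hvg : vg (nrm d) m (fun _ : Fin 1 => nrm d) b = sing (a * d) m := by
    rw [hb, hsng K m (nrm d) (nrm d) (a * C (d.leadingCoeff)⁻¹) hQ hQ (fun _ _ h => h),
      sing_eq hd]
  have hcard : ((SP a d n m).ncard : ℝ) = ∑ r ∈ PhiG.Rd (nrm d),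
      (((Irn K n).filter (fun p => nrm d ∣ p - r ∧
        Sig (nrm d) (fun _ : Fin 1 => nrm d) b m p)).card : ℝ) := by
    rw [sp_eq hd hc, Set.ncard_coe_finset,
      split hQ hn1 (fun p => Sig (nrm d) (fun _ : Fin 1 => nrm d) b m p)]
    push_cast
    rfl
  set Vv : ℝ := sing (a * d) m * (Fintype.card K : ℝ) ^ n / n with hVv
  have hterm : ∀ r ∈ PhiG.Rd (nrm d), |(((Irn K n).filter (fun p => nrm d ∣ p - r ∧
      Sig (nrm d) (fun _ : Fin 1 => nrm d) b m p)).card : ℝ) - Vv / phiQ (nrm d)| ≤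
      ε / phiQ (nrm d) * Vv := by
    intro r hr
    rw [PhiG.mem_Rd] at hr
    have h1 := h n hn0 m r b hm hmk hr.2
    rw [hvg] at h1
    have e : sing (a * d) m * (Fintype.card K : ℝ) ^ n / (n * (phiQ (nrm d) : ℝ)) =
        Vv / phiQ (nrm d) := by
      rw [hVv, div_div]
    rw [e] at h1
    exact h1
  have hsum : ∑ _r ∈ PhiG.Rd (nrm d), Vv / phiQ (nrm d) = Vv := by
    rw [sum_const, PhiG.card_Rd, nsmul_eq_mul]
    field_simp
  have hsum2 : ∑ _r ∈ PhiG.Rd (nrm d), ε / phiQ (nrm d) * Vv = ε * Vv := by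
    rw [sum_const, PhiG.card_Rd, nsmul_eq_mul]
    field_simp
  calc |((SP a d n m).ncard : ℝ) - Vv|
      = |∑ r ∈ PhiG.Rd (nrm d), ((((Irn K n).filter (fun p => nrm d ∣ p - r ∧
          Sig (nrm d) (fun _ : Fin 1 => nrm d) b m p)).card : ℝ) - Vv / phiQ (nrm d))| := by
        rw [Finset.sum_sub_distrib, hsum, hcard]
    _ ≤ ∑ r ∈ PhiG.Rd (nrm d), |(((Irn K n).filter (fun p => nrm d ∣ p - r ∧
          Sig (nrm d) (fun _ : Fin 1 => nrm d) b m p)).card : ℝ) - Vv / phiQ (nrm d)| :=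
        Finset.abs_sum_le_sum_abs _ _
    _ ≤ ∑ _r ∈ PhiG.Rd (nrm d), ε / phiQ (nrm d) * Vv := Finset.sum_le_sum hterm
    _ = ε * Vv := hsum2

end Pool.Agent.H985.CG
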