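import Mathlib
import Pool.Agent.H985.CG.Adm
import Pool.Agent.H985.CG.Vph
import Pool.Agent.H985.US.Few

/-!
# The order of magnitude of the number of the representations as a sum of a prime and an almost prime
of prescribed parity over `F_q[X]`, `q` even (helper985)
-/

set_option autoImplicit false
set_option maxHeartbeats 1000000

namespace Pool.Agent.H985.CG

open Polynomial Finset
open scoped Classical
open Pool.Agent.H985.Chow (mob)
open Pool.Agent.H985.CH (Sp Shf vp s_chen s_cnt vpl Irn_sub add_mem_Mn)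
open Pool.Agent.H985.Par (Sft Sft_irr factors_le)
open Pool.Agent.H694.Typ (Mn Irn mem_Mn mem_Irn card_Mn PU mem_PU)
open UniqueFactorizationMonoid (factors)

/-- **The exact order.** -/
theorem gold (K : Type) [Field K] [Fintype K] [CharP K 2] (hK : Even (Fintype.card K)) :
    ∃ (r : ℕ) (c C : ℝ), 0 < c ∧ 0 < C ∧ ∃ n₀ : ℕ, ∀ n : ℕ, n₀ ≤ n →
      ∀ H : K[X], H ≠ 0 → H.natDegree < n → (Fintype.card K = 2 → X * (X + 1) ∣ H) →
      ∀ σ : ℤ, σ = 1 ∨ σ = -1 →
        c * ((Fintype.card K : ℝ) ^ H.natDegree / (phiQ H : ℝ)) *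
            ((Fintype.card K : ℝ) ^ n / (n : ℝ) ^ 2) ≤
          (((Irn K n).filter (fun p => (Squarefree (p + H) ∧
            Multiset.card (factors (p + H)) ≤ r ∧
              ∀ P : K[X], Irreducible P → P ∣ p + H → n ≤ (r + 1) * P.natDegree) ∧
                mob (p + H) = σ)).card : ℝ) ∧
        (((Irn K n).filter (fun p => (Squarefree (p + H) ∧
            Multiset.card (factors (p + H)) ≤ r ∧
              ∀ P : K[X], Irreducible P → P ∣ p + H → n ≤ (r + 1) * P.natDegree) ∧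
                mob (p + H) = σ)).card : ℝ) ≤
          C * ((Fintype.card K : ℝ) ^ H.natDegree / (phiQ H : ℝ)) *
            ((Fintype.card K : ℝ) ^ n / (n : ℝ) ^ 2) := by
  obtain ⟨κ₁, hκ₁, n₁, hchen⟩ := s_chen K 1 (1 / 4) (by norm_num)
  obtain ⟨κ₂, hκ₂, n₂, hcnt⟩ := s_cnt K 1 (1 / 4) (by norm_num)
  obtain ⟨c₁, hc₁, hvpl⟩ := vpl K 1
  obtain ⟨κ, hκ⟩ : ∃ κ : ℝ, κ = min (min κ₁ κ₂) 1 := ⟨_, rfl⟩
  have hκ0 : 0 < κ := by rw [hκ]; exact lt_min (lt_min hκ₁ hκ₂) one_pos
  have hκ1 : κ ≤ κ₁ := by rw [hκ]; exact (min_le_left _ _).trans (min_le_left _ _)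
  have hκ2 : κ ≤ κ₂ := by rw [hκ]; exact (min_le_left _ _).trans (min_le_right _ _)
  have hκ3 : κ ≤ 1 := by rw [hκ]; exact min_le_right _ _
  obtain ⟨r, hr⟩ := exists_nat_ge (1 / κ)
  have hr1 : 1 ≤ (r : ℝ) * κ := by rwa [div_le_iff₀ hκ0] at hr
  have hq : (2 : ℝ) ≤ (Fintype.card K : ℝ) := by
    exact_mod_cast Fintype.one_lt_card (α := K)
  obtain ⟨c₀, C₀, hc₀, hC₀, hvph⟩ := vphi K (2 * (r + 2)) hK
  obtain ⟨n₃, hn₃⟩ := Pool.Agent.H985.US.pow_lim 2 24 c₁ κ hc₁ hκ0 (by norm_num)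
  refine ⟨r, c₀ / 8, 5 / 4 * C₀ * (2 * (r + 2)), by positivity, by positivity,
    max (max n₁ n₂) (max n₃ (max (⌈2 / κ⌉₊ + 1) (2 * (r + 2)))), ?_⟩
  intro n hn H hH0 hHd hH2 σ hσ
  have hnn₁ : n₁ ≤ n := le_trans (le_trans (le_max_left _ _) (le_max_left _ _)) hn
  have hnn₂ : n₂ ≤ n := le_trans (le_trans (le_max_right _ _) (le_max_left _ _)) hn
  have hnn₃ : n₃ ≤ n := le_trans (le_trans (le_max_left _ _) (le_max_right _ _)) hn
  have hnn₄ : ⌈2 / κ⌉₊ + 1 ≤ n := le_trans (le_trans (le_trans (le_max_left _ _)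
    (le_max_right _ _)) (le_max_right _ _)) hn
  have hnn₅ : 2 * (r + 2) ≤ n := le_trans (le_trans (le_trans (le_max_right _ _)
    (le_max_right _ _)) (le_max_right _ _)) hn
  have hn1 : 1 ≤ n := by omega
  have hnpos : (0 : ℝ) < n := by exact_mod_cast hn1
  have hn2 : 2 ≤ κ * n := by
    have h1 : 2 / κ ≤ n := (Nat.le_ceil _).trans (by exact_mod_cast (by omega : ⌈2 / κ⌉₊ ≤ n))
    rw [div_le_iff₀ hκ0] at h1
    linarith
  set h : Fin 1 → K[X] := fun _ => H with hh
  have hshf : Shf n h := fun _ => ⟨hH0, hHd⟩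
  have hadm : ∀ P : K[X], P.Monic → Irreducible P → ∃ x : K[X], ¬ P ∣ x ∧ ∀ i, ¬ P ∣ x + h i := by
    intro P hP hPi
    obtain ⟨x, hx0, hx1⟩ := avoid hK hP hPi 1 H (fun hc hd => by
      rw [one_mul]
      exact (dvd_XX hK hP hPi hc hd).trans (hH2 hc)) (fun h => hPi.not_isUnit
        (isUnit_of_dvd_one h))
    exact ⟨x, hx0, fun _ => by rwa [one_mul] at hx1⟩
  set q : ℝ := (Fintype.card K : ℝ) with hqdef
  set E : ℝ := q ^ H.natDegree / (phiQ H : ℝ) with hE
  have hE0 : 0 ≤ E := by positivity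
  constructor
  · -- the lower bound
    obtain ⟨m, hm⟩ : ∃ m : ℕ, m = ⌊κ * n⌋₊ := ⟨_, rfl⟩
    have hm1 : (m : ℝ) ≤ κ * n := by rw [hm]; exact Nat.floor_le (by positivity)
    have hm2 : κ * n < (m : ℝ) + 1 := by rw [hm]; exact Nat.lt_floor_add_one _
    have hm3 : 1 ≤ m := by
      have : (1 : ℝ) < (m : ℝ) := by linarith
      have h : 1 < m := by exact_mod_cast this
      omega
    have hmn : (m : ℝ) ≤ n := hm1.trans (by
      have := mul_le_mul_of_nonneg_right hκ3 hnpos.le
      linarith)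
    have hmpos : (0 : ℝ) < m := by exact_mod_cast hm3
    have hHm : H.natDegree ≤ 2 * (r + 2) * m := by
      have h1 : (n : ℝ) ≤ 2 * (r + 2) * m := by
        have h2 : κ * n ≤ 2 * m := by linarith
        have h3 : (1 : ℝ) * n ≤ r * κ * n := mul_le_mul_of_nonneg_right hr1 hnpos.le
        have h4 : (r : ℝ) * (κ * n) ≤ r * (2 * m) := mul_le_mul_of_nonneg_left h2 (by positivity)
        have h5 : (r : ℝ) * (κ * n) = r * κ * n := by ring
        have h6 : 2 * ((r : ℝ) + 2) * m = r * (2 * m) + 4 * m := by ring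
        linarith
      have h2 : n ≤ 2 * (r + 2) * m := by exact_mod_cast h1
      omega
    obtain ⟨hv1, -⟩ := hvph m H hm3 hH0 hHm hH2
    have e1 := hchen n hnn₁ m h 0 hm3 (hm1.trans (mul_le_mul_of_nonneg_right (by assumption) hnpos.le)) hshf
    have e2 := hcnt n hnn₂ m h hm3 (hm1.trans (mul_le_mul_of_nonneg_right (by assumption) hnpos.le))
    obtain ⟨-, hv, -⟩ := hvpl m h hm3
    have e3 := hv (fun P hP => hadm P (mem_PU.1 hP).1 (mem_PU.1 hP).2.1)
    set V : ℝ := vp m h * q ^ n / n with hV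
    have hVlow : c₁ * q ^ n / (n : ℝ) ^ 2 ≤ V := by
      have h1 : c₁ / n ≤ vp m h := by
        refine le_trans ?_ e3
        rw [pow_one]
        exact div_le_div_of_nonneg_left hc₁.le hmpos hmn
      calc c₁ * q ^ n / (n : ℝ) ^ 2 = c₁ / n * q ^ n / n := by
            field_simp
        _ ≤ vp m h * q ^ n / n :=
            div_le_div_of_nonneg_right (mul_le_mul_of_nonneg_right h1 (by positivity)) hnpos.le
    have hVE : c₀ * E * (q ^ n / (n : ℝ) ^ 2) ≤ V := by
      have h1 : c₀ * E / n ≤ vp m h := by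
        refine le_trans ?_ hv1
        exact div_le_div_of_nonneg_left (by positivity) hmpos hmn
      calc c₀ * E * (q ^ n / (n : ℝ) ^ 2) = c₀ * E / n * q ^ n / n := by
            field_simp
        _ ≤ vp m h * q ^ n / n :=
            div_le_div_of_nonneg_right (mul_le_mul_of_nonneg_right h1 (by positivity)) hnpos.le
    have e4 := Pool.Agent.H985.CH.bad_card n m h hshf
    have e5 := Pool.Agent.H985.CH.half n m h 0 σ hσ
    change |∑ p ∈ Sp K h n m, (mob (p + h 0) : ℝ)| ≤ _ at e1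
    change |((Sp K h n m).card : ℝ) - _| ≤ _ at e2
    rw [abs_le] at e2
    have e6 : 12 * (((1 : ℕ) : ℝ) * (q ^ n * (2 / q ^ (m + 1)))) ≤ V := by
      refine le_trans ?_ hVlow
      have h1 : (2 : ℝ) ^ (κ * (n : ℝ)) ≤ q ^ (m + 1) := by
        calc (2 : ℝ) ^ (κ * (n : ℝ)) ≤ 2 ^ ((m + 1 : ℕ) : ℝ) := by
              apply Real.rpow_le_rpow_of_exponent_le (by norm_num)
              push_cast
              linarith
          _ = 2 ^ (m + 1) := Real.rpow_natCast _ _
          _ ≤ q ^ (m + 1) := pow_le_pow_left₀ (by norm_num) hq _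
      have h2 := hn₃ n hnn₃
      have h3 : 24 * (n : ℝ) ^ 2 ≤ c₁ * q ^ (m + 1) :=
        h2.trans (mul_le_mul_of_nonneg_left h1 hc₁.le)
      rw [le_div_iff₀ (by positivity)]
      have h4 : 12 * (((1 : ℕ) : ℝ) * (q ^ n * (2 / q ^ (m + 1)))) * (n : ℝ) ^ 2 =
          q ^ n * (24 * (n : ℝ) ^ 2) / q ^ (m + 1) := by
        push_cast
        ring
      rw [h4, div_le_iff₀ (by positivity)]
      have h5 : q ^ n * (24 * (n : ℝ) ^ 2) ≤ q ^ n * (c₁ * q ^ (m + 1)) :=
        mul_le_mul_of_nonneg_left h3 (by positivity)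
      linarith
    have hVpos : 0 ≤ V := le_trans (by positivity) hVlow
    have e7 : V / 8 ≤ (((Sp K h n m).filter
        (fun p => (∀ i, Squarefree (p + h i)) ∧ mob (p + h 0) = σ)).card : ℝ) := by
      linarith [e2.1]
    have e8 : c₀ / 8 * E * (q ^ n / (n : ℝ) ^ 2) ≤ V / 8 := by
      have : c₀ / 8 * E * (q ^ n / (n : ℝ) ^ 2) = (c₀ * E * (q ^ n / (n : ℝ) ^ 2)) / 8 := by ring
      rw [this]
      linarith
    refine (e8.trans e7).trans ?_
    norm_cast
    refine Finset.card_le_card fun p hp => ?_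
    rw [mem_filter] at hp
    obtain ⟨hp1, hp2, hp3⟩ := hp
    unfold Sp at hp1
    rw [mem_filter] at hp1
    obtain ⟨hp1, hp4⟩ := hp1
    have hp4' : Sft m (p + H) := hp4 0
    rw [mem_filter]
    refine ⟨hp1, ⟨hp2 0, ?_, ?_⟩, hp3⟩
    · have hfi := add_mem_Mn (Irn_sub hp1) hHd
      rw [mem_Mn] at hfi
      have h8 := factors_le hfi.1.ne_zero hfi.2.le hp4'
      have h9 : (Multiset.card (factors (p + H)) : ℝ) * (κ * n) ≤ n := by
        have h10 : ((Multiset.card (factors (p + H)) : ℝ)) * ((m : ℝ) + 1) ≤ n := by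
          exact_mod_cast h8
        refine le_trans ?_ h10
        exact mul_le_mul_of_nonneg_left hm2.le (by positivity)
      have h11 : (Multiset.card (factors (p + H)) : ℝ) * κ ≤ 1 := by
        have h12 : ((Multiset.card (factors (p + H)) : ℝ) * κ) * n ≤ 1 * n := by linarith
        exact le_of_mul_le_mul_right h12 hnpos
      have h13 : (Multiset.card (factors (p + H)) : ℝ) ≤ r := by
        refine le_trans ?_ hr
        rw [le_div_iff₀ hκ0]
        exact h11
      exact_mod_cast h13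
    · intro P hP hPd
      have h8 := Sft_irr hp4' hP hPd
      have h9 : (n : ℝ) ≤ ((r : ℝ) + 1) * P.natDegree := by
        have h10 : ((m : ℝ) + 1) ≤ P.natDegree := by exact_mod_cast h8
        have h11 : (n : ℝ) ≤ r * (κ * n) := by
          have h14 : (1 : ℝ) * n ≤ r * κ * n := mul_le_mul_of_nonneg_right hr1 hnpos.le
          linarith [mul_assoc (r : ℝ) κ n]
        have h12 : r * (κ * n) ≤ (r : ℝ) * P.natDegree :=
          mul_le_mul_of_nonneg_left (by linarith) (by positivity)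
        have h13 : (0 : ℝ) ≤ P.natDegree := by positivity
        linarith
      exact_mod_cast h9
  · -- the upper bound
    obtain ⟨m, hm⟩ : ∃ m : ℕ, m = n / (r + 2) := ⟨_, rfl⟩
    have hm3 : 1 ≤ m := by
      rw [hm, Nat.one_le_div_iff (by omega)]
      omega
    have hmpos : (0 : ℝ) < m := by exact_mod_cast hm3
    have hm4 : m * (r + 2) ≤ n := by rw [hm]; exact Nat.div_mul_le_self _ _
    have hm5 : n ≤ 2 * (r + 2) * m := by
      have h1 : n < m * (r + 2) + (r + 2) := by
        rw [hm]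
        exact Nat.lt_div_mul_add (by omega)
      have h2 : 1 * (r + 2) ≤ m * (r + 2) := Nat.mul_le_mul_right _ hm3
      have h3 : 2 * (r + 2) * m = m * (r + 2) + m * (r + 2) := by ring
      omega
    have hm1 : (m : ℝ) ≤ κ * n := by
      have h1 : (m : ℝ) * (r + 2) ≤ n := by exact_mod_cast hm4
      have h2 : (m : ℝ) * 1 ≤ m * (r * κ) := mul_le_mul_of_nonneg_left hr1 hmpos.le
      have h4 : (m : ℝ) * r ≤ n := by linarith [mul_add (m : ℝ) r 2]
      have h3 : κ * (m * r) ≤ κ * n := mul_le_mul_of_nonneg_left h4 hκ0.le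
      have h5 : (m : ℝ) * (r * κ) = κ * (m * r) := by ring
      linarith
    obtain ⟨-, hv2⟩ := hvph m H hm3 hH0 (by omega) hH2
    have e2 := hcnt n hnn₂ m h hm3 (hm1.trans (mul_le_mul_of_nonneg_right (by assumption) hnpos.le))
    change |((Sp K h n m).card : ℝ) - _| ≤ _ at e2
    rw [abs_le] at e2
    have hsub : ((Irn K n).filter (fun p => (Squarefree (p + H) ∧
            Multiset.card (factors (p + H)) ≤ r ∧
              ∀ P : K[X], Irreducible P → P ∣ p + H → n ≤ (r + 1) * P.natDegree) ∧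
                mob (p + H) = σ)) ⊆ Sp K h n m := by
      intro p hp
      rw [mem_filter] at hp
      obtain ⟨hp1, ⟨-, -, hp2⟩, -⟩ := hp
      unfold Sp
      rw [mem_filter]
      refine ⟨hp1, fun i P hP hPi hPd => ?_⟩
      have h1 := hp2 P hPi hPd
      have h2 := hPi.natDegree_pos
      by_contra hcon
      push Not at hcon
      have h3 : (r + 2) * P.natDegree ≤ m * (r + 2) := by
        rw [mul_comm m]
        exact Nat.mul_le_mul_left _ hcon
      have h4 : (r + 2) * P.natDegree = (r + 1) * P.natDegree + P.natDegree := by ring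
      omega
    have h1 : (((Irn K n).filter (fun p => (Squarefree (p + H) ∧
            Multiset.card (factors (p + H)) ≤ r ∧
              ∀ P : K[X], Irreducible P → P ∣ p + H → n ≤ (r + 1) * P.natDegree) ∧
                mob (p + H) = σ)).card : ℝ) ≤ (Sp K h n m).card := by
      exact_mod_cast Finset.card_le_card hsub
    refine h1.trans ?_
    have h2 : ((Sp K h n m).card : ℝ) ≤ 5 / 4 * (vp m h * q ^ n / n) := by linarith [e2.2]
    refine h2.trans ?_
    have h3 : vp m h * q ^ n / n ≤ C₀ * E / m * q ^ n / n :=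
      div_le_div_of_nonneg_right (mul_le_mul_of_nonneg_right hv2 (by positivity)) hnpos.le
    have h4 : C₀ * E / m * q ^ n / n ≤ C₀ * E * (2 * (r + 2)) / n * q ^ n / n := by
      refine div_le_div_of_nonneg_right (mul_le_mul_of_nonneg_right ?_ (by positivity)) hnpos.le
      rw [div_le_div_iff₀ hmpos hnpos]
      have h5 : (n : ℝ) ≤ 2 * (r + 2) * m := by exact_mod_cast hm5
      calc C₀ * E * n ≤ C₀ * E * (2 * (r + 2) * m) := mul_le_mul_of_nonneg_left h5 (by positivity)
        _ = C₀ * E * (2 * (r + 2)) * m := by ring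
    have h5 : 5 / 4 * C₀ * (2 * (r + 2)) * E * (q ^ n / (n : ℝ) ^ 2) =
        5 / 4 * (C₀ * E * (2 * (r + 2)) / n * q ^ n / n) := by
      field_simp
    rw [h5]
    linarith

end Pool.Agent.H985.CG
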