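import Mathlib
import Pool.Agent.H985.CG.Stm3
import Pool.Agent.H985.CG.Phi
import Pool.Agent.H985.CG.Vph
import Pool.Agent.H985.CG.Fin1

/-!
# The number of solutions of `a p - b f = c`, `p` prime, `f` without small prime factors
(task CG3-HCNT, helper981 for helper985)
-/

set_option autoImplicit false
set_option linter.unusedSectionVars false

namespace Pool.Agent.H985.CG

open Polynomial Finset
open scoped Classical
open Pool.Agent.H694.Typ (Mn Irn PU mem_Irn wt mem_PU)

namespace HcntH981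

variable {K : Type} [Field K] [Fintype K]

/-- the modulus -/
noncomputable def QH (a b : K[X]) : K[X] := nrm a * nrm b ^ 2

/-- the constant -/
noncomputable def ww (a b : K[X]) : K := (a.leadingCoeff)⁻¹ * ((b.leadingCoeff)⁻¹) ^ 2

theorem QH_eq (a b : K[X]) : QH a b = a * b ^ 2 * C (ww a b) := by
  unfold QH ww nrm
  rw [C_mul, C_pow]
  ring

theorem QH_monic {a b : K[X]} (ha : a ≠ 0) (hb : b ≠ 0) : (QH a b).Monic :=
  (nrm_monic ha).mul ((nrm_monic hb).pow 2)

theorem ww_ne {a b : K[X]} (ha : a ≠ 0) (hb : b ≠ 0) : ww a b ≠ 0 := by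
  unfold ww
  have h1 : a.leadingCoeff ≠ 0 := mt leadingCoeff_eq_zero.1 ha
  have h2 : b.leadingCoeff ≠ 0 := mt leadingCoeff_eq_zero.1 hb
  exact mul_ne_zero (inv_ne_zero h1) (pow_ne_zero _ (inv_ne_zero h2))

theorem QH_dvd {a b : K[X]} (ha : a ≠ 0) (hb : b ≠ 0) : QH a b ∣ a * b ^ 2 := by
  refine ⟨C (ww a b)⁻¹, ?_⟩
  rw [QH_eq, mul_assoc, ← C_mul, mul_inv_cancel₀ (ww_ne ha hb), C_1, mul_one]

theorem a_dvd (a b : K[X]) : a ∣ QH a b := by
  rw [QH_eq, mul_assoc]
  exact dvd_mul_right _ _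

theorem b_dvd (a b : K[X]) : b ∣ QH a b := by
  refine ⟨a * b * C (ww a b), ?_⟩
  rw [QH_eq]
  ring

theorem irr_dvd {a b P : K[X]} (ha : a ≠ 0) (hb : b ≠ 0) (hP : Irreducible P) :
    P ∣ QH a b ↔ P ∣ a ∨ P ∣ b := by
  constructor
  · intro h
    rcases hP.prime.dvd_or_dvd (h.trans (QH_dvd ha hb)) with h | h
    · exact Or.inl h
    · exact Or.inr (hP.prime.dvd_of_dvd_pow h)
  · rintro (h | h)
    · exact h.trans (a_dvd a b)
    · exact h.trans (b_dvd a b)

theorem deg_QH {a b : K[X]} (ha : a ≠ 0) (hb : b ≠ 0) :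
    (QH a b).natDegree = (a * b).natDegree + b.natDegree := by
  unfold QH
  rw [(nrm_monic ha).natDegree_mul ((nrm_monic hb).pow 2), (nrm_monic hb).natDegree_pow, nrm_deg,
    nrm_deg, natDegree_mul ha hb]
  ring

theorem phi_QH {a b : K[X]} (ha : a ≠ 0) (hb : b ≠ 0) :
    (phiQ (QH a b) : ℝ) = (phiQ (a * b) : ℝ) * (Fintype.card K : ℝ) ^ b.natDegree := by
  have hQ := (QH_monic ha hb).ne_zero
  have hH : a * b ≠ 0 := mul_ne_zero ha hb
  rw [VphH23.phiQ_eq hQ, VphH23.phiQ_eq hH, deg_QH ha hb, pow_add]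
  have e : VphH23.PF (QH a b) = VphH23.PF (a * b) := by
    ext P
    rw [VphH23.mem_PF hQ, VphH23.mem_PF hH]
    refine and_congr_right fun _ => and_congr_right fun hP => ?_
    rw [irr_dvd ha hb hP, hP.prime.dvd_mul]
  rw [e]
  ring

theorem Rd_pos {H : K[X]} (hH : H ≠ 0) : 0 < (PhiG.Rd H).card := by
  refine card_pos.2 ⟨1 % H, ?_⟩
  rw [PhiG.mem_Rd]
  refine ⟨degree_mod_lt 1 hH, ?_⟩
  have h1 : (1 : K[X]) % H = 1 + H * (-(1 / H)) := by
    have := EuclideanDomain.div_add_mod (1 : K[X]) H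
    linear_combination this
  rw [h1]
  exact isCoprime_one_left.add_mul_left_left _

/-- the constant term of the form -/
noncomputable def bc (a c : K[X]) : K[X] := -c * C (a.leadingCoeff)⁻¹

section key

variable {a b c u v : K[X]}

theorem red_cop (hab : IsCoprime a b) (hbc : IsCoprime b c) (ha : a ≠ 0) (hb : b ≠ 0)
    (huv : u * a ^ 2 + v * b ^ 2 = 1) {σ : K[X]} (hσ : IsCoprime σ (a * b)) :
    IsCoprime (c * u * a + b * σ) (QH a b) := by
  have h1 : IsCoprime (c * u * a + b * σ) a := by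
    have h2 : IsCoprime (b * σ) a := hab.symm.mul_left hσ.of_mul_right_left
    have h3 := h2.add_mul_left_left (c * u)
    have e : b * σ + a * (c * u) = c * u * a + b * σ := by ring
    rwa [e] at h3
  have h2 : IsCoprime (c * u * a + b * σ) b := by
    have h3 : IsCoprime u b := ⟨a ^ 2, v * b, by linear_combination huv⟩
    exact ((hbc.symm.mul_left h3).mul_left hab).add_mul_left_left σ
  exact (h1.mul_right h2.pow_right).of_isCoprime_of_dvd_right (QH_dvd ha hb)

theorem key (hab : IsCoprime a b) (hac : IsCoprime a c) (ha : a ≠ 0) (hb : b ≠ 0)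
    (huv : u * a ^ 2 + v * b ^ 2 = 1) {n m : ℕ} (hn : (QH a b).natDegree < n)
    (hm : b.natDegree < m) {p : K[X]} (hp : p ∈ Irn K n) :
    (∃ f : K[X], a * p - b * f = c ∧ ∀ P : K[X], P.Monic → Irreducible P → P ∣ f →
      m < P.natDegree) ↔
    ∃ σ ∈ PhiG.Rd (a * b), QH a b ∣ p - (c * u * a + b * σ) ∧
      Sig (QH a b) (fun _ : Fin 1 => nrm a) (fun _ => bc a c) m p := by
  have hH : a * b ≠ 0 := mul_ne_zero ha hb
  have hlin : nrm a * p + bc a c = C (a.leadingCoeff)⁻¹ * (a * p - c) := by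
    unfold nrm bc
    ring
  constructor
  · rintro ⟨f, h1, hr⟩
    have hpQ := PhiG.cop (QH_monic ha hb) hn hp
    have hfb : IsCoprime f b := by
      refine isCoprime_of_irreducible_dvd (fun h0 => hb h0.2) fun z hz hzf hzb => ?_
      have hnz : normalize z ∣ z := (normalize_associated z).dvd
      have h2 := hr (normalize z) (monic_normalize hz.ne_zero)
        ((normalize_associated z).symm.irreducible hz) (hnz.trans hzf)
      have h3 := natDegree_le_of_dvd (hnz.trans hzb) hb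
      omega
    have h2 : b ∣ a * (p - c * u * a) := ⟨f + c * v * b, by
      linear_combination h1 - c * huv⟩
    obtain ⟨τ, hτ⟩ := hab.symm.dvd_of_dvd_mul_left h2
    have h3 : a * τ = f + b * (c * v) := by
      apply mul_left_cancel₀ hb
      linear_combination (-a) * hτ + h1 - c * huv
    have h4 : IsCoprime τ b := by
      have h5 := hfb.add_mul_left_left (c * v)
      rw [← h3] at h5
      exact h5.of_mul_left_right
    have h5 : IsCoprime τ a := by
      have h6 : IsCoprime p a := hpQ.of_isCoprime_of_dvd_right (a_dvd a b)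
      have h7 := h6.add_mul_left_left (-(c * u))
      have e : p + a * (-(c * u)) = b * τ := by linear_combination hτ
      rw [e] at h7
      exact h7.of_mul_left_right
    have h6 : IsCoprime τ (a * b) := h5.mul_right h4
    have h7 : τ % (a * b) = τ + (a * b) * (-(τ / (a * b))) := by
      have := EuclideanDomain.div_add_mod τ (a * b)
      linear_combination this
    refine ⟨τ % (a * b), ?_, ?_, ?_⟩
    · rw [PhiG.mem_Rd]
      refine ⟨degree_mod_lt τ hH, ?_⟩
      rw [h7]
      exact h6.add_mul_left_left _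
    · refine (QH_dvd ha hb).trans ⟨τ / (a * b), ?_⟩
      rw [h7]
      linear_combination hτ
    · intro i P hPm hPi hd hnQ
      have hd' : P ∣ C (a.leadingCoeff)⁻¹ * (b * f) := by
        have e : b * f = a * p - c := by linear_combination (-1 : K[X]) * h1
        rw [e, ← hlin]
        exact hd
      rcases hPi.prime.dvd_or_dvd hd' with h | h
      · exact absurd (isUnit_of_dvd_unit h (nrm_unit ha)) hPi.not_isUnit
      · rcases hPi.prime.dvd_or_dvd h with h | h
        · exact absurd (h.trans (b_dvd a b)) hnQ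
        · exact hr P hPm hPi h
  · rintro ⟨σ, hσ, ⟨t, ht⟩, hS⟩
    rw [PhiG.mem_Rd] at hσ
    have hσ2 := hσ.2
    rw [QH_eq] at ht
    set τ := σ + (a * b) * (C (ww a b) * t) with hτ
    have h6 : IsCoprime τ (a * b) := hσ2.add_mul_left_left _
    have hfb : IsCoprime (a * τ + b * (-(c * v))) b :=
      (hab.mul_left h6.of_mul_right_right).add_mul_left_left _
    have hf : a * p - b * (a * τ + b * (-(c * v))) = c := by
      rw [hτ]
      linear_combination a * ht + c * huv
    refine ⟨a * τ + b * (-(c * v)), hf, ?_⟩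
    intro P hPm hPi hPf
    by_cases hPQ : P ∣ QH a b
    · exfalso
      rcases (irr_dvd ha hb hPi).1 hPQ with h | h
      · have h8 : P ∣ c := by
          rw [← hf]
          exact dvd_sub (h.mul_right _) (hPf.mul_left _)
        exact hPi.not_isUnit (hac.isUnit_of_dvd' h h8)
      · exact hPi.not_isUnit (hfb.isUnit_of_dvd' hPf h)
    · refine hS 0 P hPm hPi ?_ hPQ
      have e : a * p - c = b * (a * τ + b * (-(c * v))) := by linear_combination hf
      change P ∣ nrm a * p + bc a c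
      rw [hlin, e]
      exact (hPf.mul_left _).mul_left _

theorem disj (hb : b ≠ 0) {σ σ' r p : K[X]} (hσ : σ ∈ PhiG.Rd (a * b))
    (hσ' : σ' ∈ PhiG.Rd (a * b)) (h1 : QH a b ∣ p - (r + b * σ))
    (h2 : QH a b ∣ p - (r + b * σ')) : σ = σ' := by
  rw [PhiG.mem_Rd] at hσ hσ'
  have h3 : QH a b ∣ b * (σ - σ') := by
    have := dvd_sub h2 h1
    have e : p - (r + b * σ') - (p - (r + b * σ)) = b * (σ - σ') := by ring
    rwa [e] at this
  obtain ⟨t, ht⟩ := h3
  rw [QH_eq] at ht
  have h4 : σ - σ' = (a * b) * (C (ww a b) * t) := by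
    apply mul_left_cancel₀ hb
    linear_combination ht
  have h5 : (σ - σ').degree < (a * b).degree :=
    lt_of_le_of_lt (degree_sub_le _ _) (max_lt hσ.1 hσ'.1)
  exact sub_eq_zero.1 (eq_zero_of_dvd_of_degree_lt ⟨_, h4⟩ h5)

/-- the number of the solutions -/
theorem count (hab : IsCoprime a b) (hac : IsCoprime a c) (ha : a ≠ 0) (hb : b ≠ 0)
    (huv : u * a ^ 2 + v * b ^ 2 = 1) {n m : ℕ} (hn : (QH a b).natDegree < n)
    (hm : b.natDegree < m) :
    (SS a b c n m).ncard = ∑ σ ∈ PhiG.Rd (a * b), ((Irn K n).filter (fun p =>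
      QH a b ∣ p - (c * u * a + b * σ) ∧
      Sig (QH a b) (fun _ : Fin 1 => nrm a) (fun _ => bc a c) m p)).card := by
  have h1 : (SS a b c n m).ncard = (Prod.fst '' (SS a b c n m)).ncard := by
    symm
    refine Set.InjOn.ncard_image ?_
    rintro ⟨p, f⟩ hx ⟨p', f'⟩ hy hxy
    have e : p = p' := hxy
    subst e
    have h2 : a * p - b * f = c := hx.1.2.2.2
    have h3 : a * p - b * f' = c := hy.1.2.2.2
    have h4 : f = f' := by
      apply mul_left_cancel₀ hb
      linear_combination h3 - h2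
    rw [h4]
  have h2 : (Prod.fst '' (SS a b c n m)) = (((PhiG.Rd (a * b)).biUnion (fun σ =>
      (Irn K n).filter (fun p => QH a b ∣ p - (c * u * a + b * σ) ∧
      Sig (QH a b) (fun _ : Fin 1 => nrm a) (fun _ => bc a c) m p)) : Finset K[X]) :
        Set K[X]) := by
    ext p
    rw [Finset.mem_coe, mem_biUnion]
    constructor
    · rintro ⟨⟨p', f⟩, hx, rfl⟩
      have hp : p' ∈ Irn K n := mem_Irn.2 ⟨hx.1.1, hx.1.2.1, hx.1.2.2.1⟩
      obtain ⟨σ, hσ, h3⟩ := (key hab hac ha hb huv hn hm hp).1 ⟨f, hx.1.2.2.2, hx.2⟩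
      exact ⟨σ, hσ, mem_filter.2 ⟨hp, h3⟩⟩
    · rintro ⟨σ, hσ, h3⟩
      rw [mem_filter] at h3
      have hp := mem_Irn.1 h3.1
      obtain ⟨f, hf, hr⟩ := (key hab hac ha hb huv hn hm h3.1).2 ⟨σ, hσ, h3.2⟩
      exact ⟨(p, f), ⟨⟨hp.1, hp.2.1, hp.2.2, hf⟩, hr⟩, rfl⟩
  rw [h1, h2, Set.ncard_coe_finset, card_biUnion]
  intro σ hσ σ' hσ' hne
  rw [Function.onFun, disjoint_left]
  intro p hp hp'
  rw [mem_filter] at hp hp'
  exact hne (disj hb hσ hσ' hp.2.1 hp'.2.1)

theorem sing_eq (ha : a ≠ 0) (hb : b ≠ 0) (m : ℕ) :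
    sing (QH a b * bc a c) m = sing (a * b * c) m := by
  have e : {P : K[X] | P.Monic ∧ Irreducible P ∧ P.natDegree ≤ m ∧ ¬ P ∣ QH a b * bc a c} =
      {P : K[X] | P.Monic ∧ Irreducible P ∧ P.natDegree ≤ m ∧ ¬ P ∣ a * b * c} := by
    ext P
    refine and_congr_right fun _ => and_congr_right fun hP => and_congr_right fun _ => ?_
    refine not_congr ?_
    rw [hP.prime.dvd_mul, irr_dvd ha hb hP, hP.prime.dvd_mul, hP.prime.dvd_mul]
    refine or_congr Iff.rfl ?_
    unfold bc
    constructor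
    · intro h
      rcases hP.prime.dvd_or_dvd h with h | h
      · exact (dvd_neg).1 h
      · exact absurd (isUnit_of_dvd_unit h (nrm_unit ha)) hP.not_isUnit
    · intro h
      exact ((dvd_neg).2 h).mul_right _
  unfold sing
  rw [e]

end key

end HcntH981

open HcntH981 in
theorem hcnt : S_thcnt := by
  intro hc hsng K _ _ _ a b ha hb hab ε hε
  have hH : a * b ≠ 0 := mul_ne_zero ha hb
  have hQm := QH_monic ha hb
  have hSup : Sup (QH a b) (nrm a) := by
    intro P hP hd
    refine (irr_dvd ha hb hP).2 (Or.inl ?_)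
    unfold nrm at hd
    rcases hP.prime.dvd_or_dvd hd with h | h
    · exact h
    · exact absurd (isUnit_of_dvd_unit h (nrm_unit ha)) hP.not_isUnit
  have hSlo : Slo (QH a b) (fun _ : Fin 1 => nrm a) := fun _ => ⟨nrm_monic ha, hSup⟩
  have hR0 : (0 : ℝ) < (PhiG.Rd (a * b)).card := by exact_mod_cast Rd_pos hH
  obtain ⟨κ, hκ, n₀, hmain⟩ := hc K 1 (QH a b) (fun _ => nrm a) (ε / (PhiG.Rd (a * b)).card)
    hQm hSlo (div_pos hε hR0)
  refine ⟨κ, hκ, b.natDegree + 1, max n₀ ((QH a b).natDegree + 1), ?_⟩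
  intro n m hn hm hmn c hac hbc
  obtain ⟨u, v, huv⟩ : IsCoprime (a ^ 2) (b ^ 2) := hab.pow
  have hn1 : n₀ ≤ n := le_trans (le_max_left _ _) hn
  have hn2 : (QH a b).natDegree < n := lt_of_lt_of_le (Nat.lt_succ_self _)
    (le_trans (le_max_right _ _) hn)
  have hm1 : 1 ≤ m := by omega
  have hm2 : b.natDegree < m := by omega
  have hcount := count hab hac ha hb huv hn2 hm2
  have hvg : vg (QH a b) m (fun _ : Fin 1 => nrm a) (fun _ => bc a c) = sing (a * b * c) m := by
    rw [hsng K m (QH a b) (nrm a) (bc a c) hQm (nrm_monic ha) hSup, sing_eq ha hb]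
  have hmain' : ∀ σ ∈ PhiG.Rd (a * b), |(((Irn K n).filter (fun p =>
      QH a b ∣ p - (c * u * a + b * σ) ∧
      Sig (QH a b) (fun _ : Fin 1 => nrm a) (fun _ => bc a c) m p)).card : ℝ) -
      sing (a * b * c) m * (Fintype.card K : ℝ) ^ n / (n * (phiQ (QH a b) : ℝ))| ≤
      ε / (PhiG.Rd (a * b)).card * (sing (a * b * c) m * (Fintype.card K : ℝ) ^ n / n) := by
    intro σ hσ
    have := hmain n hn1 m (c * u * a + b * σ) (fun _ => bc a c) hm1 hmn
      (red_cop hab hbc ha hb huv (PhiG.mem_Rd.1 hσ).2)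
    rw [hvg] at this
    exact this
  have hphi : (phiQ (QH a b) : ℝ) =
      ((PhiG.Rd (a * b)).card : ℝ) * (Fintype.card K : ℝ) ^ b.natDegree := by
    rw [phi_QH ha hb, PhiG.card_Rd]
  have hq : (0 : ℝ) < (Fintype.card K : ℝ) ^ b.natDegree := by
    have := Fintype.card_pos (α := K)
    positivity
  have hn0 : (0 : ℝ) < n := by
    have : 0 < n := by omega
    exact_mod_cast this
  have e1 : sing (a * b * c) m * (Fintype.card K : ℝ) ^ n /
      (n * (Fintype.card K : ℝ) ^ b.natDegree) = ∑ _σ ∈ PhiG.Rd (a * b),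
        sing (a * b * c) m * (Fintype.card K : ℝ) ^ n / (n * (phiQ (QH a b) : ℝ)) := by
    rw [sum_const, nsmul_eq_mul, hphi]
    field_simp
  have e2 : ε * (sing (a * b * c) m * (Fintype.card K : ℝ) ^ n / n) = ∑ _σ ∈ PhiG.Rd (a * b),
      ε / (PhiG.Rd (a * b)).card * (sing (a * b * c) m * (Fintype.card K : ℝ) ^ n / n) := by
    rw [sum_const, nsmul_eq_mul]
    field_simp
  rw [hcount, e1, e2, Nat.cast_sum, ← sum_sub_distrib]
  exact (abs_sum_le_sum_abs _ _).trans (sum_le_sum hmain')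

end Pool.Agent.H985.CG
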