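import Mathlib
import Pool.Agent.H985.CG.Stm3

/-!
# One prime and one almost prime over `F_q[X]`: the singular product for one form (task SNG)
-/

namespace Pool.Agent.H985.CG

open Polynomial Finset
open scoped Classical
open Pool.Agent.H694.Typ (Mn Irn PU mem_PU)

namespace Sng

variable {K : Type} [Field K]

theorem nug_zero {P s b : K[X]} (hP : Irreducible P) (hs : ¬ P ∣ s) (hb : P ∣ b) :
    nug (fun _ : Fin 1 => s) (fun _ => b) P = 0 := by
  have h : {r : K[X] | r.degree < P.degree ∧ r ≠ 0 ∧ ∃ _i : Fin 1, P ∣ s * r + b} = ∅ := by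
    ext r
    simp only [Set.mem_setOf_eq, Set.mem_empty_iff_false, iff_false]
    rintro ⟨h1, h2, _, h3⟩
    have h4 : P ∣ s * r := (dvd_add_left hb).mp h3
    exact h2 (Polynomial.eq_zero_of_dvd_of_degree_lt ((hP.prime.dvd_or_dvd h4).resolve_left hs) h1)
  show (({r : K[X] | r.degree < P.degree ∧ r ≠ 0 ∧ ∃ _i : Fin 1, P ∣ s * r + b}.ncard : ℕ) : ℝ) = 0
  rw [h, Set.ncard_empty, Nat.cast_zero]

theorem nug_one {P s b : K[X]} (hP : Irreducible P) (hs : ¬ P ∣ s) (hb : ¬ P ∣ b) :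
    nug (fun _ : Fin 1 => s) (fun _ => b) P = 1 := by
  obtain ⟨u, v, huv⟩ : IsCoprime s P := ((hP.coprime_iff_not_dvd).mpr hs).symm
  have hr0 : P ∣ s * ((-(u * b)) % P) + b := by
    have h1 := EuclideanDomain.mod_add_div (-(u * b)) P
    refine ⟨v * b - s * ((-(u * b)) / P), ?_⟩
    linear_combination s * h1 - b * huv
  have hd : ((-(u * b)) % P).degree < P.degree := Polynomial.degree_mod_lt _ hP.ne_zero
  have h : {r : K[X] | r.degree < P.degree ∧ r ≠ 0 ∧ ∃ _i : Fin 1, P ∣ s * r + b} =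
      {(-(u * b)) % P} := by
    ext r
    simp only [Set.mem_setOf_eq, Set.mem_singleton_iff]
    constructor
    · rintro ⟨h1, h2, _, h3⟩
      have h4 : P ∣ s * (r - (-(u * b)) % P) := by
        have := dvd_sub h3 hr0
        rwa [show s * r + b - (s * ((-(u * b)) % P) + b) = s * (r - (-(u * b)) % P) by ring]
          at this
      have h5 := (hP.prime.dvd_or_dvd h4).resolve_left hs
      have h6 : (r - (-(u * b)) % P).degree < P.degree :=
        lt_of_le_of_lt (Polynomial.degree_sub_le _ _) (max_lt h1 hd)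
      exact sub_eq_zero.mp (Polynomial.eq_zero_of_dvd_of_degree_lt h5 h6)
    · rintro rfl
      refine ⟨hd, ?_, 0, hr0⟩
      intro h0
      rw [h0, mul_zero, zero_add] at hr0
      exact hb hr0
  show (({r : K[X] | r.degree < P.degree ∧ r ≠ 0 ∧ ∃ _i : Fin 1, P ∣ s * r + b}.ncard : ℕ) : ℝ) = 1
  rw [h, Set.ncard_singleton, Nat.cast_one]

end Sng

open Sng in
/-- **Task SNG.** -/
theorem sng : S_sng := by
  intro K _ _ m Q s b _ _ hsup
  have hset : {P : K[X] | P.Monic ∧ Irreducible P ∧ P.natDegree ≤ m ∧ ¬ P ∣ Q * b} =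
      (((PU K m).filter (fun P => ¬ P ∣ Q * b) : Finset K[X]) : Set K[X]) := by
    ext P
    simp only [Set.mem_setOf_eq, Finset.coe_filter, mem_PU, and_assoc]
  have hns : ∀ P ∈ PU K m, ¬ P ∣ Q → ¬ P ∣ s := fun P hP h h' =>
    h (hsup P (mem_PU.mp hP).2.1 h')
  unfold sing vg
  rw [hset, finprod_mem_coe_finset]
  have e : ∀ P ∈ (PU K m).filter (fun P => ¬ P ∣ Q * b),
      (1 - 1 / ((Fintype.card K : ℝ) ^ P.natDegree - 1)) =
        1 - nug (fun _ : Fin 1 => s) (fun _ => b) P / ((Fintype.card K : ℝ) ^ P.natDegree - 1) := by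
    intro P hP
    rw [Finset.mem_filter] at hP
    have h1 : ¬ P ∣ Q := fun h => hP.2 (Dvd.dvd.mul_right h b)
    have h2 : ¬ P ∣ b := fun h => hP.2 (Dvd.dvd.mul_left h Q)
    rw [nug_one (mem_PU.mp hP.1).2.1 (hns P hP.1 h1) h2]
  rw [Finset.prod_congr rfl e]
  symm
  apply Finset.prod_subset
  · intro P hP
    rw [Finset.mem_filter] at hP ⊢
    exact ⟨hP.1, fun h => hP.2 (Dvd.dvd.mul_right h b)⟩
  · intro P hP hP'
    rw [Finset.mem_filter] at hP hP'
    have h1 : P ∣ Q * b := by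
      by_contra hn
      exact hP' ⟨hP.1, hn⟩
    have h2 : P ∣ b := ((mem_PU.mp hP.1).2.1.prime.dvd_or_dvd h1).resolve_left hP.2
    rw [nug_zero (mem_PU.mp hP.1).2.1 (hns P hP.1 hP.2) h2, zero_div, sub_zero]

end Pool.Agent.H985.CG
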